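import Pool.Agent.Lib.MP_247ac7.GapAE

/-! # General test functions; the singular part of `t ↦ μ_t(φ)` -/

open MeasureTheory Filter Topology Metric Set
open scoped RealInnerProductSpace ContDiff ENNReal

namespace MP247

variable {E : Type*} [NormedAddCommGroup E] [InnerProductSpace ℝ E] [MeasurableSpace E]
  [BorelSpace E] [FiniteDimensional ℝ E] {μ : ℝ → Measure E} {ν : ℝ → E → E}

omit [MeasurableSpace E] [BorelSpace E] [FiniteDimensional ℝ E] in
theorem taylor_aux {φ : E → ℝ} (hφ : Differentiable ℝ φ) {L : ℝ} (hL0 : 0 ≤ L)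
    (hlip : ∀ y z : E, ‖fderiv ℝ φ y - fderiv ℝ φ z‖ ≤ L * ‖y - z‖) (x w : E) :
    φ (x + w) - φ x - fderiv ℝ φ x w ≤ L * ‖w‖ ^ 2 := by
  have h1 : ∀ y ∈ segment ℝ x (x + w), ‖fderiv ℝ φ y - fderiv ℝ φ x‖ ≤ L * ‖w‖ := by
    intro y hy
    refine (hlip y x).trans (mul_le_mul_of_nonneg_left ?_ hL0)
    rw [segment_eq_image_lineMap] at hy
    obtain ⟨θ, hθ, rfl⟩ := hy
    rw [AffineMap.lineMap_apply]
    simp only [vsub_eq_sub, add_sub_cancel_left, vadd_eq_add, add_sub_cancel_right]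
    rw [norm_smul, Real.norm_of_nonneg hθ.1]
    exact mul_le_of_le_one_left (norm_nonneg _) hθ.2
  have h2 := (convex_segment x (x + w)).norm_image_sub_le_of_norm_hasFDerivWithin_le'
    (f := φ) (f' := fderiv ℝ φ) (φ := fderiv ℝ φ x) (C := L * ‖w‖)
    (fun y _ => (hφ y).hasFDerivAt.hasFDerivWithinAt)
    h1 (left_mem_segment ℝ x (x + w)) (right_mem_segment ℝ x (x + w))
  rw [add_sub_cancel_left, Real.norm_eq_abs] at h2
  have := (abs_le.1 h2).2
  nlinarith

omit [MeasurableSpace E] [BorelSpace E] [FiniteDimensional ℝ E] in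
theorem grad_aux {φ : E → ℝ} (hφ : Differentiable ℝ φ) (h0 : ∀ x, 0 ≤ φ x) {L : ℝ} (hL0 : 0 ≤ L)
    (hlip : ∀ y z : E, ‖fderiv ℝ φ y - fderiv ℝ φ z‖ ≤ L * ‖y - z‖) (x v : E) :
    (fderiv ℝ φ x v) ^ 2 ≤ 4 * L * ‖v‖ ^ 2 * φ x := by
  have hq : ∀ s : ℝ, 0 ≤ (L * ‖v‖ ^ 2) * (s * s) + (fderiv ℝ φ x v) * s + φ x := by
    intro s
    have h1 := taylor_aux hφ hL0 hlip x (s • v)
    have h2 := h0 (x + s • v)
    rw [map_smul, norm_smul, smul_eq_mul, Real.norm_eq_abs, mul_pow, sq_abs] at h1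
    nlinarith
  have hdis := discrim_le_zero hq
  unfold discrim at hdis
  nlinarith

omit [MeasurableSpace E] [BorelSpace E] [FiniteDimensional ℝ E] in
/-- `|Dφ(v)|² ≤ 4 L |v|² φ` for nonnegative `C²` functions with compact support -/
theorem exists_grad_bound {φ : E → ℝ} (hφ : Test φ) :
    ∃ L : ℝ, 0 ≤ L ∧ ∀ x v : E, (fderiv ℝ φ x v) ^ 2 ≤ 4 * L * ‖v‖ ^ 2 * φ x := by
  have hd1 : ContDiff ℝ 1 (fderiv ℝ φ) := hφ.smooth.fderiv_right (by norm_num)
  have hcs : HasCompactSupport (fderiv ℝ φ) := hφ.compact.fderiv ℝ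
  obtain ⟨L, hL⟩ := ContDiff.lipschitzWith_of_hasCompactSupport hcs hd1 one_ne_zero
  refine ⟨L, L.2, fun x v => grad_aux (hφ.smooth.differentiable (by norm_num)) hφ.nonneg L.2
    (fun y z => ?_) x v⟩
  have := hL.dist_le_mul y z
  rw [dist_eq_norm, dist_eq_norm] at this
  exact this

/-- Brakke's right side is bounded above on bounded time intervals -/
theorem exists_brakke_bound (hB : LocMass μ) {φ : E → ℝ} (hφ : Test φ) (T : ℝ) :
    ∃ c : ℝ, 0 ≤ c ∧ ∀ t, 0 ≤ t → t ≤ T → brakkeB (μ t) (ν t) φ ≤ (c : EReal) := by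
  obtain ⟨L, hL0, hL⟩ := exists_grad_bound hφ
  obtain ⟨A, hA⟩ := hφ.compact.isBounded.subset_closedBall (0:E)
  obtain ⟨M, hM0, hM⟩ := exists_mass_bound hB (0:E) (r := |A| + 1) (by positivity) T
  have hsub : tsupport φ ⊆ closedBall (0:E) (2 * (|A| + 1)) :=
    hA.trans (closedBall_subset_closedBall (by have := le_abs_self A; have := abs_nonneg A; linarith))
  refine ⟨L * M, by positivity, fun t h0 h1 => iSup₂_le fun H _ => ?_⟩
  have hfin : μ t (closedBall (0:E) (2 * (|A| + 1))) ≠ ⊤ :=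
    (lt_of_le_of_lt (hM t h0 h1) ENNReal.ofReal_lt_top).ne
  have hpt : ∀ y, -(φ y * ‖H y‖ ^ 2) + fderiv ℝ φ y (H y) ≤
      (closedBall (0:E) (2 * (|A| + 1))).indicator (fun _ => L) y := by
    intro y
    by_cases hy : y ∈ closedBall (0:E) (2 * (|A| + 1))
    · rw [indicator_of_mem hy]
      have h2 := hL y (H y)
      have h3 := hφ.nonneg y
      have h4 : fderiv ℝ φ y (H y) ≤ φ y * ‖H y‖ ^ 2 + L := by
        apply le_of_abs_le
        apply abs_le_of_sq_le_sq' _ (by positivity) |> fun h => abs_le.2 h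
        nlinarith [sq_nonneg (φ y * ‖H y‖ ^ 2 - L)]
      linarith
    · rw [indicator_of_notMem hy]
      have h0 : y ∉ tsupport φ := fun h => hy (hsub h)
      have h1 : φ y = 0 := image_eq_zero_of_notMem_tsupport h0
      have h2 : fderiv ℝ φ y = 0 := by
        have h3 : φ =ᶠ[𝓝 y] 0 := notMem_tsupport_iff_eventuallyEq.1 h0
        rw [h3.fderiv_eq]; simp
      simp [h1, h2]
  have hint : Integrable ((closedBall (0:E) (2 * (|A| + 1))).indicator (fun _ => L)) (μ t) := by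
    rw [integrable_indicator_iff measurableSet_closedBall]
    exact integrableOn_const hfin
  have h4 : rhs (μ t) φ H ≤
      ∫ y, (closedBall (0:E) (2 * (|A| + 1))).indicator (fun _ => L) y ∂(μ t) := by
    unfold rhs
    by_cases hi : Integrable (fun y => -(φ y * ‖H y‖ ^ 2) + fderiv ℝ φ y (H y)) (μ t)
    · exact integral_mono hi hint hpt
    · rw [integral_undef hi]
      exact integral_nonneg fun y => indicator_nonneg (fun _ _ => hL0) y
  rw [integral_indicator measurableSet_closedBall, setIntegral_const, smul_eq_mul, mul_comm] at h4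
  have h5 : (μ t).real (closedBall (0:E) (2 * (|A| + 1))) ≤ M := by
    have := ENNReal.toReal_mono ENNReal.ofReal_ne_top (hM t h0 h1)
    rwa [ENNReal.toReal_ofReal hM0] at this
  exact_mod_cast h4.trans (mul_le_mul_of_nonneg_left h5 hL0)

theorem exists_mono_test (hF : IsBrakkeFlow μ ν) (hB : LocMass μ) {φ : E → ℝ}
    (hφ : Test φ) (T : ℝ) :
    ∃ c : ℝ, MonotoneOn (fun t => c * t - mass μ φ t) (Icc 0 T) := by
  obtain ⟨c, hc0, hc⟩ := exists_brakke_bound (ν := ν) hB hφ T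
  refine ⟨c, ?_⟩
  intro s hs t ht hst
  have := sub_le_of_upperDeriv (f := mass μ φ) le_rfl (C := c)
    (fun u hu => (hF.ineq u hu.1 φ hφ).trans (hc u hu.1 hu.2)) s hs t ht hst
  simp only
  linarith [mul_sub c t s]

theorem ae_diff_test (hF : IsBrakkeFlow μ ν) (hB : LocMass μ) {φ : E → ℝ}
    (hφ : Test φ) : ∀ᵐ t : ℝ, 0 < t → DifferentiableAt ℝ (mass μ φ) t := by
  have h : ∀ T : ℕ, ∀ᵐ t : ℝ, t ∈ Ioo (0:ℝ) T → DifferentiableAt ℝ (mass μ φ) t := by
    intro T
    obtain ⟨c, hm⟩ := exists_mono_test hF hB hφ (T:ℝ)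
    filter_upwards [hm.ae_differentiableWithinAt_of_mem] with t ht htI
    have h1 := (ht ⟨htI.1.le, htI.2.le⟩).differentiableAt (Icc_mem_nhds htI.1 htI.2)
    have h2 : DifferentiableAt ℝ (fun t => c * t - (c * t - mass μ φ t)) t :=
      ((differentiableAt_id).const_mul _).sub h1
    simpa using h2
  have h' := ae_all_iff.2 h
  filter_upwards [h'] with t ht h0
  obtain ⟨n, hn⟩ := exists_nat_gt t
  exact ht n ⟨h0, hn⟩

/-- integrability of the derivative and `f t - f s ≤ ∫ f'` -/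
theorem deriv_test (hF : IsBrakkeFlow μ ν) (hB : LocMass μ) {φ : E → ℝ}
    (hφ : Test φ) {s t : ℝ} (hs : 0 ≤ s) (hst : s ≤ t) :
    IntervalIntegrable (deriv (mass μ φ)) volume s t ∧
      mass μ φ t - mass μ φ s ≤ ∫ τ in s..t, deriv (mass μ φ) τ := by
  obtain ⟨c, hm⟩ := exists_mono_test hF hB hφ t
  have hm' : MonotoneOn (fun t => c * t - mass μ φ t) (uIcc s t) := by
    rw [uIcc_of_le hst]; exact hm.mono (Icc_subset_Icc hs le_rfl)
  have hi := hm'.intervalIntegrable_deriv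
  have hle := hm'.intervalIntegral_deriv_mem_uIcc
  have hnn : 0 ≤ (fun t => c * t - mass μ φ t) t - (fun t => c * t - mass μ φ t) s :=
    sub_nonneg.2 (hm' left_mem_uIcc right_mem_uIcc hst)
  rw [uIcc_of_le hnn] at hle
  have hae : ∀ᵐ τ ∂(volume.restrict (uIoc s t)),
      c - deriv (fun t => c * t - mass μ φ t) τ = deriv (mass μ φ) τ := by
    rw [ae_restrict_iff' measurableSet_uIoc]
    filter_upwards [ae_diff_test hF hB hφ] with τ hτ hτI
    rw [uIoc_of_le hst] at hτI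
    have hd := (hτ (lt_of_le_of_lt hs hτI.1)).hasDerivAt
    have hd2 : HasDerivAt (fun t => c * t - mass μ φ t) (c * 1 - deriv (mass μ φ) τ) τ :=
      ((hasDerivAt_id τ).const_mul c).sub hd
    rw [hd2.deriv]; ring
  have hi2 : IntervalIntegrable (fun τ => c - deriv (fun t => c * t - mass μ φ t) τ) volume s t :=
    intervalIntegrable_const.sub hi
  refine ⟨hi2.congr_ae hae, ?_⟩
  have h1 : ∫ τ in s..t, deriv (mass μ φ) τ =
      ∫ τ in s..t, (c - deriv (fun t => c * t - mass μ φ t) τ) := by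
    apply intervalIntegral.integral_congr_ae_restrict
    filter_upwards [hae] with τ hτ using hτ.symm
  rw [h1, intervalIntegral.integral_sub intervalIntegrable_const hi,
    intervalIntegral.integral_const, smul_eq_mul]
  have := hle.2
  simp only at this
  linarith [mul_comm c t, mul_comm c s, sub_mul t s c]

/-- minus the singular part of `t ↦ μ_t(φ)` (up to a constant) -/
noncomputable def sing (μ : ℝ → Measure E) (φ : E → ℝ) (t : ℝ) : ℝ :=
  (∫ τ in (0:ℝ)..t, deriv (mass μ φ) τ) - mass μ φ t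

theorem sing_sub (hF : IsBrakkeFlow μ ν) (hB : LocMass μ) {φ : E → ℝ}
    (hφ : Test φ) {s t : ℝ} (hs : 0 ≤ s) (hst : s ≤ t) :
    sing μ φ t - sing μ φ s =
      (∫ τ in s..t, deriv (mass μ φ) τ) - (mass μ φ t - mass μ φ s) := by
  unfold sing
  have h1 := (deriv_test hF hB hφ le_rfl hs).1
  have h2 := (deriv_test hF hB hφ hs hst).1
  rw [← intervalIntegral.integral_add_adjacent_intervals h1 h2]
  ring

theorem sing_mono (hF : IsBrakkeFlow μ ν) (hB : LocMass μ) {φ : E → ℝ}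
    (hφ : Test φ) {s t : ℝ} (hs : 0 ≤ s) (hst : s ≤ t) : sing μ φ s ≤ sing μ φ t := by
  have h1 := sing_sub hF hB hφ hs hst
  have h2 := (deriv_test hF hB hφ hs hst).2
  linarith

theorem mass_add (hF : IsBrakkeFlow μ ν) {φ ψ : E → ℝ} (hφ : Test φ) (hψ : Test ψ) {t : ℝ}
    (ht : 0 ≤ t) : mass μ (fun x => φ x + ψ x) t = mass μ φ t + mass μ ψ t := by
  haveI := hF.finite t ht
  unfold mass
  exact integral_add (integrable_of_flow this hφ.smooth.continuous hφ.compact)
    (integrable_of_flow this hψ.smooth.continuous hψ.compact)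

theorem sing_add (hF : IsBrakkeFlow μ ν) (hB : LocMass μ) {φ ψ : E → ℝ}
    (hφ : Test φ) (hψ : Test ψ) {t : ℝ} (ht : 0 ≤ t) :
    sing μ (fun x => φ x + ψ x) t = sing μ φ t + sing μ ψ t := by
  unfold sing
  rw [mass_add hF hφ hψ ht]
  have h1 : ∫ τ in (0:ℝ)..t, deriv (mass μ (fun x => φ x + ψ x)) τ =
      ∫ τ in (0:ℝ)..t, (deriv (mass μ φ) τ + deriv (mass μ ψ) τ) := by
    apply intervalIntegral.integral_congr_ae
    filter_upwards [ae_diff_test hF hB hφ, ae_diff_test hF hB hψ] with τ h1 h2 hτ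
    rw [uIoc_of_le ht] at hτ
    have h3 := ((h1 hτ.1).hasDerivAt).add ((h2 hτ.1).hasDerivAt)
    have h4 : mass μ (fun x => φ x + ψ x) =ᶠ[𝓝 τ] (mass μ φ + mass μ ψ) := by
      filter_upwards [Ioi_mem_nhds hτ.1] with s hs
      exact mass_add hF hφ hψ (le_of_lt hs)
    exact (h3.congr_of_eventuallyEq h4).deriv
  rw [h1, intervalIntegral.integral_add (deriv_test hF hB hφ le_rfl ht).1
    (deriv_test hF hB hψ le_rfl ht).1]
  ring

omit [InnerProductSpace ℝ E] [BorelSpace E] [FiniteDimensional ℝ E] in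
theorem mass_const_mul (c : ℝ) (φ : E → ℝ) :
    mass μ (fun x => c * φ x) = fun t => c * mass μ φ t := by
  funext t
  unfold mass
  rw [integral_const_mul]

omit [InnerProductSpace ℝ E] [BorelSpace E] [FiniteDimensional ℝ E] in
theorem sing_const_mul [NormedSpace ℝ E] (c : ℝ) (φ : E → ℝ) (t : ℝ) :
    sing μ (fun x => c * φ x) t = c * sing μ φ t := by
  unfold sing
  rw [mass_const_mul]
  have : deriv (fun t => c * mass μ φ t) = fun t => c * deriv (mass μ φ) t := by
    funext t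
    exact deriv_const_mul_field c
  rw [this, intervalIntegral.integral_const_mul]
  ring

theorem Test.add' {φ ψ : E → ℝ} (hφ : Test φ) (hψ : Test ψ) : Test (fun x => φ x + ψ x) :=
  ⟨hφ.smooth.add hψ.smooth, hφ.compact.add hψ.compact, fun x => add_nonneg (hφ.nonneg x) (hψ.nonneg x)⟩

theorem sing_dom (hF : IsBrakkeFlow μ ν) (hB : LocMass μ) {φ θ : E → ℝ}
    (hφ : Test φ) (hθ : Test θ) (hle : ∀ x, φ x ≤ θ x) {s t : ℝ} (hs : 0 ≤ s) (hst : s ≤ t) :
    sing μ φ t - sing μ φ s ≤ sing μ θ t - sing μ θ s := by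
  have hd : D2 univ (fun x => θ x - φ x) := (hθ.d2 (subset_univ _)).sub (hφ.d2 (subset_univ _))
  have ht : Test (fun x => θ x - φ x) := ⟨hd.smooth, hd.compact, fun x => sub_nonneg.2 (hle x)⟩
  have h1 := sing_add hF hB hφ ht (t := t) (hs.trans hst)
  have h2 := sing_add hF hB hφ ht (t := s) hs
  have h3 : (fun x => φ x + (θ x - φ x)) = θ := by funext x; ring
  rw [h3] at h1 h2
  have h4 := sing_mono hF hB ht hs hst
  linarith

theorem Test.zero : Test (fun _ : E => (0:ℝ)) :=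
  ⟨contDiff_const, HasCompactSupport.zero, fun _ => le_rfl⟩

theorem Test.sum {ι : Type*} (S : Finset ι) {φ : ι → E → ℝ} (h : ∀ i ∈ S, Test (φ i)) :
    Test (fun x => ∑ i ∈ S, φ i x) := by
  have hd := D2.sum (V := univ) S fun i hi => (h i hi).d2 (subset_univ _)
  exact ⟨hd.smooth, hd.compact, fun x => Finset.sum_nonneg fun i hi => (h i hi).nonneg x⟩

theorem sing_sum (hF : IsBrakkeFlow μ ν) (hB : LocMass μ) {ι : Type*}
    (S : Finset ι) {φ : ι → E → ℝ} (h : ∀ i ∈ S, Test (φ i)) {t : ℝ} (ht : 0 ≤ t) :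
    sing μ (fun x => ∑ i ∈ S, φ i x) t = ∑ i ∈ S, sing μ (φ i) t := by
  classical
  induction S using Finset.induction_on with
  | empty =>
    have h0 : mass μ (fun _ : E => (0:ℝ)) = fun _ => 0 := by
      funext t; simp [mass]
    simp [sing, h0]
  | insert a S ha ih =>
    simp only [Finset.sum_insert ha]
    rw [sing_add hF hB (h a (Finset.mem_insert_self _ _))
      (Test.sum S fun i hi => h i (Finset.mem_insert_of_mem hi)) ht,
      ih fun i hi => h i (Finset.mem_insert_of_mem hi)]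

end MP247
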