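import Pool.Agent.Lib.MP_247ac7.Times
import Pool.Agent.Lib.MP_247ac7.Sing

/-! # Barriers: radial test functions -/

open MeasureTheory Filter Topology Metric Set
open scoped RealInnerProductSpace ContDiff

namespace MP247

section real

/-- `(z_+)^k` -/
noncomputable def pp (k : ℕ) (z : ℝ) : ℝ := (max z 0) ^ k

theorem pp_nonneg (k : ℕ) (z : ℝ) : 0 ≤ pp k z := pow_nonneg (le_max_right _ _) _

theorem pp_of_nonpos {k : ℕ} (hk : k ≠ 0) {z : ℝ} (hz : z ≤ 0) : pp k z = 0 := by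
  unfold pp; rw [max_eq_right hz, zero_pow hk]

theorem pp_of_nonneg (k : ℕ) {z : ℝ} (hz : 0 ≤ z) : pp k z = z ^ k := by
  unfold pp; rw [max_eq_left hz]

theorem pp_pos {k : ℕ} {z : ℝ} (hz : 0 < z) : 0 < pp k z := by
  rw [pp_of_nonneg k hz.le]; positivity

theorem pp_mono (k : ℕ) {z w : ℝ} (h : z ≤ w) : pp k z ≤ pp k w :=
  pow_le_pow_left₀ (le_max_right _ _) (max_le_max_right _ h) _

theorem pp_continuous (k : ℕ) : Continuous (pp k) := by
  unfold pp; fun_prop

theorem hasDerivAt_pp {k : ℕ} (hk : 1 ≤ k) (z : ℝ) :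
    HasDerivAt (pp (k + 1)) (((k : ℝ) + 1) * pp k z) z := by
  rcases lt_trichotomy z 0 with h | h | h
  · have h1 : pp (k + 1) =ᶠ[𝓝 z] fun _ => 0 := by
      filter_upwards [Iio_mem_nhds h] with w hw
      exact pp_of_nonpos (by omega) (le_of_lt hw)
    rw [pp_of_nonpos (by omega) h.le, mul_zero]
    exact (hasDerivAt_const z (0:ℝ)).congr_of_eventuallyEq h1
  · subst h
    rw [pp_of_nonpos (by omega) le_rfl, mul_zero]
    have h1 : HasDerivWithinAt (pp (k + 1)) 0 (Ici 0) 0 := by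
      have h2 : HasDerivWithinAt (fun w : ℝ => w ^ (k + 1)) (((k + 1 : ℕ) : ℝ) * 0 ^ k) (Ici 0) 0 := by
        have := (hasDerivAt_pow (k + 1) (0:ℝ)).hasDerivWithinAt (s := Ici 0)
        simpa using this
      rw [zero_pow (by omega), mul_zero] at h2
      exact h2.congr (fun w hw => pp_of_nonneg _ hw) (pp_of_nonneg _ le_rfl)
    have h3 : HasDerivWithinAt (pp (k + 1)) 0 (Iic 0) 0 :=
      (hasDerivWithinAt_const (0:ℝ) (Iic 0) (0:ℝ)).congr
        (fun w hw => pp_of_nonpos (by omega) hw) (pp_of_nonpos (by omega) le_rfl)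
    have h4 := h1.union h3
    rw [Ici_union_Iic] at h4
    exact hasDerivWithinAt_univ.1 h4
  · have h1 : pp (k + 1) =ᶠ[𝓝 z] fun w => w ^ (k + 1) := by
      filter_upwards [Ioi_mem_nhds h] with w hw
      exact pp_of_nonneg _ (le_of_lt hw)
    rw [pp_of_nonneg _ h.le]
    have h2 := hasDerivAt_pow (k + 1) z
    simp only [Nat.add_sub_cancel] at h2
    push_cast at h2
    exact h2.congr_of_eventuallyEq h1

theorem deriv_pp {k : ℕ} (hk : 1 ≤ k) : deriv (pp (k + 1)) = fun z => ((k : ℝ) + 1) * pp k z := by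
  funext z; exact (hasDerivAt_pp hk z).deriv

theorem contDiff_pp2 : ContDiff ℝ 1 (pp 2) := by
  rw [contDiff_one_iff_deriv]
  refine ⟨fun z => (hasDerivAt_pp (k := 1) le_rfl z).differentiableAt, ?_⟩
  rw [show (2:ℕ) = 1 + 1 from rfl, deriv_pp le_rfl]
  exact continuous_const.mul (pp_continuous 1)

theorem contDiff_pp3 : ContDiff ℝ 2 (pp 3) := by
  rw [show (2 : ℕ∞ω) = 1 + 1 from by norm_num, contDiff_succ_iff_deriv]
  refine ⟨fun z => (hasDerivAt_pp (k := 2) (by norm_num) z).differentiableAt, by simp, ?_⟩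
  rw [show (3:ℕ) = 2 + 1 from rfl, deriv_pp (by norm_num)]
  exact contDiff_const.mul contDiff_pp2

theorem contDiff_pp4 : ContDiff ℝ 2 (pp 4) := by
  rw [show (2 : ℕ∞ω) = 1 + 1 from by norm_num, contDiff_succ_iff_deriv]
  refine ⟨fun z => (hasDerivAt_pp (k := 3) (by norm_num) z).differentiableAt, by simp, ?_⟩
  rw [show (4:ℕ) = 3 + 1 from rfl, deriv_pp (by norm_num)]
  exact contDiff_const.mul (contDiff_pp3.of_le (by norm_num))

/-- convexity inequalities -/
theorem pp4_conv {z w : ℝ} (h : w ≤ z) : 4 * pp 3 w * (z - w) ≤ pp 4 z - pp 4 w := by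
  rcases le_or_gt w 0 with hw | hw
  · rw [pp_of_nonpos (by norm_num) hw, pp_of_nonpos (by norm_num) hw]
    have := pp_nonneg 4 z
    simpa using this
  · rw [pp_of_nonneg _ hw.le, pp_of_nonneg _ hw.le, pp_of_nonneg _ (hw.le.trans h)]
    have h1 : 0 ≤ (z - w) ^ 2 * (z ^ 2 + 2 * z * w + 3 * w ^ 2) := by
      have : 0 < z := hw.trans_le h
      positivity
    nlinarith

theorem pp3_conc {z w : ℝ} (h : w ≤ z) : pp 3 z - pp 3 w ≤ 3 * pp 2 z * (z - w) := by
  rcases le_or_gt z 0 with hz | hz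
  · rw [pp_of_nonpos (by norm_num) hz, pp_of_nonpos (by norm_num) (h.trans hz),
      pp_of_nonpos (by norm_num) hz]
    simp
  · rcases le_or_gt w 0 with hw | hw
    · rw [pp_of_nonpos (by norm_num) hw, pp_of_nonneg _ hz.le, pp_of_nonneg _ hz.le]
      have h1 : 0 ≤ z ^ 2 * (2 * z - 3 * w) := by
        apply mul_nonneg (by positivity); linarith
      nlinarith
    · rw [pp_of_nonneg _ hw.le, pp_of_nonneg _ hz.le, pp_of_nonneg _ hz.le]
      have h1 : 0 ≤ (z - w) ^ 2 * (2 * z + w) := by positivity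
      nlinarith

end real

variable {E : Type*} [NormedAddCommGroup E] [InnerProductSpace ℝ E]

/-- radial functions supported in a ball -/
noncomputable def bar (k : ℕ) (a : E) (c : ℝ) (x : E) : ℝ := pp k (c - ‖x - a‖ ^ 2)

theorem bar_nonneg (k : ℕ) (a : E) (c : ℝ) (x : E) : 0 ≤ bar k a c x := pp_nonneg _ _

theorem bar_contDiff {k : ℕ} (hk : ContDiff ℝ 2 (pp k)) (a : E) (c : ℝ) :
    ContDiff ℝ 2 (bar k a c) := by
  unfold bar
  exact hk.comp (contDiff_const.sub ((contDiff_id.sub contDiff_const).norm_sq ℝ))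

theorem bar_support {k : ℕ} (hk : k ≠ 0) (a : E) (c : ℝ) {x : E} (hx : bar k a c x ≠ 0) :
    ‖x - a‖ ^ 2 < c := by
  by_contra h
  exact hx (pp_of_nonpos hk (by linarith))

theorem bar_pos {k : ℕ} {a : E} {c : ℝ} {x : E} (hx : ‖x - a‖ ^ 2 < c) : 0 < bar k a c x :=
  pp_pos (by linarith)

theorem bar_test {k : ℕ} [FiniteDimensional ℝ E] (hk : ContDiff ℝ 2 (pp k)) (hk0 : k ≠ 0) (a : E)
    (c : ℝ) : Test (bar k a c) where
  smooth := bar_contDiff hk a c
  compact := by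
    refine HasCompactSupport.intro (isCompact_closedBall a (Real.sqrt (max c 0))) fun x hx => ?_
    by_contra h
    apply hx
    rw [mem_closedBall, dist_eq_norm]
    apply Real.le_sqrt_of_sq_le
    exact (bar_support hk0 a c h).le.trans (le_max_left _ _)
  nonneg := bar_nonneg k a c

section radial

variable [FiniteDimensional ℝ E] {n : ℕ}

theorem hasFDerivAt_sq (a x : E) :
    HasFDerivAt (fun y : E => ‖y - a‖ ^ 2) (2 • innerSL ℝ (x - a)) x := by
  have h1 : HasFDerivAt (fun y : E => y - a) (ContinuousLinearMap.id ℝ E) x :=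
    (hasFDerivAt_id x).sub_const a
  have := h1.norm_sq
  simpa using this

/-- divergence of the radial field `G(|x-a|²)(x-a)` along the hyperplane orthogonal to `v` -/
theorem tdiv_radial (hdim : Module.finrank ℝ E = n + 1) {G : ℝ → ℝ} {G' : ℝ} (a x v : E)
    (hG : HasDerivAt G G' (‖x - a‖ ^ 2)) (hv : ‖v‖ = 1) {X : E → E}
    (hX : X =ᶠ[𝓝 x] fun y => G (‖y - a‖ ^ 2) • (y - a)) :
    tdiv X x v = n * G (‖x - a‖ ^ 2) + 2 * G' * (‖x - a‖ ^ 2 - ⟪x - a, v⟫ ^ 2) := by
  have h1 : HasFDerivAt (fun y : E => y - a) (ContinuousLinearMap.id ℝ E) x :=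
    (hasFDerivAt_id x).sub_const a
  have h2 : HasFDerivAt (fun y : E => G (‖y - a‖ ^ 2)) (G' • (2 • innerSL ℝ (x - a))) x :=
    hG.comp_hasFDerivAt x (hasFDerivAt_sq a x)
  have h3 := (h2.smul h1).congr_of_eventuallyEq hX
  unfold tdiv
  rw [h3.fderiv]
  have h4 : ((G (‖x - a‖ ^ 2) • ContinuousLinearMap.id ℝ E +
      (G' • (2 • innerSL ℝ (x - a))).smulRight (x - a) : E →L[ℝ] E) : E →ₗ[ℝ] E) =
      G (‖x - a‖ ^ 2) • (LinearMap.id : E →ₗ[ℝ] E) +
      ((G' • (2 • innerSL ℝ (x - a)) : E →L[ℝ] ℝ) : E →ₗ[ℝ] ℝ).smulRight (x - a) := by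
    apply LinearMap.ext; intro w; rfl
  rw [h4, map_add, map_smul, LinearMap.trace_id, LinearMap.trace_smulRight, hdim]
  simp only [ContinuousLinearMap.add_apply, ContinuousLinearMap.smul_apply,
    ContinuousLinearMap.smulRight_apply, ContinuousLinearMap.id_apply, ContinuousLinearMap.coe_coe,
    innerSL_apply_apply, smul_eq_mul, inner_add_left, real_inner_smul_left,
    real_inner_self_eq_norm_sq, hv, nsmul_eq_mul]
  push_cast
  ring

theorem inner_sq_le (w v : E) (hv : ‖v‖ = 1) : ⟪w, v⟫ ^ 2 ≤ ‖w‖ ^ 2 := by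
  have h := abs_real_inner_le_norm w v
  rw [hv, mul_one] at h
  have := pow_le_pow_left₀ (abs_nonneg _) h 2
  rwa [sq_abs] at this

end radial

section approx

variable [MeasurableSpace E] [BorelSpace E] [FiniteDimensional ℝ E] {μ : Measure E} {ν : E → E}

/-- bound of Brakke's right side by approximating the gradient from inside -/
theorem rhs_le_of_approx {φ : E → ℝ} (hφ : Test φ) {H : E → E}
    (hH : IsMeanCurv μ ν {x | 0 < φ x} H) (hi : Integrable (fun x => φ x * ‖H x‖ ^ 2) μ)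
    {B : ℝ} (hB : 0 ≤ B) (X : ℕ → E → E) (r : ℕ → E → ℝ)
    (hX : ∀ k, ContDiff ℝ 1 (X k)) (hXc : ∀ k, HasCompactSupport (X k))
    (hXs : ∀ k, tsupport (X k) ⊆ {x | 0 < φ x}) (hr : ∀ k, Measurable (r k))
    (hr1 : ∀ k x, |r k x| ≤ 1)
    (hXr : ∀ k, ∀ᵐ x ∂μ, ⟪X k x, H x⟫ = r k x * fderiv ℝ φ x (H x))
    (hlim : ∀ᵐ x ∂μ, Tendsto (fun k => r k x * fderiv ℝ φ x (H x)) atTop
      (𝓝 (fderiv ℝ φ x (H x))))
    (hdiv : ∀ k, -∫ x, tdiv (X k) x (ν x) ∂μ ≤ B) : rhs μ φ H ≤ B := by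
  unfold rhs
  by_cases hg : Integrable (fun x => fderiv ℝ φ x (H x)) μ
  · have hin : Integrable (fun x => -(φ x * ‖H x‖ ^ 2)) μ := hi.neg
    rw [integral_add hin hg, integral_neg]
    have h0 : 0 ≤ ∫ x, φ x * ‖H x‖ ^ 2 ∂μ :=
      integral_nonneg fun x => mul_nonneg (hφ.nonneg x) (sq_nonneg _)
    have h1 : Tendsto (fun k => ∫ x, r k x * fderiv ℝ φ x (H x) ∂μ) atTop
        (𝓝 (∫ x, fderiv ℝ φ x (H x) ∂μ)) := by
      apply tendsto_integral_of_dominated_convergence (fun x => ‖fderiv ℝ φ x (H x)‖)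
      · intro k
        exact (hr k).aestronglyMeasurable.mul hg.aestronglyMeasurable
      · exact hg.norm
      · intro k
        refine Eventually.of_forall fun x => ?_
        rw [norm_mul, Real.norm_eq_abs]
        exact mul_le_of_le_one_left (norm_nonneg _) (hr1 k x)
      · exact hlim
    have h2 : ∀ k, ∫ x, r k x * fderiv ℝ φ x (H x) ∂μ ≤ B := by
      intro k
      have e1 : ∫ x, r k x * fderiv ℝ φ x (H x) ∂μ = ∫ x, ⟪X k x, H x⟫ ∂μ :=
        integral_congr_ae ((hXr k).mono fun x hx => hx.symm)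
      have e2 := hH.firstVar (X k) (hX k) (hXc k) (hXs k)
      have e3 := hdiv k
      linarith
    have h3 := le_of_tendsto' h1 h2
    linarith
  · rw [integral_undef]
    · exact hB
    · intro h
      apply hg
      have := h.add hi
      refine this.congr (Eventually.of_forall fun x => ?_)
      simp

end approx

end MP247
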