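import Pool.Agent.Lib.MP_247ac7.Barrier1

/-! # Barriers: shrinking balls -/

open MeasureTheory Filter Topology Metric Set
open scoped RealInnerProductSpace ContDiff

namespace MP247

variable {E : Type*} [NormedAddCommGroup E] [InnerProductSpace ℝ E] [MeasurableSpace E]
  [BorelSpace E] [FiniteDimensional ℝ E] {n : ℕ}

/-- the factor between the gradients of the approximations -/
noncomputable def rat (c δ z : ℝ) : ℝ := pp 3 (c - δ - z) / pp 3 (c - z)

theorem rat_mem {c δ : ℝ} (hδ : 0 ≤ δ) (z : ℝ) : 0 ≤ rat c δ z ∧ rat c δ z ≤ 1 := by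
  unfold rat
  have h1 := pp_nonneg 3 (c - δ - z)
  have h2 := pp_mono 3 (show c - δ - z ≤ c - z by linarith)
  have h3 := pp_nonneg 3 (c - z)
  exact ⟨div_nonneg h1 h3, div_le_one_of_le₀ h2 h3⟩

theorem rat_mul {c δ : ℝ} (hδ : 0 ≤ δ) (z : ℝ) :
    rat c δ z * pp 3 (c - z) = pp 3 (c - δ - z) := by
  unfold rat
  rcases eq_or_ne (pp 3 (c - z)) 0 with h | h
  · have h2 := pp_mono 3 (show c - δ - z ≤ c - z by linarith)
    rw [h] at h2 ⊢
    rw [mul_zero]
    exact (le_antisymm h2 (pp_nonneg _ _)).symm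
  · field_simp

theorem rat_tendsto {c z : ℝ} (hz : z < c) :
    Tendsto (fun k : ℕ => rat c (1 / ((k : ℝ) + 1)) z) atTop (𝓝 1) := by
  unfold rat
  have h1 : pp 3 (c - z) ≠ 0 := (pp_pos (by linarith)).ne'
  have h2 : Tendsto (fun k : ℕ => pp 3 (c - 1 / ((k : ℝ) + 1) - z)) atTop
      (𝓝 (pp 3 (c - 0 - z))) := by
    refine ((pp_continuous 3).tendsto _).comp ?_
    exact (tendsto_const_nhds.sub tendsto_one_div_add_atTop_nhds_zero_nat).sub tendsto_const_nhds
  rw [sub_zero] at h2
  have := h2.div_const (pp 3 (c - z))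
  rwa [div_self h1] at this

theorem fderiv_bar4 (a : E) (c : ℝ) (x v : E) :
    fderiv ℝ (bar 4 a c) x v = -(8 * pp 3 (c - ‖x - a‖ ^ 2)) * ⟪x - a, v⟫ := by
  have h1 : HasFDerivAt (fun y : E => c - ‖y - a‖ ^ 2) (-(2 • innerSL ℝ (x - a))) x :=
    (hasFDerivAt_sq a x).const_sub c
  have h2 := (hasDerivAt_pp (k := 3) (by norm_num) (c - ‖x - a‖ ^ 2)).comp_hasFDerivAt x h1
  have h3 : fderiv ℝ (bar 4 a c) x = _ := h2.fderiv
  rw [h3]
  simp only [ContinuousLinearMap.smul_apply, ContinuousLinearMap.neg_apply, innerSL_apply_apply,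
    smul_eq_mul, nsmul_eq_mul]
  push_cast
  ring

/-- Brakke's right side for the shrinking-ball test function -/
theorem brakkeB_bar (hdim : Module.finrank ℝ E = n + 1) {μ : Measure E} {ν : E → E}
    (hfin : IsLocallyFiniteMeasure μ) (hν : ∀ x, ‖ν x‖ = 1) (a : E) (c : ℝ) :
    brakkeB μ ν (bar 4 a c) ≤ ((8 * n * ∫ x, bar 3 a c x ∂μ : ℝ) : EReal) := by
  have ht4 : Test (bar 4 a c) := bar_test contDiff_pp4 (by norm_num) a c
  have ht3 : Test (bar 3 a c) := bar_test contDiff_pp3 (by norm_num) a c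
  have hi3 : Integrable (bar 3 a c) μ :=
    ht3.smooth.continuous.integrable_of_hasCompactSupport ht3.compact
  have hB0 : 0 ≤ 8 * n * ∫ x, bar 3 a c x ∂μ := by
    have : 0 ≤ ∫ x, bar 3 a c x ∂μ := integral_nonneg fun x => bar_nonneg _ _ _ _
    positivity
  refine iSup₂_le fun H hH => ?_
  rw [EReal.coe_le_coe_iff]
  have hδ : ∀ k : ℕ, (0:ℝ) < 1 / ((k:ℝ) + 1) := fun k => by positivity
  set X : ℕ → E → E := fun k x =>
    (-(8 * pp 3 (c - 1 / ((k:ℝ) + 1) - ‖x - a‖ ^ 2))) • (x - a) with hXdef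
  have hXsup : ∀ k, tsupport (X k) ⊆ {x | ‖x - a‖ ^ 2 ≤ c - 1 / ((k:ℝ) + 1)} := by
    intro k
    apply closure_minimal
    · intro x hx
      by_contra h
      simp only [mem_setOf_eq, not_le] at h
      apply hx
      simp only [hXdef]
      rw [pp_of_nonpos (by norm_num) (by linarith)]; simp
    · exact isClosed_le (by fun_prop) continuous_const
  refine rhs_le_of_approx ht4 hH.1 hH.2 hB0 X
    (fun k x => rat c (1 / ((k:ℝ) + 1)) (‖x - a‖ ^ 2)) ?_ ?_ ?_ ?_ ?_ ?_ ?_ ?_
  · intro k
    simp only [hXdef]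
    have h1 : ContDiff ℝ 1 fun x : E => pp 3 (c - 1 / ((k:ℝ) + 1) - ‖x - a‖ ^ 2) :=
      (contDiff_pp3.of_le (by norm_num)).comp
        (contDiff_const.sub ((contDiff_id.sub contDiff_const).norm_sq ℝ))
    exact (contDiff_const.mul h1).neg.smul (contDiff_id.sub contDiff_const)
  · intro k
    refine HasCompactSupport.of_support_subset_isCompact
      (isCompact_closedBall a (Real.sqrt (max c 0))) ?_
    intro x hx
    have h1 := hXsup k (subset_tsupport _ hx)
    simp only [mem_setOf_eq] at h1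
    rw [mem_closedBall, dist_eq_norm]
    apply Real.le_sqrt_of_sq_le
    have := hδ k
    exact (by linarith : ‖x - a‖ ^ 2 ≤ c).trans (le_max_left _ _)
  · intro k x hx
    have h1 := hXsup k hx
    simp only [mem_setOf_eq] at h1
    have := hδ k
    exact bar_pos (by linarith)
  · intro k
    unfold rat
    have h1 : Measurable fun x : E => pp 3 (c - 1 / ((k:ℝ) + 1) - ‖x - a‖ ^ 2) :=
      ((pp_continuous 3).comp (by fun_prop : Continuous fun x : E =>
        c - 1 / ((k:ℝ) + 1) - ‖x - a‖ ^ 2)).measurable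
    have h2 : Measurable fun x : E => pp 3 (c - ‖x - a‖ ^ 2) :=
      ((pp_continuous 3).comp (by fun_prop : Continuous fun x : E =>
        c - ‖x - a‖ ^ 2)).measurable
    exact h1.div h2
  · intro k x
    have := rat_mem (c := c) (hδ k).le (‖x - a‖ ^ 2)
    rw [abs_of_nonneg this.1]; exact this.2
  · intro k
    refine Eventually.of_forall fun x => ?_
    simp only [hXdef]
    rw [fderiv_bar4, real_inner_smul_left, ← rat_mul (hδ k).le]
    ring
  · refine Eventually.of_forall fun x => ?_
    rcases lt_or_ge (‖x - a‖ ^ 2) c with h | h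
    · have := (rat_tendsto h).mul_const (fderiv ℝ (bar 4 a c) x (H x))
      rwa [one_mul] at this
    · rw [fderiv_bar4, pp_of_nonpos (by norm_num) (by linarith)]
      simp
  · intro k
    have hpt : ∀ x, -(8 * n * bar 3 a c x) ≤ tdiv (X k) x (ν x) := by
      intro x
      have hG : HasDerivAt (fun z : ℝ => -(8 * pp 3 (c - 1 / ((k:ℝ) + 1) - z)))
          (24 * pp 2 (c - 1 / ((k:ℝ) + 1) - ‖x - a‖ ^ 2)) (‖x - a‖ ^ 2) := by
        have h1 : HasDerivAt (fun z : ℝ => c - 1 / ((k:ℝ) + 1) - z) (-1) (‖x - a‖ ^ 2) :=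
          (hasDerivAt_id _).const_sub _
        have h2 := ((hasDerivAt_pp (k := 2) (by norm_num)
          (c - 1 / ((k:ℝ) + 1) - ‖x - a‖ ^ 2)).comp (‖x - a‖ ^ 2) h1).const_mul (-8 : ℝ)
        have h3 : (fun z : ℝ => -(8 * pp 3 (c - 1 / ((k:ℝ) + 1) - z))) =
            fun z => -8 * (pp (2 + 1) ∘ fun z => c - 1 / ((k:ℝ) + 1) - z) z := by
          funext z; simp
        have h4 : (-8 : ℝ) * ((((2:ℕ) : ℝ) + 1) * pp 2 (c - 1 / ((k:ℝ) + 1) - ‖x - a‖ ^ 2) * -1) =
            24 * pp 2 (c - 1 / ((k:ℝ) + 1) - ‖x - a‖ ^ 2) := by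
          push_cast; ring
        rw [h3, ← h4]
        exact h2
      rw [tdiv_radial hdim a x (ν x) hG (hν x) (Eventually.of_forall fun y => rfl)]
      have h1 := pp_nonneg 2 (c - 1 / ((k:ℝ) + 1) - ‖x - a‖ ^ 2)
      have h2 := inner_sq_le (x - a) (ν x) (hν x)
      have h3 : 0 ≤ 2 * (24 * pp 2 (c - 1 / ((k:ℝ) + 1) - ‖x - a‖ ^ 2)) *
          (‖x - a‖ ^ 2 - ⟪x - a, ν x⟫ ^ 2) := mul_nonneg (by positivity) (by linarith)
      have h4 : pp 3 (c - 1 / ((k:ℝ) + 1) - ‖x - a‖ ^ 2) ≤ bar 3 a c x :=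
        pp_mono 3 (by have := hδ k; linarith)
      have h5 : (n:ℝ) * pp 3 (c - 1 / ((k:ℝ) + 1) - ‖x - a‖ ^ 2) ≤ n * bar 3 a c x :=
        mul_le_mul_of_nonneg_left h4 (Nat.cast_nonneg n)
      linarith
    by_cases hint : Integrable (fun x => tdiv (X k) x (ν x)) μ
    · have h1 := integral_mono ((hi3.const_mul (8 * (n:ℝ))).neg) hint hpt
      simp only [Pi.neg_apply] at h1
      rw [integral_neg, integral_const_mul] at h1
      linarith
    · rw [integral_undef hint, neg_zero]
      exact hB0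

variable {μ : ℝ → Measure E} {ν : ℝ → E → E}

/-- at each time the right side is bounded by a real number -/
theorem exists_bound_at (hF : IsBrakkeFlow μ ν) {t : ℝ} (ht : 0 ≤ t) {χ : E → ℝ} (hχ : Test χ) :
    ∃ c : ℝ, 0 ≤ c ∧ brakkeB (μ t) (ν t) χ ≤ (c : EReal) := by
  have hfin := hF.finite t ht
  have hB : LocMass fun _ : ℝ => μ t := by
    intro R T
    refine ⟨(μ t (closedBall 0 R)).toReal, ENNReal.toReal_nonneg, fun _ _ _ => ?_⟩
    rw [ENNReal.ofReal_toReal (isCompact_closedBall (0:E) R).measure_lt_top.ne]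
  obtain ⟨c, hc0, hc⟩ := exists_brakke_bound (μ := fun _ : ℝ => μ t) (ν := fun _ : ℝ => ν t) hB hχ 0
  exact ⟨c, hc0, hc 0 le_rfl le_rfl⟩

/-- one-sided semicontinuity of the masses -/
theorem mass_semicont (hF : IsBrakkeFlow μ ν) {t : ℝ} (ht : 0 ≤ t) {χ : E → ℝ} (hχ : Test χ)
    {ε : ℝ} (hε : 0 < ε) : ∀ᶠ s in 𝓝[Ici 0 \ {t}] t,
      (t < s → mass μ χ s ≤ mass μ χ t + ε) ∧ (s < t → mass μ χ t - ε ≤ mass μ χ s) := by
  obtain ⟨c, hc0, hc⟩ := exists_bound_at hF ht hχ
  have h1 := ev_of_upperDeriv ((hF.ineq t ht χ hχ).trans hc) 1 one_pos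
  have hρ : 0 < ε / (c + 1) := by positivity
  have h2 : ∀ᶠ s in 𝓝[Ici 0 \ {t}] t, |s - t| < ε / (c + 1) := by
    filter_upwards [mem_nhdsWithin_of_mem_nhds (ball_mem_nhds t hρ)] with s hs
    rwa [mem_ball, Real.dist_eq] at hs
  filter_upwards [h1, h2] with s e1 e2
  rw [lt_div_iff₀ (by positivity)] at e2
  constructor
  · intro hst
    have h3 : 0 < s - t := sub_pos.2 hst
    rw [div_le_iff₀ h3] at e1
    rw [abs_of_pos h3] at e2
    linarith
  · intro hst
    have h3 : s - t < 0 := sub_neg.2 hst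
    rw [div_le_iff_of_neg h3] at e1
    rw [abs_of_neg h3] at e2
    linarith

/-- **Shrinking ball barrier**: `t ↦ ∫ (c - 2nt - |x-a|²)_+^4 dμ_t` is nonincreasing. -/
theorem bar_upperDeriv (hdim : Module.finrank ℝ E = n + 1) (hF : IsBrakkeFlow μ ν)
    (hν : ∀ t x, ‖ν t x‖ = 1) (a : E) (c : ℝ) {t : ℝ} (ht : 0 ≤ t) :
    upperDeriv (fun s => mass μ (bar 4 a (c - 2 * n * s)) s) t ≤ ((0:ℝ) : EReal) := by
  have hn0 : (0:ℝ) ≤ n := Nat.cast_nonneg n
  set ct := c - 2 * n * t with hct
  set h : ℝ → ℝ := fun s => mass μ (bar 4 a (c - 2 * n * s)) s with hh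
  set f := mass μ (bar 4 a ct) with hf
  set F := mass μ (bar 3 a ct) with hFd
  have ht4 : Test (bar 4 a ct) := bar_test contDiff_pp4 (by norm_num) a ct
  have ht3 : Test (bar 3 a ct) := bar_test contDiff_pp3 (by norm_num) a ct
  set ρ := Real.sqrt (max ct 0) + 1 with hρ
  have hρ0 : 0 < ρ := by positivity
  have hκ := cut_test a hρ0
  set κ := cut a ρ with hκd
  set K := mass μ κ with hK
  have hK0 : ∀ s, 0 ≤ K s := fun s => integral_nonneg fun x => cut_nonneg _ _ _
  have hκ1 : ∀ x, ‖x - a‖ ^ 2 < ct → κ x = 1 := by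
    intro x hx
    apply cut_eq_one hρ0
    rw [dist_eq_norm, hρ]
    have : ‖x - a‖ ≤ Real.sqrt (max ct 0) :=
      Real.le_sqrt_of_sq_le (hx.le.trans (le_max_left _ _))
    linarith
  -- for each ε the quotients are eventually at most ε
  have key : ∀ ε > 0, ∀ᶠ s in 𝓝[Ici 0 \ {t}] t, (h s - h t) / (s - t) ≤ 0 + ε := by
    intro ε hε
    obtain ⟨δ, hδ, hδK⟩ : ∃ δ > 0, 8 * n * (δ ^ 3 * K t) ≤ ε / 4 := by
      have hc : Tendsto (fun δ : ℝ => 8 * n * (δ ^ 3 * K t)) (𝓝[>] 0) (𝓝 (8 * n * (0 ^ 3 * K t))) := by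
        apply Tendsto.mono_left _ nhdsWithin_le_nhds
        exact (by fun_prop : Continuous fun δ : ℝ => 8 * n * (δ ^ 3 * K t)).tendsto 0
      have h1 : (8:ℝ) * n * (0 ^ 3 * K t) < ε / 4 := by
        simp; positivity
      obtain ⟨δ, h2, h3⟩ := ((hc.eventually (gt_mem_nhds h1)).and self_mem_nhdsWithin).exists
      exact ⟨δ, h3, h2.le⟩
    obtain ⟨ε', hε', hε'K⟩ : ∃ ε' > 0, 8 * n * ε' ≤ ε / 4 := by
      refine ⟨ε / (4 * (8 * n + 1)), by positivity, ?_⟩
      rw [mul_div_assoc', div_le_div_iff₀ (by positivity) (by norm_num)]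
      nlinarith
    set C1 := 6 * n * max ct 0 ^ 2 with hC1
    have hC10 : 0 ≤ C1 := by positivity
    -- the auxiliary test function
    have hχ : Test (fun x => bar 4 a ct x / δ + δ ^ 3 * κ x - bar 3 a ct x) := by
      refine ⟨?_, ?_, ?_⟩
      · exact ((ht4.smooth.div_const δ).add (contDiff_const.mul hκ.smooth)).sub ht3.smooth
      · refine HasCompactSupport.intro ((ht4.compact.isCompact.union hκ.compact.isCompact).union
          ht3.compact.isCompact) fun x hx => ?_
        simp only [mem_union, not_or] at hx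
        rw [image_eq_zero_of_notMem_tsupport hx.1.1, image_eq_zero_of_notMem_tsupport hx.1.2,
          image_eq_zero_of_notMem_tsupport hx.2]
        simp
      · intro x
        rcases lt_or_ge (‖x - a‖ ^ 2) ct with hx | hx
        · rw [hκ1 x hx]
          unfold bar
          set z := ct - ‖x - a‖ ^ 2 with hz
          have hz0 : 0 < z := by linarith
          rw [pp_of_nonneg _ hz0.le, pp_of_nonneg _ hz0.le]
          rcases le_or_gt δ z with h1 | h1
          · have h2 : z ^ 3 ≤ z ^ 4 / δ := by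
              rw [le_div_iff₀ hδ]
              have : z ^ 3 * δ ≤ z ^ 3 * z := mul_le_mul_of_nonneg_left h1 (by positivity)
              linarith [pow_succ z 3]
            have : 0 ≤ δ ^ 3 := by positivity
            linarith
          · have h2 : z ^ 3 ≤ δ ^ 3 := pow_le_pow_left₀ hz0.le h1.le 3
            have : 0 ≤ z ^ 4 / δ := by positivity
            linarith
        · have h3 : bar 3 a ct x = 0 := by
            unfold bar; exact pp_of_nonpos (by norm_num) (by linarith)
          rw [h3, sub_zero]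
          have := bar_nonneg 4 a ct x
          have := cut_nonneg a ρ x
          positivity
    have hχmass : ∀ s, 0 ≤ s → mass μ (fun x => bar 4 a ct x / δ + δ ^ 3 * κ x - bar 3 a ct x) s =
        f s / δ + δ ^ 3 * K s - F s := by
      intro s hs
      haveI := hF.finite s hs
      have i4 := integrable_of_flow this ht4.smooth.continuous ht4.compact
      have i3 := integrable_of_flow this ht3.smooth.continuous ht3.compact
      have iκ := integrable_of_flow this hκ.smooth.continuous hκ.compact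
      have iA : Integrable (fun x => bar 4 a ct x / δ + δ ^ 3 * κ x) (μ s) :=
        (i4.div_const δ).add (iκ.const_mul _)
      show ∫ x, (bar 4 a ct x / δ + δ ^ 3 * κ x - bar 3 a ct x) ∂(μ s) = _
      rw [integral_sub iA i3, integral_add (i4.div_const δ) (iκ.const_mul _), integral_div,
        integral_const_mul]
      rfl
    have e1 := ev_of_upperDeriv ((hF.ineq t ht _ ht4).trans
      (brakkeB_bar hdim (hF.finite t ht) (hν t) a ct)) (ε / 4) (by positivity)
    have e2 := mass_semicont hF ht ht3 hε'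
    have e3 := mass_semicont hF ht hχ hε'
    have e4 := mass_semicont hF ht hκ one_pos
    have e5 : ∀ᶠ s in 𝓝[Ici 0 \ {t}] t, 8 * n * (C1 * |s - t| * (K t + 1)) ≤ ε / 4 := by
      have hc : Continuous fun s : ℝ => 8 * n * (C1 * |s - t| * (K t + 1)) := by fun_prop
      have h0 : (fun s : ℝ => 8 * n * (C1 * |s - t| * (K t + 1))) t < ε / 4 := by
        simp; positivity
      have := (hc.tendsto t).eventually (gt_mem_nhds h0)
      exact (this.mono fun s hs => hs.le).filter_mono nhdsWithin_le_nhds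
    filter_upwards [e1, e2, e3, e4, e5, self_mem_nhdsWithin] with s f1 f2 f3 f4 f5 f6
    have hs0 : 0 ≤ s := f6.1
    have hne : s ≠ t := f6.2
    haveI hfin := hF.finite s hs0
    have i4 := integrable_of_flow hfin ht4.smooth.continuous ht4.compact
    have i3 := integrable_of_flow hfin ht3.smooth.continuous ht3.compact
    have iκ := integrable_of_flow hfin hκ.smooth.continuous hκ.compact
    set cs := c - 2 * n * s with hcs
    have ht4s : Test (bar 4 a cs) := bar_test contDiff_pp4 (by norm_num) a cs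
    have ht3s : Test (bar 3 a cs) := bar_test contDiff_pp3 (by norm_num) a cs
    have i4s := integrable_of_flow hfin ht4s.smooth.continuous ht4s.compact
    have i3s := integrable_of_flow hfin ht3s.smooth.continuous ht3s.compact
    have hcc : cs = ct + 2 * n * (t - s) := by rw [hcs, hct]; ring
    have hB : 8 * (n:ℝ) * ∫ x, bar 3 a ct x ∂(μ t) = 8 * n * F t := rfl
    rw [hB] at f1
    have hht : h t = f t := rfl
    rw [hht]
    rcases lt_or_gt_of_ne hne with hlt | hgt
    · -- `s < t`
      have hts : 0 < t - s := by linarith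
      have g1 : f t - (8 * n * F t + ε / 4) * (t - s) ≤ f s := by
        rw [div_le_iff_of_neg (by linarith)] at f1
        nlinarith
      have g2 := f2.2 hlt
      have g3 : f s + 8 * n * (t - s) * F s ≤ h s := by
        simp only [hh, hf, hFd]
        unfold mass
        rw [← integral_const_mul, ← integral_add i4 (i3.const_mul _)]
        refine integral_mono (i4.add (i3.const_mul _)) i4s fun x => ?_
        simp only
        unfold bar
        have h1 := pp4_conv (z := cs - ‖x - a‖ ^ 2) (w := ct - ‖x - a‖ ^ 2) (by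
          rw [hcc]; have : 0 ≤ 2 * (n:ℝ) * (t - s) := by positivity
          linarith)
        have h2 : cs - ‖x - a‖ ^ 2 - (ct - ‖x - a‖ ^ 2) = 2 * n * (t - s) := by rw [hcc]; ring
        rw [h2] at h1
        nlinarith
      have g4 : 8 * n * (t - s) * (F t - ε') ≤ 8 * n * (t - s) * F s :=
        mul_le_mul_of_nonneg_left g2 (by positivity)
      rw [div_le_iff_of_neg (by linarith)]
      have g5 : 8 * n * ε' * (t - s) ≤ ε / 4 * (t - s) := mul_le_mul_of_nonneg_right hε'K hts.le
      nlinarith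
    · -- `t < s`
      have hts : 0 < s - t := by linarith
      rw [abs_of_pos hts] at f5
      rw [div_le_iff₀ hts, zero_add]
      have g0 : h s ≤ f s := by
        simp only [hh, hf]
        unfold mass
        refine integral_mono i4s i4 fun x => ?_
        apply pp_mono
        have h8 : 0 ≤ 2 * (n:ℝ) * (s - t) := by positivity
        have h9 : c - 2 * n * s = ct + 2 * n * (t - s) := hcc
        linarith
      rcases le_or_gt (f s) (f t) with hle | hgt'
      · have : 0 ≤ ε * (s - t) := by positivity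
        linarith
      have g1 : f s ≤ f t + (8 * n * F t + ε / 4) * (s - t) := by
        rw [div_le_iff₀ hts] at f1
        linarith
      have g2 := f3.1 hgt
      rw [hχmass s hs0, hχmass t ht] at g2
      have g3 : F t - δ ^ 3 * K t - ε' ≤ F s := by
        have h1 : f t / δ ≤ f s / δ := (div_le_div_iff_of_pos_right hδ).2 hgt'.le
        have h2 : 0 ≤ δ ^ 3 * K s := mul_nonneg (by positivity) (hK0 s)
        linarith
      have g4 := f4.1 hgt
      have g5 : h s ≤ f s - 8 * n * (s - t) * (F s - C1 * (s - t) * K s) := by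
        have iB : Integrable (fun x => bar 3 a ct x - C1 * (s - t) * κ x) (μ s) :=
          i3.sub (iκ.const_mul _)
        have iC : Integrable (fun x => 8 * n * (s - t) *
            (bar 3 a ct x - C1 * (s - t) * κ x)) (μ s) := iB.const_mul _
        have iD : Integrable (fun x => bar 4 a ct x - 8 * n * (s - t) *
            (bar 3 a ct x - C1 * (s - t) * κ x)) (μ s) := i4.sub iC
        simp only [hh, hf, hFd, hK]
        unfold mass
        rw [← integral_const_mul, ← integral_sub i3 (iκ.const_mul _), ← integral_const_mul,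
          ← integral_sub i4 iC]
        refine integral_mono i4s iD fun x => ?_
        simp only
        have hd : ct - ‖x - a‖ ^ 2 - (cs - ‖x - a‖ ^ 2) = 2 * n * (s - t) := by rw [hcc]; ring
        have hw : cs - ‖x - a‖ ^ 2 ≤ ct - ‖x - a‖ ^ 2 := by
          have : 0 ≤ 2 * (n:ℝ) * (s - t) := by positivity
          rw [hcc]; linarith
        have h1 := pp4_conv hw
        have h2 := pp3_conc hw
        rw [hd] at h1 h2
        have h3 : 3 * pp 2 (ct - ‖x - a‖ ^ 2) * (2 * n * (s - t)) ≤ C1 * (s - t) * κ x := by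
          rcases lt_or_ge (‖x - a‖ ^ 2) ct with hx | hx
          · rw [hκ1 x hx, mul_one, pp_of_nonneg _ (by linarith)]
            have h4 : (ct - ‖x - a‖ ^ 2) ^ 2 ≤ max ct 0 ^ 2 := by
              apply pow_le_pow_left₀ (by linarith)
              have := sq_nonneg ‖x - a‖
              exact (by linarith : ct - ‖x - a‖ ^ 2 ≤ ct).trans (le_max_left _ _)
            have h5 : (ct - ‖x - a‖ ^ 2) ^ 2 * (6 * n * (s - t)) ≤
                max ct 0 ^ 2 * (6 * n * (s - t)) :=
              mul_le_mul_of_nonneg_right h4 (by positivity)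
            rw [hC1]
            linarith
          · rw [pp_of_nonpos (by norm_num) (by linarith)]
            have := cut_nonneg a ρ x
            simp only [mul_zero, zero_mul]
            positivity
        have h6 : bar 3 a ct x - C1 * (s - t) * κ x ≤ pp 3 (cs - ‖x - a‖ ^ 2) := by
          unfold bar; linarith
        have h7 : 8 * n * (s - t) * (bar 3 a ct x - C1 * (s - t) * κ x) ≤
            8 * n * (s - t) * pp 3 (cs - ‖x - a‖ ^ 2) :=
          mul_le_mul_of_nonneg_left h6 (by positivity)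
        unfold bar at h7 ⊢
        linarith
      have g6 : C1 * (s - t) * K s ≤ C1 * (s - t) * (K t + 1) :=
        mul_le_mul_of_nonneg_left g4 (by positivity)
      have g7 : 8 * n * (s - t) * (F t - δ ^ 3 * K t - ε' - C1 * (s - t) * (K t + 1)) ≤
          8 * n * (s - t) * (F s - C1 * (s - t) * K s) :=
        mul_le_mul_of_nonneg_left (by linarith) (by positivity)
      have g8 : (s - t) * (8 * n * (δ ^ 3 * K t)) ≤ (s - t) * (ε / 4) :=
        mul_le_mul_of_nonneg_left hδK hts.le
      have g9 : (s - t) * (8 * n * ε') ≤ (s - t) * (ε / 4) :=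
        mul_le_mul_of_nonneg_left hε'K hts.le
      have g10 : (s - t) * (8 * n * (C1 * (s - t) * (K t + 1))) ≤ (s - t) * (ε / 4) :=
        mul_le_mul_of_nonneg_left f5 hts.le
      nlinarith
  -- conclusion
  refine le_of_forall_gt_imp_ge_of_dense ?_
  intro b hb
  obtain ⟨q, hq1, hq2⟩ := EReal.lt_iff_exists_real_btwn.1 hb
  have hq0 : 0 < q := by exact_mod_cast hq1
  have h1 := key q hq0
  unfold upperDeriv
  refine (Filter.limsup_le_of_le (by isBoundedDefault) ?_).trans hq2.le
  filter_upwards [h1] with s hs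
  rw [zero_add] at hs
  exact_mod_cast hs

end MP247
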