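import Pool.Agent.Lib.MP_247ac7.Times

/-! # Time-dependent test functions for flows in a fixed ball -/

open MeasureTheory Filter Topology Metric Set
open scoped RealInnerProductSpace ContDiff ENNReal

namespace MP247

variable {E : Type*} [NormedAddCommGroup E] [InnerProductSpace ℝ E] [MeasurableSpace E]
  [BorelSpace E] [FiniteDimensional ℝ E] {μ : ℝ → Measure E} {ν : ℝ → E → E}

/-- all measures are carried by one closed ball -/
def InBall (R : ℝ) (μ : ℝ → Measure E) : Prop := ∀ t, 0 ≤ t → μ t (closedBall 0 R)ᶜ = 0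

theorem InBall.ae {R : ℝ} (hs : InBall R μ) {t : ℝ} (ht : 0 ≤ t) :
    ∀ᵐ x ∂(μ t), x ∈ closedBall (0:E) R := by
  rw [ae_iff]
  exact hs t ht

/-- near a point of `ball x r` the cut-off is constant `1`, so its derivative vanishes -/
theorem cut_fderiv_zero {x : E} {r : ℝ} (hr : 0 < r) {y : E} (hy : y ∈ ball x r) :
    fderiv ℝ (cut x r) y = 0 := by
  have : cut x r =ᶠ[𝓝 y] fun _ => 1 := by
    filter_upwards [isOpen_ball.mem_nhds hy] with z hz
    exact cut_eq_one hr (mem_ball.1 hz).le
  rw [this.fderiv_eq]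
  simp

/-- finiteness of the mass -/
theorem InBall.fin (hF : IsBrakkeFlow μ ν) {R : ℝ} (hs : InBall R μ) {t : ℝ} (ht : 0 ≤ t) :
    IsFiniteMeasure (μ t) := by
  haveI := hF.finite t ht
  constructor
  calc μ t univ ≤ μ t (closedBall 0 R) + μ t (closedBall 0 R)ᶜ := by
        rw [← union_compl_self (closedBall (0:E) R)]
        exact measure_union_le _ _
    _ = μ t (closedBall 0 R) := by rw [hs t ht, add_zero]
    _ < ⊤ := (isCompact_closedBall (0:E) R).measure_lt_top

/-- the total mass is nonincreasing -/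
theorem mass_plateau_mono (hF : IsBrakkeFlow μ ν) {R R' : ℝ} (hs : InBall R μ) (hR' : 0 < R')
    (hRR : R < R') {s t : ℝ} (h0 : 0 ≤ s) (hst : s ≤ t) :
    mass μ (cut (0:E) R') t ≤ mass μ (cut (0:E) R') s := by
  have h : ∀ u ∈ Icc s t, upperDeriv (mass μ (cut (0:E) R')) u ≤ ((0:ℝ) : EReal) := by
    intro u hu
    have hu0 := h0.trans hu.1
    refine (hF.ineq u hu0 _ (cut_test 0 hR')).trans (iSup₂_le fun H _ => ?_)
    have : rhs (μ u) (cut (0:E) R') H ≤ 0 := by
      unfold rhs
      apply integral_nonpos_of_ae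
      filter_upwards [hs.ae hu0] with x hx
      have hx' : x ∈ ball (0:E) R' := closedBall_subset_ball hRR hx
      rw [cut_fderiv_zero hR' hx', cut_eq_one hR' (mem_ball.1 hx').le]
      simp only [one_mul, ContinuousLinearMap.zero_apply, add_zero, Pi.zero_apply]
      exact neg_nonpos.2 (sq_nonneg _)
    exact_mod_cast this
  have := sub_le_of_upperDeriv h0 h s (left_mem_Icc.2 hst) t (right_mem_Icc.2 hst) hst
  linarith

theorem mass_plateau_nonneg (R' : ℝ) (t : ℝ) : 0 ≤ mass μ (cut (0:E) R') t :=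
  integral_nonneg fun y => cut_nonneg _ _ _

/-- measure of any set bounded by the initial mass -/
theorem measure_le_mass (hF : IsBrakkeFlow μ ν) {R R' : ℝ} (hs : InBall R μ) (hR' : 0 < R')
    (hRR : R < R') {t : ℝ} (ht : 0 ≤ t) :
    μ t univ ≤ ENNReal.ofReal (mass μ (cut (0:E) R') 0) := by
  haveI := hs.fin hF ht
  have h1 : μ t univ ≤ ENNReal.ofReal (mass μ (cut (0:E) R') t) := by
    unfold mass
    rw [ofReal_integral_eq_lintegral_ofReal]
    · have h2 : ∫⁻ x, ENNReal.ofReal (cut (0:E) R' x) ∂(μ t) = ∫⁻ x, 1 ∂(μ t) := by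
        apply lintegral_congr_ae
        filter_upwards [hs.ae ht] with x hx
        have hx' : x ∈ ball (0:E) R' := closedBall_subset_ball hRR hx
        rw [cut_eq_one hR' (mem_ball.1 hx').le, ENNReal.ofReal_one]
      rw [h2, lintegral_one]
    · exact integrable_of_flow (hF.finite t ht) (cut_test 0 hR').smooth.continuous
        (cut_test 0 hR').compact
    · exact Eventually.of_forall fun y => cut_nonneg _ _ _
  exact h1.trans (ENNReal.ofReal_le_ofReal (mass_plateau_mono hF hs hR' hRR le_rfl ht))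

theorem InBall.locMass (hF : IsBrakkeFlow μ ν) {R : ℝ} (hs : InBall R μ) : LocMass μ := by
  intro R1 T
  refine ⟨mass μ (cut (0:E) (|R| + 1)) 0, mass_plateau_nonneg _ _, fun t h0 _ => ?_⟩
  exact (measure_mono (subset_univ _)).trans
    (measure_le_mass hF hs (by positivity) (by linarith [le_abs_self R]) h0)

/-- two-sided bounds of difference quotients give continuity -/
theorem continuousAt_of_LB_UB {f : ℝ → ℝ} {t L M : ℝ} (h1 : LB f t L) (h2 : UB f t M) :
    ContinuousAt f t := by
  set K := max |L| |M| + 1 with hK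
  have hK0 : 0 < K := by positivity
  have hev : ∀ᶠ s in 𝓝[≠] t, |f s - f t| ≤ K * |s - t| := by
    filter_upwards [h1 1 one_pos, h2 1 one_pos, self_mem_nhdsWithin] with s e1 e2 hs
    have hne : s - t ≠ 0 := sub_ne_zero.2 hs
    have h3 : |(f s - f t) / (s - t)| ≤ K := by
      rw [abs_le]
      constructor
      · have := neg_abs_le L
        have h5 : |L| ≤ max |L| |M| := le_max_left _ _
        linarith
      · have := le_abs_self M
        have h5 : |M| ≤ max |L| |M| := le_max_right _ _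
        linarith
    rw [abs_div, div_le_iff₀ (abs_pos.2 hne)] at h3
    exact h3
  have hev2 : ∀ᶠ s in 𝓝 t, |f s - f t| ≤ K * |s - t| := by
    rw [eventually_nhdsWithin_iff] at hev
    filter_upwards [hev] with s hs
    by_cases h : s = t
    · subst h; simp
    · exact hs h
  rw [ContinuousAt, tendsto_iff_norm_sub_tendsto_zero]
  have hlim : Tendsto (fun s => K * |s - t|) (𝓝 t) (𝓝 0) := by
    have : Continuous fun s : ℝ => K * |s - t| := by fun_prop
    simpa using this.tendsto t
  exact squeeze_zero' (Eventually.of_forall fun s => norm_nonneg _)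
    (hev2.mono fun s hs => by rw [Real.norm_eq_abs]; exact hs) hlim

/-- at a time of differentiability of the plateau mass, all masses are continuous -/
theorem mass_continuousAt (hF : IsBrakkeFlow μ ν) {τ : ℝ} (hτ : 0 < τ) {V : Set E} {H : E → E}
    (hR : Reg (μ τ) (ν τ) V H) {R2 : ℝ} (hR2 : 0 < R2) (hV : closedBall (0:E) (2 * R2) ⊆ V)
    (hd : DifferentiableAt ℝ (mass μ (cut (0:E) R2)) τ) {φ : E → ℝ} (hφ : Test φ)
    (hs : tsupport φ ⊆ ball 0 R2) : ContinuousAt (mass μ φ) τ := by
  obtain ⟨C, hC⟩ := hφ.compact.exists_bound_of_continuous hφ.smooth.continuous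
  have hC0 : 0 ≤ C := (norm_nonneg _).trans (hC 0)
  have hcut := cut_test (0:E) hR2
  have hcV : tsupport (cut (0:E) R2) ⊆ V := (cut_tsupport hR2).trans hV
  have hdd := (hcut.d2 hcV).const_mul C
  have htest : Test (fun y => C * cut (0:E) R2 y) :=
    ⟨hdd.smooth, hdd.compact, fun y => mul_nonneg hC0 (cut_nonneg _ _ _)⟩
  have hφV : tsupport φ ⊆ V := hs.trans
    ((ball_subset_closedBall.trans (closedBall_subset_closedBall (by linarith))).trans hV)
  have hle : ∀ y, φ y ≤ C * cut (0:E) R2 y := by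
    intro y
    by_cases hy : y ∈ ball (0:E) R2
    · rw [cut_eq_one hR2 (mem_ball.1 hy).le, mul_one]
      exact (le_abs_self _).trans (hC y)
    · have : φ y = 0 := image_eq_zero_of_notMem_tsupport fun h' => hy (hs h')
      rw [this]; exact mul_nonneg hC0 (cut_nonneg _ _ _)
  set d := deriv (mass μ (cut (0:E) R2)) τ with hdef
  have h1 : LB (mass μ (fun y => C * cut (0:E) R2 y)) τ
      (rhs (μ τ) (fun y => C * cut (0:E) R2 y) H -
        (rhs (μ τ) (fun y => C * cut (0:E) R2 y) H - C * d)) := by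
    rw [sub_sub_cancel]
    have h2 := (LB_of_hasDerivAt hd.hasDerivAt).const_mul C hC0
    apply h2.congr
    filter_upwards with s
    unfold mass
    rw [integral_const_mul]
  have h3 := LB_of_dom hF hτ hR hφ htest hφV hdd.supp hle h1
  exact continuousAt_of_LB_UB h3 (UB_flow hF hτ hR hφ hφV)

/-- continuity of `s ↦ ∫ g dμ_s` for a `C²` function `g` -/
theorem integral_continuousAt (hF : IsBrakkeFlow μ ν) {R : ℝ} (hs : InBall R μ) {τ : ℝ}
    (hτ : 0 < τ) {V : Set E} {H : E → E} (hR : Reg (μ τ) (ν τ) V H) (hRp : 0 ≤ R)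
    (hV : closedBall (0:E) (2 * (2 * (R + 1) + 1)) ⊆ V)
    (hd : DifferentiableAt ℝ (mass μ (cut (0:E) (2 * (R + 1) + 1))) τ) {g : E → ℝ}
    (hg : ContDiff ℝ 2 g) : ContinuousAt (fun s => ∫ x, g x ∂(μ s)) τ := by
  set χ := cut (0:E) (R + 1) with hχ
  have hR1 : 0 < R + 1 := by linarith
  have hχt := cut_test (0:E) hR1
  have hχs : tsupport χ ⊆ ball (0:E) (2 * (R + 1) + 1) :=
    (cut_tsupport hR1).trans (closedBall_subset_ball (by linarith))
  -- bound of g on the support
  obtain ⟨K, hK⟩ := (isCompact_closedBall (0:E) (2 * (R + 1))).exists_bound_of_continuousOn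
    hg.continuous.continuousOn
  set K' := |K| with hK'
  have ht : Test (fun x => (g x + K') * χ x) := by
    refine ⟨(hg.add contDiff_const).mul hχt.smooth, hχt.compact.mul_left, fun x => ?_⟩
    by_cases hx : x ∈ closedBall (0:E) (2 * (R + 1))
    · apply mul_nonneg _ (cut_nonneg _ _ _)
      have h1 := hK x hx
      rw [Real.norm_eq_abs] at h1
      have := neg_abs_le (g x)
      have := le_abs_self K
      linarith
    · have : χ x = 0 := image_eq_zero_of_notMem_tsupport fun h => hx (cut_tsupport hR1 h)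
      rw [this, mul_zero]
  have hts : tsupport (fun x => (g x + K') * χ x) ⊆ ball (0:E) (2 * (R + 1) + 1) := by
    refine (closure_mono ?_).trans hχs
    intro x hx h0
    exact hx (by simp [h0])
  have hpos : 0 < 2 * (R + 1) + 1 := by linarith
  have c1 := mass_continuousAt hF hτ hR hpos hV hd ht hts
  have c2 := mass_continuousAt hF hτ hR hpos hV hd hχt hχs
  have c3 : ContinuousAt (fun s => mass μ (fun x => (g x + K') * χ x) s - K' * mass μ χ s) τ :=
    c1.sub (c2.const_mul K')
  apply c3.congr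
  filter_upwards [Ioi_mem_nhds hτ] with s hs0
  have hs0' : (0:ℝ) ≤ s := le_of_lt hs0
  haveI := hs.fin hF hs0'
  have hfin := hF.finite s hs0'
  unfold mass
  rw [← integral_const_mul, ← integral_sub
    (integrable_of_flow hfin ht.smooth.continuous ht.compact)
    ((integrable_of_flow hfin hχt.smooth.continuous hχt.compact).const_mul K')]
  apply integral_congr_ae
  filter_upwards [hs.ae hs0'] with x hx
  have hx' : x ∈ ball (0:E) (R + 1) := closedBall_subset_ball (by linarith) hx
  have h1 : χ x = 1 := cut_eq_one hR1 (mem_ball.1 hx').le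
  have h2 : (g x + K') * χ x - K' * χ x = g x := by rw [h1]; ring
  exact h2

/-- data of a time-dependent test function on `[0, T]` -/
structure TDTest (R T : ℝ) (Ψ dΨ : ℝ → E → ℝ) : Prop where
  test : ∀ t ∈ Icc 0 T, Test (Ψ t)
  deriv : ∀ x ∈ closedBall (0:E) R, ∀ t ∈ Icc 0 T, HasDerivAt (fun s => Ψ s x) (dΨ t x) t
  cont : ContinuousOn (fun p : ℝ × E => dΨ p.1 p.2) (Icc 0 T ×ˢ closedBall (0:E) R)
  smooth : ∀ t ∈ Icc 0 T, ContDiff ℝ 2 (dΨ t)

/-- **Monotonicity for time-dependent test functions.** -/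
theorem td_mono (hF : IsBrakkeFlow μ ν) {R : ℝ} (hRp : 0 ≤ R) (hs : InBall R μ) {T : ℝ}
    (hT : 0 ≤ T) {Ψ dΨ : ℝ → E → ℝ} (hΨ : TDTest R T Ψ dΨ) {c : ℝ}
    (hsupp : ∀ t ∈ Icc 0 T, tsupport (Ψ t) ⊆ ball (0:E) (2 * (2 * (R + 1) + 1) + 1))
    (hc : ∀ t ∈ Icc 0 T, ∀ s ∈ Icc 0 T, brakkeB (μ s) (ν s) (Ψ t) ≤ (c : EReal))
    (hinf : ∀ᵐ t : ℝ, t ∈ Ioo 0 T → ∀ (V : Set E) (H : E → E), Reg (μ t) (ν t) V H →
      closedBall (0:E) (2 * (2 * (R + 1) + 1) + 1) ⊆ V →
      rhs (μ t) (Ψ t) H + ∫ x, dΨ t x ∂(μ t) ≤ 0) :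
    mass μ (Ψ T) T ≤ mass μ (Ψ 0) 0 := by
  classical
  set M := mass μ (cut (0:E) (R + 1)) 0 with hM
  have hM0 : 0 ≤ M := mass_plateau_nonneg _ _
  have hL := hs.locMass hF
  have hmeas : ∀ t, 0 ≤ t → (μ t univ).toReal ≤ M := by
    intro t ht
    have h1 := measure_le_mass hF hs (R' := R + 1) (by linarith) (by linarith) ht
    have h2 := ENNReal.toReal_mono ENNReal.ofReal_ne_top h1
    rwa [ENNReal.toReal_ofReal hM0] at h2
  -- bound of dΨ
  obtain ⟨L, hLb⟩ := (isCompact_Icc.prod (isCompact_closedBall (0:E) R)).exists_bound_of_continuousOn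
    hΨ.cont
  have hLb' : ∀ t ∈ Icc 0 T, ∀ x ∈ closedBall (0:E) R, |dΨ t x| ≤ |L| := by
    intro t ht x hx
    exact (hLb (t, x) ⟨ht, hx⟩).trans (le_abs_self L)
  have hlip : ∀ x ∈ closedBall (0:E) R, ∀ s ∈ Icc 0 T, ∀ t ∈ Icc 0 T,
      |Ψ s x - Ψ t x| ≤ |L| * |s - t| := by
    intro x hx s hs' t ht
    have := (convex_Icc (0:ℝ) T).norm_image_sub_le_of_norm_hasDerivWithin_le (C := |L|)
      (f := fun s => Ψ s x) (f' := fun s => dΨ s x)
      (fun u hu => (hΨ.deriv x hx u hu).hasDerivWithinAt) (fun u hu => hLb' u hu x hx) ht hs'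
    simpa [Real.norm_eq_abs] using this
  let h : ℝ → ℝ := fun t => mass μ (Ψ t) t
  -- difference of integrals of Ψ s and Ψ t at time u
  have hdiffint : ∀ s ∈ Icc 0 T, ∀ t ∈ Icc 0 T, ∀ u, 0 ≤ u →
      |mass μ (Ψ s) u - mass μ (Ψ t) u| ≤ |L| * |s - t| * M := by
    intro s hs' t ht u hu
    haveI := hs.fin hF hu
    have hfin := hF.finite u hu
    unfold mass
    rw [← integral_sub (integrable_of_flow hfin (hΨ.test s hs').smooth.continuous
      (hΨ.test s hs').compact) (integrable_of_flow hfin (hΨ.test t ht).smooth.continuous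
      (hΨ.test t ht).compact)]
    have h1 : ∀ᵐ x ∂(μ u), ‖Ψ s x - Ψ t x‖ ≤ |L| * |s - t| := by
      filter_upwards [hs.ae hu] with x hx
      exact hlip x hx s hs' t ht
    have h2 := norm_integral_le_of_norm_le_const h1
    rw [Real.norm_eq_abs] at h2
    exact h2.trans (mul_le_mul_of_nonneg_left (hmeas u hu) (by positivity))
  set c' := c + |L| * M with hc'
  have hmono : MonotoneOn (fun t => c' * t - h t) (Icc 0 T) := by
    intro s hs' t ht hst
    have h1 := sub_le_of_upperDeriv (f := mass μ (Ψ s)) hs'.1 (C := c)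
      (fun u hu => (hF.ineq u (hs'.1.trans hu.1) (Ψ s) (hΨ.test s hs')).trans
        (hc s hs' u ⟨hs'.1.trans hu.1, hu.2.trans ht.2⟩)) s (left_mem_Icc.2 hst) t
        (right_mem_Icc.2 hst) hst
    have h2 := (abs_le.1 (hdiffint t ht s hs' t ht.1)).2
    rw [abs_of_nonneg (sub_nonneg.2 hst)] at h2
    simp only [h]
    have h3 : c' * t - c' * s = c * (t - s) + |L| * (t - s) * M := by rw [hc']; ring
    linarith
  -- the derivative of h
  have hder : ∀ᵐ t : ℝ, t ∈ Ioo 0 T → DifferentiableAt ℝ h t ∧ deriv h t ≤ 0 := by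
    filter_upwards [hmono.ae_differentiableWithinAt_of_mem, hinf, ae_reg hF hL,
      ae_diff_cut hF hL (0:E) (r := 2 * (R + 1) + 1) (by linarith)] with t h1 h2 h3 h4 htI
    have ht0 : 0 < t := htI.1
    have htI' : t ∈ Icc 0 T := ⟨htI.1.le, htI.2.le⟩
    have hd1 := (h1 htI').differentiableAt (Icc_mem_nhds htI.1 htI.2)
    have hd : DifferentiableAt ℝ h t := by
      have : DifferentiableAt ℝ (fun t => c' * t - (c' * t - h t)) t :=
        ((differentiableAt_id).const_mul _).sub hd1
      simpa using this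
    refine ⟨hd, ?_⟩
    obtain ⟨N0, hN0⟩ := exists_nat_ge (2 * (2 * (R + 1) + 1) + 1)
    obtain ⟨H, hR⟩ := h3 ht0 N0
    set V : Set E := ball (0:E) ((N0:ℝ) + 1) with hV
    have hVb : closedBall (0:E) (2 * (2 * (R + 1) + 1) + 1) ⊆ V :=
      closedBall_subset_ball (by linarith)
    have hR' : Reg (μ t) (ν t) V H := hR
    have hneg := h2 htI V H hR' hVb
    have htest := hΨ.test t htI'
    have hsV : tsupport (Ψ t) ⊆ V := (hsupp t htI').trans (ball_subset_closedBall.trans hVb)
    have hub := UB_flow hF ht0 hR' htest hsV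
    have hcont := integral_continuousAt hF hs ht0 hR' hRp
      ((closedBall_subset_closedBall (by linarith)).trans hVb) (h4 ht0) (hΨ.smooth t htI')
    -- upper bound for h
    have hubh : UB h t (rhs (μ t) (Ψ t) H + ∫ x, dΨ t x ∂(μ t)) := by
      intro ε hε
      -- uniform continuity of dΨ
      have huc := (isCompact_Icc.prod (isCompact_closedBall (0:E) R)).uniformContinuousOn_of_continuous
        hΨ.cont
      rw [Metric.uniformContinuousOn_iff] at huc
      obtain ⟨ρ, hρ, hρ2⟩ := huc (ε / (4 * (M + 1))) (by positivity)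
      have e1 := hub (ε / 4) (by positivity)
      have e2 := Metric.tendsto_nhds.1 hcont (ε / 4) (by positivity)
      filter_upwards [e1, e2.filter_mono nhdsWithin_le_nhds,
        (Icc_mem_nhds htI.1 htI.2 : Icc 0 T ∈ 𝓝 t) |> mem_nhdsWithin_of_mem_nhds,
        mem_nhdsWithin_of_mem_nhds (ball_mem_nhds t hρ), self_mem_nhdsWithin]
        with s f1 f2 f3 f4 f5
      have hne : s - t ≠ 0 := sub_ne_zero.2 f5
      have hs0 : 0 ≤ s := f3.1
      haveI := hs.fin hF hs0
      have hfin := hF.finite s hs0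
      -- split
      have hsplit : (h s - h t) / (s - t) = (mass μ (Ψ t) s - mass μ (Ψ t) t) / (s - t) +
          (mass μ (Ψ s) s - mass μ (Ψ t) s) / (s - t) := by
        simp only [h]; rw [← add_div]; congr 1; ring
      rw [hsplit]
      have i1 := integrable_of_flow hfin (hΨ.test s f3).smooth.continuous (hΨ.test s f3).compact
      have i2 := integrable_of_flow hfin htest.smooth.continuous htest.compact
      have i3 : Integrable (fun x => dΨ t x) (μ s) := by
        refine Integrable.mono' (integrable_const |L|)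
          (hΨ.smooth t htI').continuous.aestronglyMeasurable ?_
        filter_upwards [hs.ae hs0] with x hx
        exact hLb' t htI' x hx
      have hsecond : (mass μ (Ψ s) s - mass μ (Ψ t) s) / (s - t) ≤
          ∫ x, dΨ t x ∂(μ s) + ε / 4 := by
        have h5 : (mass μ (Ψ s) s - mass μ (Ψ t) s) / (s - t) =
            ∫ x, (Ψ s x - Ψ t x) / (s - t) ∂(μ s) := by
          unfold mass
          rw [← integral_sub i1 i2, integral_div]
        rw [h5]
        have h6 : ∀ᵐ x ∂(μ s), (Ψ s x - Ψ t x) / (s - t) ≤ dΨ t x + ε / (4 * (M + 1)) := by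
          filter_upwards [hs.ae hs0] with x hx
          -- mean value theorem
          have hmv : ∃ ξ ∈ Icc 0 T, |ξ - t| ≤ |s - t| ∧ (Ψ s x - Ψ t x) / (s - t) = dΨ ξ x := by
            rcases lt_or_gt_of_ne f5 with hlt | hgt
            · obtain ⟨ξ, hξ, hξ2⟩ := exists_hasDerivAt_eq_slope (fun s => Ψ s x) (fun s => dΨ s x) hlt
                (fun u hu => (hΨ.deriv x hx u ⟨f3.1.trans hu.1, hu.2.trans htI'.2⟩).continuousAt.continuousWithinAt)
                (fun u hu => hΨ.deriv x hx u ⟨f3.1.trans hu.1.le, hu.2.le.trans htI'.2⟩)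
              refine ⟨ξ, ⟨f3.1.trans hξ.1.le, hξ.2.le.trans htI'.2⟩, ?_, ?_⟩
              · rw [abs_of_neg (by linarith [hξ.2]), abs_of_neg (by linarith)]
                linarith [hξ.1]
              · rw [hξ2, ← neg_div_neg_eq]; congr 1 <;> ring
            · obtain ⟨ξ, hξ, hξ2⟩ := exists_hasDerivAt_eq_slope (fun s => Ψ s x) (fun s => dΨ s x) hgt
                (fun u hu => (hΨ.deriv x hx u ⟨htI'.1.trans hu.1, hu.2.trans f3.2⟩).continuousAt.continuousWithinAt)
                (fun u hu => hΨ.deriv x hx u ⟨htI'.1.trans hu.1.le, hu.2.le.trans f3.2⟩)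
              refine ⟨ξ, ⟨htI'.1.trans hξ.1.le, hξ.2.le.trans f3.2⟩, ?_, hξ2.symm⟩
              rw [abs_of_pos (by linarith [hξ.1]), abs_of_pos (by linarith)]
              linarith [hξ.2]
          obtain ⟨ξ, hξI, hξt, hξ⟩ := hmv
          rw [hξ]
          have h7 := hρ2 (ξ, x) ⟨hξI, hx⟩ (t, x) ⟨htI', hx⟩ (by
            rw [Prod.dist_eq]
            simp only [dist_self]
            rw [max_lt_iff]
            refine ⟨?_, hρ⟩
            rw [Real.dist_eq]
            exact lt_of_le_of_lt hξt (by simpa [Real.dist_eq] using mem_ball.1 f4))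
          rw [Real.dist_eq] at h7
          have := (abs_lt.1 h7).2
          simp only at this
          linarith
        have i4 : Integrable (fun x => dΨ t x + ε / (4 * (M + 1))) (μ s) :=
          i3.add (integrable_const _)
        have i5 : Integrable (fun x => (Ψ s x - Ψ t x) / (s - t)) (μ s) := (i1.sub i2).div_const _
        have h8 := integral_mono_ae i5 i4 h6
        rw [integral_add i3 (integrable_const _), integral_const, smul_eq_mul] at h8
        have h9 : (μ s).real univ * (ε / (4 * (M + 1))) ≤ ε / 4 := by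
          have h10 : (μ s).real univ ≤ M := hmeas s hs0
          have h11 : (μ s).real univ * (ε / (4 * (M + 1))) ≤ M * (ε / (4 * (M + 1))) :=
            mul_le_mul_of_nonneg_right h10 (by positivity)
          have h12 : M * (ε / (4 * (M + 1))) ≤ ε / 4 := by
            rw [mul_div_assoc', div_le_div_iff₀ (by positivity) (by norm_num)]
            nlinarith
          linarith
        linarith
      rw [Real.dist_eq] at f2
      have f6 := (abs_lt.1 f2).2
      linarith
    have hfinal := (LB_of_hasDerivAt hd.hasDerivAt).le_UB hubh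
    linarith
  -- conclusion
  rcases hT.eq_or_lt with rfl | hTp
  · exact le_rfl
  have hm' : MonotoneOn (fun t => c' * t - h t) (uIcc 0 T) := by rwa [uIcc_of_le hT]
  have hi := hm'.intervalIntegrable_deriv
  have hle := hm'.intervalIntegral_deriv_mem_uIcc
  have hnn : 0 ≤ (fun t => c' * t - h t) T - (fun t => c' * t - h t) 0 :=
    sub_nonneg.2 (hm' left_mem_uIcc right_mem_uIcc hT)
  rw [uIcc_of_le hnn] at hle
  have hint : ∫ t in (0:ℝ)..T, c' ≤ ∫ t in (0:ℝ)..T, deriv (fun t => c' * t - h t) t := by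
    apply intervalIntegral.integral_mono_ae_restrict hT intervalIntegrable_const hi
    rw [Filter.EventuallyLE, ae_restrict_iff' measurableSet_Icc]
    have hne : ∀ᵐ τ : ℝ, τ ≠ 0 ∧ τ ≠ T := by
      have a1 : ∀ᵐ τ : ℝ, τ ≠ 0 := by simp [ae_iff, measure_singleton]
      have a2 : ∀ᵐ τ : ℝ, τ ≠ T := by simp [ae_iff, measure_singleton]
      exact a1.and a2
    filter_upwards [hder, hne] with t h1 h2 ht
    obtain ⟨h3, h4⟩ := h1 ⟨lt_of_le_of_ne ht.1 (Ne.symm h2.1), lt_of_le_of_ne ht.2 h2.2⟩
    have hd2 : HasDerivAt (fun t => c' * t - h t) (c' * 1 - deriv h t) t :=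
      ((hasDerivAt_id t).const_mul c').sub h3.hasDerivAt
    rw [hd2.deriv]
    linarith
  rw [intervalIntegral.integral_const, smul_eq_mul, sub_zero] at hint
  have h5 := hle.2
  simp only [mul_zero] at h5
  have h6 : mass μ (Ψ T) T = h T := rfl
  have h7 : mass μ (Ψ 0) 0 = h 0 := rfl
  rw [h6, h7]
  linarith [mul_comm T c']

end MP247
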