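import Pool.Agent.Lib.MP_247ac7.Barrier2
import Pool.Agent.Lib.MP_247ac7.TD

/-! # Barriers: the flow stays in the ball in which it starts -/

open MeasureTheory Filter Topology Metric Set
open scoped RealInnerProductSpace ContDiff

namespace MP247

variable {E : Type*} [NormedAddCommGroup E] [InnerProductSpace ℝ E] [MeasurableSpace E]
  [BorelSpace E] [FiniteDimensional ℝ E] {n : ℕ} {μ : ℝ → Measure E} {ν : ℝ → E → E}

theorem bar_antitone (hdim : Module.finrank ℝ E = n + 1) (hF : IsBrakkeFlow μ ν)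
    (hν : ∀ t x, ‖ν t x‖ = 1) (a : E) (c : ℝ) {s t : ℝ} (hs : 0 ≤ s) (hst : s ≤ t) :
    mass μ (bar 4 a (c - 2 * n * t)) t ≤ mass μ (bar 4 a (c - 2 * n * s)) s := by
  have h := sub_le_of_upperDeriv (f := fun s => mass μ (bar 4 a (c - 2 * n * s)) s) hs
    (fun u hu => bar_upperDeriv hdim hF hν a c (hs.trans hu.1)) s (left_mem_Icc.2 hst) t
    (right_mem_Icc.2 hst) hst
  simp only [zero_mul, tsub_le_iff_right, zero_add] at h
  exact h

/-- from a vanishing integral to a null set -/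
theorem null_of_mass {φ : E → ℝ} (hφ : Test φ) {m : Measure E} (hfin : IsLocallyFiniteMeasure m)
    (h : ∫ x, φ x ∂m ≤ 0) : m {x | 0 < φ x} = 0 := by
  have hi : Integrable φ m := hφ.smooth.continuous.integrable_of_hasCompactSupport hφ.compact
  have h0 : ∫ x, φ x ∂m = 0 := le_antisymm h (integral_nonneg hφ.nonneg)
  have h1 := (integral_eq_zero_iff_of_nonneg hφ.nonneg hi).1 h0
  have h2 : ∀ᵐ x ∂m, ¬ 0 < φ x := by
    filter_upwards [h1] with x hx
    rw [hx]; simp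
  rw [ae_iff] at h2
  simpa using h2

/-- an empty ball stays empty while it shrinks -/
theorem empty_ball (hdim : Module.finrank ℝ E = n + 1) (hF : IsBrakkeFlow μ ν)
    (hν : ∀ t x, ‖ν t x‖ = 1) {a : E} {ρ r s t : ℝ} (hρ : 0 ≤ ρ) (hs : 0 ≤ s) (hst : s ≤ t)
    (hμ : μ s (ball a ρ) = 0) (hr : r ^ 2 ≤ ρ ^ 2 - 2 * n * (t - s)) : μ t (ball a r) = 0 := by
  have h1 := bar_antitone hdim hF hν a (ρ ^ 2 + 2 * n * s) hs hst
  have e1 : ρ ^ 2 + 2 * n * s - 2 * n * s = ρ ^ 2 := by ring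
  have e2 : ρ ^ 2 + 2 * n * s - 2 * n * t = ρ ^ 2 - 2 * n * (t - s) := by ring
  rw [e1, e2] at h1
  have h2 : mass μ (bar 4 a (ρ ^ 2)) s = 0 := by
    unfold mass
    apply integral_eq_zero_of_ae
    have h3 : ∀ᵐ x ∂(μ s), x ∉ ball a ρ := by
      rw [ae_iff]; simp only [not_not]; exact hμ
    filter_upwards [h3] with x hx
    by_contra hc
    apply hx
    have h4 := bar_support (by norm_num) a (ρ ^ 2) hc
    rw [mem_ball, dist_eq_norm]
    exact lt_of_pow_lt_pow_left₀ 2 hρ h4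
  rw [h2] at h1
  have ht := null_of_mass (bar_test contDiff_pp4 (by norm_num) a (ρ ^ 2 - 2 * n * (t - s)))
    (hF.finite t (hs.trans hst)) h1
  refine measure_mono_null (fun x hx => ?_) ht
  rw [mem_ball, dist_eq_norm] at hx
  have h5 : ‖x - a‖ ^ 2 < r ^ 2 := pow_lt_pow_left₀ hx (norm_nonneg _) (by norm_num)
  exact bar_pos (h5.trans_le hr)

/-- the test function outside a ball -/
noncomputable def outer (R : ℝ) (x : E) : ℝ := pp 4 (‖x‖ ^ 2 - R ^ 2) * cut (0:E) (2 * (R + 2)) x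

theorem outer_test {R : ℝ} (hR : 0 ≤ R) : Test (outer (E := E) R) := by
  have hc := cut_test (0:E) (r := 2 * (R + 2)) (by linarith)
  have h1 : ContDiff ℝ 2 fun x : E => pp 4 (‖x‖ ^ 2 - R ^ 2) :=
    contDiff_pp4.comp ((contDiff_id.norm_sq ℝ).sub contDiff_const)
  exact ⟨h1.mul hc.smooth, hc.compact.mul_left,
    fun x => mul_nonneg (pp_nonneg _ _) (cut_nonneg _ _ _)⟩

theorem fderiv_outer {R : ℝ} (hR : 0 ≤ R) {x : E} (hx : ‖x‖ ≤ R + 1) (v : E) :
    fderiv ℝ (outer R) x v = 8 * pp 3 (‖x‖ ^ 2 - R ^ 2) * ⟪x, v⟫ := by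
  have h1 : HasFDerivAt (fun y : E => ‖y - 0‖ ^ 2 - R ^ 2) (2 • innerSL ℝ (x - 0)) x :=
    (hasFDerivAt_sq 0 x).sub_const _
  have h2 := (hasDerivAt_pp (k := 3) (by norm_num) (‖x - 0‖ ^ 2 - R ^ 2)).comp_hasFDerivAt x h1
  have h3 : outer (E := E) R =ᶠ[𝓝 x] (pp (3 + 1) ∘ fun y : E => ‖y - 0‖ ^ 2 - R ^ 2) := by
    have hb : ball x 1 ∈ 𝓝 x := ball_mem_nhds x one_pos
    filter_upwards [hb] with y hy
    unfold outer
    rw [cut_eq_one (by linarith)]
    · simp
    · rw [dist_zero_right]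
      rw [mem_ball, dist_eq_norm] at hy
      have := norm_le_norm_add_norm_sub' y x
      have h4 : ‖y‖ ≤ ‖x‖ + ‖y - x‖ := by
        have := norm_add_le x (y - x)
        rwa [add_sub_cancel] at this
      linarith
  rw [h3.fderiv_eq, h2.fderiv]
  simp only [ContinuousLinearMap.smul_apply, innerSL_apply_apply, smul_eq_mul, nsmul_eq_mul,
    sub_zero]
  push_cast
  ring

theorem brakkeB_outer (hdim : Module.finrank ℝ E = n + 1) {m : Measure E} {v : E → E}
    (hv : ∀ x, ‖v x‖ = 1) {R : ℝ} (hR : 0 ≤ R)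
    (h1 : m (closedBall (0:E) (R + 1))ᶜ = 0) :
    brakkeB m v (outer R) ≤ ((0:ℝ) : EReal) := by
  have hae : ∀ᵐ x ∂m, ‖x‖ ≤ R + 1 := by
    rw [ae_iff]
    refine measure_mono_null (fun x hx => ?_) h1
    simpa using hx
  refine iSup₂_le fun H hH => ?_
  rw [EReal.coe_le_coe_iff]
  have hδ : ∀ k : ℕ, (0:ℝ) < 1 / ((k:ℝ) + 1) := fun k => by positivity
  have hR2 : 0 < R + 2 := by linarith
  have hχ := cut_test (0:E) hR2
  set X : ℕ → E → E := fun k x =>
    (8 * pp 3 (‖x‖ ^ 2 - R ^ 2 - 1 / ((k:ℝ) + 1)) * cut (0:E) (R + 2) x) • x with hXdef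
  have hsup2 : ∀ k, Function.support (X k) ⊆ Function.support (cut (0:E) (R + 2)) := by
    intro k x hx h0
    apply hx
    simp only [hXdef]
    rw [h0, mul_zero, zero_smul]
  have hXsup : ∀ k, tsupport (X k) ⊆
      {x | R ^ 2 + 1 / ((k:ℝ) + 1) ≤ ‖x‖ ^ 2} ∩ closedBall (0:E) (2 * (R + 2)) := by
    intro k
    apply subset_inter
    · apply closure_minimal
      · intro x hx
        by_contra h
        simp only [mem_setOf_eq, not_le] at h
        apply hx
        simp only [hXdef]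
        rw [pp_of_nonpos (by norm_num) (by linarith)]; simp
      · exact isClosed_le continuous_const (by fun_prop)
    · exact (closure_mono (hsup2 k)).trans (cut_tsupport hR2)
  refine rhs_le_of_approx (outer_test hR) hH.1 hH.2 le_rfl X
    (fun k x => rat (-R ^ 2) (1 / ((k:ℝ) + 1)) (-‖x‖ ^ 2)) ?_ ?_ ?_ ?_ ?_ ?_ ?_ ?_
  · intro k
    simp only [hXdef]
    have h1 : ContDiff ℝ 1 fun x : E => pp 3 (‖x‖ ^ 2 - R ^ 2 - 1 / ((k:ℝ) + 1)) :=
      (contDiff_pp3.of_le (by norm_num)).comp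
        (((contDiff_id.norm_sq ℝ).sub contDiff_const).sub contDiff_const)
    exact ((contDiff_const.mul h1).mul (hχ.smooth.of_le (by norm_num))).smul contDiff_id
  · intro k
    exact hχ.compact.mono (hsup2 k)
  · intro k x hx
    obtain ⟨h2, h3⟩ := hXsup k hx
    simp only [mem_setOf_eq] at h2 ⊢
    have := hδ k
    unfold outer
    rw [cut_eq_one (by linarith) (mem_closedBall.1 h3), mul_one]
    exact pp_pos (by linarith)
  · intro k
    unfold rat
    have h1 : Measurable fun x : E => pp 3 (-R ^ 2 - 1 / ((k:ℝ) + 1) - -‖x‖ ^ 2) :=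
      ((pp_continuous 3).comp (by fun_prop : Continuous fun x : E =>
        -R ^ 2 - 1 / ((k:ℝ) + 1) - -‖x‖ ^ 2)).measurable
    have h2 : Measurable fun x : E => pp 3 (-R ^ 2 - -‖x‖ ^ 2) :=
      ((pp_continuous 3).comp (by fun_prop : Continuous fun x : E =>
        -R ^ 2 - -‖x‖ ^ 2)).measurable
    exact h1.div h2
  · intro k x
    have := rat_mem (c := -R ^ 2) (hδ k).le (-‖x‖ ^ 2)
    rw [abs_of_nonneg this.1]; exact this.2
  · intro k
    filter_upwards [hae] with x hx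
    simp only [hXdef]
    rw [fderiv_outer hR hx, real_inner_smul_left, cut_eq_one hR2 (by
      rw [dist_zero_right]; linarith)]
    have h2 := rat_mul (c := -R ^ 2) (hδ k).le (-‖x‖ ^ 2)
    have e1 : -R ^ 2 - -‖x‖ ^ 2 = ‖x‖ ^ 2 - R ^ 2 := by ring
    have e2 : -R ^ 2 - 1 / ((k:ℝ) + 1) - -‖x‖ ^ 2 = ‖x‖ ^ 2 - R ^ 2 - 1 / ((k:ℝ) + 1) := by ring
    rw [e1, e2] at h2
    rw [← h2]
    ring
  · filter_upwards [hae] with x hx
    rcases lt_or_ge (-‖x‖ ^ 2) (-R ^ 2) with h | h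
    · have := (rat_tendsto h).mul_const (fderiv ℝ (outer R) x (H x))
      rwa [one_mul] at this
    · rw [fderiv_outer hR hx, pp_of_nonpos (by norm_num) (by linarith)]
      simp
  · intro k
    rw [neg_nonpos]
    apply integral_nonneg_of_ae
    filter_upwards [hae] with x hx
    have hG : HasDerivAt (fun z : ℝ => 8 * pp 3 (z - R ^ 2 - 1 / ((k:ℝ) + 1)))
        (24 * pp 2 (‖x - 0‖ ^ 2 - R ^ 2 - 1 / ((k:ℝ) + 1))) (‖x - 0‖ ^ 2) := by
      have h1 : HasDerivAt (fun z : ℝ => z - R ^ 2 - 1 / ((k:ℝ) + 1)) 1 (‖x - 0‖ ^ 2) :=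
        ((hasDerivAt_id _).sub_const _).sub_const _
      have h2 := ((hasDerivAt_pp (k := 2) (by norm_num)
        (‖x - 0‖ ^ 2 - R ^ 2 - 1 / ((k:ℝ) + 1))).comp (‖x - 0‖ ^ 2) h1).const_mul (8 : ℝ)
      have h4 : (8 : ℝ) * ((((2:ℕ) : ℝ) + 1) *
          pp 2 (‖x - 0‖ ^ 2 - R ^ 2 - 1 / ((k:ℝ) + 1)) * 1) =
          24 * pp 2 (‖x - 0‖ ^ 2 - R ^ 2 - 1 / ((k:ℝ) + 1)) := by
        push_cast; ring
      rw [← h4]
      exact h2
    have hXloc : X k =ᶠ[𝓝 x] fun y =>
        (fun z : ℝ => 8 * pp 3 (z - R ^ 2 - 1 / ((k:ℝ) + 1))) (‖y - 0‖ ^ 2) • (y - 0) := by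
      have hb : ball x 1 ∈ 𝓝 x := ball_mem_nhds x one_pos
      filter_upwards [hb] with y hy
      simp only [hXdef, sub_zero]
      rw [cut_eq_one hR2, mul_one]
      rw [dist_zero_right]
      rw [mem_ball, dist_eq_norm] at hy
      have h4 : ‖y‖ ≤ ‖x‖ + ‖y - x‖ := by
        have := norm_add_le x (y - x)
        rwa [add_sub_cancel] at this
      linarith
    have h5 := tdiv_radial hdim 0 x (v x) hG (hv x) hXloc
    rw [h5]
    have h2 := pp_nonneg 2 (‖x - 0‖ ^ 2 - R ^ 2 - 1 / ((k:ℝ) + 1))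
    have h3 := pp_nonneg 3 (‖x - 0‖ ^ 2 - R ^ 2 - 1 / ((k:ℝ) + 1))
    have h4 := inner_sq_le (x - 0) (v x) (hv x)
    have h6 : 0 ≤ 2 * (24 * pp 2 (‖x - 0‖ ^ 2 - R ^ 2 - 1 / ((k:ℝ) + 1))) *
        (‖x - 0‖ ^ 2 - ⟪x - 0, v x⟫ ^ 2) := mul_nonneg (by positivity) (by linarith)
    have h7 : 0 ≤ (n:ℝ) * (8 * pp 3 (‖x - 0‖ ^ 2 - R ^ 2 - 1 / ((k:ℝ) + 1))) := by positivity
    simp only [Pi.zero_apply]
    linarith

theorem outer_step (hdim : Module.finrank ℝ E = n + 1) (hF : IsBrakkeFlow μ ν)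
    (hν : ∀ t x, ‖ν t x‖ = 1) {R s t : ℝ} (hR : 0 ≤ R) (hs : 0 ≤ s) (hst : s ≤ t)
    (h0 : μ s (closedBall (0:E) R)ᶜ = 0)
    (h1 : ∀ u ∈ Icc s t, μ u (closedBall (0:E) (R + 1))ᶜ = 0) :
    μ t (closedBall (0:E) R)ᶜ = 0 := by
  have ht : 0 ≤ t := hs.trans hst
  have h2 := sub_le_of_upperDeriv (f := mass μ (outer (E := E) R)) hs (C := 0)
    (fun u hu => (hF.ineq u (hs.trans hu.1) _ (outer_test hR)).trans
      (brakkeB_outer hdim (hν u) hR (h1 u hu))) s (left_mem_Icc.2 hst) t (right_mem_Icc.2 hst) hst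
  have h3 : mass μ (outer (E := E) R) s = 0 := by
    unfold mass
    apply integral_eq_zero_of_ae
    have h4 : ∀ᵐ x ∂(μ s), ‖x‖ ≤ R := by
      rw [ae_iff]
      refine measure_mono_null (fun x hx => ?_) h0
      simpa using hx
    filter_upwards [h4] with x hx
    have h5 : ‖x‖ ^ 2 ≤ R ^ 2 := pow_le_pow_left₀ (norm_nonneg _) hx 2
    unfold outer
    rw [pp_of_nonpos (by norm_num) (by linarith), zero_mul]
    rfl
  have h4 : mass μ (outer (E := E) R) t ≤ 0 := by linarith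
  have h5 := null_of_mass (outer_test hR) (hF.finite t ht) h4
  refine measure_mono_null (fun x hx => ?_) (measure_union_null h5 (h1 t (right_mem_Icc.2 hst)))
  simp only [mem_compl_iff, mem_closedBall, dist_zero_right, not_le, mem_union,
    mem_setOf_eq] at hx ⊢
  rcases lt_or_ge (R + 1) ‖x‖ with h | h
  · right; exact h
  · left
    unfold outer
    rw [cut_eq_one (by linarith) (by rw [dist_zero_right]; linarith), mul_one]
    have : R ^ 2 < ‖x‖ ^ 2 := pow_lt_pow_left₀ hx hR (by norm_num)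
    exact pp_pos (by linarith)

/-- **A flow which starts in a ball stays in it.** -/
theorem inBall_of_initial (hn : 1 ≤ n) (hdim : Module.finrank ℝ E = n + 1)
    (hF : IsBrakkeFlow μ ν) (hν : ∀ t x, ‖ν t x‖ = 1) {R : ℝ} (hR : 0 ≤ R)
    (h0 : μ 0 (closedBall (0:E) R)ᶜ = 0) : InBall R μ := by
  have hn0 : (0:ℝ) < n := by exact_mod_cast hn
  set τ : ℝ := 1 / (4 * n) with hτ
  have hτ0 : 0 < τ := by positivity
  have hP : ∀ k : ℕ, ∀ t, 0 ≤ t → t ≤ k * τ → μ t (closedBall (0:E) R)ᶜ = 0 := by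
    intro k
    induction k with
    | zero =>
      intro t ht0 ht1
      have : t = 0 := by
        simp only [Nat.cast_zero, zero_mul] at ht1
        linarith
      rw [this]; exact h0
    | succ k ih =>
      intro t ht0 ht1
      rcases le_or_gt t (k * τ) with h | h
      · exact ih t ht0 h
      have hs0 : (0:ℝ) ≤ k * τ := by positivity
      have hs := ih (k * τ) hs0 le_rfl
      apply outer_step hdim hF hν hR hs0 h.le hs
      intro u hu
      apply measure_null_of_locally_null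
      intro x hx
      simp only [mem_compl_iff, mem_closedBall, dist_zero_right, not_le] at hx
      refine ⟨ball x (1 / 2), mem_nhdsWithin_of_mem_nhds (ball_mem_nhds x (by norm_num)), ?_⟩
      have hb : μ (k * τ) (ball x 1) = 0 := by
        refine measure_mono_null (fun y hy => ?_) hs
        simp only [mem_compl_iff, mem_closedBall, dist_zero_right, not_le]
        rw [mem_ball, dist_eq_norm] at hy
        have h4 : ‖x‖ ≤ ‖y‖ + ‖y - x‖ := by
          have := norm_sub_le y (y - x)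
          rwa [sub_sub_cancel] at this
        linarith
      refine empty_ball hdim hF hν zero_le_one hs0 hu.1 hb ?_
      have h5 : u - k * τ ≤ τ := by
        have := hu.2
        push_cast at ht1
        linarith
      have h6 : 2 * n * (u - k * τ) ≤ 2 * n * τ := mul_le_mul_of_nonneg_left h5 (by positivity)
      have h7 : 2 * (n:ℝ) * τ = 1 / 2 := by rw [hτ]; field_simp; norm_num
      linarith
  intro t ht
  obtain ⟨k, hk⟩ := exists_nat_ge (t / τ)
  exact hP k t ht ((div_le_iff₀ hτ0).1 hk)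

end MP247
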