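import Pool.Agent.Lib.MP_247ac7.Real

/-! # Cut-off functions, uniqueness of the mean curvature vector -/

open MeasureTheory Filter Topology Metric Set
open scoped RealInnerProductSpace ContDiff

namespace MP247

variable {E : Type*} [NormedAddCommGroup E] [InnerProductSpace ℝ E] [MeasurableSpace E]
  [BorelSpace E] [FiniteDimensional ℝ E]

section cut

/-- fixed bump: `1` on `B_1`, supported in `B_2` -/
def bump0 : ContDiffBump (0 : E) := ⟨1, 2, one_pos, one_lt_two⟩

omit [MeasurableSpace E] [BorelSpace E] in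
theorem exists_K0 : ∃ K : ℝ, 0 ≤ K ∧ ∀ x : E, ‖fderiv ℝ (bump0 (E := E)) x‖ ≤ K := by
  have hc : HasCompactSupport (fderiv ℝ (bump0 (E := E))) :=
    (bump0 (E := E)).hasCompactSupport.fderiv ℝ
  have hcont : Continuous (fderiv ℝ (bump0 (E := E))) :=
    ((bump0 (E := E)).contDiff (n := 1)).continuous_fderiv one_ne_zero
  obtain ⟨K, hK⟩ := hc.exists_bound_of_continuous hcont
  exact ⟨K, (norm_nonneg _).trans (hK 0), hK⟩

variable (E) in
/-- the gradient bound of the fixed bump -/
noncomputable def K0 : ℝ := (exists_K0 (E := E)).choose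

omit [MeasurableSpace E] [BorelSpace E] in
theorem K0_nonneg : 0 ≤ K0 E := (exists_K0 (E := E)).choose_spec.1

omit [MeasurableSpace E] [BorelSpace E] in
theorem K0_bound (x : E) : ‖fderiv ℝ (bump0 (E := E)) x‖ ≤ K0 E :=
  (exists_K0 (E := E)).choose_spec.2 x

/-- the square root of the cut-off -/
noncomputable def psi (x : E) (r : ℝ) (y : E) : ℝ := bump0 (E := E) (r⁻¹ • (y - x))

/-- the cut-off: `1` on `B_r(x)`, supported in the closed ball of radius `2r` -/
noncomputable def cut (x : E) (r : ℝ) (y : E) : ℝ := psi x r y ^ 2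

omit [MeasurableSpace E] [BorelSpace E] in
theorem psi_contDiff (x : E) (r : ℝ) : ContDiff ℝ 2 (psi x r) :=
  (bump0 (E := E)).contDiff.comp ((contDiff_id.sub contDiff_const).const_smul r⁻¹)

omit [MeasurableSpace E] [BorelSpace E] in
theorem psi_nonneg (x : E) (r : ℝ) (y : E) : 0 ≤ psi x r y := (bump0 (E := E)).nonneg

omit [MeasurableSpace E] [BorelSpace E] in
theorem psi_le_one (x : E) (r : ℝ) (y : E) : psi x r y ≤ 1 := (bump0 (E := E)).le_one

omit [MeasurableSpace E] [BorelSpace E] in
theorem psi_eq_zero {x : E} {r : ℝ} (hr : 0 < r) {y : E} (hy : 2 * r ≤ dist y x) :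
    psi x r y = 0 := by
  apply (bump0 (E := E)).zero_of_le_dist
  show (2:ℝ) ≤ _
  rw [dist_zero_right, norm_smul, norm_inv, Real.norm_of_nonneg hr.le, ← dist_eq_norm,
    inv_mul_eq_div, le_div_iff₀ hr]
  exact hy

omit [MeasurableSpace E] [BorelSpace E] in
theorem psi_eq_one {x : E} {r : ℝ} (hr : 0 < r) {y : E} (hy : dist y x ≤ r) :
    psi x r y = 1 := by
  apply (bump0 (E := E)).one_of_mem_closedBall
  show _ ∈ closedBall (0:E) (1:ℝ)
  rw [mem_closedBall, dist_zero_right, norm_smul, norm_inv, Real.norm_of_nonneg hr.le,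
    ← dist_eq_norm, inv_mul_eq_div, div_le_one hr]
  exact hy

omit [MeasurableSpace E] [BorelSpace E] in
theorem cut_nonneg (x : E) (r : ℝ) (y : E) : 0 ≤ cut x r y := sq_nonneg _

omit [MeasurableSpace E] [BorelSpace E] in
theorem cut_le_one (x : E) (r : ℝ) (y : E) : cut x r y ≤ 1 := by
  unfold cut
  nlinarith [psi_nonneg x r y, psi_le_one x r y]

omit [MeasurableSpace E] [BorelSpace E] in
theorem cut_eq_one {x : E} {r : ℝ} (hr : 0 < r) {y : E} (hy : dist y x ≤ r) :
    cut x r y = 1 := by simp [cut, psi_eq_one hr hy]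

omit [MeasurableSpace E] [BorelSpace E] in
theorem cut_eq_zero {x : E} {r : ℝ} (hr : 0 < r) {y : E} (hy : 2 * r ≤ dist y x) :
    cut x r y = 0 := by simp [cut, psi_eq_zero hr hy]

omit [MeasurableSpace E] [BorelSpace E] in
theorem cut_tsupport {x : E} {r : ℝ} (hr : 0 < r) : tsupport (cut x r) ⊆ closedBall x (2 * r) := by
  apply closure_minimal _ isClosed_closedBall
  intro y hy
  rw [mem_closedBall]
  by_contra hc
  push Not at hc
  exact hy (cut_eq_zero hr hc.le)

omit [MeasurableSpace E] [BorelSpace E] in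
theorem cut_test (x : E) {r : ℝ} (hr : 0 < r) : Test (cut x r) where
  smooth := (psi_contDiff x r).pow 2
  compact := HasCompactSupport.of_support_subset_isCompact (isCompact_closedBall x (2 * r))
    (subset_closure.trans (cut_tsupport hr))
  nonneg := cut_nonneg x r

omit [MeasurableSpace E] [BorelSpace E] in
theorem psi_fderiv_bound (x : E) {r : ℝ} (hr : 0 < r) (y : E) :
    ‖fderiv ℝ (psi x r) y‖ ≤ K0 E / r := by
  have h1 : HasFDerivAt (psi x r)
      ((fderiv ℝ (bump0 (E := E)) (r⁻¹ • (y - x))).comp (r⁻¹ • ContinuousLinearMap.id ℝ E)) y := by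
    have h2 : HasFDerivAt (fun y : E => r⁻¹ • (y - x)) (r⁻¹ • ContinuousLinearMap.id ℝ E) y :=
      ((hasFDerivAt_id y).sub_const x).const_smul r⁻¹
    have h3 : HasFDerivAt (bump0 (E := E)) (fderiv ℝ (bump0 (E := E)) (r⁻¹ • (y - x)))
        (r⁻¹ • (y - x)) :=
      (((bump0 (E := E)).contDiff (n := 1)).differentiable one_ne_zero _).hasFDerivAt
    exact h3.comp y h2
  rw [h1.fderiv]
  calc _ ≤ ‖fderiv ℝ (bump0 (E := E)) (r⁻¹ • (y - x))‖ * ‖r⁻¹ • ContinuousLinearMap.id ℝ E‖ :=
        ContinuousLinearMap.opNorm_comp_le _ _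
    _ ≤ K0 E * r⁻¹ := by
        apply mul_le_mul (K0_bound _) _ (norm_nonneg _) K0_nonneg
        rw [norm_smul, norm_inv, Real.norm_of_nonneg hr.le]
        have := ContinuousLinearMap.norm_id_le (𝕜 := ℝ) (E := E)
        have h4 : (0:ℝ) ≤ r⁻¹ := by positivity
        nlinarith
    _ = K0 E / r := by rw [div_eq_mul_inv]

omit [MeasurableSpace E] [BorelSpace E] in
/-- pointwise bound of the integrand for the cut-off -/
theorem cut_integrand (x : E) {r : ℝ} (hr : 0 < r) (y v : E) :
    -(cut x r y * ‖v‖ ^ 2) + fderiv ℝ (cut x r) y v ≤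
      (closedBall x (2 * r)).indicator (fun _ => (K0 E / r) ^ 2) y := by
  by_cases hy : y ∈ closedBall x (2 * r)
  · rw [indicator_of_mem hy]
    have h1 : HasFDerivAt (cut x r) ((2 * psi x r y) • fderiv ℝ (psi x r) y) y := by
      have h0 := (((psi_contDiff x r).differentiable (by norm_num)) y).hasFDerivAt.pow 2
      have h0' : HasFDerivAt (cut x r) ((2 • psi x r y ^ (2 - 1)) • fderiv ℝ (psi x r) y) y := h0
      convert h0' using 2
      simp
    rw [h1.fderiv]
    have h2 := psi_fderiv_bound x hr y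
    have h3 : |fderiv ℝ (psi x r) y v| ≤ K0 E / r * ‖v‖ := by
      have := (fderiv ℝ (psi x r) y).le_opNorm v
      rw [Real.norm_eq_abs] at this
      exact this.trans (mul_le_mul_of_nonneg_right h2 (norm_nonneg _))
    have h4 := psi_nonneg x r y
    simp only [ContinuousLinearMap.smul_apply, smul_eq_mul, cut]
    have h5 := (abs_le.1 h3).2
    have h6 : 2 * psi x r y * fderiv ℝ (psi x r) y v ≤ 2 * psi x r y * (K0 E / r * ‖v‖) :=
      mul_le_mul_of_nonneg_left h5 (by positivity)
    nlinarith [sq_nonneg (psi x r y * ‖v‖ - K0 E / r)]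
  · rw [indicator_of_notMem hy]
    have h0 : y ∉ tsupport (cut x r) := fun h => hy (cut_tsupport hr h)
    have h1 : cut x r y = 0 := image_eq_zero_of_notMem_tsupport h0
    have h2 : fderiv ℝ (cut x r) y = 0 := by
      have h3 : cut x r =ᶠ[𝓝 y] 0 := notMem_tsupport_iff_eventuallyEq.1 h0
      rw [h3.fderiv_eq]; simp
    simp [h1, h2]

end cut

section unique

variable {μ : Measure E} {ν : E → E}

omit [BorelSpace E] [FiniteDimensional ℝ E] in
theorem IsMeanCurv.mono {U V : Set E} {H : E → E} (h : IsMeanCurv μ ν U H) (hV : V ⊆ U) :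
    IsMeanCurv μ ν V H where
  locInt := h.locInt.mono_set hV
  firstVar X h1 h2 h3 := h.firstVar X h1 h2 (h3.trans hV)

omit [InnerProductSpace ℝ E] [FiniteDimensional ℝ E] in
theorem integrable_smul_aux [NormedSpace ℝ E] {U : Set E} {H : E → E} (h : LocallyIntegrableOn H U μ) {g : E → ℝ}
    (hg : Continuous g) (hc : HasCompactSupport g) (hU : tsupport g ⊆ U) :
    Integrable (fun x => g x • H x) μ := by
  have h1 : IntegrableOn H (tsupport g) μ := h.integrableOn_compact_subset hU hc
  have h2 : IntegrableOn (fun x => g x • H x) (tsupport g) μ :=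
    h1.continuousOn_smul hg.continuousOn hc
  rw [← integrableOn_iff_integrable_of_support_subset (s := tsupport g)]
  · exact h2
  · intro x hx
    apply subset_tsupport g
    intro h0
    exact hx (by simp [h0])

/-- Uniqueness of the generalised mean curvature vector. -/
theorem IsMeanCurv.unique {U V : Set E} (hU : IsOpen U) (hV : IsOpen V) {H H' : E → E}
    (h : IsMeanCurv μ ν U H) (h' : IsMeanCurv μ ν V H') :
    ∀ᵐ x ∂μ, x ∈ U ∩ V → H x = H' x := by
  have hUV : IsOpen (U ∩ V) := hU.inter hV
  have l1 : LocallyIntegrableOn H (U ∩ V) μ := h.locInt.mono_set inter_subset_left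
  have l2 : LocallyIntegrableOn H' (U ∩ V) μ := h'.locInt.mono_set inter_subset_right
  have key := hUV.ae_eq_zero_of_integral_contDiff_smul_eq_zero (μ := μ)
    (f := fun x => H x - H' x) (l1.sub l2) (by
    intro g hg hgc hgs
    have i1 := integrable_smul_aux l1 hg.continuous hgc hgs
    have i2 := integrable_smul_aux l2 hg.continuous hgc hgs
    have i3 : Integrable (fun x => g x • (H x - H' x)) μ := by
      refine (i1.sub i2).congr (Eventually.of_forall fun x => ?_)
      simp [smul_sub]
    set v := ∫ x, g x • (H x - H' x) ∂μ with hv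
    have e1 : ⟪v, v⟫ = 0 := by
      have e2 : ⟪v, v⟫ = ∫ x, ⟪v, g x • (H x - H' x)⟫ ∂μ := by
        rw [hv, integral_inner i3]
      rw [e2]
      have hX1 : ContDiff ℝ 1 (fun x : E => g x • v) := (hg.of_le (by exact_mod_cast le_top)).smul contDiff_const
      have hX2 : HasCompactSupport (fun x : E => g x • v) := hgc.smul_right
      have hX3 : tsupport (fun x : E => g x • v) ⊆ tsupport g := by
        apply closure_mono
        intro x hx h0
        exact hx (by simp [h0])
      have f1 := h.firstVar _ hX1 hX2 ((hX3.trans hgs).trans inter_subset_left)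
      have f2 := h'.firstVar _ hX1 hX2 ((hX3.trans hgs).trans inter_subset_right)
      have f3 : ∫ x, ⟪g x • v, H x⟫ ∂μ = ∫ x, ⟪g x • v, H' x⟫ ∂μ := by linarith
      have i4 : Integrable (fun x => ⟪g x • v, H x⟫) μ := by
        have := i1.const_inner (𝕜 := ℝ) v
        refine this.congr (Eventually.of_forall fun x => ?_)
        simp [real_inner_smul_left, real_inner_smul_right]
      have i5 : Integrable (fun x => ⟪g x • v, H' x⟫) μ := by
        have := i2.const_inner (𝕜 := ℝ) v
        refine this.congr (Eventually.of_forall fun x => ?_)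
        simp [real_inner_smul_left, real_inner_smul_right]
      have f4 : ∫ x, ⟪v, g x • (H x - H' x)⟫ ∂μ =
          ∫ x, (⟪g x • v, H x⟫ - ⟪g x • v, H' x⟫) ∂μ := by
        congr 1; funext x
        simp [real_inner_smul_left, real_inner_smul_right, inner_sub_right]
        ring
      rw [f4, integral_sub i4 i5, f3, sub_self]
    exact inner_self_eq_zero.1 e1)
  filter_upwards [key] with x hx hxU
  exact sub_eq_zero.1 (hx hxU)

end unique

end MP247
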