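import Mathlib

/-!
# Brakke flows of hypersurfaces and the failure set of equality (definitions)

Everything is stated for a family `μ t` (`t ≥ 0`) of Borel measures on a Euclidean space together
with a family `ν t` of unit vector fields (the normal of the approximate tangent hyperplane), i.e.
for a family of varifolds whose tangent plane at `x` is the orthogonal complement of `ν t x`.
-/

open MeasureTheory Filter Topology Metric Set
open scoped RealInnerProductSpace

namespace MP247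

variable {E : Type*} [NormedAddCommGroup E] [InnerProductSpace ℝ E] [MeasurableSpace E]

/-- Admissible test functions: `C²`, compactly supported, nonnegative. -/
structure Test (φ : E → ℝ) : Prop where
  smooth : ContDiff ℝ 2 φ
  compact : HasCompactSupport φ
  nonneg : ∀ x, 0 ≤ φ x

/-- Divergence of `X` at `x` along the hyperplane orthogonal to the unit vector `v`. -/
noncomputable def tdiv (X : E → E) (x v : E) : ℝ :=
  LinearMap.trace ℝ E (fderiv ℝ X x : E →ₗ[ℝ] E) - ⟪fderiv ℝ X x v, v⟫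

/-- `H` is the generalised mean curvature vector of the varifold `(μ, ν)` on the open set `U`:
`∫ div_M X dμ = - ∫ X · H dμ` for all `C¹` vector fields with compact support in `U`. -/
structure IsMeanCurv (μ : Measure E) (ν : E → E) (U : Set E) (H : E → E) : Prop where
  locInt : LocallyIntegrableOn H U μ
  firstVar : ∀ X : E → E, ContDiff ℝ 1 X → HasCompactSupport X → tsupport X ⊆ U →
    ∫ x, tdiv X x (ν x) ∂μ = - ∫ x, ⟪X x, H x⟫ ∂μ

/-- `∫ (-φ |H|² + ∇φ · H) dμ` (here `∇φ · H` is the derivative of `φ` in the direction `H`). -/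
noncomputable def rhs (μ : Measure E) (φ : E → ℝ) (H : E → E) : ℝ :=
  ∫ x, (-(φ x * ‖H x‖ ^ 2) + fderiv ℝ φ x (H x)) ∂μ

/-- The right side of Brakke's inequality, with Brakke's convention: it is `-∞` unless `(μ, ν)` has
a generalised mean curvature vector `H` on `{φ > 0}` with `∫ φ |H|² dμ < ∞`.
(`H` is unique `μ`-a.e. on `{φ > 0}`, so the supremum is over one number.) -/
noncomputable def brakkeB (μ : Measure E) (ν : E → E) (φ : E → ℝ) : EReal :=
  ⨆ (H : E → E) (_ : IsMeanCurv μ ν {x | 0 < φ x} H ∧ Integrable (fun x => φ x * ‖H x‖ ^ 2) μ),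
    ((rhs μ φ H : ℝ) : EReal)

/-- Upper derivative of a function on `[0, ∞)` (one-sided at `0`). -/
noncomputable def upperDeriv (f : ℝ → ℝ) (t : ℝ) : EReal :=
  limsup (fun s : ℝ => (((f s - f t) / (s - t) : ℝ) : EReal)) (𝓝[Ici 0 \ {t}] t)

/-- The function `t ↦ μ_t(φ)`. -/
noncomputable def mass (μ : ℝ → Measure E) (φ : E → ℝ) (t : ℝ) : ℝ := ∫ x, φ x ∂(μ t)

/-- Brakke flow: locally finite measures, and Brakke's inequality for *all* `t ≥ 0` and all
admissible test functions. -/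
structure IsBrakkeFlow (μ : ℝ → Measure E) (ν : ℝ → E → E) : Prop where
  finite : ∀ t, 0 ≤ t → IsLocallyFiniteMeasure (μ t)
  ineq : ∀ t, 0 ≤ t → ∀ φ : E → ℝ, Test φ → upperDeriv (mass μ φ) t ≤ brakkeB (μ t) (ν t) φ

/-- Locally bounded area ratios: `μ_t(B_r(x)) ≤ C r^m` for `t ≤ T`, `|x| ≤ R`, `0 < r ≤ R`,
with `C = C(R, T)`. -/
def BoundedRatios (m : ℕ) (μ : ℝ → Measure E) : Prop :=
  ∀ R T : ℝ, ∃ C : ℝ, ∀ t : ℝ, 0 ≤ t → t ≤ T → ∀ x : E, ‖x‖ ≤ R → ∀ r : ℝ, 0 < r → r ≤ R →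
    μ t (ball x r) ≤ ENNReal.ofReal (C * r ^ m)

/-- Equality in Brakke's inequality at the time `t` for the test function `φ`. -/
def EqAt (μ : ℝ → Measure E) (ν : ℝ → E → E) (t : ℝ) (φ : E → ℝ) : Prop :=
  upperDeriv (mass μ φ) t = brakkeB (μ t) (ν t) φ

/-- **The statement of Q1**: for almost every `t ≥ 0`, equality for every test function. -/
def EqualityAE (μ : ℝ → Measure E) (ν : ℝ → E → E) : Prop :=
  ∀ᵐ t : ℝ, 0 ≤ t → ∀ φ : E → ℝ, Test φ → EqAt μ ν t φ

/-- Equality for almost every time near the space-time point `p`: there are neighbourhoods `U` of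
`p.1` and `I` of `p.2` such that for almost every `t ∈ I` equality holds for all test functions
supported in `U`. -/
def GoodPt (μ : ℝ → Measure E) (ν : ℝ → E → E) (p : E × ℝ) : Prop :=
  ∃ U ∈ 𝓝 p.1, ∃ I ∈ 𝓝 p.2, ∀ᵐ t : ℝ, t ∈ I → 0 ≤ t → ∀ φ : E → ℝ, Test φ → tsupport φ ⊆ U →
    EqAt μ ν t φ

/-- The failure set of Q1: the points of space-time (positive times) without such a
neighbourhood. It is relatively closed. -/
def failureSet (μ : ℝ → Measure E) (ν : ℝ → E → E) : Set (E × ℝ) :=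
  {p | 0 < p.2 ∧ ¬ GoodPt μ ν p}

/-- The integrated identity
`μ_t(φ) - μ_s(φ) = ∫_s^t ∫ (-φ|H|² + ∇φ · H) dμ_τ dτ` for all test functions supported in `U` and
all `s ≤ t` in `I`, `s ≥ 0` (the integrand being finite for a.e. `τ` and integrable). -/
def IntegratedOn (μ : ℝ → Measure E) (ν : ℝ → E → E) (U : Set E) (I : Set ℝ) : Prop :=
  ∀ φ : E → ℝ, Test φ → tsupport φ ⊆ U → ∀ s ∈ I, ∀ t ∈ I, 0 ≤ s → s ≤ t →
    (∀ᵐ τ : ℝ, τ ∈ Icc s t → brakkeB (μ τ) (ν τ) φ ≠ ⊥) ∧
    IntervalIntegrable (fun τ => (brakkeB (μ τ) (ν τ) φ).toReal) volume s t ∧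
    mass μ φ t - mass μ φ s = ∫ τ in s..t, (brakkeB (μ τ) (ν τ) φ).toReal

/-- The failure set of the integrated identity (times `t ≥ 0`). -/
def intFailureSet (μ : ℝ → Measure E) (ν : ℝ → E → E) : Set (E × ℝ) :=
  {p | 0 ≤ p.2 ∧ ¬ ∃ U ∈ 𝓝 p.1, ∃ I ∈ 𝓝 p.2, IntegratedOn μ ν U I}

/-- Parabolic cylinder of radius `r` centred at `(x, t)`. -/
def cyl (x : E) (t r : ℝ) : Set (E × ℝ) := ball x r ×ˢ Ioo (t - r ^ 2) (t + r ^ 2)

/-- `F` has zero `m`-dimensional parabolic Hausdorff measure (`m ≥ 1`): for every `ε > 0` it is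
covered by countably many parabolic cylinders with `∑ r_i ^ m ≤ ε`. -/
def ParabolicNull (m : ℕ) (F : Set (E × ℝ)) : Prop :=
  ∀ ε : ℝ, 0 < ε → ∃ (x : ℕ → E) (t r : ℕ → ℝ), (∀ i, 0 < r i) ∧
    F ⊆ ⋃ i, cyl (x i) (t i) (r i) ∧ Summable (fun i => r i ^ m) ∧ ∑' i, r i ^ m ≤ ε

end MP247
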