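import Mathlib

/-!
# Gaussian integrals of a measure with bounded area ratios
-/

open MeasureTheory

namespace MP247

theorem summable_gauss (n : ℕ) :
    Summable (fun k : ℕ => Real.exp (-((k : ℝ) ^ 2 / 4)) * ((k : ℝ) + 1) ^ n) := by
  have h := (summable_nat_add_iff 1).mpr
    (Real.summable_pow_mul_exp_neg_nat_mul n (r := 1 / 4) (by norm_num))
  refine Summable.of_nonneg_of_le (fun k => by positivity) (fun k => ?_)
    (h.mul_left (Real.exp (1 / 4)))
  have h1 : Real.exp (-((k : ℝ) ^ 2 / 4)) ≤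
      Real.exp (1 / 4) * Real.exp (-(1 / 4) * ((k + 1 : ℕ) : ℝ)) := by
    rw [← Real.exp_add]
    apply Real.exp_le_exp.mpr
    have h2 : (k : ℝ) ≤ (k : ℝ) ^ 2 := by
      have : k ≤ k ^ 2 := Nat.le_self_pow (by norm_num) k
      exact_mod_cast this
    push_cast
    linarith
  calc Real.exp (-((k : ℝ) ^ 2 / 4)) * ((k : ℝ) + 1) ^ n
      ≤ (Real.exp (1 / 4) * Real.exp (-(1 / 4) * ((k + 1 : ℕ) : ℝ))) * ((k : ℝ) + 1) ^ n :=
        mul_le_mul_of_nonneg_right h1 (by positivity)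
    _ = Real.exp (1 / 4) * (((k + 1 : ℕ) : ℝ) ^ n * Real.exp (-(1 / 4) * ((k + 1 : ℕ) : ℝ))) := by
        push_cast; ring

/-- A measure with `μ (B_r(x)) ≤ C0 r ^ n` for all balls has Gaussian integrals at scale `√T`
bounded by `K C0 √T ^ n`, with `K` depending only on `n`. -/
theorem gauss_bound {E : Type*} [NormedAddCommGroup E] [MeasurableSpace E] [BorelSpace E]
    (n : ℕ) : ∃ K : ℝ, 0 ≤ K ∧ ∀ (μ : Measure E) (C0 : ℝ), 0 ≤ C0 →
      (∀ (x : E) (r : ℝ), 0 < r → μ (Metric.ball x r) ≤ ENNReal.ofReal (C0 * r ^ n)) →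
      ∀ (x1 : E) (T : ℝ), 0 < T →
        ∫⁻ x, ENNReal.ofReal (Real.exp (-‖x - x1‖ ^ 2 / (4 * T))) ∂μ ≤
          ENNReal.ofReal (K * C0 * Real.sqrt T ^ n) := by
  refine ⟨∑' k : ℕ, Real.exp (-((k : ℝ) ^ 2 / 4)) * ((k : ℝ) + 1) ^ n,
    tsum_nonneg (fun k => by positivity), ?_⟩
  intro μ C0 hC0 hμ x1 T hT
  set s := Real.sqrt T with hs
  have hs0 : 0 < s := Real.sqrt_pos.mpr hT
  have hsT : s ^ 2 = T := Real.sq_sqrt hT.le
  have hpt : ∀ x : E, ENNReal.ofReal (Real.exp (-‖x - x1‖ ^ 2 / (4 * T))) ≤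
      ∑' k : ℕ, (Metric.ball x1 (((k : ℝ) + 1) * s)).indicator
        (fun _ => ENNReal.ofReal (Real.exp (-((k : ℝ) ^ 2 / 4)))) x := by
    intro x
    set k : ℕ := ⌊‖x - x1‖ / s⌋₊ with hk
    have h1 : (k : ℝ) ≤ ‖x - x1‖ / s := Nat.floor_le (by positivity)
    have h2 : ‖x - x1‖ / s < (k : ℝ) + 1 := Nat.lt_floor_add_one _
    have h3 : x ∈ Metric.ball x1 (((k : ℝ) + 1) * s) := by
      rw [Metric.mem_ball, dist_eq_norm]
      exact (div_lt_iff₀ hs0).mp h2
    refine le_trans ?_ (ENNReal.le_tsum k)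
    rw [Set.indicator_of_mem h3]
    apply ENNReal.ofReal_le_ofReal
    apply Real.exp_le_exp.mpr
    have h4 : (k : ℝ) * s ≤ ‖x - x1‖ := (le_div_iff₀ hs0).mp h1
    have h5 : ((k : ℝ) * s) ^ 2 ≤ ‖x - x1‖ ^ 2 := pow_le_pow_left₀ (by positivity) h4 2
    rw [neg_div, neg_le_neg_iff, div_le_div_iff₀ (by norm_num) (by positivity)]
    rw [mul_pow, hsT] at h5
    nlinarith
  calc ∫⁻ x, ENNReal.ofReal (Real.exp (-‖x - x1‖ ^ 2 / (4 * T))) ∂μ
      ≤ ∫⁻ x, ∑' k : ℕ, (Metric.ball x1 (((k : ℝ) + 1) * s)).indicator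
        (fun _ => ENNReal.ofReal (Real.exp (-((k : ℝ) ^ 2 / 4)))) x ∂μ := lintegral_mono hpt
    _ = ∑' k : ℕ, ∫⁻ x, (Metric.ball x1 (((k : ℝ) + 1) * s)).indicator
        (fun _ => ENNReal.ofReal (Real.exp (-((k : ℝ) ^ 2 / 4)))) x ∂μ := by
        rw [lintegral_tsum]
        intro k
        exact (measurable_const.indicator Metric.isOpen_ball.measurableSet).aemeasurable
    _ ≤ ∑' k : ℕ, ENNReal.ofReal
          ((Real.exp (-((k : ℝ) ^ 2 / 4)) * ((k : ℝ) + 1) ^ n) * (C0 * s ^ n)) := by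
        refine ENNReal.tsum_le_tsum (fun k => ?_)
        rw [lintegral_indicator_const Metric.isOpen_ball.measurableSet]
        calc ENNReal.ofReal (Real.exp (-((k : ℝ) ^ 2 / 4))) *
              μ (Metric.ball x1 (((k : ℝ) + 1) * s))
            ≤ ENNReal.ofReal (Real.exp (-((k : ℝ) ^ 2 / 4))) *
              ENNReal.ofReal (C0 * (((k : ℝ) + 1) * s) ^ n) := by
                gcongr
                exact hμ x1 _ (by positivity)
          _ = ENNReal.ofReal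
              ((Real.exp (-((k : ℝ) ^ 2 / 4)) * ((k : ℝ) + 1) ^ n) * (C0 * s ^ n)) := by
                rw [← ENNReal.ofReal_mul (Real.exp_pos _).le]
                congr 1
                rw [mul_pow]; ring
    _ = ENNReal.ofReal (∑' k : ℕ,
          (Real.exp (-((k : ℝ) ^ 2 / 4)) * ((k : ℝ) + 1) ^ n) * (C0 * s ^ n)) := by
        rw [ENNReal.ofReal_tsum_of_nonneg (fun k => by positivity)
          ((summable_gauss n).mul_right _)]
    _ = _ := by
        rw [tsum_mul_right, mul_assoc]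

end MP247
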