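import Pool.Agent.Lib.MP_247ac7.Gaussian
import Pool.Agent.Lib.MP_247ac7.Gauss

/-! # Area ratio bounds from the initial area ratio bound -/

open MeasureTheory Filter Topology Metric Set
open scoped RealInnerProductSpace ContDiff ENNReal

namespace MP247

variable {E : Type*} [NormedAddCommGroup E] [InnerProductSpace ℝ E] [MeasurableSpace E]
  [BorelSpace E] [FiniteDimensional ℝ E] {μ : ℝ → Measure E} {ν : ℝ → E → E}

/-- The mean curvature vector is normal: at almost every time, every generalised mean curvature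
vector of `(μ t, ν t)` on an open set is a multiple of `ν t`, a.e. -/
def NormalCurv (μ : ℝ → Measure E) (ν : ℝ → E → E) : Prop :=
  ∀ᵐ t : ℝ, 0 < t → ∀ (U : Set E) (H : E → E), IsOpen U → IsMeanCurv (μ t) (ν t) U H →
    ∀ᵐ x ∂(μ t), x ∈ U → ∃ c : ℝ, H x = c • ν t x


theorem tdiv_integrable {κ : Measure E} [IsFiniteMeasure κ] {v : E → E} (hv : Measurable v)
    (hv1 : ∀ x, ‖v x‖ = 1) {X : E → E} (hX : ContDiff ℝ 1 X) (hXc : HasCompactSupport X) :
    Integrable (fun x => tdiv X x (v x)) κ := by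
  have hc : Continuous (fderiv ℝ X) := hX.continuous_fderiv one_ne_zero
  obtain ⟨C, hC⟩ := (hXc.fderiv ℝ).exists_bound_of_continuous hc
  -- the trace is a continuous linear functional
  let tr : (E →L[ℝ] E) →ₗ[ℝ] ℝ :=
    (LinearMap.trace ℝ E).comp (ContinuousLinearMap.coeLM ℝ)
  have htr : Continuous tr := LinearMap.continuous_of_finiteDimensional tr
  have h1 : Continuous fun x => LinearMap.trace ℝ E (fderiv ℝ X x : E →ₗ[ℝ] E) :=
    htr.comp hc
  have h2 : HasCompactSupport fun x => LinearMap.trace ℝ E (fderiv ℝ X x : E →ₗ[ℝ] E) := by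
    have := (hXc.fderiv ℝ).comp_left (g := tr) (map_zero tr)
    exact this
  obtain ⟨C2, hC2⟩ := h2.exists_bound_of_continuous h1
  have hm : Measurable fun x => ⟪fderiv ℝ X x (v x), v x⟫ := by
    have h3 : Continuous fun p : E × E => ⟪fderiv ℝ X p.1 p.2, p.2⟫ := by
      exact ((hc.comp continuous_fst).clm_apply continuous_snd).inner continuous_snd
    exact h3.measurable.comp (measurable_id.prodMk hv)
  refine Integrable.mono' (integrable_const (C2 + C)) ?_ (Eventually.of_forall fun x => ?_)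
  · exact (h1.measurable.sub hm).aestronglyMeasurable
  · unfold tdiv
    have h4 := hC2 x
    have h5 : |⟪fderiv ℝ X x (v x), v x⟫| ≤ C := by
      have h6 := abs_real_inner_le_norm (fderiv ℝ X x (v x)) (v x)
      have h7 := (fderiv ℝ X x).le_opNorm (v x)
      rw [hv1, mul_one] at h7 h6
      exact h6.trans (h7.trans (hC x))
    rw [Real.norm_eq_abs] at h4 ⊢
    have := abs_sub (LinearMap.trace ℝ E (fderiv ℝ X x : E →ₗ[ℝ] E)) ⟪fderiv ℝ X x (v x), v x⟫
    linarith

/-- Huisken's infinitesimal inequality. -/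
theorem huisken_inf {n : ℕ} (hn : Module.finrank ℝ E = n + 1) {κ : Measure E} [IsFiniteMeasure κ]
    {v : E → E} (hv : Measurable v) (hv1 : ∀ x, ‖v x‖ = 1) {R : ℝ} (hR0 : 0 ≤ R)
    (hκ : ∀ᵐ x ∂κ, x ∈ closedBall (0:E) R) {V : Set E} {H : E → E} (hR : Reg κ v V H)
    (hV : closedBall (0:E) (2 * (R + 1)) ⊆ V)
    (hperp : ∀ᵐ x ∂κ, x ∈ V → ∃ c : ℝ, H x = c • v x) (x1 : E) {τ : ℝ} (hτ : 0 < τ) :
    rhs κ (fun x => rho n x1 τ x * cut (0:E) (R + 1) x) H + ∫ x, dRho n x1 τ x ∂κ ≤ 0 := by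
  have hcutt := cut_test (0:E) (r := R + 1) (by linarith)
  have hsupp : tsupport (fun x => rho n x1 τ x * cut (0:E) (R + 1) x) ⊆ V := by
    refine (closure_mono ?_).trans ((cut_tsupport (x := (0:E)) (r := R + 1) (by linarith)).trans hV)
    intro x hx h0
    exact hx (by simp [h0])
  have hd : D2 V (fun x => rho n x1 τ x * cut (0:E) (R + 1) x) :=
    ⟨(rho_contDiff n x1 τ).mul hcutt.smooth, hcutt.compact.mul_left, hsupp⟩
  -- first variation with the cut-off gradient
  have hX1 := gradRho_contDiff n x1 (R := R) τ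
  have hXt := gradRho_tsupport n x1 hR0 τ
  have hXc : HasCompactSupport (gradRho n x1 R τ) :=
    HasCompactSupport.of_support_subset_isCompact (isCompact_closedBall (0:E) (2 * (R + 1)))
      (subset_closure.trans hXt)
  have hfv := hR.mc.firstVar _ hX1 hXc (hXt.trans hV)
  have i1 := hR.int1 hd
  have i2 := hR.int2 hd
  have i1n : Integrable (fun x => -(rho n x1 τ x * cut (0:E) (R + 1) x * ‖H x‖ ^ 2)) κ := i1.neg
  have i3 := tdiv_integrable (κ := κ) hv hv1 hX1 hXc
  have hinner : ∫ x, ⟪gradRho n x1 R τ x, H x⟫ ∂κ =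
      ∫ x, fderiv ℝ (fun x => rho n x1 τ x * cut (0:E) (R + 1) x) x (H x) ∂κ := by
    apply integral_congr_ae
    filter_upwards [hκ] with x hx
    rw [psi_fderiv_eq n x1 hR0 hτ hx]
    have hx' : x ∈ ball (0:E) (R + 1) := closedBall_subset_ball (by linarith) hx
    unfold gradRho
    rw [cut_eq_one (by linarith) (mem_ball.1 hx').le, one_smul, real_inner_smul_left]
  rw [hinner] at hfv
  have i4 : Integrable (fun x => dRho n x1 τ x) κ := by
    have hc : Continuous (fun x => dRho n x1 τ x) := by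
      unfold dRho
      exact ((rho_contDiff n x1 τ).mul (contDiff_const.sub
        (((contDiff_id.sub contDiff_const).norm_sq ℝ).div_const _))).continuous
    obtain ⟨C, hC⟩ := (isCompact_closedBall (0:E) R).exists_bound_of_continuousOn hc.continuousOn
    refine Integrable.mono' (integrable_const C) hc.aestronglyMeasurable ?_
    filter_upwards [hκ] with x hx using hC x hx
  have hsum : rhs κ (fun x => rho n x1 τ x * cut (0:E) (R + 1) x) H + ∫ x, dRho n x1 τ x ∂κ =
      ∫ x, ((-(rho n x1 τ x * cut (0:E) (R + 1) x * ‖H x‖ ^ 2) +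
        2 * fderiv ℝ (fun x => rho n x1 τ x * cut (0:E) (R + 1) x) x (H x)) +
        tdiv (gradRho n x1 R τ) x (v x) + dRho n x1 τ x) ∂κ := by
    have i5 : Integrable (fun x => -(rho n x1 τ x * cut (0:E) (R + 1) x * ‖H x‖ ^ 2) +
        2 * fderiv ℝ (fun x => rho n x1 τ x * cut (0:E) (R + 1) x) x (H x)) κ :=
      i1.neg.add (i2.const_mul 2)
    have i53 : Integrable (fun x => (-(rho n x1 τ x * cut (0:E) (R + 1) x * ‖H x‖ ^ 2) +
        2 * fderiv ℝ (fun x => rho n x1 τ x * cut (0:E) (R + 1) x) x (H x)) +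
        tdiv (gradRho n x1 R τ) x (v x)) κ := i5.add i3
    rw [integral_add i53 i4, integral_add i5 i3, hfv]
    have h1 : ∫ x, (-(rho n x1 τ x * cut (0:E) (R + 1) x * ‖H x‖ ^ 2) +
        2 * fderiv ℝ (fun x => rho n x1 τ x * cut (0:E) (R + 1) x) x (H x)) ∂κ =
        ∫ x, -(rho n x1 τ x * cut (0:E) (R + 1) x * ‖H x‖ ^ 2) ∂κ +
        2 * ∫ x, fderiv ℝ (fun x => rho n x1 τ x * cut (0:E) (R + 1) x) x (H x) ∂κ := by
      rw [integral_add i1n (i2.const_mul 2), integral_const_mul]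
    have h2 : rhs κ (fun x => rho n x1 τ x * cut (0:E) (R + 1) x) H =
        ∫ x, -(rho n x1 τ x * cut (0:E) (R + 1) x * ‖H x‖ ^ 2) ∂κ +
        ∫ x, fderiv ℝ (fun x => rho n x1 τ x * cut (0:E) (R + 1) x) x (H x) ∂κ := by
      have h3 : rhs κ (fun x => rho n x1 τ x * cut (0:E) (R + 1) x) H =
        ∫ x, (-(rho n x1 τ x * cut (0:E) (R + 1) x * ‖H x‖ ^ 2) +
          fderiv ℝ (fun x => rho n x1 τ x * cut (0:E) (R + 1) x) x (H x)) ∂κ := rfl
      rw [h3, integral_add i1n i2]
    rw [h1, h2]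
    ring
  rw [hsum]
  apply integral_nonpos_of_ae
  filter_upwards [hκ, hperp] with x hx hp
  obtain ⟨c, hc⟩ := hp (hV (closedBall_subset_closedBall (by linarith) hx))
  have hx' : x ∈ ball (0:E) (R + 1) := closedBall_subset_ball (by linarith) hx
  rw [psi_fderiv_eq n x1 hR0 hτ hx, gradRho_tdiv n x1 hR0 hτ hn hx (hv1 x),
    cut_eq_one (by linarith) (mem_ball.1 hx').le, hc, norm_smul, hv1 x, real_inner_smul_right]
  unfold dRho
  have hρ := rho_pos n x1 τ x
  set q := ⟪x - x1, v x⟫ with hq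
  simp only [mul_one, Pi.zero_apply, Real.norm_eq_abs, sq_abs]
  have key : -(rho n x1 τ x * c ^ 2) + 2 * (-(rho n x1 τ x) / (2 * τ) * (c * q)) +
      rho n x1 τ x * (‖x - x1‖ ^ 2 / (4 * τ ^ 2) - (n:ℝ) / (2 * τ) - q ^ 2 / (4 * τ ^ 2)) +
      rho n x1 τ x * ((n:ℝ) / (2 * τ) - ‖x - x1‖ ^ 2 / (4 * τ ^ 2)) =
      -(rho n x1 τ x * (c + q / (2 * τ)) ^ 2) := by
    field_simp
    ring
  rw [key]
  have : 0 ≤ rho n x1 τ x * (c + q / (2 * τ)) ^ 2 := by positivity
  linarith

/-- **Area ratio bound from initial data** (Huisken's monotonicity formula). -/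
theorem ratios_of_initial {n : ℕ} (hn : Module.finrank ℝ E = n + 1) (hF : IsBrakkeFlow μ ν)
    (hνm : ∀ t, Measurable (ν t)) (hν1 : ∀ t x, ‖ν t x‖ = 1) (hperp : NormalCurv μ ν) {R : ℝ}
    (hR0 : 0 ≤ R) (hs : InBall R μ) {C0 : ℝ} (hC0 : 0 ≤ C0)
    (h0 : ∀ (x : E) (r : ℝ), 0 < r → μ 0 (ball x r) ≤ ENNReal.ofReal (C0 * r ^ n)) :
    ∃ C : ℝ, 0 ≤ C ∧ ∀ t, 0 ≤ t → ∀ (x : E) (r : ℝ), 0 < r →
      μ t (ball x r) ≤ ENNReal.ofReal (C * r ^ n) := by
  obtain ⟨K, hK0, hK⟩ := gauss_bound (E := E) n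
  refine ⟨Real.exp (1 / 4) * (K * C0), by positivity, fun T hT x1 r hr => ?_⟩
  set t0 := T + r ^ 2 with ht0
  have hTt : T < t0 := by have := pow_pos hr 2; linarith
  have ht00 : 0 < t0 := lt_of_le_of_lt hT hTt
  set M := mass μ (cut (0:E) (R + 1)) 0 with hM
  have hM0 : 0 ≤ M := mass_plateau_nonneg _ _
  let Ψ : ℝ → E → ℝ := fun t x => rho n x1 (t0 - t) x * cut (0:E) (R + 1) x
  have hTD : TDTest R T Ψ (fun t x => dRho n x1 (t0 - t) x) := tdTest_rho n x1 hR0 hTt
  -- upper bound of the right side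
  have hbound : ∃ c0 : ℝ, 0 ≤ c0 ∧ ∀ t ∈ Icc 0 T, ∀ x ∈ closedBall (0:E) R,
      rho n x1 (t0 - t) x * ‖x - x1‖ ^ 2 / (16 * (t0 - t) ^ 2) ≤ c0 := by
    have hcont : ContinuousOn (fun p : ℝ × E =>
        rho n x1 (t0 - p.1) p.2 * ‖p.2 - x1‖ ^ 2 / (16 * (t0 - p.1) ^ 2))
        (Icc 0 T ×ˢ closedBall (0:E) R) := by
      have hne : ∀ p ∈ Icc 0 T ×ˢ closedBall (0:E) R, (t0 - p.1) ≠ 0 := by
        rintro p ⟨hp, _⟩
        have := hp.2
        linarith
      have hlog : ContinuousOn (fun p : ℝ × E => Real.log (t0 - p.1))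
          (Icc 0 T ×ˢ closedBall (0:E) R) := (continuousOn_const.sub continuousOn_fst).log hne
      have hnorm : ContinuousOn (fun p : ℝ × E => ‖p.2 - x1‖ ^ 2)
          (Icc 0 T ×ˢ closedBall (0:E) R) := ((continuousOn_snd.sub continuousOn_const).norm).pow 2
      have h4 : ContinuousOn (fun p : ℝ × E => 4 * (t0 - p.1)) (Icc 0 T ×ˢ closedBall (0:E) R) :=
        continuousOn_const.mul (continuousOn_const.sub continuousOn_fst)
      have h16 : ContinuousOn (fun p : ℝ × E => 16 * (t0 - p.1) ^ 2)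
          (Icc 0 T ×ˢ closedBall (0:E) R) :=
        continuousOn_const.mul ((continuousOn_const.sub continuousOn_fst).pow 2)
      unfold rho gF
      refine ContinuousOn.div (ContinuousOn.mul ?_ hnorm) h16
        fun p hp => mul_ne_zero (by norm_num) (pow_ne_zero 2 (hne p hp))
      apply ContinuousOn.rexp
      exact (continuousOn_const.mul hlog).sub
        (hnorm.div h4 fun p hp => mul_ne_zero (by norm_num) (hne p hp))
    obtain ⟨c0, hc0⟩ :=
      (isCompact_Icc.prod (isCompact_closedBall (0:E) R)).exists_bound_of_continuousOn hcont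
    refine ⟨|c0|, abs_nonneg _, fun t ht x hx => ?_⟩
    exact (le_abs_self _).trans ((hc0 (t, x) ⟨ht, hx⟩).trans (le_abs_self c0))
  obtain ⟨c0, hc00, hc0⟩ := hbound
  have hmono := td_mono hF hR0 hs hT hTD (c := c0 * M)
    (by
      intro t ht
      refine (closure_mono ?_).trans
        ((cut_tsupport (x := (0:E)) (r := R + 1) (by linarith)).trans
          (closedBall_subset_ball (by linarith)))
      intro x hx h0
      exact hx (by simp [Ψ, h0]))
    (by
      intro t ht s hs'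
      refine iSup₂_le fun H _ => ?_
      have hτ : 0 < t0 - t := by linarith [ht.2]
      haveI := hs.fin hF hs'.1
      have h1 : rhs (μ s) (Ψ t) H ≤ ∫ x, c0 ∂(μ s) := by
        unfold rhs
        have hpt : ∀ᵐ x ∂(μ s), -(Ψ t x * ‖H x‖ ^ 2) + fderiv ℝ (Ψ t) x (H x) ≤ c0 := by
          filter_upwards [hs.ae hs'.1] with x hx
          have hx' : x ∈ ball (0:E) (R + 1) := closedBall_subset_ball (by linarith) hx
          have e1 : fderiv ℝ (Ψ t) x (H x) =
              -(rho n x1 (t0 - t) x) / (2 * (t0 - t)) * ⟪x - x1, H x⟫ :=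
            psi_fderiv_eq n x1 hR0 hτ hx (H x)
          have e2 : Ψ t x = rho n x1 (t0 - t) x := by
            simp only [Ψ]
            rw [cut_eq_one (by linarith) (mem_ball.1 hx').le, mul_one]
          rw [e1, e2]
          refine le_trans ?_ (hc0 t ht x hx)
          have hρ := rho_pos n x1 (t0 - t) x
          have h3 := abs_real_inner_le_norm (x - x1) (H x)
          have h4 := (abs_le.1 h3).1
          have h5 : -(rho n x1 (t0 - t) x * ‖H x‖ ^ 2) +
              -(rho n x1 (t0 - t) x) / (2 * (t0 - t)) * ⟪x - x1, H x⟫ =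
              rho n x1 (t0 - t) x * (-‖H x‖ ^ 2 - ⟪x - x1, H x⟫ / (2 * (t0 - t))) := by
            field_simp
            ring
          have h6 : rho n x1 (t0 - t) x * ‖x - x1‖ ^ 2 / (16 * (t0 - t) ^ 2) =
              rho n x1 (t0 - t) x * (‖x - x1‖ ^ 2 / (16 * (t0 - t) ^ 2)) := by ring
          rw [h5, h6]
          apply mul_le_mul_of_nonneg_left _ hρ.le
          have h7 : -⟪x - x1, H x⟫ / (2 * (t0 - t)) ≤ ‖x - x1‖ * ‖H x‖ / (2 * (t0 - t)) :=
            div_le_div_of_nonneg_right (by linarith) (by positivity)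
          have h8 : ‖x - x1‖ * ‖H x‖ / (2 * (t0 - t)) ≤
              ‖H x‖ ^ 2 + ‖x - x1‖ ^ 2 / (16 * (t0 - t) ^ 2) := by
            have h9 : ‖H x‖ ^ 2 + ‖x - x1‖ ^ 2 / (16 * (t0 - t) ^ 2) -
                ‖x - x1‖ * ‖H x‖ / (2 * (t0 - t)) = (‖H x‖ - ‖x - x1‖ / (4 * (t0 - t))) ^ 2 := by
              field_simp
              ring
            have := sq_nonneg (‖H x‖ - ‖x - x1‖ / (4 * (t0 - t)))
            linarith
          have h10 : -‖H x‖ ^ 2 - ⟪x - x1, H x⟫ / (2 * (t0 - t)) =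
              -‖H x‖ ^ 2 + -⟪x - x1, H x⟫ / (2 * (t0 - t)) := by ring
          rw [h10]
          linarith
        by_cases hi : Integrable (fun x => -(Ψ t x * ‖H x‖ ^ 2) + fderiv ℝ (Ψ t) x (H x)) (μ s)
        · exact integral_mono_ae hi (integrable_const _) hpt
        · rw [integral_undef hi]
          exact integral_nonneg fun x => hc00
      rw [integral_const, smul_eq_mul] at h1
      have h2 : (μ s).real univ ≤ M := by
        have h3 := measure_le_mass hF hs (R' := R + 1) (by linarith) (by linarith) hs'.1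
        have h4 := ENNReal.toReal_mono ENNReal.ofReal_ne_top h3
        rwa [ENNReal.toReal_ofReal hM0] at h4
      have h5 : rhs (μ s) (Ψ t) H ≤ c0 * M := by
        refine h1.trans ?_
        rw [mul_comm]
        exact mul_le_mul_of_nonneg_left h2 hc00
      exact_mod_cast h5)
    (by
      filter_upwards [hperp] with t hp ht V H hR hV
      haveI := hs.fin hF ht.1.le
      exact huisken_inf hn (hνm t) (hν1 t) hR0 (hs.ae ht.1.le) hR
        ((closedBall_subset_closedBall (by linarith)).trans hV)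
        (hp ht.1 V H hR.isOpen hR.mc) x1 (by linarith [ht.2]))
  -- upper bound at time 0
  haveI hfin0 := hs.fin hF le_rfl
  haveI hfinT := hs.fin hF hT
  have hsq : Real.sqrt t0 ^ 2 = t0 := Real.sq_sqrt ht00.le
  have hsqp : 0 < Real.sqrt t0 := Real.sqrt_pos.2 ht00
  have hexp : ∀ τ : ℝ, 0 < τ → ∀ x : E, rho n x1 τ x =
      ((Real.sqrt τ)⁻¹) ^ n * Real.exp (-‖x - x1‖ ^ 2 / (4 * τ)) := by
    intro τ hτ x
    unfold rho gF
    have e1 : ((Real.sqrt τ)⁻¹) ^ n = Real.exp (-((n:ℝ) / 2) * Real.log τ) := by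
      have e2 : (Real.sqrt τ)⁻¹ = Real.exp (-(1 / 2) * Real.log τ) := by
        rw [Real.sqrt_eq_rpow, Real.rpow_def_of_pos hτ, ← Real.exp_neg]
        congr 1; ring
      rw [e2, ← Real.exp_nat_mul]
      congr 1; ring
    rw [e1, ← Real.exp_add]
    congr 1; ring
  have hup : mass μ (Ψ 0) 0 ≤ K * C0 := by
    have h1 : mass μ (Ψ 0) 0 ≤
        (∫⁻ x, ENNReal.ofReal (rho n x1 t0 x) ∂(μ 0)).toReal := by
      have h2 : ∫⁻ x, ENNReal.ofReal (rho n x1 t0 x) ∂(μ 0) ≠ ⊤ := by
        have h3 : ∫⁻ x, ENNReal.ofReal (rho n x1 t0 x) ∂(μ 0) ≤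
            ∫⁻ x, ENNReal.ofReal (((Real.sqrt t0)⁻¹) ^ n) ∂(μ 0) := by
          apply lintegral_mono
          intro x
          apply ENNReal.ofReal_le_ofReal
          rw [hexp t0 ht00 x]
          have h4 : Real.exp (-‖x - x1‖ ^ 2 / (4 * t0)) ≤ 1 := by
            rw [Real.exp_le_one_iff]
            apply div_nonpos_of_nonpos_of_nonneg _ (by positivity)
            exact neg_nonpos.2 (sq_nonneg _)
          exact mul_le_of_le_one_right (by positivity) h4
        rw [lintegral_const] at h3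
        exact (lt_of_le_of_lt h3 (ENNReal.mul_lt_top ENNReal.ofReal_lt_top
          (measure_lt_top _ _))).ne
      unfold mass
      rw [integral_eq_lintegral_of_nonneg_ae
        (Eventually.of_forall fun x => (hTD.test 0 (left_mem_Icc.2 hT)).nonneg x)
        (hTD.test 0 (left_mem_Icc.2 hT)).smooth.continuous.aestronglyMeasurable]
      apply ENNReal.toReal_mono h2
      apply lintegral_mono
      intro x
      apply ENNReal.ofReal_le_ofReal
      simp only [Ψ, sub_zero]
      exact mul_le_of_le_one_right (rho_pos _ _ _ _).le (cut_le_one _ _ _)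
    refine h1.trans ?_
    have h5 : ∫⁻ x, ENNReal.ofReal (rho n x1 t0 x) ∂(μ 0) =
        ENNReal.ofReal (((Real.sqrt t0)⁻¹) ^ n) *
          ∫⁻ x, ENNReal.ofReal (Real.exp (-‖x - x1‖ ^ 2 / (4 * t0))) ∂(μ 0) := by
      rw [← lintegral_const_mul' _ _ ENNReal.ofReal_ne_top]
      apply lintegral_congr
      intro x
      rw [hexp t0 ht00 x, ENNReal.ofReal_mul (by positivity)]
    have h6 := hK (μ 0) C0 hC0 h0 x1 t0 ht00
    have h7 : ∫⁻ x, ENNReal.ofReal (rho n x1 t0 x) ∂(μ 0) ≤ ENNReal.ofReal (K * C0) := by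
      rw [h5]
      refine (mul_le_mul_right h6 _).trans ?_
      rw [← ENNReal.ofReal_mul (by positivity)]
      apply ENNReal.ofReal_le_ofReal
      have : ((Real.sqrt t0)⁻¹) ^ n * (K * C0 * Real.sqrt t0 ^ n) = K * C0 := by
        rw [inv_pow]; field_simp
      rw [this]
    have h8 := ENNReal.toReal_mono ENNReal.ofReal_ne_top h7
    rwa [ENNReal.toReal_ofReal (by positivity)] at h8
  -- lower bound at time T
  have hlow : μ T (ball x1 r) ≤ ENNReal.ofReal (Real.exp (1 / 4) * r ^ n * mass μ (Ψ T) T) := by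
    have htest := hTD.test T (right_mem_Icc.2 hT)
    have hτr : t0 - T = r ^ 2 := by rw [ht0]; ring
    have h1 : μ T (ball x1 r) = ∫⁻ x, (ball x1 r).indicator (fun _ => 1) x ∂(μ T) := by
      rw [lintegral_indicator measurableSet_ball, setLIntegral_one]
    have h2 : ENNReal.ofReal (Real.exp (1 / 4) * r ^ n * mass μ (Ψ T) T) =
        ∫⁻ x, ENNReal.ofReal (Real.exp (1 / 4) * r ^ n * Ψ T x) ∂(μ T) := by
      unfold mass
      rw [← integral_const_mul, ofReal_integral_eq_lintegral_ofReal]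
      · exact (integrable_of_flow (hF.finite T hT) htest.smooth.continuous
          htest.compact).const_mul _
      · exact Eventually.of_forall fun x => mul_nonneg (by positivity) (htest.nonneg x)
    rw [h1, h2]
    apply lintegral_mono_ae
    filter_upwards [hs.ae hT] with x hx
    by_cases hxb : x ∈ ball x1 r
    · rw [indicator_of_mem hxb]
      have hx' : x ∈ ball (0:E) (R + 1) := closedBall_subset_ball (by linarith) hx
      have e1 : Ψ T x = (r⁻¹) ^ n * Real.exp (-‖x - x1‖ ^ 2 / (4 * r ^ 2)) := by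
        simp only [Ψ]
        rw [cut_eq_one (by linarith) (mem_ball.1 hx').le, mul_one, hτr,
          hexp (r ^ 2) (by positivity) x, Real.sqrt_sq hr.le]
      have e2 : 1 ≤ Real.exp (1 / 4) * r ^ n * Ψ T x := by
        rw [e1]
        have e3 : Real.exp (1 / 4) * r ^ n * ((r⁻¹) ^ n * Real.exp (-‖x - x1‖ ^ 2 / (4 * r ^ 2))) =
            Real.exp (1 / 4 + -‖x - x1‖ ^ 2 / (4 * r ^ 2)) := by
          rw [Real.exp_add, inv_pow]
          field_simp
        rw [e3, Real.one_le_exp_iff]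
        have e4 : ‖x - x1‖ < r := by rw [← dist_eq_norm]; exact hxb
        have e5 : ‖x - x1‖ ^ 2 ≤ r ^ 2 := by
          have := norm_nonneg (x - x1)
          nlinarith
        rw [neg_div]
        have e6 : ‖x - x1‖ ^ 2 / (4 * r ^ 2) ≤ 1 / 4 := by
          rw [div_le_div_iff₀ (by positivity) (by norm_num)]
          nlinarith
        linarith
      calc (1:ℝ≥0∞) = ENNReal.ofReal 1 := by simp
        _ ≤ _ := ENNReal.ofReal_le_ofReal e2
    · rw [indicator_of_notMem hxb]
      exact bot_le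
  refine hlow.trans (ENNReal.ofReal_le_ofReal ?_)
  have hpos : 0 ≤ Real.exp (1 / 4) * r ^ n := by positivity
  calc Real.exp (1 / 4) * r ^ n * mass μ (Ψ T) T ≤ Real.exp (1 / 4) * r ^ n * (K * C0) :=
        mul_le_mul_of_nonneg_left (hmono.trans hup) hpos
    _ = Real.exp (1 / 4) * (K * C0) * r ^ n := by ring

end MP247
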