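import Pool.Agent.Lib.MP_247ac7.GapInt2
import Pool.Agent.Lib.MP_247ac7.Huisken
import Pool.Agent.Lib.MP_247ac7.Barrier3

/-! # Final forms of the gap theorems -/

open MeasureTheory Filter Topology Metric Set
open scoped RealInnerProductSpace

namespace MP247

variable {E : Type*} [NormedAddCommGroup E] [InnerProductSpace ℝ E] [MeasurableSpace E]
  [BorelSpace E] [FiniteDimensional ℝ E] {μ : ℝ → Measure E} {ν : ℝ → E → E}

/-- Hypotheses on the time `0`: `μ 0` lives in a ball and has bounded area ratios. At later times it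
is only asked that the `ν t` are measurable unit fields and that the mean curvature vector is normal
at almost every time. -/
structure InitialData (n : ℕ) (μ : ℝ → Measure E) (ν : ℝ → E → E) : Prop where
  meas : ∀ t, Measurable (ν t)
  unit : ∀ t x, ‖ν t x‖ = 1
  normal : NormalCurv μ ν
  start : ∃ R : ℝ, 0 ≤ R ∧ μ 0 (closedBall (0:E) R)ᶜ = 0
  ratios : ∃ C : ℝ, 0 ≤ C ∧ ∀ (x : E) (r : ℝ), 0 < r →
    μ 0 (ball x r) ≤ ENNReal.ofReal (C * r ^ n)

/-- Either locally bounded area ratios at all times, or `InitialData`, which bounds them only at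
the time `0`. -/
def AreaData (n : ℕ) (μ : ℝ → Measure E) (ν : ℝ → E → E) : Prop :=
  BoundedRatios n μ ∨ InitialData n μ ν

theorem InitialData.inBall {n : ℕ} (hn1 : 1 ≤ n) (hn : Module.finrank ℝ E = n + 1)
    (hF : IsBrakkeFlow μ ν) (h : InitialData n μ ν) : ∃ R : ℝ, 0 ≤ R ∧ InBall R μ := by
  obtain ⟨R, hR0, hR⟩ := h.start
  exact ⟨R, hR0, inBall_of_initial hn1 hn hF h.unit hR0 hR⟩

theorem AreaData.bounded {n : ℕ} (hn1 : 1 ≤ n) (hn : Module.finrank ℝ E = n + 1)
    (hF : IsBrakkeFlow μ ν) (h : AreaData n μ ν) : BoundedRatios n μ := by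
  rcases h with h | h
  · exact h
  · obtain ⟨R, hR0, hR⟩ := h.inBall hn1 hn hF
    obtain ⟨C0, hC0, h0⟩ := h.ratios
    obtain ⟨C, _, hC⟩ := ratios_of_initial hn hF h.meas h.unit h.normal hR0 hR hC0 h0
    intro R' T
    exact ⟨C, fun t ht _ x _ r hr _ => hC t ht x r hr⟩

/-- The gap theorem for Q1, all forms. -/
theorem q1_final {n : ℕ} (hn : 1 ≤ n) (hF : IsBrakkeFlow μ ν) (hB : BoundedRatios n μ) :
    (EqualityAE μ ν ↔ failureSet μ ν = ∅) ∧
    (EqualityAE μ ν ↔ ∃ N : Set ℝ, volume N = 0 ∧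
      ParabolicNull n {p | p ∈ failureSet μ ν ∧ p.2 ∉ N}) ∧
    (∀ (W : Set (E × ℝ)) (N : Set ℝ), IsOpen W → volume N = 0 →
      ParabolicNull n {p | p ∈ failureSet μ ν ∩ W ∧ p.2 ∉ N} → failureSet μ ν ∩ W = ∅) ∧
    (∀ S : Set (E × ℝ), ParabolicNull n (failureSet μ ν ∩ S) →
      ∀ᵐ t : ℝ, 0 < t → ∀ φ : E → ℝ, Test φ → tsupport φ ⊆ interior {x | (x, t) ∈ S} →
        EqAt μ ν t φ) := by
  have hL := hB.locMass
  have hiff : EqualityAE μ ν ↔ failureSet μ ν = ∅ :=
    ⟨empty_of_equalityAE, equalityAE_of_empty hF hL⟩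
  have hloc : ∀ (W : Set (E × ℝ)) (N : Set ℝ), IsOpen W → volume N = 0 →
      ParabolicNull n {p | p ∈ failureSet μ ν ∩ W ∧ p.2 ∉ N} → failureSet μ ν ∩ W = ∅ := by
    intro W N hW hN hnull
    rw [eq_empty_iff_forall_notMem]
    rintro p ⟨⟨hp0, hp⟩, hpW⟩
    exact hp (gap_local hn hF hB hW hN hnull hpW hp0)
  refine ⟨hiff, ?_, hloc, fun S hS => gap_slices hn hF hB hS⟩
  rw [hiff]
  constructor
  · intro h
    refine ⟨∅, measure_empty, ?_⟩
    have : {p | p ∈ failureSet μ ν ∧ p.2 ∉ (∅ : Set ℝ)} = (∅ : Set (E × ℝ)) := by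
      rw [h]; ext p; simp
    rw [this]
    exact parabolicNull_empty hn
  · rintro ⟨N, hN, hnull⟩
    have h1 := hloc univ N isOpen_univ hN (by
      rw [inter_univ]; exact hnull)
    rwa [inter_univ] at h1

/-- the integrated identity makes all `t ↦ μ_t(φ)` continuous -/
theorem continuousOn_of_integrated (h : IntegratedOn μ ν univ univ) {φ : E → ℝ} (hφ : Test φ) :
    ContinuousOn (mass μ φ) (Ici 0) := by
  intro z hz
  have hz0 : (0:ℝ) ≤ z := hz
  obtain ⟨-, h2, -⟩ := h φ hφ (subset_univ _) 0 (mem_univ _) (z + 1) (mem_univ _) le_rfl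
    (by linarith)
  have h3 : IntegrableOn (fun τ => (brakkeB (μ τ) (ν τ) φ).toReal) (uIcc 0 (z + 1)) := by
    rw [uIcc_of_le (by linarith)]
    rwa [intervalIntegrable_iff_integrableOn_Icc_of_le (by linarith)] at h2
  have h4 := intervalIntegral.continuousOn_primitive_interval h3
  have h5 : z ∈ uIcc 0 (z + 1) := by rw [uIcc_of_le (by linarith)]; exact ⟨hz0, by linarith⟩
  have h6 := h4 z h5
  rw [uIcc_of_le (by linarith)] at h6
  have h7 : ContinuousWithinAt (fun t => mass μ φ 0 +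
      ∫ τ in (0:ℝ)..t, (brakkeB (μ τ) (ν τ) φ).toReal) (Icc 0 (z + 1)) z :=
    continuousWithinAt_const.add h6
  have h8 : ContinuousWithinAt (mass μ φ) (Icc 0 (z + 1)) z := by
    refine h7.congr (fun t ht => ?_) ?_
    · have := (h φ hφ (subset_univ _) 0 (mem_univ _) t (mem_univ _) le_rfl ht.1).2.2
      linarith
    · have := (h φ hφ (subset_univ _) 0 (mem_univ _) z (mem_univ _) le_rfl hz0).2.2
      linarith
  refine h8.mono_of_mem_nhdsWithin ?_
  rw [mem_nhdsWithin]
  exact ⟨Iio (z + 1), isOpen_Iio, by simp, fun t ht => ⟨ht.2, (mem_Iio.1 ht.1).le⟩⟩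

/-- for flows in a ball the total mass is the mass of a plateau -/
theorem total_eq_mass {R R' : ℝ} (hs : InBall R μ) (hR' : 0 < R')
    (hRR : R < R') {t : ℝ} (ht : 0 ≤ t) : mass μ (cut (0:E) R') t = (μ t univ).toReal := by
  unfold mass
  have h2 : ∫ x, cut (0:E) R' x ∂(μ t) = ∫ x, (1:ℝ) ∂(μ t) := by
    apply integral_congr_ae
    filter_upwards [hs.ae ht] with x hx
    have hx' : x ∈ ball (0:E) R' := closedBall_subset_ball hRR hx
    rw [cut_eq_one hR' (mem_ball.1 hx').le]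
  rw [h2, integral_const, smul_eq_mul, mul_one, Measure.real]

/-- continuity of the total mass gives continuity of all `t ↦ μ_t(φ)` -/
theorem continuous_of_total (hF : IsBrakkeFlow μ ν) {R : ℝ} (hs : InBall R μ) {z : ℝ}
    (hz : 0 ≤ z) (hc : ContinuousWithinAt (fun t => (μ t univ).toReal) (Ici 0) z)
    {φ : E → ℝ} (hφ : Test φ) : ContinuousWithinAt (mass μ φ) (Ici 0) z := by
  have hL := hs.locMass hF
  obtain ⟨A, hA⟩ := hφ.compact.isBounded.subset_closedBall (0:E)
  obtain ⟨C, hC⟩ := hφ.compact.exists_bound_of_continuous hφ.smooth.continuous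
  have hC0 : 0 ≤ C := (norm_nonneg _).trans (hC 0)
  set R' := |R| + |A| + 1 with hR'
  have hR'0 : 0 < R' := by positivity
  have hRR : R < R' := by
    have := le_abs_self R; have := abs_nonneg A; linarith
  have hcut := cut_test (0:E) hR'0
  have htest : Test (fun y => C * cut (0:E) R' y) :=
    ⟨contDiff_const.mul hcut.smooth, hcut.compact.mul_left,
      fun y => mul_nonneg hC0 (cut_nonneg _ _ _)⟩
  have hle : ∀ y, φ y ≤ C * cut (0:E) R' y := by
    intro y
    by_cases hy : y ∈ tsupport φ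
    · have h1 := mem_closedBall.1 (hA hy)
      have h2 : dist y 0 ≤ R' := by
        have := le_abs_self A; have := abs_nonneg R; linarith
      rw [cut_eq_one hR'0 h2, mul_one]
      exact (le_abs_self _).trans (hC y)
    · have : φ y = 0 := image_eq_zero_of_notMem_tsupport hy
      rw [this]; exact mul_nonneg hC0 (cut_nonneg _ _ _)
  -- the plateau is continuous at `z`
  have h1 : ContinuousWithinAt (mass μ (cut (0:E) R')) (Ici 0) z :=
    hc.congr (fun t ht => total_eq_mass hs hR'0 hRR ht) (total_eq_mass hs hR'0 hRR hz)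
  have h2 := sing_continuousWithinAt hF hL hcut hz h1
  -- so is the singular part of `φ`
  have h3 : ContinuousWithinAt (sing μ φ) (Ici 0) z := by
    rw [Metric.continuousWithinAt_iff] at h2 ⊢
    intro ε hε
    obtain ⟨δ, hδ, h4⟩ := h2 (ε / (C + 1)) (by positivity)
    refine ⟨δ, hδ, fun {t} ht htz => ?_⟩
    have h5 := h4 ht htz
    rw [Real.dist_eq] at h5 ⊢
    have h6 : |sing μ φ t - sing μ φ z| ≤
        C * |sing μ (cut (0:E) R') t - sing μ (cut (0:E) R') z| := by
      rcases le_total t z with h | h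
      · have a1 := sing_dom hF hL hφ htest hle ht h
        rw [sing_const_mul, sing_const_mul] at a1
        have a2 := sing_mono hF hL hφ ht h
        have a3 := sing_mono hF hL hcut ht h
        rw [abs_sub_comm, abs_of_nonneg (sub_nonneg.2 a2), abs_sub_comm,
          abs_of_nonneg (sub_nonneg.2 a3)]
        linarith [mul_sub C (sing μ (cut (0:E) R') z) (sing μ (cut (0:E) R') t)]
      · have a1 := sing_dom hF hL hφ htest hle hz h
        rw [sing_const_mul, sing_const_mul] at a1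
        have a2 := sing_mono hF hL hφ hz h
        have a3 := sing_mono hF hL hcut hz h
        rw [abs_of_nonneg (sub_nonneg.2 a2), abs_of_nonneg (sub_nonneg.2 a3)]
        linarith [mul_sub C (sing μ (cut (0:E) R') t) (sing μ (cut (0:E) R') z)]
    have h7 : C * |sing μ (cut (0:E) R') t - sing μ (cut (0:E) R') z| ≤
        (C + 1) * |sing μ (cut (0:E) R') t - sing μ (cut (0:E) R') z| :=
      mul_le_mul_of_nonneg_right (by linarith) (abs_nonneg _)
    have h8 : (C + 1) * |sing μ (cut (0:E) R') t - sing μ (cut (0:E) R') z| < ε := by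
      have := mul_lt_mul_of_pos_left h5 (by linarith : (0:ℝ) < C + 1)
      rwa [mul_div_cancel₀ _ (by linarith : (C + 1 : ℝ) ≠ 0)] at this
    linarith
  -- and `mass = primitive - sing`
  have h4 : ContinuousWithinAt (fun t => ∫ τ in (0:ℝ)..t, deriv (mass μ φ) τ) (Ici 0) z := by
    have h1 : IntegrableOn (deriv (mass μ φ)) (uIcc 0 (z + 1)) := by
      have := (deriv_test hF hL hφ le_rfl (by linarith : (0:ℝ) ≤ z + 1)).1
      rw [uIcc_of_le (by linarith)]
      rwa [intervalIntegrable_iff_integrableOn_Icc_of_le (by linarith)] at this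
    have h2 := intervalIntegral.continuousOn_primitive_interval h1
    have h3 : z ∈ uIcc 0 (z + 1) := by rw [uIcc_of_le (by linarith)]; exact ⟨hz, by linarith⟩
    have h4 := h2 z h3
    rw [uIcc_of_le (by linarith)] at h4
    refine h4.mono_of_mem_nhdsWithin ?_
    rw [mem_nhdsWithin]
    exact ⟨Iio (z + 1), isOpen_Iio, by simp, fun t ht => ⟨ht.2, (mem_Iio.1 ht.1).le⟩⟩
  have h5 := h4.sub h3
  have h6 : mass μ φ = fun t => (∫ τ in (0:ℝ)..t, deriv (mass μ φ) τ) - sing μ φ t := by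
    funext t; unfold sing; ring
  rw [h6]
  exact h5

/-- The gap theorem for the integrated identity, all forms. -/
theorem int_final {n : ℕ} (hn : 1 ≤ n) (hF : IsBrakkeFlow μ ν) (hB : BoundedRatios n μ) :
    (IntegratedOn μ ν univ univ ↔ intFailureSet μ ν = ∅) ∧
    (∀ (W : Set (E × ℝ)) (Z : Set ℝ), IsOpen W → Z.Countable →
      (∀ φ : E → ℝ, Test φ → ∀ z ∈ Z, 0 ≤ z → ContinuousWithinAt (mass μ φ) (Ici 0) z) →
      ParabolicNull n {p | p ∈ intFailureSet μ ν ∩ W ∧ p.2 ∉ Z} →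
      intFailureSet μ ν ∩ W = ∅) ∧
    (IntegratedOn μ ν univ univ ↔
      (∀ φ : E → ℝ, Test φ → ContinuousOn (mass μ φ) (Ici 0)) ∧
      ∃ Z : Set ℝ, Z.Countable ∧ ParabolicNull n {p | p ∈ intFailureSet μ ν ∧ p.2 ∉ Z}) ∧
    (∀ R : ℝ, InBall R μ → (IntegratedOn μ ν univ univ ↔
      ContinuousOn (fun t => (μ t univ).toReal) (Ici 0) ∧
      ∃ Z : Set ℝ, Z.Countable ∧ ParabolicNull n {p | p ∈ intFailureSet μ ν ∧ p.2 ∉ Z})) := by
  have hL := hB.locMass
  have hiff : IntegratedOn μ ν univ univ ↔ intFailureSet μ ν = ∅ := by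
    constructor
    · intro h
      rw [eq_empty_iff_forall_notMem]
      rintro p ⟨_, hp⟩
      exact hp ⟨univ, univ_mem, univ, univ_mem, h⟩
    · exact integrated_of_empty hF hL
  have hloc : ∀ (W : Set (E × ℝ)) (Z : Set ℝ), IsOpen W → Z.Countable →
      (∀ φ : E → ℝ, Test φ → ∀ z ∈ Z, 0 ≤ z → ContinuousWithinAt (mass μ φ) (Ici 0) z) →
      ParabolicNull n {p | p ∈ intFailureSet μ ν ∩ W ∧ p.2 ∉ Z} →
      intFailureSet μ ν ∩ W = ∅ := by
    intro W Z hW hZ hc hnull
    rw [eq_empty_iff_forall_notMem]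
    rintro p ⟨⟨hp0, hp⟩, hpW⟩
    exact hp (gap_int_local hn hF hB hW hZ hc hnull hpW hp0)
  have hnull0 : intFailureSet μ ν = ∅ → ∃ Z : Set ℝ, Z.Countable ∧
      ParabolicNull n {p | p ∈ intFailureSet μ ν ∧ p.2 ∉ Z} := by
    intro h
    refine ⟨∅, countable_empty, ?_⟩
    have : {p | p ∈ intFailureSet μ ν ∧ p.2 ∉ (∅ : Set ℝ)} = (∅ : Set (E × ℝ)) := by
      rw [h]; ext p; simp
    rw [this]
    exact parabolicNull_empty hn
  have hback : (∀ φ : E → ℝ, Test φ → ContinuousOn (mass μ φ) (Ici 0)) →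
      (∃ Z : Set ℝ, Z.Countable ∧ ParabolicNull n {p | p ∈ intFailureSet μ ν ∧ p.2 ∉ Z}) →
      IntegratedOn μ ν univ univ := by
    rintro hc ⟨Z, hZ, hnull⟩
    rw [hiff]
    have h1 := hloc univ Z isOpen_univ hZ (fun φ hφ z _ hz => hc φ hφ z hz) (by
      rw [inter_univ]; exact hnull)
    rwa [inter_univ] at h1
  refine ⟨hiff, hloc, ⟨fun h => ⟨fun φ hφ => continuousOn_of_integrated h hφ,
    hnull0 (hiff.1 h)⟩, fun h => hback h.1 h.2⟩, fun R hR => ⟨fun h => ⟨?_, hnull0 (hiff.1 h)⟩,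
    fun h => hback (fun φ hφ z hz => continuous_of_total hF hR hz (h.1 z hz) hφ) h.2⟩⟩
  have hR' : (0:ℝ) < |R| + 1 := by positivity
  have h1 := continuousOn_of_integrated h (cut_test (0:E) hR')
  refine h1.congr fun t ht => ?_
  exact (total_eq_mass hR hR' (by linarith [le_abs_self R]) ht).symm

end MP247
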