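import Pool.Agent.Lib.MP_247ac7.Times

/-! # The gap theorem for Q1 (equality at almost every time) -/

open MeasureTheory Filter Topology Metric Set
open scoped RealInnerProductSpace ContDiff ENNReal

namespace MP247

variable {E : Type*} [NormedAddCommGroup E] [InnerProductSpace ℝ E] [MeasurableSpace E]
  [BorelSpace E] [FiniteDimensional ℝ E] {μ : ℝ → Measure E} {ν : ℝ → E → E}

omit [InnerProductSpace ℝ E] [MeasurableSpace E] [BorelSpace E] [FiniteDimensional ℝ E] in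
theorem ofReal_sum_le {ι : Type*} (S : Finset ι) (f : ι → ℝ) :
    ENNReal.ofReal (∑ i ∈ S, f i) ≤ ∑ i ∈ S, ENNReal.ofReal (f i) := by
  classical
  induction S using Finset.induction_on with
  | empty => simp
  | insert a S ha ih =>
    rw [Finset.sum_insert ha, Finset.sum_insert ha]
    exact (ENNReal.ofReal_add_le).trans (add_le_add_right ih _)

/-- a countable family of good product neighbourhoods covering all good points -/
theorem exists_good_family (hF : IsBrakkeFlow μ ν) (hB : LocMass μ) :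
    ∃ (T : Set (E × ℝ)) (ρ : E × ℝ → ℝ) (I : E × ℝ → Set ℝ), T.Countable ∧
      (∀ q ∈ T, 0 < ρ q ∧ ρ q ≤ 1) ∧
      (∀ y τ, GoodPt μ ν (y, τ) → ∃ q ∈ T, y ∈ ball q.1 (ρ q) ∧ τ ∈ I q) ∧
      (∀ᵐ t : ℝ, 0 < t → ∀ q ∈ T, t ∈ I q → ∀ (V : Set E) (H : E → E), Reg (μ t) (ν t) V H →
        closedBall q.1 (2 * ρ q) ⊆ V → ∀ φ : E → ℝ, Test φ → tsupport φ ⊆ ball q.1 (ρ q) →
          LB (mass μ φ) t (rhs (μ t) φ H)) := by
  classical
  have h0 : ∀ q : E × ℝ, ∃ ρ : ℝ, ∃ I : Set ℝ, GoodPt μ ν q → (0 < ρ ∧ ρ ≤ 1 ∧ IsOpen I ∧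
      q.2 ∈ I ∧ ∀ᵐ t : ℝ, t ∈ I → 0 < t → ∀ (V : Set E) (H : E → E), Reg (μ t) (ν t) V H →
        closedBall q.1 (2 * ρ) ⊆ V → ∀ φ : E → ℝ, Test φ → tsupport φ ⊆ ball q.1 ρ →
          LB (mass μ φ) t (rhs (μ t) φ H)) := by
    intro q
    by_cases hq : GoodPt μ ν q
    · obtain ⟨ρ, h1, h2, I, h3, h4, h5⟩ := good_nhd hF hB hq
      exact ⟨ρ, I, fun _ => ⟨h1, h2, h3, h4, h5⟩⟩
    · exact ⟨0, ∅, fun h => absurd h hq⟩
  choose ρ I hρI using h0
  obtain ⟨T, hTs, hTc, hTcov⟩ := TopologicalSpace.countable_cover_nhdsWithin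
    (s := {q : E × ℝ | GoodPt μ ν q}) (f := fun q => ball q.1 (ρ q) ×ˢ I q) (by
      intro q hq
      obtain ⟨h1, h2, h3, h4, h5⟩ := hρI q hq
      apply mem_nhdsWithin_of_mem_nhds
      exact prod_mem_nhds (ball_mem_nhds _ h1) (h3.mem_nhds h4))
  refine ⟨T, ρ, I, hTc, fun q hq => ⟨(hρI q (hTs hq)).1, (hρI q (hTs hq)).2.1⟩, ?_, ?_⟩
  · intro y τ h
    have := hTcov (show (y, τ) ∈ {q : E × ℝ | GoodPt μ ν q} from h)
    simp only [mem_iUnion, exists_prop] at this
    obtain ⟨q, hq, hq2⟩ := this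
    exact ⟨q, hq, hq2.1, hq2.2⟩
  · have h5 : ∀ᵐ t : ℝ, ∀ q ∈ T, t ∈ I q → 0 < t → ∀ (V : Set E) (H : E → E),
        Reg (μ t) (ν t) V H → closedBall q.1 (2 * ρ q) ⊆ V → ∀ φ : E → ℝ, Test φ →
          tsupport φ ⊆ ball q.1 (ρ q) → LB (mass μ φ) t (rhs (μ t) φ H) := by
      rw [ae_ball_iff hTc]
      intro q hq
      exact (hρI q (hTs hq)).2.2.2.2
    filter_upwards [h5] with t ht ht0 q hq hqI V H hR hV φ hφ hs
    exact ht q hq hqI ht0 V H hR hV φ hφ hs

/-- covering the support of `η` at a fixed time by bad balls and good balls -/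
theorem cover_slice (hF : IsBrakkeFlow μ ν) {τ : ℝ} (hτ : 0 < τ) {V : Set E} {H : E → E}
    (hR : Reg (μ τ) (ν τ) V H) {η : E → ℝ} (hη : Test η) (hηV : tsupport η ⊆ V)
    (hη1 : ∀ x, η x ≤ 1) {T : Set (E × ℝ)} {ρ : E × ℝ → ℝ} {I : E × ℝ → Set ℝ}
    (hgood : ∀ q ∈ T, τ ∈ I q → ∀ (V : Set E) (H : E → E), Reg (μ τ) (ν τ) V H →
        closedBall q.1 (2 * ρ q) ⊆ V → ∀ φ : E → ℝ, Test φ → tsupport φ ⊆ ball q.1 (ρ q) →
          LB (mass μ φ) τ (rhs (μ τ) φ H))
    {x : ℕ → E} {r d c : ℕ → ℝ} {act : ℕ → Prop}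
    (hact : ∀ i, act i → 0 < r i ∧ closedBall (x i) (2 * r i) ⊆ V ∧
      HasDerivAt (mass μ (cut (x i) (r i))) (d i) τ ∧ rhs (μ τ) (cut (x i) (r i)) H ≤ c i)
    (hcov : ∀ y ∈ tsupport η, (∃ i, act i ∧ y ∈ ball (x i) (r i)) ∨
      (∃ q ∈ T, τ ∈ I q ∧ y ∈ ball q.1 (ρ q) ∧ closedBall q.1 (2 * ρ q) ⊆ V)) :
    ∃ S : Finset ℕ, (∀ i ∈ S, act i) ∧
      LB (mass μ η) τ (rhs (μ τ) η H - ∑ i ∈ S, (c i - d i)) := by
  classical
  let J := {i : ℕ // act i} ⊕ {q : E × ℝ // q ∈ T ∧ τ ∈ I q ∧ closedBall q.1 (2 * ρ q) ⊆ V}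
  let O : J → Set E := Sum.elim (fun i => ball (x i.1) (r i.1)) (fun q => ball q.1.1 (ρ q.1))
  have hO : ∀ j, IsOpen (O j) := by
    rintro (i | q)
    · exact isOpen_ball
    · exact isOpen_ball
  have hcovO : tsupport η ⊆ ⋃ j, O j := by
    intro y hy
    rw [mem_iUnion]
    rcases hcov y hy with ⟨i, hi, hyi⟩ | ⟨q, hq, hqI, hyq, hqV⟩
    · exact ⟨Sum.inl ⟨i, hi⟩, hyi⟩
    · exact ⟨Sum.inr ⟨q, hq, hqI, hqV⟩, hyq⟩
  obtain ⟨S, hS⟩ := hη.compact.elim_finite_subcover O hO hcovO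
  let D : J → ℝ := Sum.elim (fun i => c i.1 - d i.1) (fun _ => 0)
  have key := slice hF hτ hR hη hηV hη1 (ι := S) (O := fun j => O j.1) (fun j => hO j.1)
    (by
      intro y hy
      have := hS hy
      simp only [mem_iUnion] at this ⊢
      obtain ⟨j, hj, hyj⟩ := this
      exact ⟨⟨j, hj⟩, hyj⟩) (δ := fun j => D j.1)
    (by
      rintro ⟨j, hj⟩ φ hφ hφ1 hs hsV
      rcases j with i | q
      · obtain ⟨h1, h2, h3, h4⟩ := hact i.1 i.2
        have := LB_bad hF hτ hR h1 h2 h3 hφ hφ1 hs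
        apply this.mono
        simp only [D, Sum.elim_inl]
        linarith
      · have := hgood q.1 q.2.1 q.2.2.1 V H hR q.2.2.2 φ hφ hs
        simpa [D] using this)
  refine ⟨S.toLeft.map (Function.Embedding.subtype _), ?_, ?_⟩
  · intro i hi
    simp only [Finset.mem_map, Function.Embedding.subtype_apply] at hi
    obtain ⟨a, _, rfl⟩ := hi
    exact a.2
  · have h1 : ∑ j : S, D j.1 = ∑ i ∈ S.toLeft.map (Function.Embedding.subtype _), (c i - d i) := by
      rw [Finset.sum_coe_sort S D, ← Finset.toLeft_disjSum_toRight (u := S), Finset.sum_disjSum,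
        Finset.toLeft_disjSum]
      simp [D]
    rw [h1] at key
    exact key

/-- **Core estimate.** If the part of the failure set over the closed ball `B_{2δ}(x₀)` and over
the set of times `A` is parabolically null, then at almost every time of `A` the cut-off of the
ball has no defect. -/
theorem gap_core {m : ℕ} (hm : 1 ≤ m) (hF : IsBrakkeFlow μ ν) (hB : BoundedRatios m μ)
    {x0 : E} {δ : ℝ} (hδ0 : 0 < δ) (hδ1 : δ ≤ 1) (b : ℝ) {A : Set ℝ}
    (hnull : ParabolicNull m {p | p ∈ failureSet μ ν ∧ p.1 ∈ closedBall x0 (2 * δ) ∧ p.2 ∈ A}) :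
    ∀ᵐ τ : ℝ, τ ∈ Ioo 0 b → τ ∈ A →
      (brakkeB (μ τ) (ν τ) (cut x0 δ)).toReal ≤ deriv (mass μ (cut x0 δ)) τ := by
  classical
  have hL := hB.locMass
  -- constants
  set a : ℝ := 0 with ha
  have ha0 : 0 ≤ a := le_rfl
  obtain ⟨C, hC⟩ := hB (‖x0‖ + 10) b
  obtain ⟨N0, hN0⟩ := exists_nat_ge (‖x0‖ + 10)
  set V : Set E := ball 0 ((N0:ℝ) + 1) with hV
  have hx0 := norm_nonneg x0
  have hVb : ∀ y : E, ‖y‖ ≤ ‖x0‖ + 10 → y ∈ V := by
    intro y hy
    rw [hV, mem_ball_zero_iff]; linarith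
  set η := cut x0 δ with hη
  set K := closedBall x0 (2 * δ) with hK
  have hηK : tsupport η ⊆ K := cut_tsupport hδ0
  have hKn : ∀ y ∈ K, ‖y‖ ≤ ‖x0‖ + 2 := by
    intro y hy
    have h1 : dist y x0 ≤ 2 * δ := hy
    have h2 : ‖y‖ ≤ ‖y - x0‖ + ‖x0‖ := by
      have := norm_add_le (y - x0) x0; simpa using this
    rw [dist_eq_norm] at h1
    linarith
  have hKV : K ⊆ V := fun y hy => hVb y (by linarith [hKn y hy])
  -- the covers
  have hcovers : ∀ k : ℕ, ∃ (x : ℕ → E) (t r : ℕ → ℝ), (∀ i, 0 < r i) ∧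
      {p | p ∈ failureSet μ ν ∧ p.1 ∈ closedBall x0 (2 * δ) ∧ p.2 ∈ A} ⊆ ⋃ i, cyl (x i) (t i) (r i) ∧
      Summable (fun i => r i ^ m) ∧ ∑' i, r i ^ m ≤ 1 / ((k:ℝ) + 1) :=
    fun k => hnull (1 / ((k:ℝ) + 1)) (by positivity)
  choose x t r hr hcov hsum hle using hcovers
  have hr1 : ∀ k i, r k i ≤ 1 := by
    intro k i
    have h1 : r k i ^ m ≤ ∑' i, r k i ^ m :=
      (hsum k).le_tsum i fun j _ => pow_nonneg (hr k j).le m
    have h2 : (1:ℝ) / ((k:ℝ) + 1) ≤ 1 := by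
      rw [div_le_one (by positivity)]
      have : (0:ℝ) ≤ k := Nat.cast_nonneg k
      linarith
    by_contra hc
    push Not at hc
    have h3 : 1 < r k i ^ m := one_lt_pow₀ hc (by omega)
    linarith [hle k]
  let act : ℕ → ℕ → Prop := fun k i => (ball (x k i) (r k i) ∩ K).Nonempty
  have hactn : ∀ k i, act k i → ‖x k i‖ ≤ ‖x0‖ + 3 := by
    rintro k i ⟨y, hy1, hy2⟩
    have h1 := hKn y hy2
    have h2 : dist y (x k i) < r k i := hy1
    rw [dist_comm, dist_eq_norm] at h2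
    have h3 : ‖x k i‖ ≤ ‖x k i - y‖ + ‖y‖ := by
      have := norm_add_le (x k i - y) y; simpa using this
    linarith [hr1 k i]
  let c : ℕ → ℕ → ℝ := fun k i => (K0 E / r k i) ^ 2 * (|C| * (3 * r k i) ^ m)
  let dd : ℕ → ℕ → ℝ → ℝ := fun k i τ => deriv (mass μ (cut (x k i) (r k i))) τ
  let G : ℕ → ℕ → ℝ → ℝ≥0∞ := fun k i =>
    if act k i then (Ioo (t k i - r k i ^ 2) (t k i + r k i ^ 2)).indicator
      (fun τ => ENNReal.ofReal (c k i - dd k i τ)) else fun _ => 0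
  have hGm : ∀ k i, Measurable (G k i) := by
    intro k i
    simp only [G]
    split_ifs
    · exact ((measurable_const.sub (measurable_deriv _)).ennreal_ofReal).indicator
        measurableSet_Ioo
    · exact measurable_const
  let Mk : ℕ → ℝ → ℝ≥0∞ := fun k τ => ∑' i, G k i τ
  have hMm : ∀ k, Measurable (Mk k) := fun k => Measurable.ennreal_tsum (hGm k)
  set C' := (2 * K0 E ^ 2 + 1) * |C| * 3 ^ m with hC'
  have hC'0 : 0 ≤ C' := by positivity
  have hMint : ∀ k : ℕ, ∫⁻ τ in Ioo a b, Mk k τ ≤ ENNReal.ofReal (C' * (1 / ((k:ℝ) + 1))) := by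
    intro k
    simp only [Mk]
    rw [lintegral_tsum fun i => (hGm k i).aemeasurable]
    have h1 : ∀ i, ∫⁻ τ in Ioo a b, G k i τ ≤ ENNReal.ofReal (C' * r k i ^ m) := by
      intro i
      by_cases hai : act k i
      · simp only [G, if_pos hai]
        rw [lintegral_indicator measurableSet_Ioo, Measure.restrict_restrict measurableSet_Ioo,
          inter_comm]
        exact lint_cyl hF hL ha0 hC (x := x k i) (r := r k i) (by linarith [hactn k i hai])
          (hr k i) (by linarith [hr1 k i]) (t k i)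
      · simp [G, if_neg hai]
    refine (ENNReal.tsum_le_tsum h1).trans ?_
    rw [← ENNReal.ofReal_tsum_of_nonneg (fun i => mul_nonneg hC'0 (pow_nonneg (hr k i).le m))
      ((hsum k).mul_left C'), tsum_mul_left]
    exact ENNReal.ofReal_le_ofReal (mul_le_mul_of_nonneg_left (hle k) hC'0)
  -- pointwise bound
  obtain ⟨T, ρ, I, hTc, hT1, hT2, hT3⟩ := exists_good_family hF hL
  let h : ℝ → ℝ≥0∞ := fun τ =>
    ENNReal.ofReal ((brakkeB (μ τ) (ν τ) η).toReal - deriv (mass μ η) τ)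
  have hdAll : ∀ᵐ τ : ℝ, ∀ k i, 0 < τ → DifferentiableAt ℝ (mass μ (cut (x k i) (r k i))) τ := by
    rw [ae_all_iff]; intro k
    rw [ae_all_iff]; intro i
    exact ae_diff_cut hF hL (x k i) (hr k i)
  have hpt : ∀ᵐ τ : ℝ, τ ∈ Ioo a b → τ ∈ A → ∀ k, h τ ≤ Mk k τ := by
    filter_upwards [hdAll, ae_reg hF hL, ae_diff_cut hF hL x0 hδ0, hT3]
      with τ hτd hτR hτη hτT hτI hτA k
    have hτ0 : 0 < τ := lt_of_le_of_lt ha0 hτI.1
    obtain ⟨H, hR⟩ := hτR hτ0 N0
    have hR' : Reg (μ τ) (ν τ) V H := hR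
    let act' : ℕ → Prop := fun i => act k i ∧ τ ∈ Ioo (t k i - r k i ^ 2) (t k i + r k i ^ 2)
    obtain ⟨S, hS1, hS2⟩ := cover_slice hF hτ0 hR' (cut_test x0 hδ0)
      (hηK.trans hKV) (cut_le_one x0 δ) (T := T) (ρ := ρ) (I := I) (hτT hτ0)
      (x := x k) (r := r k) (d := fun i => dd k i τ) (c := c k) (act := act')
      (by
        intro i hi
        refine ⟨hr k i, ?_, (hτd k i hτ0).hasDerivAt, ?_⟩
        · intro y hy
          apply hVb
          have h1 : dist y (x k i) ≤ 2 * r k i := hy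
          rw [dist_eq_norm] at h1
          have h2 : ‖y‖ ≤ ‖y - x k i‖ + ‖x k i‖ := by
            have := norm_add_le (y - x k i) (x k i); simpa using this
          linarith [hactn k i hi.1, hr1 k i]
        · apply rhs_cut_le H (x k i) (hr k i) (by have := (hr k i).le; positivity)
          exact closedBall_bound
            (fun y hy s hs hs' => hC τ hτ0.le hτI.2.le y hy s hs hs')
            (by linarith [hactn k i hi.1]) (hr k i) (by linarith [hr1 k i]))
      (by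
        intro y hy
        have hyK := hηK hy
        by_cases hg : GoodPt μ ν (y, τ)
        · right
          obtain ⟨q, hq, hyq, hqI⟩ := hT2 y τ hg
          refine ⟨q, hq, hqI, hyq, ?_⟩
          intro z hz
          apply hVb
          have h1 : dist z q.1 ≤ 2 * ρ q := hz
          have h2 : dist y q.1 < ρ q := hyq
          have h3 := (hT1 q hq).2
          have h4 := hKn y hyK
          have h5 : dist z y ≤ 3 := by
            have := dist_triangle z q.1 y
            rw [dist_comm q.1 y] at this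
            linarith
          rw [dist_eq_norm] at h5
          have h6 : ‖z‖ ≤ ‖z - y‖ + ‖y‖ := by
            have := norm_add_le (z - y) y; simpa using this
          linarith
        · left
          have hmem : ((y, τ) : E × ℝ) ∈ {p | p ∈ failureSet μ ν ∧ p.1 ∈ closedBall x0 (2 * δ) ∧ p.2 ∈ A} :=
            ⟨⟨hτ0, hg⟩, hyK, hτA⟩
          have := hcov k hmem
          rw [mem_iUnion] at this
          obtain ⟨i, hi1, hi2⟩ := this
          exact ⟨i, ⟨⟨y, hi1, hyK⟩, hi2⟩, hi1⟩)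
    have hdη := (hτη hτ0).hasDerivAt
    have hle1 := hS2.le_UB (UB_of_hasDerivAt hdη)
    have hBη : (brakkeB (μ τ) (ν τ) η).toReal = rhs (μ τ) η H := by
      rw [hR'.brakkeB_eq (cut_test x0 hδ0) (hηK.trans hKV)]; rfl
    have hle2 : (brakkeB (μ τ) (ν τ) η).toReal - deriv (mass μ η) τ ≤
        ∑ i ∈ S, (c k i - dd k i τ) := by
      rw [hBη]; linarith
    calc h τ ≤ ENNReal.ofReal (∑ i ∈ S, (c k i - dd k i τ)) := ENNReal.ofReal_le_ofReal hle2
      _ ≤ ∑ i ∈ S, ENNReal.ofReal (c k i - dd k i τ) := ofReal_sum_le S _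
      _ ≤ ∑ i ∈ S, G k i τ := by
          apply Finset.sum_le_sum
          intro i hi
          obtain ⟨h1, h2⟩ := hS1 i hi
          simp only [G, if_pos h1]
          rw [indicator_of_mem h2]
      _ ≤ Mk k τ := ENNReal.sum_le_tsum S
  -- Fatou
  have hlim : ∫⁻ τ in Ioo a b, liminf (fun k => Mk k τ) atTop = 0 := by
    have h1 := lintegral_liminf_le (μ := volume.restrict (Ioo a b)) (u := atTop) hMm
    have h2 : Tendsto (fun k : ℕ => ENNReal.ofReal (C' * (1 / ((k:ℝ) + 1)))) atTop (𝓝 0) := by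
      have h3 : Tendsto (fun k : ℕ => C' * (1 / ((k:ℝ) + 1))) atTop (𝓝 (C' * 0)) :=
        (tendsto_one_div_add_atTop_nhds_zero_nat).const_mul C'
      rw [mul_zero] at h3
      have := ENNReal.tendsto_ofReal h3
      simpa using this
    have h4 : liminf (fun k => ∫⁻ τ in Ioo a b, Mk k τ) atTop ≤ 0 := by
      rw [← h2.liminf_eq]
      exact liminf_le_liminf (Eventually.of_forall hMint)
    exact le_antisymm (h1.trans h4) bot_le
  have hzero : ∀ᵐ τ : ℝ, τ ∈ Ioo a b → τ ∈ A → h τ = 0 := by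
    have hm0 : Measurable fun τ => liminf (fun k => Mk k τ) atTop := Measurable.liminf hMm
    have h1 := (lintegral_eq_zero_iff hm0).1 hlim
    rw [Filter.EventuallyEq, ae_restrict_iff' measurableSet_Ioo] at h1
    filter_upwards [h1, hpt] with τ h2 h3 hτ hτA
    have h4 := h2 hτ
    simp only [Pi.zero_apply] at h4
    rw [← nonpos_iff_eq_zero, ← h4]
    exact le_liminf_of_le (by isBoundedDefault) (Eventually.of_forall fun k => h3 hτ hτA k)
  filter_upwards [hzero] with τ h1 h2 h3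
  have := ENNReal.ofReal_eq_zero.1 (h1 h2 h3)
  linarith

/-- **Gap theorem (almost every time), slice form.** Let `S` be any set of space-time such that
`F ∩ S` is parabolically null. Then for almost every `t > 0` equality holds for every test function
supported in the interior of the time slice `S_t`. -/
theorem gap_slices {m : ℕ} (hm : 1 ≤ m) (hF : IsBrakkeFlow μ ν) (hB : BoundedRatios m μ)
    {S : Set (E × ℝ)} (hnull : ParabolicNull m (failureSet μ ν ∩ S)) :
    ∀ᵐ t : ℝ, 0 < t → ∀ φ : E → ℝ, Test φ → tsupport φ ⊆ interior {x | (x, t) ∈ S} →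
      EqAt μ ν t φ := by
  classical
  have hL := hB.locMass
  obtain ⟨D, hDc, hDd⟩ := TopologicalSpace.exists_countable_dense E
  -- radii 1 / (k + 1)
  have hk0 : ∀ k : ℕ, (0:ℝ) < 1 / ((k:ℝ) + 1) := fun k => by positivity
  have hk1 : ∀ k : ℕ, 1 / ((k:ℝ) + 1) ≤ 1 := fun k => by
    rw [div_le_one (by positivity)]
    have : (0:ℝ) ≤ k := Nat.cast_nonneg k
    linarith
  have hcore : ∀ᵐ τ : ℝ, ∀ x ∈ D, ∀ k b : ℕ, τ ∈ Ioo (0:ℝ) b →
      closedBall x (2 * (1 / ((k:ℝ) + 1))) ⊆ {y | (y, τ) ∈ S} →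
      (brakkeB (μ τ) (ν τ) (cut x (1 / ((k:ℝ) + 1)))).toReal ≤
        deriv (mass μ (cut x (1 / ((k:ℝ) + 1)))) τ := by
    rw [ae_ball_iff hDc]
    intro x _
    rw [ae_all_iff]; intro k
    rw [ae_all_iff]; intro b
    have := gap_core hm hF hB (x0 := x) (hk0 k) (hk1 k) (b:ℝ)
      (A := {τ | closedBall x (2 * (1 / ((k:ℝ) + 1))) ⊆ {y | (y, τ) ∈ S}}) (by
        intro ε hε
        obtain ⟨x', t', r', h1, h2, h3, h4⟩ := hnull ε hε
        refine ⟨x', t', r', h1, subset_trans ?_ h2, h3, h4⟩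
        rintro q ⟨h5, h6, h7⟩
        exact ⟨h5, h7 h6⟩)
    filter_upwards [this] with τ h1 h2 h3
    exact h1 h2 h3
  have hdiff : ∀ᵐ τ : ℝ, ∀ x ∈ D, ∀ k : ℕ, 0 < τ →
      DifferentiableAt ℝ (mass μ (cut x (1 / ((k:ℝ) + 1)))) τ := by
    rw [ae_ball_iff hDc]
    intro x _
    rw [ae_all_iff]; intro k
    exact ae_diff_cut hF hL x (hk0 k)
  filter_upwards [hcore, hdiff, ae_reg hF hL] with τ hτc hτd hτR hτ φ hφ hsupp
  -- bound of the support
  obtain ⟨B, hB'⟩ := hφ.compact.isBounded.subset_closedBall (0:E)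
  obtain ⟨N0, hN0⟩ := exists_nat_ge (|B| + 10)
  obtain ⟨H, hR⟩ := hτR hτ N0
  set V : Set E := ball 0 ((N0:ℝ) + 1) with hV
  have hR' : Reg (μ τ) (ν τ) V H := hR
  have hsV : tsupport φ ⊆ V := by
    intro y hy
    have := hB' hy
    rw [mem_closedBall_zero_iff] at this
    rw [hV, mem_ball_zero_iff]
    linarith [le_abs_self B]
  -- small balls
  have hball : ∀ y ∈ tsupport φ, ∃ x ∈ D, ∃ k : ℕ, y ∈ ball x (1 / ((k:ℝ) + 1)) ∧
      closedBall x (2 * (1 / ((k:ℝ) + 1))) ⊆ {z | (z, τ) ∈ S} ∧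
      closedBall x (2 * (1 / ((k:ℝ) + 1))) ⊆ V := by
    intro y hy
    obtain ⟨ε, hε, hεS⟩ := Metric.isOpen_iff.1 isOpen_interior y (hsupp hy)
    obtain ⟨k, hk⟩ := exists_nat_one_div_lt (show (0:ℝ) < min (ε / 3) 1 by positivity)
    obtain ⟨x, hxD, hxy⟩ := hDd.exists_dist_lt y (hk0 k)
    have hkε : 1 / ((k:ℝ) + 1) < ε / 3 := hk.trans_le (min_le_left _ _)
    refine ⟨x, hxD, k, hxy, ?_, ?_⟩
    · intro z hz
      apply interior_subset (hεS _)
      have h1 : dist z x ≤ 2 * (1 / ((k:ℝ) + 1)) := hz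
      have h2 := dist_triangle z x y
      rw [dist_comm x y] at h2
      rw [mem_ball]; linarith
    · intro z hz
      have h1 : dist z x ≤ 2 * (1 / ((k:ℝ) + 1)) := hz
      have h2 := dist_triangle z x y
      rw [dist_comm x y] at h2
      have h3 : dist z y ≤ 3 := by linarith [hk1 k]
      rw [dist_eq_norm] at h3
      have h4 := hB' hy
      rw [mem_closedBall_zero_iff] at h4
      have h6 : ‖z‖ ≤ ‖z - y‖ + ‖y‖ := by
        have := norm_add_le (z - y) y; simpa using this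
      rw [hV, mem_ball_zero_iff]
      linarith [le_abs_self B]
  -- normalise
  obtain ⟨C, hC⟩ := hφ.compact.exists_bound_of_continuous hφ.smooth.continuous
  set D' := |C| + 1 with hD'
  have hD0 : 0 < D' := by positivity
  have hφd := hφ.d2 hsV
  have hd := hφd.const_mul D'⁻¹
  have ht : Test (fun y => D'⁻¹ * φ y) :=
    ⟨hd.smooth, hd.compact, fun y => mul_nonneg (inv_nonneg.2 hD0.le) (hφ.nonneg y)⟩
  have hts : tsupport (fun y => D'⁻¹ * φ y) ⊆ tsupport φ := by
    refine closure_mono ?_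
    intro z hz h0
    exact hz (by simp [h0])
  -- finite cover
  let J := {p : E × ℕ // p.1 ∈ D ∧ closedBall p.1 (2 * (1 / ((p.2:ℝ) + 1))) ⊆ {z | (z, τ) ∈ S} ∧
      closedBall p.1 (2 * (1 / ((p.2:ℝ) + 1))) ⊆ V}
  obtain ⟨St, hSt⟩ := ht.compact.elim_finite_subcover
    (fun j : J => ball j.1.1 (1 / ((j.1.2:ℝ) + 1))) (fun j => isOpen_ball) (by
      intro y hy
      obtain ⟨x, hxD, k, h1, h2, h3⟩ := hball y (hts hy)
      rw [mem_iUnion]
      exact ⟨⟨(x, k), hxD, h2, h3⟩, h1⟩)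
  have key := slice hF hτ hR' ht hd.supp (by
      intro y
      rw [inv_mul_le_iff₀ hD0, mul_one]
      have := hC y
      rw [Real.norm_eq_abs] at this
      linarith [le_abs_self (φ y), le_abs_self C])
    (ι := St) (O := fun j => ball j.1.1.1 (1 / ((j.1.1.2:ℝ) + 1))) (fun j => isOpen_ball)
    (by
      intro y hy
      have := hSt hy
      simp only [mem_iUnion] at this ⊢
      obtain ⟨j, hj, hyj⟩ := this
      exact ⟨⟨j, hj⟩, hyj⟩) (δ := fun _ => 0)
    (by
      rintro ⟨⟨⟨x, k⟩, hxD, h2, h3⟩, hj⟩ ψ hψ _ hs _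
      simp only at hs
      rw [sub_zero]
      obtain ⟨b, hb⟩ := exists_nat_gt τ
      have e1 := hτc x hxD k b ⟨hτ, hb⟩ h2
      have hcV : closedBall x (2 * (1 / ((k:ℝ) + 1))) ⊆ V := h3
      rw [hR'.brakkeB_eq (cut_test x (hk0 k)) ((cut_tsupport (hk0 k)).trans hcV)] at e1
      have e2 : rhs (μ τ) (cut x (1 / ((k:ℝ) + 1))) H ≤
        deriv (mass μ (cut x (1 / ((k:ℝ) + 1)))) τ := e1
      have e3 : LB (mass μ (cut x (1 / ((k:ℝ) + 1)))) τ
          (rhs (μ τ) (cut x (1 / ((k:ℝ) + 1))) H) :=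
        (LB_of_hasDerivAt (hτd x hxD k hτ).hasDerivAt).mono e2
      exact LB_below hF hτ hR' (hk0 k) hcV e3 hψ hs)
  simp only [Finset.sum_const_zero, sub_zero] at key
  rw [rhs_const_mul hφ.smooth] at key
  have h3 : LB (mass μ φ) τ (rhs (μ τ) φ H) := by
    have h4 := key.const_mul D' hD0.le
    have h5 : D' * (D'⁻¹ * rhs (μ τ) φ H) = rhs (μ τ) φ H := by field_simp
    rw [h5] at h4
    apply h4.congr
    filter_upwards with s
    unfold mass
    rw [integral_const_mul]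
    field_simp
  exact (eqAt_of_LB hF hτ hR' hφ hsV h3).2

/-- **Local gap theorem (almost every time).** -/
theorem gap_local {m : ℕ} (hm : 1 ≤ m) (hF : IsBrakkeFlow μ ν) (hB : BoundedRatios m μ)
    {W : Set (E × ℝ)} (hW : IsOpen W) {N : Set ℝ} (hN : volume N = 0)
    (hnull : ParabolicNull m {p | p ∈ failureSet μ ν ∩ W ∧ p.2 ∉ N}) {p : E × ℝ}
    (hpW : p ∈ W) (hp0 : 0 < p.2) : GoodPt μ ν p := by
  have h1 := gap_slices hm hF hB (S := {p | p ∈ W ∧ p.2 ∉ N}) (by
    intro ε hε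
    obtain ⟨x', t', r', h1, h2, h3, h4⟩ := hnull ε hε
    refine ⟨x', t', r', h1, subset_trans ?_ h2, h3, h4⟩
    rintro q ⟨h5, h6, h7⟩
    exact ⟨⟨h5, h6⟩, h7⟩)
  obtain ⟨U, hU, I, hI, hUI⟩ := mem_nhds_prod_iff.1 (hW.mem_nhds hpW)
  refine ⟨interior U, interior_mem_nhds.2 hU, I, hI, ?_⟩
  have hNae : ∀ᵐ τ : ℝ, τ ∉ N := by
    rw [ae_iff]; simpa using hN
  have h0 : ∀ᵐ τ : ℝ, τ ≠ 0 := by simp [ae_iff, measure_singleton]
  filter_upwards [h1, hNae, h0] with t ht htN hne htI h00 φ hφ hs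
  apply ht (lt_of_le_of_ne h00 (Ne.symm hne)) φ hφ (hs.trans _)
  apply interior_mono
  intro x hx
  exact ⟨hUI ⟨hx, htI⟩, htN⟩

/-- At almost every time equality holds for every test function supported in good points. -/
theorem ae_eqAt (hF : IsBrakkeFlow μ ν) (hB : LocMass μ) :
    ∀ᵐ τ : ℝ, 0 < τ → ∀ φ : E → ℝ, Test φ → (∀ y ∈ tsupport φ, GoodPt μ ν (y, τ)) →
      EqAt μ ν τ φ := by
  classical
  obtain ⟨T, ρ, I, hTc, hT1, hT2, hT3⟩ := exists_good_family hF hB
  filter_upwards [ae_reg hF hB, hT3] with τ hτR hτT hτ φ hφ h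
  -- bound of the support
  obtain ⟨A, hA⟩ := hφ.compact.isBounded.subset_closedBall (0:E)
  obtain ⟨N0, hN0⟩ := exists_nat_ge (|A| + 10)
  obtain ⟨H, hR⟩ := hτR hτ N0
  set V : Set E := ball 0 ((N0:ℝ) + 1) with hV
  have hR' : Reg (μ τ) (ν τ) V H := hR
  have hsV : tsupport φ ⊆ V := by
    intro y hy
    have := hA hy
    rw [mem_closedBall_zero_iff] at this
    rw [hV, mem_ball_zero_iff]
    linarith [le_abs_self A]
  -- normalise
  obtain ⟨C, hC⟩ := hφ.compact.exists_bound_of_continuous hφ.smooth.continuous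
  set D := |C| + 1 with hD
  have hD0 : 0 < D := by positivity
  have hφd := hφ.d2 hsV
  have hd := hφd.const_mul D⁻¹
  have ht : Test (fun y => D⁻¹ * φ y) :=
    ⟨hd.smooth, hd.compact, fun y => mul_nonneg (inv_nonneg.2 hD0.le) (hφ.nonneg y)⟩
  obtain ⟨S, hS1, hS2⟩ := cover_slice hF hτ hR' ht hd.supp
    (by
      intro y
      rw [inv_mul_le_iff₀ hD0, mul_one]
      have := hC y
      rw [Real.norm_eq_abs] at this
      linarith [le_abs_self (φ y), le_abs_self C])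
    (T := T) (ρ := ρ) (I := I) (hτT hτ) (x := fun _ => 0) (r := fun _ => 1) (d := fun _ => 0)
    (c := fun _ => 0) (act := fun _ => False) (fun i hi => hi.elim)
    (by
      intro y hy
      right
      have hy' : y ∈ tsupport φ := by
        refine closure_mono ?_ hy
        intro z hz h0
        exact hz (by simp [h0])
      obtain ⟨q, hq, hyq, hqI⟩ := hT2 y τ (h y hy')
      refine ⟨q, hq, hqI, hyq, ?_⟩
      intro z hz
      rw [hV, mem_ball_zero_iff]
      have h1 : dist z q.1 ≤ 2 * ρ q := hz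
      have h2 : dist y q.1 < ρ q := hyq
      have h3 := (hT1 q hq).2
      have h4 := hA hy'
      rw [mem_closedBall_zero_iff] at h4
      have h5 : dist z y ≤ 3 := by
        have := dist_triangle z q.1 y
        rw [dist_comm q.1 y] at this
        linarith
      rw [dist_eq_norm] at h5
      have h6 : ‖z‖ ≤ ‖z - y‖ + ‖y‖ := by
        have := norm_add_le (z - y) y; simpa using this
      linarith [le_abs_self A])
  have hSe : S = ∅ := Finset.eq_empty_of_forall_notMem fun i hi => hS1 i hi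
  rw [hSe, Finset.sum_empty, sub_zero, rhs_const_mul hφ.smooth] at hS2
  have h3 : LB (mass μ φ) τ (rhs (μ τ) φ H) := by
    have h4 := hS2.const_mul D hD0.le
    have h5 : D * (D⁻¹ * rhs (μ τ) φ H) = rhs (μ τ) φ H := by field_simp
    rw [h5] at h4
    apply h4.congr
    filter_upwards with s
    unfold mass
    rw [integral_const_mul]
    field_simp
  exact (eqAt_of_LB hF hτ hR' hφ hsV h3).2

/-- If every point of space-time is good then equality holds at almost every time. -/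
theorem equalityAE_of_empty (hF : IsBrakkeFlow μ ν) (hB : LocMass μ)
    (h : failureSet μ ν = ∅) : EqualityAE μ ν := by
  have h0 : ∀ᵐ τ : ℝ, τ ≠ 0 := by simp [ae_iff, measure_singleton]
  filter_upwards [ae_eqAt hF hB, h0] with τ h1 hne hτ0 φ hφ
  have hτ : 0 < τ := lt_of_le_of_ne hτ0 (Ne.symm hne)
  refine h1 hτ φ hφ fun y _ => ?_
  by_contra hc
  have : ((y, τ) : E × ℝ) ∈ failureSet μ ν := ⟨hτ, hc⟩
  rw [h] at this
  exact this

/-- Q1 implies that the failure set is empty. -/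
theorem empty_of_equalityAE (h : EqualityAE μ ν) : failureSet μ ν = ∅ := by
  rw [eq_empty_iff_forall_notMem]
  rintro p ⟨_, hp⟩
  apply hp
  refine ⟨univ, univ_mem, univ, univ_mem, ?_⟩
  filter_upwards [h] with t ht _ h0 φ hφ _
  exact ht h0 φ hφ

end MP247
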