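import Pool.Agent.Lib.MP_247ac7.Sing

/-! # The gap theorem for the integrated identity -/

open MeasureTheory Filter Topology Metric Set
open scoped RealInnerProductSpace ContDiff ENNReal

namespace MP247

variable {E : Type*} [NormedAddCommGroup E] [InnerProductSpace ℝ E] [MeasurableSpace E]
  [BorelSpace E] [FiniteDimensional ℝ E] {μ : ℝ → Measure E} {ν : ℝ → E → E}

/-- Consequences of the integrated identity for one test function. -/
theorem int_good (hF : IsBrakkeFlow μ ν) (hB : LocMass μ) {U : Set E} {I : Set ℝ}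
    (h : IntegratedOn μ ν U I) {φ : E → ℝ} (hφ : Test φ) (hU : tsupport φ ⊆ U) {s t : ℝ}
    (hs : s ∈ I) (ht : t ∈ I) (h0 : 0 ≤ s) (hst : s ≤ t) :
    sing μ φ t = sing μ φ s ∧
      ∀ᵐ τ : ℝ, τ ∈ Ioo s t → brakkeB (μ τ) (ν τ) φ = ((deriv (mass μ φ) τ : ℝ) : EReal) := by
  obtain ⟨h1, h2, h3⟩ := h φ hφ hU s hs t ht h0 hst
  obtain ⟨d1, d2⟩ := deriv_test hF hB hφ h0 hst
  obtain ⟨c, hc0, hc⟩ := exists_brakke_bound (ν := ν) hB hφ t
  -- pointwise comparison
  have hle : ∀ᵐ τ : ℝ, τ ∈ Ioc s t → brakkeB (μ τ) (ν τ) φ ≠ ⊥ ∧ brakkeB (μ τ) (ν τ) φ ≠ ⊤ ∧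
      deriv (mass μ φ) τ ≤ (brakkeB (μ τ) (ν τ) φ).toReal := by
    filter_upwards [h1, ae_diff_test hF hB hφ] with τ e1 e2 hτ
    have hτ0 : 0 < τ := lt_of_le_of_lt h0 hτ.1
    have hb := e1 ⟨hτ.1.le, hτ.2⟩
    have htop : brakkeB (μ τ) (ν τ) φ ≠ ⊤ :=
      (lt_of_le_of_lt (hc τ hτ0.le hτ.2) (EReal.coe_lt_top c)).ne
    refine ⟨hb, htop, ?_⟩
    have hu := upperDeriv_eq hτ0 (e2 hτ0).hasDerivAt
    have hi := hF.ineq τ hτ0.le φ hφ
    rw [hu] at hi
    have := EReal.toReal_le_toReal hi (EReal.coe_ne_bot _) htop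
    simpa using this
  have hI0 : ∫ τ in s..t, ((brakkeB (μ τ) (ν τ) φ).toReal - deriv (mass μ φ) τ) ≤ 0 := by
    rw [intervalIntegral.integral_sub h2 d1, ← h3]; linarith
  have hint : IntervalIntegrable
      (fun τ => (brakkeB (μ τ) (ν τ) φ).toReal - deriv (mass μ φ) τ) volume s t := h2.sub d1
  rw [intervalIntegral.integral_of_le hst] at hI0
  have hint' := (intervalIntegrable_iff_integrableOn_Ioc_of_le hst).1 hint
  have hnn : 0 ≤ᵐ[volume.restrict (Ioc s t)]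
      fun τ => (brakkeB (μ τ) (ν τ) φ).toReal - deriv (mass μ φ) τ := by
    rw [Filter.EventuallyLE, ae_restrict_iff' measurableSet_Ioc]
    filter_upwards [hle] with τ hτ hτI
    simp only [Pi.zero_apply]
    linarith [(hτ hτI).2.2]
  have hzero := le_antisymm hI0 (integral_nonneg_of_ae hnn)
  have hz := (integral_eq_zero_iff_of_nonneg_ae hnn hint').1 hzero
  rw [Filter.EventuallyEq, ae_restrict_iff' measurableSet_Ioc] at hz
  constructor
  · have e1 := sing_sub hF hB hφ h0 hst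
    have e2 : ∫ τ in s..t, deriv (mass μ φ) τ = ∫ τ in s..t, (brakkeB (μ τ) (ν τ) φ).toReal := by
      have : ∫ τ in s..t, ((brakkeB (μ τ) (ν τ) φ).toReal - deriv (mass μ φ) τ) = 0 := by
        rw [intervalIntegral.integral_of_le hst]; exact hzero
      rw [intervalIntegral.integral_sub h2 d1] at this
      linarith
    linarith
  · filter_upwards [hz, hle] with τ e1 e2 hτ
    have hτ' : τ ∈ Ioc s t := ⟨hτ.1, hτ.2.le⟩
    obtain ⟨f1, f2, f3⟩ := e2 hτ'
    have e3 := e1 hτ'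
    simp only [Pi.zero_apply] at e3
    have e4 : (brakkeB (μ τ) (ν τ) φ).toReal = deriv (mass μ φ) τ := by linarith
    rw [← e4, EReal.coe_toReal f2 f1]

/-- A point with a neighbourhood where the integrated identity holds is good in the sense of Q1. -/
theorem goodPt_of_int (hF : IsBrakkeFlow μ ν) (hB : LocMass μ) {p : E × ℝ}
    (hp0 : 0 < p.2) {U : Set E} {I : Set ℝ} (hU : U ∈ 𝓝 p.1) (hI : I ∈ 𝓝 p.2)
    (h : IntegratedOn μ ν U I) : GoodPt μ ν p := by
  obtain ⟨ε, hε, hεU⟩ := Metric.mem_nhds_iff.1 hU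
  obtain ⟨κ, hκ, hκI⟩ := Metric.mem_nhds_iff.1 hI
  set ρ := ε / 3 with hρ
  have hρ0 : 0 < ρ := by positivity
  set κ' := min (κ / 2) (p.2 / 2) with hκ'
  have hκ0 : 0 < κ' := by positivity
  have hκκ : κ' ≤ κ / 2 := min_le_left _ _
  have hκp : κ' ≤ p.2 / 2 := min_le_right _ _
  have hsub : closedBall p.1 (2 * ρ) ⊆ U := (closedBall_subset_ball (by linarith)).trans hεU
  have hIa : p.2 - κ' ∈ I := hκI (by rw [mem_ball, Real.dist_eq, abs_lt]; constructor <;> linarith)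
  have hIb : p.2 + κ' ∈ I := hκI (by rw [mem_ball, Real.dist_eq, abs_lt]; constructor <;> linarith)
  obtain ⟨_, hae⟩ := int_good hF hB h (cut_test p.1 hρ0) ((cut_tsupport hρ0).trans hsub) hIa hIb
    (by linarith) (by linarith)
  refine ⟨ball p.1 ρ, ball_mem_nhds _ hρ0, Ioo (p.2 - κ') (p.2 + κ'),
    Ioo_mem_nhds (by linarith) (by linarith), ?_⟩
  filter_upwards [hae, ae_diff_cut hF hB p.1 hρ0, ae_reg hF hB] with τ h1 h2 h3 hτ hτ0' φ hφ hs
  have hτ0 : 0 < τ := by linarith [hτ.1]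
  obtain ⟨N0, hN0⟩ := exists_nat_ge (‖p.1‖ + 2 * ρ)
  obtain ⟨H, hR⟩ := h3 hτ0 N0
  have hV : closedBall p.1 (2 * ρ) ⊆ ball (0:E) ((N0:ℝ) + 1) := by
    intro z hz
    rw [mem_ball_zero_iff]
    have h4 : dist z p.1 ≤ 2 * ρ := hz
    rw [dist_eq_norm] at h4
    have h6 : ‖z‖ ≤ ‖z - p.1‖ + ‖p.1‖ := by
      have := norm_add_le (z - p.1) p.1; simpa using this
    linarith
  have e1 := h1 hτ
  rw [hR.brakkeB_eq (cut_test p.1 hρ0) ((cut_tsupport hρ0).trans hV)] at e1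
  have e2 : rhs (μ τ) (cut p.1 ρ) H = deriv (mass μ (cut p.1 ρ)) τ := by exact_mod_cast e1
  have e3 : LB (mass μ (cut p.1 ρ)) τ (rhs (μ τ) (cut p.1 ρ) H) := by
    rw [e2]; exact LB_of_hasDerivAt (h2 hτ0).hasDerivAt
  have e4 := LB_below hF hτ0 hR hρ0 hV e3 hφ hs
  exact (eqAt_of_LB hF hτ0 hR hφ (hs.trans ((ball_subset_closedBall.trans
    (closedBall_subset_closedBall (by linarith))).trans hV)) e4).2

/-- covering at one time, for the singular part -/
theorem cover_slice_int (hF : IsBrakkeFlow μ ν) (hB : LocMass μ) {η : E → ℝ}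
    (hη : Test η) (hη1 : ∀ x, η x ≤ 1) {x : ℕ → E} {t r : ℕ → ℝ} {act : ℕ → Prop}
    (hr : ∀ i, act i → 0 < r i) {τ : ℝ}
    (hcov : ∀ y ∈ tsupport η, (∃ i, act i ∧ (y, τ) ∈ cyl (x i) (t i) (r i)) ∨
      (∃ U ∈ 𝓝 y, ∃ I ∈ 𝓝 τ, IntegratedOn μ ν U I)) :
    ∃ (S : Finset ℕ) (J : Set ℝ), IsOpen J ∧ τ ∈ J ∧
      (∀ i ∈ S, act i ∧ J ⊆ Ioo (t i - r i ^ 2) (t i + r i ^ 2)) ∧
      ∀ s ∈ J, ∀ u ∈ J, 0 ≤ s → s ≤ u → sing μ η u - sing μ η s ≤
        ∑ i ∈ S, (sing μ (cut (x i) (r i)) u - sing μ (cut (x i) (r i)) s) := by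
  classical
  -- index set: bad cylinders and good points
  let A := {i : ℕ // act i ∧ τ ∈ Ioo (t i - r i ^ 2) (t i + r i ^ 2)}
  let B := {y : E // ∃ U ∈ 𝓝 y, ∃ I ∈ 𝓝 τ, IntegratedOn μ ν U I}
  have hBch : ∀ y : B, ∃ (ρ : ℝ) (I : Set ℝ), 0 < ρ ∧ IsOpen I ∧ τ ∈ I ∧
      IntegratedOn μ ν (ball y.1 ρ) I := by
    rintro ⟨y, U, hU, I, hI, h⟩
    obtain ⟨ε, hε, hεU⟩ := Metric.mem_nhds_iff.1 hU
    obtain ⟨I', hI'I, hI'o, hI'τ⟩ := _root_.mem_nhds_iff.1 hI
    exact ⟨ε, I', hε, hI'o, hI'τ, fun φ hφ hs s hsI u huI h0 hsu =>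
      h φ hφ (hs.trans hεU) s (hI'I hsI) u (hI'I huI) h0 hsu⟩
  choose ρ I hρ0 hIo hIτ hInt using hBch
  let O : A ⊕ B → Set E := Sum.elim (fun i => ball (x i.1) (r i.1)) (fun y => ball y.1 (ρ y))
  let Q : A ⊕ B → Set ℝ := Sum.elim (fun i => Ioo (t i.1 - r i.1 ^ 2) (t i.1 + r i.1 ^ 2)) I
  have hO : ∀ j, IsOpen (O j) := by
    rintro (i | q)
    · exact isOpen_ball
    · exact isOpen_ball
  have hQ : ∀ j, IsOpen (Q j) ∧ τ ∈ Q j := by
    rintro (i | q)
    · exact ⟨isOpen_Ioo, i.2.2⟩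
    · exact ⟨hIo q, hIτ q⟩
  have hcovO : tsupport η ⊆ ⋃ j, O j := by
    intro y hy
    rw [mem_iUnion]
    rcases hcov y hy with ⟨i, hi, hyi⟩ | hg
    · exact ⟨Sum.inl ⟨i, hi, hyi.2⟩, hyi.1⟩
    · exact ⟨Sum.inr ⟨y, hg⟩, mem_ball_self (hρ0 _)⟩
  obtain ⟨S, hS⟩ := hη.compact.elim_finite_subcover O hO hcovO
  obtain ⟨χ, c1, c2, c3, c4, c5⟩ := exists_partition (K := tsupport η) hη.compact
    (ι := S) (fun j => O j.1) (fun j => hO j.1) (by
      intro y hy
      have := hS hy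
      simp only [mem_iUnion] at this ⊢
      obtain ⟨j, hj, hyj⟩ := this
      exact ⟨⟨j, hj⟩, hyj⟩)
  have ht : ∀ j : S, Test (fun y => η y * χ j y) := fun j =>
    ⟨hη.smooth.mul (c1 j), hη.compact.mul_right, fun y => mul_nonneg (hη.nonneg y) (c2 j y)⟩
  have hsum : (fun y => ∑ j : S, η y * χ j y) = η := by
    funext y
    rw [← Finset.mul_sum]
    by_cases hy : y ∈ tsupport η
    · rw [c5 y hy, mul_one]
    · rw [image_eq_zero_of_notMem_tsupport hy, zero_mul]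
  have hts : ∀ j : S, tsupport (fun y => η y * χ j y) ⊆ O j.1 := by
    intro j
    refine (closure_mono ?_).trans (c4 j)
    intro y hy h0
    exact hy (by simp [h0])
  refine ⟨S.toLeft.map (Function.Embedding.subtype _), ⋂ j ∈ S, Q j,
    isOpen_biInter_finset fun j _ => (hQ j).1, mem_iInter₂.2 fun j _ => (hQ j).2, ?_, ?_⟩
  · intro i hi
    simp only [Finset.mem_map, Function.Embedding.subtype_apply] at hi
    obtain ⟨a, ha, rfl⟩ := hi
    refine ⟨a.2.1, fun s hs => ?_⟩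
    have := mem_iInter₂.1 hs (Sum.inl a) (Finset.mem_toLeft.1 ha)
    exact this
  · intro s hs u hu h0 hsu
    have hu0 := h0.trans hsu
    have e1 := sing_sum hF hB Finset.univ (φ := fun j : S => fun y => η y * χ j y)
      (fun j _ => ht j) hu0
    have e2 := sing_sum hF hB Finset.univ (φ := fun j : S => fun y => η y * χ j y)
      (fun j _ => ht j) h0
    rw [hsum] at e1 e2
    rw [e1, e2, ← Finset.sum_sub_distrib]
    let D : A ⊕ B → ℝ := Sum.elim
      (fun i => sing μ (cut (x i.1) (r i.1)) u - sing μ (cut (x i.1) (r i.1)) s) (fun _ => 0)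
    have hD : ∀ j : S, sing μ (fun y => η y * χ j y) u - sing μ (fun y => η y * χ j y) s ≤ D j.1 := by
      rintro ⟨j, hj⟩
      have hsj : s ∈ Q j := mem_iInter₂.1 hs j hj
      have huj : u ∈ Q j := mem_iInter₂.1 hu j hj
      rcases j with i | y
      · have hri := hr i.1 i.2.1
        apply sing_dom hF hB (ht _) (cut_test (x i.1) hri) _ h0 hsu
        intro y
        by_cases hy : y ∈ ball (x i.1) (r i.1)
        · rw [cut_eq_one hri (mem_ball.1 hy).le]
          have := mul_le_mul (hη1 y) (c3 ⟨Sum.inl i, hj⟩ y) (c2 ⟨Sum.inl i, hj⟩ y) zero_le_one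
          simpa using this
        · have : η y * χ ⟨Sum.inl i, hj⟩ y = 0 :=
            image_eq_zero_of_notMem_tsupport (f := fun y => η y * χ ⟨Sum.inl i, hj⟩ y)
              fun h' => hy (hts ⟨Sum.inl i, hj⟩ h')
          rw [this]; exact cut_nonneg _ _ _
      · have := (int_good hF hB (hInt y) (ht ⟨Sum.inr y, hj⟩) (hts ⟨Sum.inr y, hj⟩)
          hsj huj h0 hsu).1
        simp only [D, Sum.elim_inr]
        linarith
    refine (Finset.sum_le_sum fun j _ => hD j).trans ?_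
    rw [Finset.sum_coe_sort S D, ← Finset.toLeft_disjSum_toRight (u := S), Finset.sum_disjSum,
      Finset.toLeft_disjSum]
    simp [D]
    linarith

/-- one-dimensional covering: local bounds of increments by increments of monotone functions `w i`
on time intervals `(l i, h i)` add up -/
theorem cover_general {ι : Type*} {f : ℝ → ℝ} {w : ι → ℝ → ℝ} {l h : ι → ℝ} {act : ι → Prop}
    (hw : ∀ i, act i → ∀ s u, 0 ≤ s → s ≤ u → w i s ≤ w i u) {a b : ℝ} (ha : 0 ≤ a) (hab : a ≤ b)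
    (hloc : ∀ τ ∈ Icc a b, ∃ (S : Finset ι) (J : Set ℝ), IsOpen J ∧ τ ∈ J ∧
      (∀ i ∈ S, act i ∧ J ⊆ Ioo (l i) (h i)) ∧
      ∀ s ∈ J, ∀ u ∈ J, 0 ≤ s → s ≤ u → f u - f s ≤ ∑ i ∈ S, (w i u - w i s)) :
    ∃ S : Finset ι, (∀ i ∈ S, act i ∧ max a (l i) ≤ min b (h i)) ∧
      f b - f a ≤ ∑ i ∈ S, (w i (min b (h i)) - w i (max a (l i))) := by
  classical
  choose S J hJo hτJ hSJ hmain using fun τ : Icc a b => hloc τ.1 τ.2
  obtain ⟨g, hg0, hgm, ⟨M, hgM⟩, hgc⟩ := exists_monotone_Icc_subset_open_cover_Icc hab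
    (c := fun τ : Icc a b => Subtype.val ⁻¹' (J τ)) (fun τ => (hJo τ).preimage continuous_subtype_val)
    (fun τ _ => mem_iUnion.2 ⟨τ, hτJ τ⟩)
  choose τn hτn using hgc
  -- inclusions
  have hgmono : ∀ n, (g n : ℝ) ≤ g (n + 1) := fun n => hgm (Nat.le_succ n)
  have hgin : ∀ n, Icc (g n : ℝ) (g (n + 1)) ⊆ J (τn n) := by
    intro n s hs
    have hsI : s ∈ Icc a b := ⟨(g n).2.1.trans hs.1, hs.2.trans (g (n + 1)).2.2⟩
    have : (⟨s, hsI⟩ : Icc a b) ∈ Icc (g n) (g (n + 1)) := ⟨hs.1, hs.2⟩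
    exact hτn n this
  have hga : ∀ n, a ≤ (g n : ℝ) := fun n => (g n).2.1
  have hgb : ∀ n, (g n : ℝ) ≤ b := fun n => (g n).2.2
  let St : Finset ι := (Finset.range M).biUnion fun n => S (τn n)
  let α : ι → ℝ := fun i => max a (l i)
  let β : ι → ℝ := fun i => min b (h i)
  have hin : ∀ n, ∀ i ∈ S (τn n), α i ≤ g n ∧ (g (n + 1) : ℝ) ≤ β i := by
    intro n i hi
    have h1 := (hSJ (τn n) i hi).2
    have h2 := h1 (hgin n (left_mem_Icc.2 (hgmono n)))
    have h3 := h1 (hgin n (right_mem_Icc.2 (hgmono n)))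
    exact ⟨max_le (hga n) h2.1.le, le_min (hgb _) h3.2.le⟩
  refine ⟨St, ?_, ?_⟩
  · intro i hi
    obtain ⟨n, hn, hin'⟩ := Finset.mem_biUnion.1 hi
    refine ⟨(hSJ (τn n) i hin').1, ?_⟩
    obtain ⟨h1, h2⟩ := hin n i hin'
    exact h1.trans ((hgmono n).trans h2)
  · -- telescoping
    have tel : ∑ n ∈ Finset.range M, (f (g (n + 1)) - f (g n)) = f b - f a := by
      rw [Finset.sum_range_sub (fun n => f (g n))]
      rw [hg0, hgM M le_rfl]
    rw [← tel]
    -- clamps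
    let q : ι → ℕ → ℝ := fun i n => max (α i) (min (β i) (g n))
    have hq0 : ∀ i n, 0 ≤ q i n := fun i n => (ha.trans (le_max_left _ _)).trans (le_max_left _ _)
    have hqm : ∀ i n, q i n ≤ q i (n + 1) := fun i n =>
      max_le_max le_rfl (min_le_min le_rfl (hgmono n))
    have hstep : ∀ n ∈ Finset.range M, f (g (n + 1)) - f (g n) ≤
        ∑ i ∈ St, (w i (q i (n + 1)) - w i (q i n)) := by
      intro n hn
      have h1 := hmain (τn n) (g n) (hgin n (left_mem_Icc.2 (hgmono n))) (g (n + 1))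
        (hgin n (right_mem_Icc.2 (hgmono n))) (ha.trans (hga n)) (hgmono n)
      refine h1.trans ?_
      have h2 : ∑ i ∈ S (τn n), (w i (g (n + 1)) - w i (g n)) = ∑ i ∈ S (τn n),
          (w i (q i (n + 1)) - w i (q i n)) := by
        apply Finset.sum_congr rfl
        intro i hi
        obtain ⟨h3, h4⟩ := hin n i hi
        have h5 : q i n = g n := by
          simp only [q]
          rw [min_eq_right ((hgmono n).trans h4), max_eq_right h3]
        have h6 : q i (n + 1) = g (n + 1) := by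
          simp only [q]
          rw [min_eq_right h4, max_eq_right (h3.trans (hgmono n))]
        rw [h5, h6]
      rw [h2]
      apply Finset.sum_le_sum_of_subset_of_nonneg
      · exact Finset.subset_biUnion_of_mem (fun n => S (τn n)) hn
      · intro i hi _
        obtain ⟨n', hn', hi'⟩ := Finset.mem_biUnion.1 hi
        exact sub_nonneg.2 (hw i (hSJ (τn n') i hi').1 _ _ (hq0 i n) (hqm i n))
    refine (Finset.sum_le_sum hstep).trans ?_
    rw [Finset.sum_comm]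
    apply Finset.sum_le_sum
    intro i hi
    obtain ⟨n', hn', hi'⟩ := Finset.mem_biUnion.1 hi
    obtain ⟨h3, h4⟩ := hin n' i hi'
    have hαβ : α i ≤ β i := h3.trans ((hgmono n').trans h4)
    rw [Finset.sum_range_sub (fun n => w i (q i n))]
    have e1 : q i M = β i := by
      simp only [q]
      rw [hgM M le_rfl, min_eq_left (min_le_left _ _), max_eq_right hαβ]
    have e2 : q i 0 = α i := by
      simp only [q]
      rw [hg0]
      exact max_eq_left ((min_le_right _ _).trans (le_max_left _ _))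
    rw [e1, e2]

/-- the singular defect of one cylinder -/
theorem sing_cyl {m : ℕ} (hF : IsBrakkeFlow μ ν) (hB : LocMass μ) {R C b : ℝ}
    (hC : ∀ t : ℝ, 0 ≤ t → t ≤ b → ∀ x : E, ‖x‖ ≤ R → ∀ r : ℝ, 0 < r → r ≤ R →
      μ t (ball x r) ≤ ENNReal.ofReal (C * r ^ m)) {x : E} {r : ℝ} (hx : ‖x‖ ≤ R)
    (hr : 0 < r) (hrR : 3 * r ≤ R) {α β : ℝ} (hα : 0 ≤ α) (hαβ : α ≤ β) (hβ : β ≤ b)
    (hlen : β - α ≤ 2 * r ^ 2) :
    sing μ (cut x r) β - sing μ (cut x r) α ≤ (2 * K0 E ^ 2 + 1) * |C| * 3 ^ m * r ^ m := by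
  set A := |C| * (3 * r) ^ m with hA
  have hA0 : 0 ≤ A := by positivity
  set c := (K0 E / r) ^ 2 * A with hc
  have hc0 : 0 ≤ c := by positivity
  have hb : ∀ s, 0 ≤ s → s ≤ b → μ s (closedBall x (2 * r)) ≤ ENNReal.ofReal A :=
    fun s h0 h1 => closedBall_bound (fun y hy u hu hu' => hC s h0 h1 y hy u hu hu') hx hr hrR
  rw [sing_sub hF hB (cut_test x hr) hα hαβ]
  have h1 : ∫ τ in α..β, deriv (mass μ (cut x r)) τ ≤ ∫ τ in α..β, c := by
    apply intervalIntegral.integral_mono_ae_restrict hαβ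
      (deriv_test hF hB (cut_test x hr) hα hαβ).1 intervalIntegrable_const
    rw [Filter.EventuallyLE, ae_restrict_iff' measurableSet_Icc]
    have hne : ∀ᵐ τ : ℝ, τ ≠ 0 := by simp [ae_iff, measure_singleton]
    filter_upwards [ae_diff_cut hF hB x hr, hne] with τ h1 h2 hτ
    have hτ0 : 0 < τ := lt_of_le_of_ne (hα.trans hτ.1) (Ne.symm h2)
    have h3 := upperDeriv_eq hτ0 (h1 hτ0).hasDerivAt
    have h4 := upperDeriv_cut_le hF hτ0.le x hr hA0 (hb τ hτ0.le (hτ.2.trans hβ))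
    rw [h3] at h4
    exact_mod_cast h4
  rw [intervalIntegral.integral_const, smul_eq_mul] at h1
  have h3 : 0 ≤ mass μ (cut x r) β := integral_nonneg fun y => cut_nonneg _ _ _
  have h4 : mass μ (cut x r) α ≤ A := by
    have hfinm := hF.finite α hα
    have hle : mass μ (cut x r) α ≤
        ∫ y, (closedBall x (2 * r)).indicator (fun _ => (1:ℝ)) y ∂(μ α) := by
      apply integral_mono_of_nonneg (Eventually.of_forall fun y => cut_nonneg _ _ _)
      · rw [integrable_indicator_iff measurableSet_closedBall]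
        exact integrableOn_const (isCompact_closedBall _ _).measure_lt_top.ne
      · refine Eventually.of_forall fun y => ?_
        simp only
        by_cases hy : y ∈ closedBall x (2 * r)
        · rw [indicator_of_mem hy]; exact cut_le_one _ _ _
        · rw [indicator_of_notMem hy]
          rw [mem_closedBall, not_le] at hy
          exact (cut_eq_zero hr hy.le).le
    rw [integral_indicator measurableSet_closedBall, setIntegral_const, smul_eq_mul, mul_one] at hle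
    refine hle.trans ?_
    have := ENNReal.toReal_mono ENNReal.ofReal_ne_top (hb α hα (hαβ.trans hβ))
    rwa [ENNReal.toReal_ofReal hA0] at this
  have h6 : c * (2 * r ^ 2) = 2 * K0 E ^ 2 * A := by
    rw [hc]; field_simp
  have h7 : (β - α) * c ≤ 2 * K0 E ^ 2 * A := by
    rw [← h6, mul_comm]; exact mul_le_mul_of_nonneg_left hlen hc0
  have h8 : (2 * K0 E ^ 2 + 1) * |C| * 3 ^ m * r ^ m = 2 * K0 E ^ 2 * A + A := by
    rw [hA, mul_pow]; ring
  rw [h8]
  linarith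

/-- From equality at almost every time and a vanishing singular part to the integrated
identity. -/
theorem integratedOn_of (hF : IsBrakkeFlow μ ν) (hB : LocMass μ) {U : Set E}
    {I : Set ℝ}
    (hae : ∀ φ : E → ℝ, Test φ → tsupport φ ⊆ U → ∀ᵐ τ : ℝ, τ ∈ I → 0 < τ → EqAt μ ν τ φ)
    (hI : I.OrdConnected)
    (hs : ∀ φ : E → ℝ, Test φ → tsupport φ ⊆ U → ∀ s ∈ I, ∀ t ∈ I, 0 ≤ s → s ≤ t →
      sing μ φ t ≤ sing μ φ s) : IntegratedOn μ ν U I := by
  intro φ hφ hU s hsI t htI h0 hst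
  have hsing := le_antisymm (hs φ hφ hU s hsI t htI h0 hst) (sing_mono hF hB hφ h0 hst)
  obtain ⟨d1, d2⟩ := deriv_test hF hB hφ h0 hst
  have hne : ∀ᵐ τ : ℝ, τ ≠ 0 := by simp [ae_iff, measure_singleton]
  have key : ∀ᵐ τ : ℝ, τ ∈ Icc s t →
      brakkeB (μ τ) (ν τ) φ = ((deriv (mass μ φ) τ : ℝ) : EReal) := by
    filter_upwards [hae φ hφ hU, ae_diff_test hF hB hφ, hne] with τ h1 h2 h3 hτ
    have hτ0 : 0 < τ := lt_of_le_of_ne (h0.trans hτ.1) (Ne.symm h3)
    have h4 := h1 (hI.out hsI htI hτ) hτ0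
    unfold EqAt at h4
    rw [← h4, upperDeriv_eq hτ0 (h2 hτ0).hasDerivAt]
  refine ⟨?_, ?_, ?_⟩
  · filter_upwards [key] with τ h1 hτ
    rw [h1 hτ]; exact EReal.coe_ne_bot _
  · refine d1.congr_ae ?_
    rw [Filter.EventuallyEq, ae_restrict_iff' measurableSet_uIoc]
    filter_upwards [key] with τ h1 hτ
    rw [uIoc_of_le hst] at hτ
    rw [h1 ⟨hτ.1.le, hτ.2⟩, EReal.toReal_coe]
  · have e1 : ∫ τ in s..t, (brakkeB (μ τ) (ν τ) φ).toReal = ∫ τ in s..t, deriv (mass μ φ) τ := by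
      apply intervalIntegral.integral_congr_ae
      filter_upwards [key] with τ h1 hτ
      rw [uIoc_of_le hst] at hτ
      rw [h1 ⟨hτ.1.le, hτ.2⟩, EReal.toReal_coe]
    rw [e1]
    have := sing_sub hF hB hφ h0 hst
    linarith

end MP247
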