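import Pool.Agent.Lib.MP_247ac7.GapInt

/-! # The gap theorem for the integrated identity (conclusion) -/

open MeasureTheory Filter Topology Metric Set
open scoped RealInnerProductSpace ContDiff ENNReal

namespace MP247

variable {E : Type*} [NormedAddCommGroup E] [InnerProductSpace ℝ E] [MeasurableSpace E]
  [BorelSpace E] [FiniteDimensional ℝ E] {μ : ℝ → Measure E} {ν : ℝ → E → E}

/-- a point where the integrated identity holds nearby -/
def IntGood (μ : ℝ → Measure E) (ν : ℝ → E → E) (p : E × ℝ) : Prop :=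
  ∃ U ∈ 𝓝 p.1, ∃ I ∈ 𝓝 p.2, IntegratedOn μ ν U I

theorem sing_continuousWithinAt (hF : IsBrakkeFlow μ ν) (hB : LocMass μ)
    {φ : E → ℝ} (hφ : Test φ) {z : ℝ} (hz : 0 ≤ z)
    (hc : ContinuousWithinAt (mass μ φ) (Ici 0) z) : ContinuousWithinAt (sing μ φ) (Ici 0) z := by
  unfold sing
  refine ContinuousWithinAt.sub ?_ hc
  have h1 : IntegrableOn (deriv (mass μ φ)) (uIcc 0 (z + 1)) := by
    have := (deriv_test hF hB hφ le_rfl (by linarith : (0:ℝ) ≤ z + 1)).1
    rw [uIcc_of_le (by linarith)]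
    rwa [intervalIntegrable_iff_integrableOn_Icc_of_le (by linarith)] at this
  have h2 := intervalIntegral.continuousOn_primitive_interval h1
  have h3 : z ∈ uIcc 0 (z + 1) := by rw [uIcc_of_le (by linarith)]; exact ⟨hz, by linarith⟩
  have h4 := h2 z h3
  refine h4.mono_of_mem_nhdsWithin ?_
  rw [uIcc_of_le (by linarith)]
  have h5 : Icc (0:ℝ) (z + 1) = Ici 0 ∩ Iic (z + 1) := by ext; simp
  rw [h5]
  exact inter_mem self_mem_nhdsWithin (mem_nhdsWithin_of_mem_nhds (Iic_mem_nhds (by linarith)))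

/-- The singular part of `t ↦ μ_t(η)` vanishes if the failure set is parabolically null near the
support of `η`, off countably many times of continuity. -/
theorem sing_eq_of_null {m : ℕ} (hm : 1 ≤ m) (hF : IsBrakkeFlow μ ν) (hB : BoundedRatios m μ)
    {x0 : E} {δ : ℝ} (hδ0 : 0 < δ) (hδ1 : δ ≤ 1) {a b : ℝ} (ha : 0 ≤ a) (hab : a ≤ b)
    {Z : Set ℝ} (hZ : Z.Countable)
    (hc : ∀ φ : E → ℝ, Test φ → ∀ z ∈ Z, 0 ≤ z → ContinuousWithinAt (mass μ φ) (Ici 0) z)
    {F : Set (E × ℝ)} (hnull : ParabolicNull m {p | p ∈ F ∧ p.2 ∉ Z})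
    (hF' : ∀ y ∈ closedBall x0 (2 * δ), ∀ τ ∈ Icc a b, (y, τ) ∉ F → IntGood μ ν (y, τ)) :
    sing μ (cut x0 δ) b ≤ sing μ (cut x0 δ) a := by
  classical
  have hL := hB.locMass
  set η := cut x0 δ with hη
  have hηt : Test η := cut_test x0 hδ0
  set K := closedBall x0 (2 * δ) with hK
  have hηK : tsupport η ⊆ K := cut_tsupport hδ0
  have hx0 := norm_nonneg x0
  have hKn : ∀ y ∈ K, ‖y‖ ≤ ‖x0‖ + 2 := by
    intro y hy
    have h1 : dist y x0 ≤ 2 * δ := hy
    have h2 : ‖y‖ ≤ ‖y - x0‖ + ‖x0‖ := by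
      have := norm_add_le (y - x0) x0; simpa using this
    rw [dist_eq_norm] at h1
    linarith
  obtain ⟨C, hC⟩ := hB (‖x0‖ + 10) b
  set C' := (2 * K0 E ^ 2 + 1) * |C| * 3 ^ m with hC'
  have hC'0 : 0 ≤ C' := by positivity
  -- enumeration of Z
  obtain ⟨zs, hzs⟩ : ∃ zs : ℕ → Option ℝ, ∀ z ∈ Z, ∃ k, zs k = some z := by
    haveI := hZ.toEncodable
    refine ⟨fun k => (Encodable.decode (α := Z) k).map Subtype.val, fun z hz => ?_⟩
    exact ⟨Encodable.encode (⟨z, hz⟩ : Z), by simp⟩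
  -- it suffices to bound by small numbers
  apply le_of_forall_pos_le_add
  intro ε hε
  set ε1 := min 1 (ε / (2 * (C' + 1))) with hε1
  have hε1p : 0 < ε1 := by positivity
  obtain ⟨x, t, r, hr, hcov, hsum, hle⟩ := hnull ε1 hε1p
  have hr1 : ∀ i, r i ≤ 1 := by
    intro i
    have h1 : r i ^ m ≤ ∑' i, r i ^ m := hsum.le_tsum i fun j _ => pow_nonneg (hr j).le m
    by_contra hcc
    push Not at hcc
    have h3 : 1 < r i ^ m := one_lt_pow₀ hcc (by omega)
    have h4 : ε1 ≤ 1 := min_le_left _ _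
    linarith
  -- small intervals around exceptional times
  have hκ : ∀ k : ℕ, ∃ κ : ℝ, 0 < κ ∧ ∀ z ∈ Z, zs k = some z → z ∈ Icc a b →
      sing μ η (min b (z + κ)) - sing μ η (max a (z - κ)) ≤ ε / 4 * (1 / 2) ^ k := by
    intro k
    by_cases hk : ∃ z ∈ Z, zs k = some z ∧ z ∈ Icc a b
    · obtain ⟨z, hzZ, hzk, hzI⟩ := hk
      have hz0 : 0 ≤ z := ha.trans hzI.1
      have hcz := sing_continuousWithinAt hF hL hηt hz0 (hc η hηt z hzZ hz0)
      rw [Metric.continuousWithinAt_iff] at hcz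
      obtain ⟨κ, hκ, hκ2⟩ := hcz (ε / 8 * (1 / 2) ^ k) (by positivity)
      refine ⟨κ / 2, by positivity, fun z' hz'Z hz'k hz'I => ?_⟩
      have : z' = z := by rw [hzk] at hz'k; exact (Option.some_injective _ hz'k).symm
      subst this
      have e1 := hκ2 (x := min b (z' + κ / 2)) (by
          exact le_min (ha.trans hab) (by linarith)) (by
          rw [Real.dist_eq, abs_lt]
          constructor
          · have : z' ≤ min b (z' + κ / 2) := le_min hz'I.2 (by linarith)
            linarith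
          · have := min_le_right b (z' + κ / 2)
            linarith)
      have e2 := hκ2 (x := max a (z' - κ / 2)) (by
          exact ha.trans (le_max_left _ _)) (by
          rw [Real.dist_eq, abs_lt]
          constructor
          · have := le_max_right a (z' - κ / 2)
            linarith
          · have : max a (z' - κ / 2) ≤ z' := max_le hz'I.1 (by linarith)
            linarith)
      rw [Real.dist_eq, abs_lt] at e1 e2
      have : ε / 4 * (1 / 2) ^ k = ε / 8 * (1 / 2) ^ k + ε / 8 * (1 / 2) ^ k := by ring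
      rw [this]
      linarith [e1.2, e2.1]
    · exact ⟨1, one_pos, fun z hz h1 h2 => absurd ⟨z, hz, h1, h2⟩ hk⟩
  choose κ hκ0 hκ2 using hκ
  -- cells
  let act : ℕ ⊕ ℕ → Prop := Sum.elim (fun i => (ball (x i) (r i) ∩ K).Nonempty)
    (fun k => ∃ z ∈ Z, zs k = some z ∧ z ∈ Icc a b)
  let zz : ℕ → ℝ := fun k => (zs k).getD 0
  let l : ℕ ⊕ ℕ → ℝ := Sum.elim (fun i => t i - r i ^ 2) (fun k => zz k - κ k)
  let h : ℕ ⊕ ℕ → ℝ := Sum.elim (fun i => t i + r i ^ 2) (fun k => zz k + κ k)
  let w : ℕ ⊕ ℕ → ℝ → ℝ := Sum.elim (fun i => sing μ (cut (x i) (r i))) (fun _ => sing μ η)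
  have hactn : ∀ i, (ball (x i) (r i) ∩ K).Nonempty → ‖x i‖ ≤ ‖x0‖ + 3 := by
    rintro i ⟨y, hy1, hy2⟩
    have h1 := hKn y hy2
    have h2 : dist y (x i) < r i := hy1
    rw [dist_comm, dist_eq_norm] at h2
    have h3 : ‖x i‖ ≤ ‖x i - y‖ + ‖y‖ := by
      have := norm_add_le (x i - y) y; simpa using this
    linarith [hr1 i]
  obtain ⟨S, hS1, hS2⟩ := cover_general (f := sing μ η) (w := w) (l := l) (h := h) (act := act)
    (by
      rintro (i | k) _ s u hs hsu
      · exact sing_mono hF hL (cut_test (x i) (hr i)) hs hsu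
      · exact sing_mono hF hL hηt hs hsu) ha hab
    (by
      intro τ hτ
      by_cases hτZ : τ ∈ Z
      · obtain ⟨k, hk⟩ := hzs τ hτZ
        have hzk : zz k = τ := by simp [zz, hk]
        refine ⟨{Sum.inr k}, Ioo (zz k - κ k) (zz k + κ k), isOpen_Ioo, ?_, ?_, ?_⟩
        · rw [hzk]; exact ⟨by linarith [hκ0 k], by linarith [hκ0 k]⟩
        · intro i hi
          rw [Finset.mem_singleton] at hi
          subst hi
          exact ⟨⟨τ, hτZ, hk, hτ⟩, subset_rfl⟩
        · intro s _ u _ _ _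
          simp [w]
      · obtain ⟨S, J, hJo, hτJ, hSJ, hmain⟩ := cover_slice_int hF hL hηt (cut_le_one x0 δ)
          (x := x) (t := t) (r := r) (act := fun i => (ball (x i) (r i) ∩ K).Nonempty)
          (fun i _ => hr i) (τ := τ) (by
            intro y hy
            have hyK := hηK hy
            by_cases hyF : (y, τ) ∈ F
            · left
              have hmem : ((y, τ) : E × ℝ) ∈ {p | p ∈ F ∧ p.2 ∉ Z} := ⟨hyF, hτZ⟩
              have := hcov hmem
              rw [mem_iUnion] at this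
              obtain ⟨i, hi⟩ := this
              exact ⟨i, ⟨y, hi.1, hyK⟩, hi⟩
            · right
              exact hF' y hyK τ hτ hyF)
        refine ⟨S.map Function.Embedding.inl, J, hJo, hτJ, ?_, ?_⟩
        · intro i hi
          rw [Finset.mem_map] at hi
          obtain ⟨i', hi', rfl⟩ := hi
          exact hSJ i' hi'
        · intro s hs u hu h0 hsu
          rw [Finset.sum_map]
          exact hmain s hs u hu h0 hsu)
  -- summation
  have hb1 : ∑ i ∈ S.toLeft, (w (Sum.inl i) (min b (h (Sum.inl i))) -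
      w (Sum.inl i) (max a (l (Sum.inl i)))) ≤ C' * ε1 := by
    have h1 : ∀ i ∈ S.toLeft, (w (Sum.inl i) (min b (h (Sum.inl i))) -
        w (Sum.inl i) (max a (l (Sum.inl i)))) ≤ C' * r i ^ m := by
      intro i hi
      obtain ⟨h1, h2⟩ := hS1 _ (Finset.mem_toLeft.1 hi)
      have h3 := hactn i h1
      exact sing_cyl hF hL hC (by linarith) (hr i) (by linarith [hr1 i])
        (ha.trans (le_max_left _ _)) h2 (min_le_left _ _) (by
          have e1 : min b (h (Sum.inl i)) ≤ t i + r i ^ 2 := min_le_right _ _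
          have e2 : t i - r i ^ 2 ≤ max a (l (Sum.inl i)) := le_max_right _ _
          linarith)
    refine (Finset.sum_le_sum h1).trans ?_
    rw [← Finset.mul_sum]
    apply mul_le_mul_of_nonneg_left _ hC'0
    exact (hsum.sum_le_tsum _ fun i _ => pow_nonneg (hr i).le m).trans hle
  have hb2 : ∑ k ∈ S.toRight, (w (Sum.inr k) (min b (h (Sum.inr k))) -
      w (Sum.inr k) (max a (l (Sum.inr k)))) ≤ ε / 2 := by
    have h1 : ∀ k ∈ S.toRight, (w (Sum.inr k) (min b (h (Sum.inr k))) -
        w (Sum.inr k) (max a (l (Sum.inr k)))) ≤ ε / 4 * (1 / 2) ^ k := by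
      intro k hk
      obtain ⟨⟨z, hzZ, hzk, hzI⟩, _⟩ := hS1 _ (Finset.mem_toRight.1 hk)
      have hz : zz k = z := by simp [zz, hzk]
      have := hκ2 k z hzZ hzk hzI
      simp only [w, h, l, Sum.elim_inr, hz]
      exact this
    refine (Finset.sum_le_sum h1).trans ?_
    rw [← Finset.mul_sum]
    have h2 : ∑ k ∈ S.toRight, ((1:ℝ) / 2) ^ k ≤ 2 := by
      have hs : Summable fun k : ℕ => ((1:ℝ) / 2) ^ k := summable_geometric_two
      exact (hs.sum_le_tsum _ fun i _ => by positivity).trans tsum_geometric_two.le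
    nlinarith
  have hsplit : ∑ i ∈ S, (w i (min b (h i)) - w i (max a (l i))) =
      ∑ i ∈ S.toLeft, (w (Sum.inl i) (min b (h (Sum.inl i))) -
        w (Sum.inl i) (max a (l (Sum.inl i)))) +
      ∑ k ∈ S.toRight, (w (Sum.inr k) (min b (h (Sum.inr k))) -
        w (Sum.inr k) (max a (l (Sum.inr k)))) := by
    conv_lhs => rw [← Finset.toLeft_disjSum_toRight (u := S), Finset.sum_disjSum]
  rw [hsplit] at hS2
  have hb3 : C' * ε1 ≤ ε / 2 := by
    have h1 : ε1 ≤ ε / (2 * (C' + 1)) := min_le_right _ _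
    have h2 : C' * ε1 ≤ C' * (ε / (2 * (C' + 1))) := mul_le_mul_of_nonneg_left h1 hC'0
    have h3 : C' * (ε / (2 * (C' + 1))) ≤ ε / 2 := by
      rw [mul_div_assoc', div_le_div_iff₀ (by positivity) (by positivity)]
      nlinarith
    linarith
  linarith

/-- **Local gap theorem (integrated identity)**, with countably many exceptional times at which
all `t ↦ μ_t(φ)` are continuous. -/
theorem gap_int_local {m : ℕ} (hm : 1 ≤ m) (hF : IsBrakkeFlow μ ν) (hB : BoundedRatios m μ)
    {W : Set (E × ℝ)} (hW : IsOpen W) {Z : Set ℝ} (hZ : Z.Countable)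
    (hc : ∀ φ : E → ℝ, Test φ → ∀ z ∈ Z, 0 ≤ z → ContinuousWithinAt (mass μ φ) (Ici 0) z)
    (hnull : ParabolicNull m {p | p ∈ intFailureSet μ ν ∩ W ∧ p.2 ∉ Z}) {p : E × ℝ}
    (hpW : p ∈ W) (hp0 : 0 ≤ p.2) : IntGood μ ν p := by
  classical
  have hL := hB.locMass
  -- almost every time
  have hgood : ∀ q : E × ℝ, q ∈ W → 0 < q.2 → GoodPt μ ν q := by
    intro q hq hq0
    apply gap_local hm hF hB hW (hZ.measure_zero volume) (N := Z) _ hq hq0
    intro ε hε
    obtain ⟨x, t, r, h1, h2, h3, h4⟩ := hnull ε hε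
    refine ⟨x, t, r, h1, ?_, h3, h4⟩
    refine subset_trans ?_ h2
    rintro q' ⟨⟨⟨h5, h6⟩, h7⟩, h8⟩
    refine ⟨⟨⟨h5.le, fun ⟨U, hU, I, hI, h9⟩ => h6 (goodPt_of_int hF hL h5 hU hI h9)⟩, h7⟩, h8⟩
  obtain ⟨x0, t0⟩ := p
  simp only at hp0
  obtain ⟨ε, hε, hεW⟩ := Metric.isOpen_iff.1 hW _ hpW
  obtain ⟨δ, hδ0, hδ1, hδW⟩ : ∃ δ > 0, δ ≤ 1 ∧
      closedBall x0 (2 * δ) ×ˢ Icc (t0 - δ) (t0 + δ) ⊆ W := by
    refine ⟨min (ε / 4) 1, by positivity, min_le_right _ _, ?_⟩
    rintro ⟨y, s⟩ ⟨hy, hs⟩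
    apply hεW
    have h4 : min (ε / 4) 1 ≤ ε / 4 := min_le_left _ _
    rw [mem_ball, Prod.dist_eq]
    apply max_lt
    · have := mem_closedBall.1 hy
      simp only at this ⊢
      linarith
    · simp only at hs ⊢
      rw [Real.dist_eq, abs_lt]
      constructor <;> linarith [hs.1, hs.2]
  set a := max 0 (t0 - δ) with ha
  set b := t0 + δ with hb
  have ha0 : 0 ≤ a := le_max_left _ _
  have hab : a ≤ b := max_le (by linarith) (by linarith)
  have hat : t0 - δ ≤ a := le_max_right _ _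
  have hsing : sing μ (cut x0 δ) b ≤ sing μ (cut x0 δ) a := by
    apply sing_eq_of_null hm hF hB hδ0 hδ1 ha0 hab hZ hc hnull
    intro y hy τ hτ hyF
    by_contra hcon
    exact hyF ⟨⟨ha0.trans hτ.1, hcon⟩, hδW ⟨hy, hat.trans hτ.1, hτ.2⟩⟩
  refine ⟨ball x0 δ, ball_mem_nhds _ hδ0, Ioo (t0 - δ) (t0 + δ),
    Ioo_mem_nhds (by linarith) (by linarith), ?_⟩
  apply integratedOn_of hF hL
  · intro φ hφ hs
    filter_upwards [ae_eqAt hF hL] with τ h1 hτ hτ0
    refine h1 hτ0 φ hφ fun y hy => hgood (y, τ) (hδW ⟨?_, hτ.1.le, hτ.2.le⟩) hτ0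
    exact closedBall_subset_closedBall (by linarith) (ball_subset_closedBall (hs hy))
  · exact ordConnected_Ioo
  · intro φ hφ hs s hsI u huI h0 hsu
    obtain ⟨C, hC⟩ := hφ.compact.exists_bound_of_continuous hφ.smooth.continuous
    have hC0 : 0 ≤ C := (norm_nonneg _).trans (hC 0)
    have hcut := cut_test x0 hδ0
    have htest : Test (fun y => C * cut x0 δ y) :=
      ⟨contDiff_const.mul hcut.smooth, hcut.compact.mul_left,
        fun y => mul_nonneg hC0 (cut_nonneg _ _ _)⟩
    have hle : ∀ y, φ y ≤ C * cut x0 δ y := by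
      intro y
      by_cases hy : y ∈ ball x0 δ
      · rw [cut_eq_one hδ0 (mem_ball.1 hy).le, mul_one]
        exact (le_abs_self _).trans (hC y)
      · have : φ y = 0 := image_eq_zero_of_notMem_tsupport fun h' => hy (hs h')
        rw [this]; exact mul_nonneg hC0 (cut_nonneg _ _ _)
    have h1 := sing_dom hF hL hφ htest hle h0 hsu
    rw [sing_const_mul, sing_const_mul] at h1
    have has : a ≤ s := max_le h0 hsI.1.le
    have hub : u ≤ b := huI.2.le
    have h2 := sing_mono hF hL hcut ha0 has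
    have h3 := sing_mono hF hL hcut (h0.trans hsu) hub
    have h4 := sing_mono hF hL hcut h0 hsu
    have h5 : sing μ (cut x0 δ) u - sing μ (cut x0 δ) s ≤ 0 := by linarith
    nlinarith

/-- If the integrated identity holds near every point of space-time then it holds globally. -/
theorem integrated_of_empty (hF : IsBrakkeFlow μ ν) (hB : LocMass μ)
    (h : intFailureSet μ ν = ∅) : IntegratedOn μ ν univ univ := by
  classical
  have hgood : ∀ q : E × ℝ, 0 ≤ q.2 → IntGood μ ν q := by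
    intro q hq
    by_contra hc
    have : q ∈ intFailureSet μ ν := ⟨hq, hc⟩
    rw [h] at this
    exact this
  apply integratedOn_of hF hB
  · intro φ hφ _
    filter_upwards [ae_eqAt hF hB] with τ h1 _ hτ0
    refine h1 hτ0 φ hφ fun y hy => ?_
    obtain ⟨U, hU, I, hI, h2⟩ := hgood (y, τ) hτ0.le
    exact goodPt_of_int hF hB hτ0 hU hI h2
  · exact ordConnected_univ
  · intro φ hφ _ s _ u _ h0 hsu
    obtain ⟨C, hC⟩ := hφ.compact.exists_bound_of_continuous hφ.smooth.continuous
    set D := |C| + 1 with hD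
    have hD0 : 0 < D := by positivity
    have ht : Test (fun y => D⁻¹ * φ y) :=
      ⟨contDiff_const.mul hφ.smooth, hφ.compact.mul_left,
        fun y => mul_nonneg (inv_nonneg.2 hD0.le) (hφ.nonneg y)⟩
    obtain ⟨S, hS1, hS2⟩ := cover_general (ι := ℕ) (f := sing μ (fun y => D⁻¹ * φ y))
      (w := fun _ _ => 0) (l := fun _ => 0) (h := fun _ => 0) (act := fun _ => False)
      (fun i hi => hi.elim) h0 hsu (by
        intro τ hτ
        obtain ⟨S, J, hJo, hτJ, hSJ, hmain⟩ := cover_slice_int hF hB ht (by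
            intro y
            rw [inv_mul_le_iff₀ hD0, mul_one]
            have := hC y
            rw [Real.norm_eq_abs] at this
            linarith [le_abs_self (φ y), le_abs_self C])
          (x := fun _ => 0) (t := fun _ => 0) (r := fun _ => 0) (act := fun _ => False)
          (fun i hi => hi.elim) (τ := τ) (by
            intro y _
            right
            exact hgood (y, τ) (h0.trans hτ.1))
        have hSe : S = ∅ := Finset.eq_empty_of_forall_notMem fun i hi => (hSJ i hi).1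
        refine ⟨∅, J, hJo, hτJ, by simp, ?_⟩
        intro s hs u hu h0 hsu
        have := hmain s hs u hu h0 hsu
        rw [hSe] at this
        simpa using this)
    have hSe : S = ∅ := Finset.eq_empty_of_forall_notMem fun i hi => (hS1 i hi).1
    rw [hSe, Finset.sum_empty, sing_const_mul, sing_const_mul, ← mul_sub] at hS2
    have : sing μ φ u - sing μ φ s ≤ 0 := by
      by_contra hcc
      push Not at hcc
      have := mul_pos (inv_pos.2 hD0) hcc
      linarith
    linarith

/-- the empty set is parabolically null -/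
theorem parabolicNull_empty {m : ℕ} (hm : 1 ≤ m) : ParabolicNull m (∅ : Set (E × ℝ)) := by
  intro ε hε
  -- radii `c / 2 ^ (i + 1)` with `c = min ε 1`
  set c := min ε 1 with hc
  have hc0 : 0 < c := by positivity
  have hc1 : c ≤ 1 := min_le_right _ _
  have hs : HasSum (fun i : ℕ => c * (1 / 2) ^ (i + 1)) (c * 1) := by
    apply HasSum.mul_left
    have h1 := hasSum_geometric_two
    have h2 := h1.mul_left (1 / 2 : ℝ)
    have h3 : (fun i : ℕ => (1 / 2 : ℝ) * (1 / 2) ^ i) = fun i => (1 / 2) ^ (i + 1) := by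
      funext i; rw [pow_succ]; ring
    rw [h3] at h2
    simpa using h2
  have hle : ∀ i : ℕ, (c * (1 / 2) ^ (i + 1)) ^ m ≤ c * (1 / 2) ^ (i + 1) := by
    intro i
    have h1 : c * (1 / 2) ^ (i + 1) ≤ 1 := by
      have : ((1:ℝ) / 2) ^ (i + 1) ≤ 1 := pow_le_one₀ (by norm_num) (by norm_num)
      nlinarith [pow_pos (show (0:ℝ) < 1 / 2 by norm_num) (i + 1)]
    exact pow_le_of_le_one (by positivity) h1 (by omega)
  have hsum : Summable fun i : ℕ => (c * (1 / 2) ^ (i + 1)) ^ m :=
    Summable.of_nonneg_of_le (fun i => by positivity) hle hs.summable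
  refine ⟨fun _ => 0, fun _ => 0, fun i => c * (1 / 2) ^ (i + 1), fun i => by positivity,
    empty_subset _, hsum, ?_⟩
  calc ∑' i : ℕ, (c * (1 / 2) ^ (i + 1)) ^ m ≤ ∑' i : ℕ, c * (1 / 2) ^ (i + 1) :=
        hsum.tsum_le_tsum hle hs.summable
    _ = c := by rw [hs.tsum_eq, mul_one]
    _ ≤ ε := min_le_left _ _

end MP247
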