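import Pool.Agent.Lib.MP_247ac7.TD

/-! # Huisken's monotonicity formula for Brakke flows in a fixed ball -/

open MeasureTheory Filter Topology Metric Set
open scoped RealInnerProductSpace ContDiff ENNReal

namespace MP247

variable {E : Type*} [NormedAddCommGroup E] [InnerProductSpace ℝ E] [MeasurableSpace E]
  [BorelSpace E] [FiniteDimensional ℝ E] {μ : ℝ → Measure E} {ν : ℝ → E → E}

/-- logarithm of the backward heat kernel (without the constant) -/
noncomputable def gF (n : ℕ) (x1 : E) (τ : ℝ) (x : E) : ℝ :=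
  -((n:ℝ) / 2) * Real.log τ - ‖x - x1‖ ^ 2 / (4 * τ)

/-- the backward heat kernel at backward time `τ` (without the constant) -/
noncomputable def rho (n : ℕ) (x1 : E) (τ : ℝ) (x : E) : ℝ := Real.exp (gF n x1 τ x)

omit [MeasurableSpace E] [BorelSpace E] [FiniteDimensional ℝ E] in
theorem rho_pos (n : ℕ) (x1 : E) (τ : ℝ) (x : E) : 0 < rho n x1 τ x := Real.exp_pos _

omit [MeasurableSpace E] [BorelSpace E] [FiniteDimensional ℝ E] in
theorem rho_contDiff (n : ℕ) (x1 : E) (τ : ℝ) : ContDiff ℝ 2 (rho n x1 τ) := by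
  unfold rho gF
  apply ContDiff.exp
  apply contDiff_const.sub
  exact ((contDiff_id.sub contDiff_const).norm_sq ℝ).div_const _

omit [MeasurableSpace E] [BorelSpace E] [FiniteDimensional ℝ E] in
theorem rho_hasFDerivAt (n : ℕ) (x1 : E) {τ : ℝ} (hτ : 0 < τ) (x : E) :
    HasFDerivAt (rho n x1 τ) ((-(rho n x1 τ x) / (2 * τ)) • innerSL ℝ (x - x1)) x := by
  have h1 : HasFDerivAt (fun z : E => ‖z - x1‖ ^ 2)
      (2 • (innerSL ℝ (x - x1)).comp (ContinuousLinearMap.id ℝ E)) x :=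
    ((hasFDerivAt_id x).sub_const x1).norm_sq
  have h2 : HasFDerivAt (fun z : E => gF n x1 τ z)
      (-((4 * τ)⁻¹ • (2 • (innerSL ℝ (x - x1)).comp (ContinuousLinearMap.id ℝ E)))) x := by
    unfold gF
    have h3 := (h1.const_smul (4 * τ)⁻¹).const_sub (-((n:ℝ) / 2) * Real.log τ)
    refine h3.congr_of_eventuallyEq (Eventually.of_forall fun z => ?_)
    simp only [Pi.smul_apply, smul_eq_mul]
    field_simp
  have h4 := h2.exp
  refine h4.congr_fderiv ?_
  ext v
  simp only [ContinuousLinearMap.smul_apply, ContinuousLinearMap.neg_apply,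
    ContinuousLinearMap.comp_apply, ContinuousLinearMap.id_apply, innerSL_apply_apply, smul_eq_mul,
    nsmul_eq_mul, Nat.cast_ofNat, rho]
  field_simp
  ring

omit [MeasurableSpace E] [BorelSpace E] [FiniteDimensional ℝ E] in
theorem rho_hasDerivAt (n : ℕ) (x1 : E) {t0 t : ℝ} (ht : t < t0) (x : E) :
    HasDerivAt (fun s => rho n x1 (t0 - s) x)
      (rho n x1 (t0 - t) x * ((n:ℝ) / (2 * (t0 - t)) - ‖x - x1‖ ^ 2 / (4 * (t0 - t) ^ 2))) t := by
  have hne : t0 - t ≠ 0 := by linarith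
  have h0 : HasDerivAt (fun s => t0 - s) (-1) t := by
    simpa using (hasDerivAt_id t).const_sub t0
  have h1 : HasDerivAt (fun s => Real.log (t0 - s)) (-1 / (t0 - t)) t := h0.log hne
  have h2 : HasDerivAt (fun s => (t0 - s)⁻¹) (-(-1) / (t0 - t) ^ 2) t := h0.inv hne
  have h3 : HasDerivAt (fun s => gF n x1 (t0 - s) x)
      (-((n:ℝ) / 2) * (-1 / (t0 - t)) - ‖x - x1‖ ^ 2 / 4 * (-(-1) / (t0 - t) ^ 2)) t := by
    unfold gF
    have h4 := (h1.const_mul (-((n:ℝ) / 2))).sub (h2.const_mul (‖x - x1‖ ^ 2 / 4))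
    refine h4.congr_of_eventuallyEq ?_
    have : ∀ᶠ s in 𝓝 t, s < t0 := gt_mem_nhds ht
    filter_upwards [this] with s hs
    have hs' : t0 - s ≠ 0 := by linarith
    simp only [Pi.sub_apply]
    field_simp
  have h5 := h3.exp
  have h6 : (fun s => rho n x1 (t0 - s) x) = fun s => Real.exp (gF n x1 (t0 - s) x) := rfl
  rw [h6]
  convert h5 using 1
  unfold rho
  congr 1
  field_simp

/-- time derivative of the kernel -/
noncomputable def dRho (n : ℕ) (x1 : E) (τ : ℝ) (x : E) : ℝ :=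
  rho n x1 τ x * ((n:ℝ) / (2 * τ) - ‖x - x1‖ ^ 2 / (4 * τ ^ 2))

omit [MeasurableSpace E] [BorelSpace E] in
theorem tdTest_rho (n : ℕ) (x1 : E) {R T t0 : ℝ} (hR : 0 ≤ R) (hT : T < t0) :
    TDTest R T (fun t x => rho n x1 (t0 - t) x * cut (0:E) (R + 1) x)
      (fun t x => dRho n x1 (t0 - t) x) where
  test t ht := by
    have hc := cut_test (0:E) (r := R + 1) (by linarith)
    exact ⟨(rho_contDiff n x1 _).mul hc.smooth, hc.compact.mul_left,
      fun x => mul_nonneg (rho_pos _ _ _ _).le (cut_nonneg _ _ _)⟩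
  deriv x hx t ht := by
    have h1 : cut (0:E) (R + 1) x = 1 := by
      apply cut_eq_one (by linarith)
      have := mem_closedBall.1 hx
      linarith
    simp only [h1, mul_one]
    exact rho_hasDerivAt n x1 (lt_of_le_of_lt ht.2 hT) x
  cont := by
    unfold dRho rho gF
    have hne : ∀ p ∈ Icc 0 T ×ˢ closedBall (0:E) R, (t0 - p.1) ≠ 0 := by
      rintro p ⟨hp, _⟩
      have := hp.2
      linarith
    have hlog : ContinuousOn (fun p : ℝ × E => Real.log (t0 - p.1)) (Icc 0 T ×ˢ closedBall (0:E) R) :=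
      (continuousOn_const.sub continuousOn_fst).log hne
    have hnorm : ContinuousOn (fun p : ℝ × E => ‖p.2 - x1‖ ^ 2) (Icc 0 T ×ˢ closedBall (0:E) R) :=
      ((continuousOn_snd.sub continuousOn_const).norm).pow 2
    have h4 : ContinuousOn (fun p : ℝ × E => 4 * (t0 - p.1)) (Icc 0 T ×ˢ closedBall (0:E) R) :=
      continuousOn_const.mul (continuousOn_const.sub continuousOn_fst)
    have h2 : ContinuousOn (fun p : ℝ × E => 2 * (t0 - p.1)) (Icc 0 T ×ˢ closedBall (0:E) R) :=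
      continuousOn_const.mul (continuousOn_const.sub continuousOn_fst)
    have h42 : ContinuousOn (fun p : ℝ × E => 4 * (t0 - p.1) ^ 2) (Icc 0 T ×ˢ closedBall (0:E) R) :=
      continuousOn_const.mul ((continuousOn_const.sub continuousOn_fst).pow 2)
    refine ContinuousOn.mul ?_ ?_
    · apply ContinuousOn.rexp
      exact (continuousOn_const.mul hlog).sub (hnorm.div h4 fun p hp => mul_ne_zero (by norm_num) (hne p hp))
    · exact (continuousOn_const.div h2 fun p hp => mul_ne_zero (by norm_num) (hne p hp)).sub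
        (hnorm.div h42 fun p hp => mul_ne_zero (by norm_num) (pow_ne_zero 2 (hne p hp)))
  smooth t ht := by
    unfold dRho
    exact (rho_contDiff n x1 _).mul (contDiff_const.sub
      (((contDiff_id.sub contDiff_const).norm_sq ℝ).div_const _))

omit [MeasurableSpace E] [BorelSpace E] in
theorem psi_fderiv_eq (n : ℕ) (x1 : E) {R τ : ℝ} (hR : 0 ≤ R) (hτ : 0 < τ) {x : E}
    (hx : x ∈ closedBall (0:E) R) (v : E) :
    fderiv ℝ (fun x => rho n x1 τ x * cut (0:E) (R + 1) x) x v =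
      -(rho n x1 τ x) / (2 * τ) * ⟪x - x1, v⟫ := by
  have hx' : x ∈ ball (0:E) (R + 1) := closedBall_subset_ball (by linarith) hx
  have h1 : (fun x => rho n x1 τ x * cut (0:E) (R + 1) x) =ᶠ[𝓝 x] rho n x1 τ := by
    filter_upwards [isOpen_ball.mem_nhds hx'] with z hz
    rw [cut_eq_one (by linarith) (mem_ball.1 hz).le, mul_one]
  rw [h1.fderiv_eq, (rho_hasFDerivAt n x1 hτ x).fderiv]
  simp only [ContinuousLinearMap.smul_apply, innerSL_apply_apply, smul_eq_mul]

/-- the vector field `∇ρ`, cut off -/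
noncomputable def gradRho (n : ℕ) (x1 : E) (R τ : ℝ) (x : E) : E :=
  cut (0:E) (R + 1) x • ((-(rho n x1 τ x) / (2 * τ)) • (x - x1))

omit [MeasurableSpace E] [BorelSpace E] in
theorem gradRho_tdiv (n : ℕ) (x1 : E) {R τ : ℝ} (hR : 0 ≤ R) (hτ : 0 < τ)
    (hn : Module.finrank ℝ E = n + 1) {x : E}
    (hx : x ∈ closedBall (0:E) R) {v : E} (hv : ‖v‖ = 1) :
    tdiv (gradRho n x1 R τ) x v =
      rho n x1 τ x * (‖x - x1‖ ^ 2 / (4 * τ ^ 2) - (n:ℝ) / (2 * τ) -
        ⟪x - x1, v⟫ ^ 2 / (4 * τ ^ 2)) := by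
  have hx' : x ∈ ball (0:E) (R + 1) := closedBall_subset_ball (by linarith) hx
  have h1 : gradRho n x1 R τ =ᶠ[𝓝 x] fun z => (-(rho n x1 τ z) / (2 * τ)) • (z - x1) := by
    filter_upwards [isOpen_ball.mem_nhds hx'] with z hz
    unfold gradRho
    rw [cut_eq_one (by linarith) (mem_ball.1 hz).le, one_smul]
  have h2 : HasFDerivAt (fun z => -(rho n x1 τ z) / (2 * τ))
      ((rho n x1 τ x / (4 * τ ^ 2)) • innerSL ℝ (x - x1)) x := by
    have h3 := (rho_hasFDerivAt n x1 hτ x).const_mul (-(2 * τ)⁻¹)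
    have h4 : HasFDerivAt (fun z => -(rho n x1 τ z) / (2 * τ))
        (-(2 * τ)⁻¹ • (-(rho n x1 τ x) / (2 * τ)) • innerSL ℝ (x - x1)) x := by
      refine h3.congr_of_eventuallyEq (Eventually.of_forall fun z => ?_)
      simp only
      field_simp
    refine h4.congr_fderiv ?_
    rw [smul_smul]
    congr 1
    field_simp
    ring
  have h5 : HasFDerivAt (fun z : E => z - x1) (ContinuousLinearMap.id ℝ E) x :=
    (hasFDerivAt_id x).sub_const x1
  have h6 : HasFDerivAt (fun z => (-(rho n x1 τ z) / (2 * τ)) • (z - x1))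
      ((-(rho n x1 τ x) / (2 * τ)) • ContinuousLinearMap.id ℝ E +
        ((rho n x1 τ x / (4 * τ ^ 2)) • innerSL ℝ (x - x1)).smulRight (x - x1)) x := h2.smul h5
  unfold tdiv
  rw [h1.fderiv_eq, h6.fderiv]
  have htr : LinearMap.trace ℝ E
      ((((-(rho n x1 τ x) / (2 * τ)) • ContinuousLinearMap.id ℝ E +
        ((rho n x1 τ x / (4 * τ ^ 2)) • innerSL ℝ (x - x1)).smulRight (x - x1) : E →L[ℝ] E)) :
          E →ₗ[ℝ] E) = (-(rho n x1 τ x) / (2 * τ)) * (n + 1) +
          (rho n x1 τ x / (4 * τ ^ 2)) * ‖x - x1‖ ^ 2 := by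
    have e1 : ((((-(rho n x1 τ x) / (2 * τ)) • ContinuousLinearMap.id ℝ E +
        ((rho n x1 τ x / (4 * τ ^ 2)) • innerSL ℝ (x - x1)).smulRight (x - x1) : E →L[ℝ] E)) :
          E →ₗ[ℝ] E) = (-(rho n x1 τ x) / (2 * τ)) • (LinearMap.id : E →ₗ[ℝ] E) +
          (((rho n x1 τ x / (4 * τ ^ 2)) • innerSL ℝ (x - x1) : E →L[ℝ] ℝ) :
            E →ₗ[ℝ] ℝ).smulRight (x - x1) := by
      ext w; simp
    rw [e1, map_add, map_smul, LinearMap.trace_id, LinearMap.trace_smulRight, hn]
    simp only [smul_eq_mul, Nat.cast_add, Nat.cast_one, ContinuousLinearMap.coe_coe,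
      ContinuousLinearMap.smul_apply, innerSL_apply_apply, real_inner_self_eq_norm_sq]
  rw [htr]
  simp only [ContinuousLinearMap.add_apply, ContinuousLinearMap.smul_apply,
    ContinuousLinearMap.id_apply, ContinuousLinearMap.smulRight_apply, innerSL_apply_apply,
    smul_eq_mul, inner_add_left, real_inner_smul_left, real_inner_self_eq_norm_sq, hv]
  field_simp
  ring

omit [MeasurableSpace E] [BorelSpace E] in
theorem gradRho_contDiff (n : ℕ) (x1 : E) {R : ℝ} (τ : ℝ) :
    ContDiff ℝ 1 (gradRho n x1 R τ) := by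
  unfold gradRho
  have h1 : ContDiff ℝ 2 (cut (0:E) (R + 1)) := (psi_contDiff 0 (R + 1)).pow 2
  exact ((h1.smul ((((rho_contDiff n x1 τ).neg).div_const _).smul
    (contDiff_id.sub contDiff_const)))).of_le (by norm_num)

omit [MeasurableSpace E] [BorelSpace E] in
theorem gradRho_tsupport (n : ℕ) (x1 : E) {R : ℝ} (hR : 0 ≤ R) (τ : ℝ) :
    tsupport (gradRho n x1 R τ) ⊆ closedBall (0:E) (2 * (R + 1)) := by
  refine (closure_mono ?_).trans (cut_tsupport (x := (0:E)) (r := R + 1) (by linarith))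
  intro x hx h0
  exact hx (by simp [gradRho, h0])

end MP247
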