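import Pool.Agent.Lib.MP_247ac7.Local

/-! # Smooth graphs: tools (divergence theorem, differentiation under the integral) -/

open MeasureTheory Filter Topology Metric Set
open scoped RealInnerProductSpace ContDiff

namespace MP247

section div

variable {F : Type*} [NormedAddCommGroup F] [InnerProductSpace ℝ F] [FiniteDimensional ℝ F]
  [MeasurableSpace F] [BorelSpace F]

theorem integral_fderiv_apply_zero {g : F → ℝ} (hg : ContDiff ℝ 1 g) (hc : HasCompactSupport g)
    (v : F) : ∫ y, fderiv ℝ g y v = 0 := by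
  have hcont : Continuous (fun y => fderiv ℝ g y v) :=
    (hg.continuous_fderiv one_ne_zero).clm_apply continuous_const
  have hcs : HasCompactSupport (fun y => fderiv ℝ g y v) := hc.fderiv_apply ℝ v
  have h := integral_mul_fderiv_eq_neg_fderiv_mul_of_integrable (μ := (volume : Measure F))
    (f := fun _ : F => (1:ℝ)) (g := g) (v := v) (by simp)
    (by simpa using hcont.integrable_of_hasCompactSupport hcs)
    (by simpa using hg.continuous.integrable_of_hasCompactSupport hc)
    (fun x _ => differentiableAt_const _) (fun x _ => (hg.differentiable one_ne_zero) x)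
  simpa using h

theorem integral_trace_zero {w : F → F} (hw : ContDiff ℝ 1 w) (hc : HasCompactSupport w) :
    ∫ y, LinearMap.trace ℝ F (fderiv ℝ w y : F →ₗ[ℝ] F) = 0 := by
  set b := stdOrthonormalBasis ℝ F with hb
  have hci : ∀ i, ContDiff ℝ 1 (fun y => ⟪b i, w y⟫) := fun i => contDiff_const.inner ℝ hw
  have hsi : ∀ i, HasCompactSupport (fun y => ⟪b i, w y⟫) := fun i =>
    hc.mono (fun y hy h0 => hy (by simp [h0]))
  have h1 : ∀ y, LinearMap.trace ℝ F (fderiv ℝ w y : F →ₗ[ℝ] F) =
      ∑ i, fderiv ℝ (fun y => ⟪b i, w y⟫) y (b i) := by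
    intro y
    rw [LinearMap.trace_eq_sum_inner _ b]
    refine Finset.sum_congr rfl fun i _ => ?_
    have hd := (hw.differentiable one_ne_zero y).hasFDerivAt
    have h2 : HasFDerivAt (fun y => ⟪b i, w y⟫) ((innerSL ℝ (b i)).comp (fderiv ℝ w y)) y :=
      (innerSL ℝ (b i)).hasFDerivAt.comp y hd
    rw [h2.fderiv]; rfl
  simp_rw [h1]
  rw [integral_finset_sum]
  · exact Finset.sum_eq_zero fun i _ => integral_fderiv_apply_zero (hci i) (hsi i) _
  · intro i _
    exact (((hci i).continuous_fderiv one_ne_zero).clm_apply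
      continuous_const).integrable_of_hasCompactSupport ((hsi i).fderiv_apply ℝ _)

theorem hasDerivAt_slice {f : F × ℝ → ℝ} (hf : ContDiff ℝ 1 f) (y : F) (t : ℝ) :
    HasDerivAt (fun s => f (y, s)) (fderiv ℝ f (y, t) (0, 1)) t := by
  have h1 : HasDerivAt (fun s : ℝ => ((y, s) : F × ℝ)) (0, 1) t :=
    (hasDerivAt_const t y).prodMk (hasDerivAt_id t)
  exact ((hf.differentiable one_ne_zero (y, t)).hasFDerivAt).comp_hasDerivAt t h1

theorem slice_zero {f : F × ℝ → ℝ} (hf : ContDiff ℝ 1 f) {K : Set F}
    (h0 : ∀ y, y ∉ K → ∀ t, f (y, t) = 0) {y : F} (hy : y ∉ K) (t : ℝ) :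
    fderiv ℝ f (y, t) (0, 1) = 0 := by
  have h1 := hasDerivAt_slice hf y t
  have h2 : (fun s => f (y, s)) = fun _ => 0 := by funext s; exact h0 y hy s
  rw [h2] at h1
  exact h1.unique (hasDerivAt_const t 0)

theorem hasDerivAt_param {f : F × ℝ → ℝ} (hf : ContDiff ℝ 1 f) {K : Set F} (hK : IsCompact K)
    (h0 : ∀ y, y ∉ K → ∀ t, f (y, t) = 0) (t : ℝ) :
    HasDerivAt (fun t => ∫ y, f (y, t)) (∫ y, fderiv ℝ f (y, t) (0, 1)) t := by
  have hcont : Continuous (fun p : F × ℝ => fderiv ℝ f p (0, 1)) :=
    (hf.continuous_fderiv one_ne_zero).clm_apply continuous_const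
  obtain ⟨C, hC⟩ := (hK.prod (isCompact_Icc (a := t - 1) (b := t + 1))).exists_bound_of_continuousOn
    hcont.continuousOn
  have hcs : ∀ s, HasCompactSupport fun y => f (y, s) := fun s =>
    HasCompactSupport.intro hK fun y hy => h0 y hy s
  refine (hasDerivAt_integral_of_dominated_loc_of_deriv_le (𝕜 := ℝ) (E := ℝ)
    (μ := (volume : Measure F)) (F := fun s y => f (y, s))
    (F' := fun s y => fderiv ℝ f (y, s) (0, 1)) (x₀ := t) (s := Icc (t - 1) (t + 1))
    (bound := K.indicator fun _ => C) (Icc_mem_nhds (by linarith) (by linarith)) ?_ ?_ ?_ ?_ ?_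
    ?_).2
  · exact Eventually.of_forall fun s =>
      (hf.continuous.comp (g := f)
        (by fun_prop : Continuous fun y : F => ((y, s) : F × ℝ))).aestronglyMeasurable
  · exact (hf.continuous.comp (g := f)
      (by fun_prop : Continuous fun y : F => ((y, t) : F × ℝ))).integrable_of_hasCompactSupport
        (hcs t)
  · exact (hcont.comp (by fun_prop : Continuous fun y : F => (y, t))).aestronglyMeasurable
  · refine Eventually.of_forall fun y s hs => ?_
    by_cases hy : y ∈ K
    · rw [indicator_of_mem hy]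
      exact hC (y, s) ⟨hy, hs⟩
    · rw [indicator_of_notMem hy, slice_zero hf h0 hy]
      simp
  · exact (integrableOn_const hK.measure_lt_top.ne).integrable_indicator hK.measurableSet
  · exact Eventually.of_forall fun y s _ => hasDerivAt_slice hf y s

theorem continuous_param {f : F × ℝ → ℝ} (hf : ContDiff ℝ 1 f) {K : Set F} (hK : IsCompact K)
    (h0 : ∀ y, y ∉ K → ∀ t, f (y, t) = 0) :
    Continuous fun t => ∫ y, fderiv ℝ f (y, t) (0, 1) := by
  have hcont : Continuous (fun p : F × ℝ => fderiv ℝ f p (0, 1)) :=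
    (hf.continuous_fderiv one_ne_zero).clm_apply continuous_const
  have h1 := continuous_parametric_integral_of_continuous (μ := (volume : Measure F))
    (f := fun (t : ℝ) (y : F) => fderiv ℝ f (y, t) (0, 1))
    (hcont.comp (by fun_prop : Continuous fun p : ℝ × F => (p.2, p.1))) hK
  refine h1.congr fun t => ?_
  apply setIntegral_eq_integral_of_forall_compl_eq_zero
  intro y hy
  exact slice_zero hf h0 hy t

end div

end MP247
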