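import Pool.Agent.Lib.MP_247ac7.Graph1

/-! # Smooth graphs: the pointwise first variation identity -/

open MeasureTheory Filter Topology Metric Set
open scoped RealInnerProductSpace ContDiff

namespace MP247

/-- `ℝ^n` -/
abbrev Vn (n : ℕ) : Type := EuclideanSpace ℝ (Fin n)

/-- Gradient of a function on `ℝ^n`. -/
noncomputable def grad {n : ℕ} (u : Vn n → ℝ) (y : Vn n) : Vn n :=
  ∑ i, fderiv ℝ u y (EuclideanSpace.basisFun (Fin n) ℝ i) • EuclideanSpace.basisFun (Fin n) ℝ i

/-- The area integrand `√(1 + |∇u|²)` of the graph of `u`. -/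
noncomputable def areaInt {n : ℕ} (u : Vn n → ℝ) (y : Vn n) : ℝ := Real.sqrt (1 + ‖grad u y‖ ^ 2)

/-- The mean curvature `div (∇u / √(1 + |∇u|²))` of the graph of `u`. -/
noncomputable def curv {n : ℕ} (u : Vn n → ℝ) (y : Vn n) : ℝ :=
  LinearMap.trace ℝ (Vn n) (fderiv ℝ (fun z => (areaInt u z)⁻¹ • grad u z) y : Vn n →ₗ[ℝ] Vn n)

variable {E : Type*} [NormedAddCommGroup E] [InnerProductSpace ℝ E]

/-- The point of the graph of `u` above `y`: the hyperplane `ι(ℝ^n)`, the unit normal `e`. -/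
noncomputable def graphPt {n : ℕ} (ι : Vn n →ₗᵢ[ℝ] E) (e : E) (u : Vn n → ℝ) (y : Vn n) : E :=
  ι y + u y • e

/-- The (upward) unit normal of the graph of `u` above `y`. -/
noncomputable def graphNormal {n : ℕ} (ι : Vn n →ₗᵢ[ℝ] E) (e : E) (u : Vn n → ℝ) (y : Vn n) : E :=
  (areaInt u y)⁻¹ • (e - ι (grad u y))

section basic

variable {n : ℕ} {u : Vn n → ℝ}

theorem grad_inner (u : Vn n → ℝ) (y v : Vn n) : ⟪grad u y, v⟫ = fderiv ℝ u y v := by
  unfold grad
  rw [sum_inner]
  simp_rw [real_inner_smul_left]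
  conv_rhs => rw [← (EuclideanSpace.basisFun (Fin n) ℝ).sum_repr' v, map_sum]
  refine Finset.sum_congr rfl fun i _ => ?_
  rw [map_smul, smul_eq_mul, mul_comm]

theorem grad_contDiff (hu : ContDiff ℝ 3 u) : ContDiff ℝ 2 (grad u) := by
  unfold grad
  have h1 : ContDiff ℝ 2 (fderiv ℝ u) := hu.fderiv_right (by norm_num)
  exact ContDiff.sum fun i _ => (h1.clm_apply contDiff_const).smul contDiff_const

theorem areaInt_sq (u : Vn n → ℝ) (y : Vn n) : areaInt u y ^ 2 = 1 + ‖grad u y‖ ^ 2 :=
  Real.sq_sqrt (by positivity)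

theorem areaInt_pos (u : Vn n → ℝ) (y : Vn n) : 0 < areaInt u y :=
  Real.sqrt_pos.mpr (by positivity)

theorem areaInt_contDiff (hu : ContDiff ℝ 3 u) : ContDiff ℝ 2 (areaInt u) := by
  unfold areaInt
  have h1 : ContDiff ℝ 2 fun y => 1 + ‖grad u y‖ ^ 2 :=
    contDiff_const.add ((grad_contDiff hu).norm_sq ℝ)
  exact h1.sqrt fun y => by positivity

/-- the Hessian is symmetric -/
theorem hess_symm (hu : ContDiff ℝ 3 u) (y v w : Vn n) :
    ⟪fderiv ℝ (grad u) y v, w⟫ = ⟪fderiv ℝ (grad u) y w, v⟫ := by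
  have h1 : ∀ v w : Vn n, ⟪fderiv ℝ (grad u) y v, w⟫ = fderiv ℝ (fderiv ℝ u) y v w := by
    intro v w
    have hg := ((grad_contDiff hu).differentiable (by norm_num) y).hasFDerivAt
    have e1 : HasFDerivAt (fun z => ⟪grad u z, w⟫)
        ((innerSL ℝ w).comp (fderiv ℝ (grad u) y)) y := by
      have := (innerSL ℝ w).hasFDerivAt.comp y hg
      refine this.congr_of_eventuallyEq (Eventually.of_forall fun z => ?_)
      simp [real_inner_comm]
    have hf : ContDiff ℝ 2 (fderiv ℝ u) := hu.fderiv_right (by norm_num)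
    have e2 : HasFDerivAt (fun z => fderiv ℝ u z w)
        ((ContinuousLinearMap.apply ℝ ℝ w).comp (fderiv ℝ (fderiv ℝ u) y)) y :=
      (ContinuousLinearMap.apply ℝ ℝ w).hasFDerivAt.comp y
        ((hf.differentiable (by norm_num) y).hasFDerivAt)
    have e3 : (fun z => ⟪grad u z, w⟫) = fun z => fderiv ℝ u z w := by
      funext z; exact grad_inner u z w
    rw [e3] at e1
    have e4 := DFunLike.congr_fun (e1.unique e2) v
    simp only [ContinuousLinearMap.comp_apply, innerSL_apply_apply,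
      ContinuousLinearMap.apply_apply] at e4
    rw [real_inner_comm, e4]
  rw [h1, h1]
  have h2 : IsSymmSndFDerivAt ℝ u y := (hu.contDiffAt).isSymmSndFDerivAt (by simp; norm_num)
  exact h2 v w

end basic

section adj

variable {n : ℕ} [CompleteSpace E] (ι : Vn n →ₗᵢ[ℝ] E)

/-- the projection to the hyperplane -/
noncomputable def proj : E →L[ℝ] Vn n := ContinuousLinearMap.adjoint ι.toContinuousLinearMap

theorem proj_inner (x : E) (v : Vn n) : ⟪proj ι x, v⟫ = ⟪x, ι v⟫ := by
  unfold proj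
  rw [ContinuousLinearMap.adjoint_inner_left]; rfl

theorem proj_ι (v : Vn n) : proj ι (ι v) = v := by
  apply ext_inner_right ℝ
  intro w
  rw [proj_inner, ι.inner_map_map]

variable {e : E} (heι : ∀ y, ⟪ι y, e⟫ = 0)

include heι in
theorem proj_e : proj ι e = 0 := by
  apply ext_inner_right ℝ
  intro w
  rw [proj_inner, real_inner_comm, heι, inner_zero_left]

include heι in
theorem proj_graphPt (u : Vn n → ℝ) (y : Vn n) : proj ι (graphPt ι e u y) = y := by
  unfold graphPt
  rw [map_add, map_smul, proj_ι, proj_e ι heι, smul_zero, add_zero]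

theorem graphPt_contDiff {u : Vn n → ℝ} (hu : ContDiff ℝ 3 u) : ContDiff ℝ 3 (graphPt ι e u) := by
  unfold graphPt
  exact ι.contDiff.add (hu.smul contDiff_const)

include heι in
theorem graphPt_closedEmbedding {u : Vn n → ℝ} (hu : ContDiff ℝ 3 u) :
    IsClosedEmbedding (graphPt ι e u) :=
  (Function.LeftInverse.isClosedEmbedding (f := proj ι) (fun y => proj_graphPt ι heι u y)
    (proj ι).continuous (graphPt_contDiff ι hu).continuous)

end adj

section trace

variable {n : ℕ} [FiniteDimensional ℝ E] (ι : Vn n →ₗᵢ[ℝ] E) {e : E}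

/-- the trace in the frame `e, ι b_i` -/
theorem trace_frame (hdim : Module.finrank ℝ E = n + 1) (he : ‖e‖ = 1)
    (heι : ∀ y, ⟪ι y, e⟫ = 0) (T : E →L[ℝ] E) :
    LinearMap.trace ℝ E (T : E →ₗ[ℝ] E) = ⟪e, T e⟫ +
      ∑ i, ⟪ι (EuclideanSpace.basisFun (Fin n) ℝ i), T (ι (EuclideanSpace.basisFun (Fin n) ℝ i))⟫ := by
  classical
  set v : Option (Fin n) → E := fun o => o.elim e fun i => ι (EuclideanSpace.basisFun (Fin n) ℝ i)
    with hv
  have hon : Orthonormal ℝ v := by
    rw [orthonormal_iff_ite]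
    rintro (_ | i) (_ | j)
    · simp [hv, real_inner_self_eq_norm_sq, he]
    · simp only [hv, Option.elim_none, Option.elim_some]
      rw [real_inner_comm, heι]; simp
    · simp only [hv, Option.elim_none, Option.elim_some]
      rw [heι]; simp
    · simp only [hv, Option.elim_some]
      rw [ι.inner_map_map]
      have := orthonormal_iff_ite.1 (EuclideanSpace.basisFun (Fin n) ℝ).orthonormal i j
      rw [this]
      simp
  have hcard : Fintype.card (Option (Fin n)) = Module.finrank ℝ E := by simp [hdim]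
  set B := (basisOfOrthonormalOfCardEqFinrank hon hcard) with hB
  have hBc : (B : Option (Fin n) → E) = v := coe_basisOfOrthonormalOfCardEqFinrank hon hcard
  have hBon : Orthonormal ℝ B := by rw [hBc]; exact hon
  rw [LinearMap.trace_eq_sum_inner _ (B.toOrthonormalBasis hBon), Fintype.sum_option]
  simp only [Module.Basis.coe_toOrthonormalBasis, hBc, hv, Option.elim_none, Option.elim_some,
    ContinuousLinearMap.coe_coe]

end trace

end MP247
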