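import Pool.Agent.Lib.MP_247ac7.Graph2

/-! # Smooth graphs: the first variation formula -/

open MeasureTheory Filter Topology Metric Set
open scoped RealInnerProductSpace ContDiff

namespace MP247

variable {E : Type*} [NormedAddCommGroup E] [InnerProductSpace ℝ E]

section pointwise

variable {n : ℕ} [FiniteDimensional ℝ E] [CompleteSpace E] (ι : Vn n →ₗᵢ[ℝ] E) {e : E}
  {u : Vn n → ℝ}

theorem trace_parts (T Q : Vn n →L[ℝ] Vn n) (S K : Vn n →L[ℝ] ℝ) (Z q : Vn n) (s k : ℝ) :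
    LinearMap.trace ℝ (Vn n) ((s • T + S.smulRight Z + (k • Q + K.smulRight q) :
      Vn n →L[ℝ] Vn n) : Vn n →ₗ[ℝ] Vn n) =
    s * LinearMap.trace ℝ (Vn n) (T : Vn n →ₗ[ℝ] Vn n) + S Z +
      (k * LinearMap.trace ℝ (Vn n) (Q : Vn n →ₗ[ℝ] Vn n) + K q) := by
  have h : ((s • T + S.smulRight Z + (k • Q + K.smulRight q) :
      Vn n →L[ℝ] Vn n) : Vn n →ₗ[ℝ] Vn n) =
      s • (T : Vn n →ₗ[ℝ] Vn n) + (S : Vn n →ₗ[ℝ] ℝ).smulRight Z +
        (k • (Q : Vn n →ₗ[ℝ] Vn n) + (K : Vn n →ₗ[ℝ] ℝ).smulRight q) := by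
    apply LinearMap.ext; intro v; rfl
  rw [h, map_add, map_add, map_add, map_smul, map_smul, LinearMap.trace_smulRight,
    LinearMap.trace_smulRight]
  rfl

theorem trace_T (hdim : Module.finrank ℝ E = n + 1) (he : ‖e‖ = 1)
    (heι : ∀ y, ⟪ι y, e⟫ = 0) (D : E →L[ℝ] E) (l : Vn n →L[ℝ] ℝ) (a : Vn n)
    (hl : ∀ v, l v = ⟪a, v⟫) :
    LinearMap.trace ℝ (Vn n) (((proj ι).comp (D.comp (ι.toContinuousLinearMap +
      l.smulRight e)) : Vn n →L[ℝ] Vn n) : Vn n →ₗ[ℝ] Vn n) =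
    LinearMap.trace ℝ E (D : E →ₗ[ℝ] E) - ⟪D e, e⟫ + ⟪D e, ι a⟫ := by
  set b := EuclideanSpace.basisFun (Fin n) ℝ with hb
  rw [LinearMap.trace_eq_sum_inner _ b, trace_frame ι hdim he heι D]
  have h1 : ∀ i, ⟪b i, ((proj ι).comp (D.comp (ι.toContinuousLinearMap + l.smulRight e)) :
      Vn n →L[ℝ] Vn n) (b i)⟫ = ⟪ι (b i), D (ι (b i))⟫ + ⟪D e, ι (⟪a, b i⟫ • b i)⟫ := by
    intro i
    rw [real_inner_comm, ContinuousLinearMap.comp_apply, proj_inner,
      ContinuousLinearMap.comp_apply]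
    have h2 : (ι.toContinuousLinearMap + l.smulRight e) (b i) = ι (b i) + ⟪a, b i⟫ • e := by
      rw [ContinuousLinearMap.add_apply, ContinuousLinearMap.smulRight_apply, hl]; rfl
    rw [h2, map_add, map_smul, inner_add_left, real_inner_smul_left, map_smul,
      real_inner_smul_right, real_inner_comm]
  have h3 : ∑ i, ⟪b i, ((proj ι).comp (D.comp (ι.toContinuousLinearMap + l.smulRight e)) :
      Vn n →L[ℝ] Vn n) (b i)⟫ = ∑ i, ⟪ι (b i), D (ι (b i))⟫ + ⟪D e, ι a⟫ := by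
    rw [Finset.sum_congr rfl fun i _ => h1 i, Finset.sum_add_distrib, ← inner_sum, ← map_sum]
    congr 3
    conv_rhs => rw [← b.sum_repr' a]
    refine Finset.sum_congr rfl fun i _ => ?_
    rw [real_inner_comm]
  have h4 : ⟪e, D e⟫ = ⟪D e, e⟫ := real_inner_comm _ _
  simp only [ContinuousLinearMap.coe_coe]
  rw [h3, h4]
  ring

/-- the vector field on `ℝ^n` whose divergence gives the first variation of the graph -/
noncomputable def wField (ι : Vn n →ₗᵢ[ℝ] E) (e : E) (u : Vn n → ℝ) (X : E → E) (y : Vn n) :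
    Vn n :=
  areaInt u y • proj ι (X (graphPt ι e u y)) +
    ⟪X (graphPt ι e u y), e - ι (grad u y)⟫ • ((areaInt u y)⁻¹ • grad u y)

omit [FiniteDimensional ℝ E] [CompleteSpace E] in
theorem hasFDerivAt_graphPt (hu : ContDiff ℝ 3 u) (y : Vn n) :
    HasFDerivAt (graphPt ι e u) (ι.toContinuousLinearMap + (fderiv ℝ u y).smulRight e) y := by
  unfold graphPt
  exact ι.toContinuousLinearMap.hasFDerivAt.add
    (((hu.differentiable (by norm_num) y).hasFDerivAt).smul_const e)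

theorem hasFDerivAt_areaInt (hu : ContDiff ℝ 3 u) (y : Vn n) :
    HasFDerivAt (areaInt u)
      ((areaInt u y)⁻¹ • (innerSL ℝ (grad u y)).comp (fderiv ℝ (grad u) y)) y := by
  have hg := ((grad_contDiff hu).differentiable (by norm_num) y).hasFDerivAt
  have h1 : HasFDerivAt (fun z => 1 + ‖grad u z‖ ^ 2)
      (2 • (innerSL ℝ (grad u y)).comp (fderiv ℝ (grad u) y)) y :=
    (hg.norm_sq).const_add 1
  have h2 := h1.sqrt (by positivity)
  have hp : 0 < Real.sqrt (1 + ‖grad u y‖ ^ 2) := Real.sqrt_pos.mpr (by positivity)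
  have h3 : (1 / (2 * Real.sqrt (1 + ‖grad u y‖ ^ 2))) •
      (2 • (innerSL ℝ (grad u y)).comp (fderiv ℝ (grad u) y) : Vn n →L[ℝ] ℝ) =
      (Real.sqrt (1 + ‖grad u y‖ ^ 2))⁻¹ •
        ((innerSL ℝ (grad u y)).comp (fderiv ℝ (grad u) y) : Vn n →L[ℝ] ℝ) := by
    apply ContinuousLinearMap.ext
    intro v
    simp only [ContinuousLinearMap.smul_apply, nsmul_eq_mul, smul_eq_mul]
    push_cast
    field_simp
  rw [h3] at h2
  exact h2

theorem q_contDiff (hu : ContDiff ℝ 3 u) :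
    ContDiff ℝ 2 (fun z => (areaInt u z)⁻¹ • grad u z) :=
  ((areaInt_contDiff hu).inv fun z => (areaInt_pos u z).ne').smul (grad_contDiff hu)

theorem trace_wField (hdim : Module.finrank ℝ E = n + 1) (he : ‖e‖ = 1)
    (heι : ∀ y, ⟪ι y, e⟫ = 0) (hu : ContDiff ℝ 3 u) {X : E → E} (hX : ContDiff ℝ 1 X)
    (y : Vn n) :
    LinearMap.trace ℝ (Vn n) (fderiv ℝ (wField ι e u X) y : Vn n →ₗ[ℝ] Vn n) =
      areaInt u y * tdiv X (graphPt ι e u y) (graphNormal ι e u y) +
        curv u y * ⟪X (graphPt ι e u y), e - ι (grad u y)⟫ := by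
  set a := grad u y with ha
  set A := fderiv ℝ (grad u) y with hA
  set s := areaInt u y with hs
  have hs0 : 0 < s := areaInt_pos u y
  have hs2 : s ^ 2 = 1 + ‖a‖ ^ 2 := areaInt_sq u y
  set x := graphPt ι e u y with hx
  set D := fderiv ℝ X x with hD
  set l := fderiv ℝ u y with hl
  have hla : ∀ v, l v = ⟪a, v⟫ := fun v => (grad_inner u y v).symm
  set G' := ι.toContinuousLinearMap + l.smulRight e with hG'
  have hG : HasFDerivAt (graphPt ι e u) G' y := hasFDerivAt_graphPt ι hu y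
  have hXx : HasFDerivAt X D x := (hX.differentiable one_ne_zero x).hasFDerivAt
  have hXG : HasFDerivAt (fun z => X (graphPt ι e u z)) (D.comp G') y := hXx.comp y hG
  have hZ : HasFDerivAt (fun z => proj ι (X (graphPt ι e u z))) ((proj ι).comp (D.comp G')) y :=
    (proj ι).hasFDerivAt.comp y hXG
  have hg : HasFDerivAt (grad u) A y :=
    ((grad_contDiff hu).differentiable (by norm_num) y).hasFDerivAt
  have hm : HasFDerivAt (fun z => e - ι (grad u z)) (-(ι.toContinuousLinearMap.comp A)) y := by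
    have := (ι.toContinuousLinearMap.hasFDerivAt.comp y hg).const_sub e
    exact this
  have hk := hXG.inner ℝ hm
  have hsd := hasFDerivAt_areaInt hu y
  have hq : HasFDerivAt (fun z => (areaInt u z)⁻¹ • grad u z)
      (fderiv ℝ (fun z => (areaInt u z)⁻¹ • grad u z) y) y :=
    ((q_contDiff hu).differentiable (by norm_num) y).hasFDerivAt
  have hw := (hsd.smul hZ).add (hk.smul hq)
  have hw' : fderiv ℝ (wField ι e u X) y = _ := hw.fderiv
  rw [hw', trace_parts, trace_T ι hdim he heι D l a hla]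
  -- the remaining terms
  have e1 : (s⁻¹ • (innerSL ℝ a).comp A : Vn n →L[ℝ] ℝ) (proj ι (X x)) =
      s⁻¹ * ⟪X x, ι (A a)⟫ := by
    rw [ContinuousLinearMap.smul_apply, ContinuousLinearMap.comp_apply, innerSL_apply_apply,
      smul_eq_mul, real_inner_comm, hess_symm hu, real_inner_comm, proj_inner]
  have e2 : ((fderivInnerCLM ℝ (X x, e - ι a)).comp
      ((D.comp G').prod (-(ι.toContinuousLinearMap.comp A))) : Vn n →L[ℝ] ℝ) (s⁻¹ • a) =
      s⁻¹ * (-⟪X x, ι (A a)⟫ + (⟪D (ι a), e⟫ - ⟪D (ι a), ι a⟫ +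
        ‖a‖ ^ 2 * (⟪D e, e⟫ - ⟪D e, ι a⟫))) := by
    rw [map_smul, smul_eq_mul]
    congr 1
    rw [ContinuousLinearMap.comp_apply, fderivInnerCLM_apply]
    simp only [ContinuousLinearMap.prod_apply, ContinuousLinearMap.neg_apply,
      ContinuousLinearMap.comp_apply, inner_neg_right]
    have h2 : G' a = ι a + ‖a‖ ^ 2 • e := by
      rw [hG', ContinuousLinearMap.add_apply, ContinuousLinearMap.smulRight_apply, hla,
        real_inner_self_eq_norm_sq]; rfl
    rw [h2, map_add, map_smul, inner_add_left, real_inner_smul_left, inner_sub_right,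
      inner_sub_right]
    rfl
  have e3 : tdiv X x (graphNormal ι e u y) = LinearMap.trace ℝ E (D : E →ₗ[ℝ] E) -
      s⁻¹ ^ 2 * (⟪D e, e⟫ - ⟪D e, ι a⟫ - ⟪D (ι a), e⟫ + ⟪D (ι a), ι a⟫) := by
    unfold tdiv graphNormal
    rw [← ha, ← hs, map_smul, real_inner_smul_left, real_inner_smul_right, map_sub,
      inner_sub_left, inner_sub_right, inner_sub_right]
    ring
  have e4 : LinearMap.trace ℝ (Vn n)
      (fderiv ℝ (fun z => (areaInt u z)⁻¹ • grad u z) y : Vn n →ₗ[ℝ] Vn n) = curv u y := rfl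
  rw [e1, e2, e3, e4]
  have ha2 : ‖a‖ ^ 2 = s ^ 2 - 1 := by linarith
  rw [ha2]
  field_simp
  ring

end pointwise

end MP247
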