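import Pool.Agent.Lib.MP_247ac7.Graph3

/-! # Smooth graphs: the area measure, the mean curvature vector -/

open MeasureTheory Filter Topology Metric Set
open scoped RealInnerProductSpace ContDiff NNReal

namespace MP247

variable {E : Type*} [NormedAddCommGroup E] [InnerProductSpace ℝ E] [MeasurableSpace E]

/-- The `n`-dimensional area measure of the graph of `u`. -/
noncomputable def graphMeasure {n : ℕ} (ι : Vn n →ₗᵢ[ℝ] E) (e : E) (u : Vn n → ℝ) : Measure E :=
  ((volume : Measure (Vn n)).withDensity fun y => ENNReal.ofReal (areaInt u y)).map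
    (graphPt ι e u)

/-- In `U` the varifold `(μ, ν)` is `θ` times the graph of `u`, with a unit normal of the graph. -/
structure IsGraph {n : ℕ} (μ : Measure E) (ν : E → E) (U : Set E) (ι : Vn n →ₗᵢ[ℝ] E) (e : E)
    (u : Vn n → ℝ) (θ : ℝ≥0) : Prop where
  meas : μ.restrict U = θ • (graphMeasure ι e u).restrict U
  normal : ∀ᵐ y : Vn n, graphPt ι e u y ∈ U →
    ν (graphPt ι e u y) = graphNormal ι e u y ∨ ν (graphPt ι e u y) = -graphNormal ι e u y

variable {n : ℕ} [FiniteDimensional ℝ E] [CompleteSpace E] [BorelSpace E] (ι : Vn n →ₗᵢ[ℝ] E)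
  {e : E} {u : Vn n → ℝ}

theorem integral_graphMeasure (heι : ∀ y, ⟪ι y, e⟫ = 0) (hu : ContDiff ℝ 3 u) (g : E → ℝ) :
    ∫ x, g x ∂(graphMeasure ι e u) = ∫ y, areaInt u y * g (graphPt ι e u y) := by
  unfold graphMeasure
  rw [(graphPt_closedEmbedding ι heι hu).measurableEmbedding.integral_map]
  have h1 : (fun y => ENNReal.ofReal (areaInt u y)) =
      fun y => ((Real.toNNReal (areaInt u y) : ℝ≥0) : ENNReal) := rfl
  rw [h1, integral_withDensity_eq_integral_smul
    ((areaInt_contDiff hu).continuous.measurable.real_toNNReal)]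
  refine integral_congr_ae (Eventually.of_forall fun y => ?_)
  simp only [NNReal.smul_def, smul_eq_mul]
  rw [Real.coe_toNNReal _ (areaInt_pos u y).le]

variable {μ : Measure E} {ν : E → E} {U : Set E} {θ : ℝ≥0}

theorem IsGraph.integral (h : IsGraph μ ν U ι e u θ) (heι : ∀ y, ⟪ι y, e⟫ = 0)
    (hu : ContDiff ℝ 3 u) {g : E → ℝ} (hg : ∀ x, x ∉ U → g x = 0) :
    ∫ x, g x ∂μ = θ * ∫ y, areaInt u y * g (graphPt ι e u y) := by
  rw [← setIntegral_eq_integral_of_forall_compl_eq_zero hg, h.meas,
    integral_smul_nnreal_measure, setIntegral_eq_integral_of_forall_compl_eq_zero hg,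
    integral_graphMeasure ι heι hu]
  rfl

theorem curv_continuous (hu : ContDiff ℝ 3 u) : Continuous (curv u) := by
  let tr : (Vn n →L[ℝ] Vn n) →ₗ[ℝ] ℝ :=
    (LinearMap.trace ℝ (Vn n)).comp (ContinuousLinearMap.coeLM ℝ)
  have htr : Continuous tr := LinearMap.continuous_of_finiteDimensional tr
  exact htr.comp ((q_contDiff hu).continuous_fderiv (by norm_num))

/-- the mean curvature vector of the graph, extended to the whole space -/
noncomputable def graphH (ι : Vn n →ₗᵢ[ℝ] E) (e : E) (u : Vn n → ℝ) (x : E) : E :=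
  (curv u (proj ι x) * (areaInt u (proj ι x))⁻¹) • (e - ι (grad u (proj ι x)))

omit [FiniteDimensional ℝ E] in
theorem graphH_continuous (hu : ContDiff ℝ 3 u) : Continuous (graphH ι e u) := by
  unfold graphH
  have h1 := (proj ι).continuous
  refine Continuous.smul (((curv_continuous hu).comp h1).mul
    (((areaInt_contDiff hu).continuous.comp h1).inv₀ fun x => (areaInt_pos u _).ne')) ?_
  exact continuous_const.sub (ι.continuous.comp ((grad_contDiff hu).continuous.comp h1))

omit [FiniteDimensional ℝ E] in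
theorem graphH_graphPt (heι : ∀ y, ⟪ι y, e⟫ = 0) (y : Vn n) :
    graphH ι e u (graphPt ι e u y) = (curv u y * (areaInt u y)⁻¹) • (e - ι (grad u y)) := by
  unfold graphH
  rw [proj_graphPt ι heι u y]

theorem wField_contDiff (hu : ContDiff ℝ 3 u) {X : E → E} (hX : ContDiff ℝ 1 X) :
    ContDiff ℝ 1 (wField ι e u X) := by
  unfold wField
  have hG : ContDiff ℝ 1 (graphPt ι e u) := (graphPt_contDiff ι hu).of_le (by norm_num)
  have hs : ContDiff ℝ 1 (areaInt u) := (areaInt_contDiff hu).of_le (by norm_num)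
  have hq : ContDiff ℝ 1 (fun z => (areaInt u z)⁻¹ • grad u z) :=
    (q_contDiff hu).of_le (by norm_num)
  have hg : ContDiff ℝ 1 (grad u) := (grad_contDiff hu).of_le (by norm_num)
  have hXG : ContDiff ℝ 1 fun y => X (graphPt ι e u y) := hX.comp hG
  exact (hs.smul ((proj ι).contDiff.comp hXG)).add
    ((hXG.inner ℝ (contDiff_const.sub (ι.contDiff.comp hg))).smul hq)

omit [FiniteDimensional ℝ E] [MeasurableSpace E] [BorelSpace E] in
theorem comp_graphPt_zero (heι : ∀ y, ⟪ι y, e⟫ = 0) {G : Type*} [Zero G] {X : E → G} {y : Vn n}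
    (hy : y ∉ proj ι '' tsupport X) : X (graphPt ι e u y) = 0 := by
  apply image_eq_zero_of_notMem_tsupport
  intro h
  exact hy ⟨_, h, proj_graphPt ι heι u y⟩

theorem tdiv_neg (X : E → E) (x v : E) : tdiv X x (-v) = tdiv X x v := by
  unfold tdiv
  rw [map_neg, inner_neg_neg]

theorem IsGraph.firstVar (h : IsGraph μ ν U ι e u θ) (hdim : Module.finrank ℝ E = n + 1)
    (he : ‖e‖ = 1) (heι : ∀ y, ⟪ι y, e⟫ = 0) (hu : ContDiff ℝ 3 u) {X : E → E}
    (hX : ContDiff ℝ 1 X) (hXc : HasCompactSupport X) (hXU : tsupport X ⊆ U) :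
    ∫ x, tdiv X x (ν x) ∂μ = - ∫ x, ⟪X x, graphH ι e u x⟫ ∂μ := by
  have hK : IsCompact (proj ι '' tsupport X) := hXc.isCompact.image (proj ι).continuous
  have hfd : ∀ x, x ∉ U → fderiv ℝ X x = 0 := by
    intro x hx
    exact image_eq_zero_of_notMem_tsupport fun h' => hx (hXU (tsupport_fderiv_subset ℝ h'))
  rw [h.integral ι heι hu (g := fun x => tdiv X x (ν x))
    (by intro x hx; simp only [tdiv, hfd x hx]; simp),
    h.integral ι heι hu (g := fun x => ⟪X x, graphH ι e u x⟫)
    (by
      intro x hx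
      have : X x = 0 := image_eq_zero_of_notMem_tsupport fun h' => hx (hXU h')
      simp only [this, inner_zero_left])]
  rw [← mul_neg]
  congr 1
  have hw := wField_contDiff ι (e := e) hu hX
  have hwc : HasCompactSupport (wField ι e u X) := by
    refine HasCompactSupport.intro hK fun y hy => ?_
    unfold wField
    rw [comp_graphPt_zero ι heι hy, map_zero, smul_zero, inner_zero_left, zero_smul, add_zero]
  have h1 : ∫ y, areaInt u y * tdiv X (graphPt ι e u y) (ν (graphPt ι e u y)) =
      ∫ y, (LinearMap.trace ℝ (Vn n) (fderiv ℝ (wField ι e u X) y : Vn n →ₗ[ℝ] Vn n) -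
        curv u y * ⟪X (graphPt ι e u y), e - ι (grad u y)⟫) := by
    apply integral_congr_ae
    filter_upwards [h.normal] with y hy
    rw [trace_wField ι hdim he heι hu hX y]
    by_cases hyU : graphPt ι e u y ∈ U
    · rcases hy hyU with h2 | h2
      · rw [h2]; ring
      · rw [h2, tdiv_neg]; ring
    · simp only [tdiv, hfd _ hyU]; simp
  rw [h1, integral_sub, integral_trace_zero hw hwc, zero_sub]
  · congr 1
    refine integral_congr_ae (Eventually.of_forall fun y => ?_)
    simp only
    rw [graphH_graphPt ι heι, real_inner_smul_right]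
    have := (areaInt_pos u y).ne'
    field_simp
  · let tr : (Vn n →L[ℝ] Vn n) →ₗ[ℝ] ℝ :=
      (LinearMap.trace ℝ (Vn n)).comp (ContinuousLinearMap.coeLM ℝ)
    have htr : Continuous tr := LinearMap.continuous_of_finiteDimensional tr
    have hc : Continuous fun y => tr (fderiv ℝ (wField ι e u X) y) :=
      htr.comp (hw.continuous_fderiv one_ne_zero)
    refine hc.integrable_of_hasCompactSupport ?_
    exact (hwc.fderiv ℝ).comp_left (map_zero tr)
  · have hc : Continuous fun y => curv u y * ⟪X (graphPt ι e u y), e - ι (grad u y)⟫ :=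
      (curv_continuous hu).mul ((hX.continuous.comp (graphPt_contDiff ι hu).continuous).inner
        (continuous_const.sub (ι.continuous.comp (grad_contDiff hu).continuous)))
    refine hc.integrable_of_hasCompactSupport ?_
    refine HasCompactSupport.intro hK fun y hy => ?_
    rw [comp_graphPt_zero ι heι hy, inner_zero_left, mul_zero]

theorem IsGraph.reg (h : IsGraph μ ν U ι e u θ) (hdim : Module.finrank ℝ E = n + 1)
    (he : ‖e‖ = 1) (heι : ∀ y, ⟪ι y, e⟫ = 0) (hu : ContDiff ℝ 3 u)
    (hfin : IsLocallyFiniteMeasure μ) {V K : Set E} (hV : IsOpen V) (hVK : V ⊆ K)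
    (hK : IsCompact K) (hKU : K ⊆ U) : Reg μ ν V (graphH ι e u) where
  isOpen := hV
  fin := ((measure_mono hVK).trans_lt hK.measure_lt_top).ne
  mc := ⟨((graphH_continuous ι hu).locallyIntegrable).locallyIntegrableOn V,
    fun X hX hXc hXV => h.firstVar ι hdim he heι hu hX hXc (hXV.trans (hVK.trans hKU))⟩
  sq := (((graphH_continuous ι hu).norm.pow 2).continuousOn.integrableOn_compact hK).mono_set hVK

/-- Brakke's right side for a graph -/
theorem IsGraph.rhs_eq (h : IsGraph μ ν U ι e u θ)
    (he : ‖e‖ = 1) (heι : ∀ y, ⟪ι y, e⟫ = 0) (hu : ContDiff ℝ 3 u) {φ : E → ℝ}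
    (hφU : tsupport φ ⊆ U) :
    rhs μ φ (graphH ι e u) = θ * ∫ y, (curv u y * fderiv ℝ φ (graphPt ι e u y)
      (e - ι (grad u y)) - φ (graphPt ι e u y) * (areaInt u y * curv u y ^ 2)) := by
  unfold rhs
  rw [h.integral ι heι hu (g := fun x => -(φ x * ‖graphH ι e u x‖ ^ 2) +
    fderiv ℝ φ x (graphH ι e u x))
    (by
      intro x hx
      have h1 : φ x = 0 := image_eq_zero_of_notMem_tsupport fun h' => hx (hφU h')
      have h2 : fderiv ℝ φ x = 0 :=
        image_eq_zero_of_notMem_tsupport fun h' => hx (hφU (tsupport_fderiv_subset ℝ h'))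
      simp only [h1, h2]; simp)]
  congr 1
  refine integral_congr_ae (Eventually.of_forall fun y => ?_)
  simp only
  rw [graphH_graphPt ι heι, map_smul, norm_smul, mul_pow, smul_eq_mul, Real.norm_eq_abs, sq_abs]
  have h1 : ‖e - ι (grad u y)‖ ^ 2 = areaInt u y ^ 2 := by
    rw [areaInt_sq, norm_sub_sq_real, he, ι.norm_map, real_inner_comm, heι]
    ring
  rw [h1]
  have := (areaInt_pos u y).ne'
  field_simp
  ring

end MP247
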