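import Pool.Agent.Lib.MP_247ac7.Graph4

/-! # Smooth graphs: the time derivative of the mass -/

open MeasureTheory Filter Topology Metric Set
open scoped RealInnerProductSpace ContDiff NNReal

namespace MP247

variable {n : ℕ}

/-- spatial gradient -/
noncomputable def sgrad (u : Vn n × ℝ → ℝ) (p : Vn n × ℝ) : Vn n :=
  ∑ i, fderiv ℝ u p (EuclideanSpace.basisFun (Fin n) ℝ i, 0) • EuclideanSpace.basisFun (Fin n) ℝ i

theorem cd3 {F G : Type*} [NormedAddCommGroup F] [NormedSpace ℝ F] [NormedAddCommGroup G]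
    [NormedSpace ℝ G] {u : F → G} (hu : ContDiff ℝ ∞ u) : ContDiff ℝ 3 u := by
  exact_mod_cast contDiff_infty.1 hu 3

section slices

variable {u : Vn n × ℝ → ℝ} (hu : ContDiff ℝ ∞ u)

include hu

theorem slice_contDiff (t : ℝ) : ContDiff ℝ ∞ fun y => u (y, t) :=
  hu.comp (contDiff_id.prodMk contDiff_const)

theorem fderiv_slice (y : Vn n) (t : ℝ) (v : Vn n) :
    fderiv ℝ (fun y => u (y, t)) y v = fderiv ℝ u (y, t) (v, 0) := by
  have h1 : HasFDerivAt (fun y : Vn n => ((y, t) : Vn n × ℝ))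
      ((ContinuousLinearMap.id ℝ (Vn n)).prod 0) y :=
    (hasFDerivAt_id y).prodMk (hasFDerivAt_const t y)
  have h2 := ((hu.differentiable (by simp) (y, t)).hasFDerivAt).comp y h1
  have h3 : fderiv ℝ (fun y => u (y, t)) y = _ := h2.fderiv
  rw [h3]; rfl

theorem grad_slice (y : Vn n) (t : ℝ) : grad (fun y => u (y, t)) y = sgrad u (y, t) := by
  unfold grad sgrad
  refine Finset.sum_congr rfl fun i _ => ?_
  rw [fderiv_slice hu]

theorem sgrad_contDiff : ContDiff ℝ 2 (sgrad u) := by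
  unfold sgrad
  have h1 : ContDiff ℝ 2 (fderiv ℝ u) := (cd3 hu).fderiv_right (by norm_num)
  exact ContDiff.sum fun i _ => (h1.clm_apply contDiff_const).smul contDiff_const

omit hu in
theorem sgrad_inner (p : Vn n × ℝ) (v : Vn n) : ⟪sgrad u p, v⟫ = fderiv ℝ u p (v, 0) := by
  unfold sgrad
  rw [sum_inner]
  simp_rw [real_inner_smul_left]
  have h1 : ((v, 0) : Vn n × ℝ) = ∑ i, ⟪EuclideanSpace.basisFun (Fin n) ℝ i, v⟫ •
      ((EuclideanSpace.basisFun (Fin n) ℝ i, 0) : Vn n × ℝ) := by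
    have h2 := (EuclideanSpace.basisFun (Fin n) ℝ).sum_repr' v
    have h3 : (∑ i, ⟪EuclideanSpace.basisFun (Fin n) ℝ i, v⟫ •
      ((EuclideanSpace.basisFun (Fin n) ℝ i, 0) : Vn n × ℝ)) =
      (LinearMap.inl ℝ (Vn n) ℝ) (∑ i, ⟪EuclideanSpace.basisFun (Fin n) ℝ i, v⟫ •
        EuclideanSpace.basisFun (Fin n) ℝ i) := by
      rw [map_sum]
      refine Finset.sum_congr rfl fun i _ => ?_
      rw [map_smul]; rfl
    rw [h3, h2]; rfl
  rw [h1, map_sum]
  refine Finset.sum_congr rfl fun i _ => ?_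
  rw [map_smul, smul_eq_mul, mul_comm]

/-- mixed second derivatives -/
theorem sgrad_time (y v : Vn n) (t : ℝ) :
    ⟪fderiv ℝ (sgrad u) (y, t) (0, 1), v⟫ =
      fderiv ℝ (fun z => fderiv ℝ u (z, t) (0, 1)) y v := by
  have hf : ContDiff ℝ 2 (fderiv ℝ u) := (cd3 hu).fderiv_right (by norm_num)
  have hf1 := (hf.differentiable (by norm_num) (y, t)).hasFDerivAt
  have hg := ((sgrad_contDiff hu).differentiable (by norm_num) (y, t)).hasFDerivAt
  have e1 : HasFDerivAt (fun z => ⟪v, sgrad u z⟫)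
      ((innerSL ℝ v).comp (fderiv ℝ (sgrad u) (y, t))) (y, t) :=
    (innerSL ℝ v).hasFDerivAt.comp (y, t) hg
  have e2 : HasFDerivAt (fun z => fderiv ℝ u z (v, 0))
      ((ContinuousLinearMap.apply ℝ ℝ ((v, 0) : Vn n × ℝ)).comp
        (fderiv ℝ (fderiv ℝ u) (y, t))) (y, t) :=
    (ContinuousLinearMap.apply ℝ ℝ ((v, 0) : Vn n × ℝ)).hasFDerivAt.comp (y, t) hf1
  have e3 : (fun z => ⟪v, sgrad u z⟫) = fun z => fderiv ℝ u z (v, 0) := by
    funext z; rw [real_inner_comm, sgrad_inner]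
  rw [e3] at e1
  have e4 := DFunLike.congr_fun (e1.unique e2) (0, 1)
  simp only [ContinuousLinearMap.comp_apply, innerSL_apply_apply,
    ContinuousLinearMap.apply_apply] at e4
  rw [real_inner_comm, e4]
  -- the other side
  have e5 : HasFDerivAt (fun z => fderiv ℝ u z (0, 1))
      ((ContinuousLinearMap.apply ℝ ℝ ((0, 1) : Vn n × ℝ)).comp
        (fderiv ℝ (fderiv ℝ u) (y, t))) (y, t) :=
    (ContinuousLinearMap.apply ℝ ℝ ((0, 1) : Vn n × ℝ)).hasFDerivAt.comp (y, t) hf1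
  have h1 : HasFDerivAt (fun y : Vn n => ((y, t) : Vn n × ℝ))
      ((ContinuousLinearMap.id ℝ (Vn n)).prod 0) y :=
    (hasFDerivAt_id y).prodMk (hasFDerivAt_const t y)
  have e6 := e5.comp y h1
  have e7 : fderiv ℝ (fun z => fderiv ℝ u (z, t) (0, 1)) y = _ := e6.fderiv
  rw [e7]
  have h2 : IsSymmSndFDerivAt ℝ u (y, t) :=
    ((cd3 hu).contDiffAt).isSymmSndFDerivAt (by simp; norm_num)
  exact h2 _ _

end slices

variable {E : Type*} [NormedAddCommGroup E] [InnerProductSpace ℝ E] [MeasurableSpace E]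
  [FiniteDimensional ℝ E] [CompleteSpace E] [BorelSpace E] (ι : Vn n →ₗᵢ[ℝ] E)
  {e : E} {u : Vn n × ℝ → ℝ} {φ : E → ℝ}

/-- the integrand of the mass -/
noncomputable def massInt (ι : Vn n →ₗᵢ[ℝ] E) (e : E) (u : Vn n × ℝ → ℝ) (φ : E → ℝ)
    (p : Vn n × ℝ) : ℝ :=
  Real.sqrt (1 + ‖sgrad u p‖ ^ 2) * φ (ι p.1 + u p • e)

theorem massInt_eq (hu : ContDiff ℝ ∞ u) (y : Vn n) (t : ℝ) :
    massInt ι e u φ (y, t) =
      areaInt (fun y => u (y, t)) y * φ (graphPt ι e (fun y => u (y, t)) y) := by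
  unfold massInt areaInt graphPt
  rw [grad_slice hu]

theorem massInt_contDiff (hu : ContDiff ℝ ∞ u) (hφ : ContDiff ℝ 2 φ) :
    ContDiff ℝ 1 (massInt ι e u φ) := by
  unfold massInt
  have h1 : ContDiff ℝ 1 fun p => Real.sqrt (1 + ‖sgrad u p‖ ^ 2) := by
    have h2 : ContDiff ℝ 1 fun p => 1 + ‖sgrad u p‖ ^ 2 :=
      contDiff_const.add (((sgrad_contDiff hu).of_le (by norm_num)).norm_sq ℝ)
    exact h2.sqrt fun y => by positivity
  have h3 : ContDiff ℝ 1 fun p : Vn n × ℝ => ι p.1 + u p • e :=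
    (ι.contDiff.comp contDiff_fst).add (((cd3 hu).of_le (by norm_num)).smul contDiff_const)
  exact h1.mul ((hφ.of_le (by norm_num)).comp h3)

theorem massInt_time (hu : ContDiff ℝ ∞ u) (hφ : ContDiff ℝ 2 φ) (y : Vn n) (t : ℝ) :
    fderiv ℝ (massInt ι e u φ) (y, t) (0, 1) =
      areaInt (fun y => u (y, t)) y * (fderiv ℝ u (y, t) (0, 1) *
        fderiv ℝ φ (graphPt ι e (fun y => u (y, t)) y) e) +
      (areaInt (fun y => u (y, t)) y)⁻¹ * φ (graphPt ι e (fun y => u (y, t)) y) *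
        fderiv ℝ (fun z => fderiv ℝ u (z, t) (0, 1)) y (grad (fun y => u (y, t)) y) := by
  set p : Vn n × ℝ := (y, t) with hp
  have hg := ((sgrad_contDiff hu).differentiable (by norm_num) p).hasFDerivAt
  have h1 : HasFDerivAt (fun z => 1 + ‖sgrad u z‖ ^ 2)
      (2 • (innerSL ℝ (sgrad u p)).comp (fderiv ℝ (sgrad u) p)) p :=
    (hg.norm_sq).const_add 1
  have h2 := h1.sqrt (by positivity)
  have hup := (hu.differentiable (by simp) p).hasFDerivAt
  have h3 : HasFDerivAt (fun z : Vn n × ℝ => ι z.1 + u z • e)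
      (ι.toContinuousLinearMap.comp (ContinuousLinearMap.fst ℝ (Vn n) ℝ) +
        (fderiv ℝ u p).smulRight e) p :=
    (ι.toContinuousLinearMap.hasFDerivAt.comp p
      (ContinuousLinearMap.fst ℝ (Vn n) ℝ).hasFDerivAt).add (hup.smul_const e)
  have h4 := ((hφ.differentiable (by norm_num) (ι p.1 + u p • e)).hasFDerivAt).comp p h3
  have h5 := h2.mul h4
  have h6 : fderiv ℝ (massInt ι e u φ) p = _ := h5.fderiv
  rw [h6]
  simp only [ContinuousLinearMap.add_apply, ContinuousLinearMap.smul_apply,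
    ContinuousLinearMap.comp_apply, ContinuousLinearMap.smulRight_apply,
    ContinuousLinearMap.coe_fst', innerSL_apply_apply, smul_eq_mul, nsmul_eq_mul,
    Function.comp_apply]
  rw [real_inner_comm, sgrad_time hu]
  unfold areaInt graphPt
  rw [grad_slice hu]
  simp only [← hp]
  have h7 : 0 < Real.sqrt (1 + ‖sgrad u p‖ ^ 2) := Real.sqrt_pos.mpr (by positivity)
  have h8 : (ι.toContinuousLinearMap) (0 : Vn n) = 0 := map_zero _
  have h9 : p.1 = y := rfl
  rw [h8, zero_add, map_smul, smul_eq_mul, h9]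
  push_cast
  field_simp

/-- the integration by parts -/
theorem time_ibp (heι : ∀ y, ⟪ι y, e⟫ = 0) (hu : ContDiff ℝ ∞ u) (hφ : ContDiff ℝ 2 φ)
    (hφc : HasCompactSupport φ) (t : ℝ) :
    ∫ y, fderiv ℝ (massInt ι e u φ) (y, t) (0, 1) =
      ∫ y, fderiv ℝ u (y, t) (0, 1) * ((areaInt (fun y => u (y, t)) y)⁻¹ *
        fderiv ℝ φ (graphPt ι e (fun y => u (y, t)) y) (e - ι (grad (fun y => u (y, t)) y)) -
        φ (graphPt ι e (fun y => u (y, t)) y) * curv (fun y => u (y, t)) y) := by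
  set v : Vn n → ℝ := fun y => u (y, t) with hv
  have hv3 : ContDiff ℝ 3 v := cd3 (slice_contDiff hu t)
  set ud : Vn n → ℝ := fun y => fderiv ℝ u (y, t) (0, 1) with hud
  have hK : IsCompact (proj ι '' tsupport φ) := hφc.isCompact.image (proj ι).continuous
  have hud1 : ContDiff ℝ 1 ud := by
    have h1 : ContDiff ℝ 1 (fderiv ℝ u) := (cd3 hu).fderiv_right (by norm_num)
    exact (h1.clm_apply contDiff_const).comp (contDiff_id.prodMk contDiff_const)
  have hG1 : ContDiff ℝ 1 (graphPt ι e v) := (graphPt_contDiff ι hv3).of_le (by norm_num)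
  have hφG : ContDiff ℝ 1 fun y => φ (graphPt ι e v y) := (hφ.of_le (by norm_num)).comp hG1
  set w : Vn n → Vn n := fun y => (φ (graphPt ι e v y) * ud y) • ((areaInt v y)⁻¹ • grad v y)
    with hw
  have hw1 : ContDiff ℝ 1 w := (hφG.mul hud1).smul ((q_contDiff hv3).of_le (by norm_num))
  have hwc : HasCompactSupport w := by
    refine HasCompactSupport.intro hK fun y hy => ?_
    simp only [hw]
    rw [comp_graphPt_zero ι heι hy, zero_mul, zero_smul]
  -- pointwise divergence of `w`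
  have hdiv : ∀ y, LinearMap.trace ℝ (Vn n) (fderiv ℝ w y : Vn n →ₗ[ℝ] Vn n) =
      φ (graphPt ι e v y) * ud y * curv v y + (areaInt v y)⁻¹ *
        (ud y * (fderiv ℝ φ (graphPt ι e v y) (ι (grad v y)) +
          ‖grad v y‖ ^ 2 * fderiv ℝ φ (graphPt ι e v y) e) +
          φ (graphPt ι e v y) * fderiv ℝ ud y (grad v y)) := by
    intro y
    have hG := hasFDerivAt_graphPt (e := e) ι hv3 y
    have h1 := ((hφ.differentiable (by norm_num) (graphPt ι e v y)).hasFDerivAt).comp y hG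
    have h2 := (hud1.differentiable (by norm_num) y).hasFDerivAt
    have h3 := h1.mul h2
    have hq : HasFDerivAt (fun z => (areaInt v z)⁻¹ • grad v z)
      (fderiv ℝ (fun z => (areaInt v z)⁻¹ • grad v z) y) y :=
      ((q_contDiff hv3).differentiable (by norm_num) y).hasFDerivAt
    have h4 := h3.smul hq
    have h5 : fderiv ℝ w y = _ := h4.fderiv
    have h6 := trace_parts (n := n) 0 (fderiv ℝ (fun z => (areaInt v z)⁻¹ • grad v z) y) 0
      (((φ ∘ graphPt ι e v) y) • fderiv ℝ ud y + ud y • (fderiv ℝ φ (graphPt ι e v y)).comp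
        (ι.toContinuousLinearMap + (fderiv ℝ v y).smulRight e)) 0
      ((areaInt v y)⁻¹ • grad v y) 0 ((φ ∘ graphPt ι e v) y * ud y)
    have h7 : (0 : ℝ) • (0 : Vn n →L[ℝ] Vn n) + (0 : Vn n →L[ℝ] ℝ).smulRight (0 : Vn n) = 0 := by
      apply ContinuousLinearMap.ext; intro z; simp
    rw [h7, zero_add] at h6
    rw [h5]
    refine h6.trans ?_
    have h8 : LinearMap.trace ℝ (Vn n)
      (fderiv ℝ (fun z => (areaInt v z)⁻¹ • grad v z) y : Vn n →ₗ[ℝ] Vn n) = curv v y := rfl
    rw [h8, map_smul]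
    have h9 : (ι.toContinuousLinearMap + (fderiv ℝ v y).smulRight e) (grad v y) =
        ι (grad v y) + ‖grad v y‖ ^ 2 • e := by
      rw [ContinuousLinearMap.add_apply, ContinuousLinearMap.smulRight_apply, ← grad_inner,
        real_inner_self_eq_norm_sq]; rfl
    simp only [ContinuousLinearMap.add_apply, ContinuousLinearMap.smul_apply,
      ContinuousLinearMap.comp_apply, smul_eq_mul, Function.comp_apply, zero_mul,
      ContinuousLinearMap.zero_apply, zero_add, add_zero] at h9 ⊢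
    rw [h9, map_add, map_smul, smul_eq_mul]
    ring
  have hint := integral_trace_zero hw1 hwc
  have hf1 := massInt_contDiff (e := e) ι hu hφ
  have hcont : Continuous fun y => fderiv ℝ (massInt ι e u φ) (y, t) (0, 1) :=
    ((hf1.continuous_fderiv one_ne_zero).clm_apply continuous_const).comp
      (g := fun p : Vn n × ℝ => fderiv ℝ (massInt ι e u φ) p (0, 1))
      (by fun_prop : Continuous fun y : Vn n => ((y, t) : Vn n × ℝ))
  have h0 : ∀ y, y ∉ proj ι '' tsupport φ → ∀ t, massInt ι e u φ (y, t) = 0 := by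
    intro y hy t
    rw [massInt_eq ι hu, comp_graphPt_zero ι heι hy, mul_zero]
  have hi1 : Integrable fun y => fderiv ℝ (massInt ι e u φ) (y, t) (0, 1) := by
    refine hcont.integrable_of_hasCompactSupport (HasCompactSupport.intro hK fun y hy => ?_)
    exact slice_zero hf1 h0 hy t
  let tr : (Vn n →L[ℝ] Vn n) →ₗ[ℝ] ℝ :=
    (LinearMap.trace ℝ (Vn n)).comp (ContinuousLinearMap.coeLM ℝ)
  have htr : Continuous tr := LinearMap.continuous_of_finiteDimensional tr
  have hi2 : Integrable fun y =>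
      LinearMap.trace ℝ (Vn n) (fderiv ℝ w y : Vn n →ₗ[ℝ] Vn n) := by
    have hc : Continuous fun y => tr (fderiv ℝ w y) :=
      htr.comp (hw1.continuous_fderiv one_ne_zero)
    exact hc.integrable_of_hasCompactSupport ((hwc.fderiv ℝ).comp_left (map_zero tr))
  have hsub := integral_sub hi1 hi2
  rw [hint, sub_zero] at hsub
  rw [← hsub]
  refine integral_congr_ae (Eventually.of_forall fun y => ?_)
  simp only
  rw [hdiv y, massInt_time ι hu hφ y t]
  have hs := (areaInt_pos v y).ne'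
  have hs2 : ‖grad v y‖ ^ 2 = areaInt v y ^ 2 - 1 := by rw [areaInt_sq]; ring
  rw [hs2, map_sub]
  simp only [← hv, ← hud]
  field_simp
  ring

end MP247
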