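import Pool.Agent.Lib.MP_247ac7.Graph5
import Pool.Agent.Lib.MP_247ac7.Final

/-! # Smooth points of the flow are not in the failure sets -/

open MeasureTheory Filter Topology Metric Set
open scoped RealInnerProductSpace ContDiff NNReal

namespace MP247

variable {n : ℕ} {E : Type*} [NormedAddCommGroup E] [InnerProductSpace ℝ E] [MeasurableSpace E]

/-- **Regular points.** Near the space-time point `p` (in the open set `U` and for the times
`t ≥ 0` in `I`) the flow is `θ` times the graph of a smooth function `u(·, t)` over a hyperplane,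
moving by mean curvature: `∂_t u = √(1 + |∇u|²) div (∇u / √(1 + |∇u|²))`. Here `θ ≥ 0` is a
constant, and `θ = 0` means that there is no mass near `p`. As `U` and `I` may be small, it is no
restriction that `u` is defined everywhere. -/
def Regular (n : ℕ) (μ : ℝ → Measure E) (ν : ℝ → E → E) (p : E × ℝ) : Prop :=
  ∃ (ι : Vn n →ₗᵢ[ℝ] E) (e : E) (u : Vn n × ℝ → ℝ) (θ : ℝ≥0) (U : Set E) (I : Set ℝ),
    ‖e‖ = 1 ∧ (∀ y, ⟪ι y, e⟫ = 0) ∧ ContDiff ℝ ∞ u ∧ IsOpen U ∧ p.1 ∈ U ∧ I ∈ 𝓝 p.2 ∧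
    ∀ t ∈ I, 0 ≤ t → IsGraph (μ t) (ν t) U ι e (fun y => u (y, t)) θ ∧
      ∀ y, graphPt ι e (fun y => u (y, t)) y ∈ U →
        deriv (fun s => u (y, s)) t = areaInt (fun y => u (y, t)) y * curv (fun y => u (y, t)) y

variable [FiniteDimensional ℝ E] [CompleteSpace E] [BorelSpace E]
  {μ : ℝ → Measure E} {ν : ℝ → E → E}

/-- near a regular point the integrated identity holds -/
theorem Regular.intGood (hdim : Module.finrank ℝ E = n + 1) (hF : IsBrakkeFlow μ ν) {p : E × ℝ}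
    (h : Regular n μ ν p) : IntGood μ ν p := by
  obtain ⟨ι, e, u, θ, U, I, he, heι, hu, hUo, hpU, hI, hflow⟩ := h
  obtain ⟨δ, hδ, hδI⟩ := Metric.mem_nhds_iff.1 hI
  refine ⟨U, hUo.mem_nhds hpU, ball p.2 δ, ball_mem_nhds _ hδ, ?_⟩
  intro φ hφ hφU s hs t ht h0 hst
  -- the smooth mass function and its derivative
  set Ψ : ℝ → ℝ := fun τ => ∫ y, massInt ι e u φ (y, τ) with hΨ
  set D : ℝ → ℝ := fun τ => ∫ y, fderiv ℝ (massInt ι e u φ) (y, τ) (0, 1) with hD
  have hK : IsCompact (proj ι '' tsupport φ) := hφ.compact.isCompact.image (proj ι).continuous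
  have hf1 := massInt_contDiff (e := e) ι hu hφ.smooth
  have hoff : ∀ y, y ∉ proj ι '' tsupport φ → ∀ τ, massInt ι e u φ (y, τ) = 0 := by
    intro y hy τ
    rw [massInt_eq ι hu, comp_graphPt_zero ι heι hy, mul_zero]
  have hΨD : ∀ τ, HasDerivAt Ψ (D τ) τ := fun τ => hasDerivAt_param hf1 hK hoff τ
  have hDc : Continuous D := continuous_param hf1 hK hoff
  have hIcc : ∀ τ ∈ Icc s t, τ ∈ I ∧ 0 ≤ τ := by
    intro τ hτ
    refine ⟨hδI ?_, h0.trans hτ.1⟩
    rw [mem_ball, Real.dist_eq, abs_lt] at hs ht ⊢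
    constructor <;> linarith [hτ.1, hτ.2]
  -- the mass
  have hmass : ∀ τ ∈ Icc s t, mass μ φ τ = θ * Ψ τ := by
    intro τ hτ
    obtain ⟨hτI, hτ0⟩ := hIcc τ hτ
    have hg := (hflow τ hτI hτ0).1
    have hoffU : ∀ x, x ∉ U → φ x = 0 := fun x hx =>
      image_eq_zero_of_notMem_tsupport fun h' => hx (hφU h')
    unfold mass
    rw [hg.integral ι heι (cd3 (slice_contDiff hu τ)) hoffU, hΨ]
    simp only [massInt_eq ι hu]
  -- Brakke's right side
  have hbr : ∀ τ ∈ Icc s t, brakkeB (μ τ) (ν τ) φ = ((θ * D τ : ℝ) : EReal) := by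
    intro τ hτ
    obtain ⟨hτI, hτ0⟩ := hIcc τ hτ
    obtain ⟨hg, hmcf⟩ := hflow τ hτI hτ0
    have hv3 := cd3 (slice_contDiff hu τ)
    obtain ⟨V, hV, hφV, hVU, hVc⟩ :=
      exists_open_between_and_isCompact_closure hφ.compact.isCompact hUo hφU
    have hreg := hg.reg ι hdim he heι hv3 (hF.finite τ hτ0) hV subset_closure hVc hVU
    rw [hreg.brakkeB_eq hφ hφV, hg.rhs_eq ι he heι hv3 hφU]
    congr 2
    simp only [hD]
    rw [time_ibp ι heι hu hφ.smooth hφ.compact τ]
    refine integral_congr_ae (Eventually.of_forall fun y => ?_)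
    simp only
    by_cases hy : graphPt ι e (fun y => u (y, τ)) y ∈ U
    · have h1 := hmcf y hy
      rw [(hasDerivAt_slice (cd3 hu |>.of_le (by norm_num)) y τ).deriv] at h1
      rw [h1]
      have hs := (areaInt_pos (fun y => u (y, τ)) y).ne'
      field_simp
    · have h1 : φ (graphPt ι e (fun y => u (y, τ)) y) = 0 :=
        image_eq_zero_of_notMem_tsupport fun h' => hy (hφU h')
      have h2 : fderiv ℝ φ (graphPt ι e (fun y => u (y, τ)) y) = 0 :=
        image_eq_zero_of_notMem_tsupport fun h' => hy (hφU (tsupport_fderiv_subset ℝ h'))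
      rw [h1, h2]; simp
  have hreal : ∀ τ ∈ Icc s t, (brakkeB (μ τ) (ν τ) φ).toReal = θ * D τ := by
    intro τ hτ
    rw [hbr τ hτ, EReal.toReal_coe]
  have hint : IntervalIntegrable (fun τ => θ * D τ) volume s t :=
    (continuous_const.mul hDc).intervalIntegrable s t
  refine ⟨Eventually.of_forall fun τ hτ => by rw [hbr τ hτ]; exact EReal.coe_ne_bot _, ?_, ?_⟩
  · refine hint.congr ?_
    intro τ hτ
    rw [uIoc_of_le hst] at hτ
    exact (hreal τ ⟨hτ.1.le, hτ.2⟩).symm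
  · have h1 : ∫ τ in s..t, (brakkeB (μ τ) (ν τ) φ).toReal = ∫ τ in s..t, θ * D τ := by
      apply intervalIntegral.integral_congr
      intro τ hτ
      rw [uIcc_of_le hst] at hτ
      exact hreal τ hτ
    have h2 : ∫ τ in s..t, θ * D τ = θ * Ψ t - θ * Ψ s :=
      intervalIntegral.integral_eq_sub_of_hasDerivAt
        (fun τ _ => (hΨD τ).const_mul (θ : ℝ)) hint
    rw [h1, h2, hmass t (right_mem_Icc.2 hst), hmass s (left_mem_Icc.2 hst)]

omit [InnerProductSpace ℝ E] [MeasurableSpace E] [FiniteDimensional ℝ E] [CompleteSpace E]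
  [BorelSpace E] in
theorem ParabolicNull.mono {m : ℕ} {A B : Set (E × ℝ)} (h : ParabolicNull m B) (hAB : A ⊆ B) :
    ParabolicNull m A := by
  intro ε hε
  obtain ⟨x, t, r, h1, h2, h3, h4⟩ := h ε hε
  exact ⟨x, t, r, h1, hAB.trans h2, h3, h4⟩

/-- The failure set of the integrated identity consists of singular points. -/
theorem intFailureSet_subset (hdim : Module.finrank ℝ E = n + 1) (hF : IsBrakkeFlow μ ν) :
    intFailureSet μ ν ⊆ {p | 0 ≤ p.2 ∧ ¬ Regular n μ ν p} := by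
  rintro p ⟨hp0, hp⟩
  exact ⟨hp0, fun h => hp (h.intGood hdim hF)⟩

/-- The failure set of Q1 consists of singular points. -/
theorem failureSet_subset (hdim : Module.finrank ℝ E = n + 1) (hF : IsBrakkeFlow μ ν)
    (hL : LocMass μ) : failureSet μ ν ⊆ {p | 0 < p.2 ∧ ¬ Regular n μ ν p} := by
  rintro p ⟨hp0, hp⟩
  refine ⟨hp0, fun h => hp ?_⟩
  obtain ⟨U, hU, I, hI, hint⟩ := h.intGood hdim hF
  exact goodPt_of_int hF hL hp0 hU hI hint

end MP247
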