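import Pool.Agent.Lib.MP_247ac7.Cut

/-! # Calculus of Brakke's right side at a fixed time -/

open MeasureTheory Filter Topology Metric Set
open scoped RealInnerProductSpace ContDiff

namespace MP247

variable {E : Type*} [NormedAddCommGroup E] [InnerProductSpace ℝ E] [MeasurableSpace E]
  [BorelSpace E] [FiniteDimensional ℝ E]

/-- `C²` functions with compact support in `V` -/
structure D2 (V : Set E) (φ : E → ℝ) : Prop where
  smooth : ContDiff ℝ 2 φ
  compact : HasCompactSupport φ
  supp : tsupport φ ⊆ V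

/-- the varifold `(μ, ν)` has square integrable mean curvature `H` on the open set `V` of finite
measure -/
structure Reg (μ : Measure E) (ν : E → E) (V : Set E) (H : E → E) : Prop where
  isOpen : IsOpen V
  fin : μ V ≠ ⊤
  mc : IsMeanCurv μ ν V H
  sq : IntegrableOn (fun x => ‖H x‖ ^ 2) V μ

omit [MeasurableSpace E] [BorelSpace E] [FiniteDimensional ℝ E] in
theorem D2.add {V : Set E} {φ ψ : E → ℝ} (h : D2 V φ) (h' : D2 V ψ) :
    D2 V (fun x => φ x + ψ x) where
  smooth := h.smooth.add h'.smooth
  compact := h.compact.add h'.compact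
  supp := by
    refine (tsupport_add φ ψ).trans (union_subset h.supp h'.supp)

omit [MeasurableSpace E] [BorelSpace E] [FiniteDimensional ℝ E] in
theorem D2.const_mul {V : Set E} {φ : E → ℝ} (h : D2 V φ) (c : ℝ) :
    D2 V (fun x => c * φ x) where
  smooth := contDiff_const.mul h.smooth
  compact := h.compact.mul_left
  supp := by
    refine (closure_mono ?_).trans h.supp
    intro x hx h0
    exact hx (by simp [h0])

omit [MeasurableSpace E] [BorelSpace E] [FiniteDimensional ℝ E] in
theorem D2.sub {V : Set E} {φ ψ : E → ℝ} (h : D2 V φ) (h' : D2 V ψ) :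
    D2 V (fun x => φ x - ψ x) := by
  have := h.add (h'.const_mul (-1))
  simpa [sub_eq_add_neg] using this

omit [MeasurableSpace E] [BorelSpace E] [FiniteDimensional ℝ E] in
theorem D2.mul {V : Set E} {φ χ : E → ℝ} (h : D2 V φ) (hχ : ContDiff ℝ 2 χ) :
    D2 V (fun x => φ x * χ x) where
  smooth := h.smooth.mul hχ
  compact := h.compact.mul_right
  supp := by
    refine (closure_mono ?_).trans h.supp
    intro x hx h0
    exact hx (by simp [h0])

omit [MeasurableSpace E] [BorelSpace E] [FiniteDimensional ℝ E] in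
theorem D2.zero (V : Set E) : D2 V (fun _ => (0:ℝ)) where
  smooth := contDiff_const
  compact := HasCompactSupport.zero
  supp := by
    have : tsupport (fun _ : E => (0:ℝ)) = ∅ := by
      rw [tsupport_eq_empty_iff]; rfl
    rw [this]; exact empty_subset _

omit [MeasurableSpace E] [BorelSpace E] [FiniteDimensional ℝ E] in
theorem D2.sum {ι : Type*} {V : Set E} (S : Finset ι) {φ : ι → E → ℝ} (h : ∀ i ∈ S, D2 V (φ i)) :
    D2 V (fun x => ∑ i ∈ S, φ i x) := by
  classical
  induction S using Finset.induction_on with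
  | empty => simpa using D2.zero V
  | insert a S ha ih =>
    simp only [Finset.sum_insert ha]
    exact (h a (Finset.mem_insert_self _ _)).add (ih fun i hi => h i (Finset.mem_insert_of_mem hi))

omit [MeasurableSpace E] [BorelSpace E] [FiniteDimensional ℝ E] in
theorem D2.mono {V W : Set E} {φ : E → ℝ} (h : D2 V φ) (hV : V ⊆ W) : D2 W φ :=
  ⟨h.smooth, h.compact, h.supp.trans hV⟩

omit [MeasurableSpace E] [BorelSpace E] [FiniteDimensional ℝ E] in
theorem Test.d2 {V : Set E} {φ : E → ℝ} (h : Test φ) (hV : tsupport φ ⊆ V) : D2 V φ :=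
  ⟨h.smooth, h.compact, hV⟩

section reg

variable {μ : Measure E} {ν : E → E} {V : Set E} {H : E → E}

theorem Reg.int1 (hR : Reg μ ν V H) {φ : E → ℝ} (h : D2 V φ) :
    Integrable (fun x => φ x * ‖H x‖ ^ 2) μ := by
  obtain ⟨C, hC⟩ := h.compact.exists_bound_of_continuous h.smooth.continuous
  rw [← integrableOn_iff_integrable_of_support_subset (s := V)]
  · refine hR.sq.bdd_mul (c := C) h.smooth.continuous.aestronglyMeasurable
      (Eventually.of_forall hC)
  · intro x hx
    apply h.supp
    apply subset_tsupport φ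
    intro h0
    exact hx (by simp [h0])

theorem Reg.int2 (hR : Reg μ ν V H) {φ : E → ℝ} (h : D2 V φ) :
    Integrable (fun x => fderiv ℝ φ x (H x)) μ := by
  have hc1 : Continuous (fderiv ℝ φ) := h.smooth.continuous_fderiv (by norm_num)
  obtain ⟨C, hC⟩ := (h.compact.fderiv ℝ).exists_bound_of_continuous hc1
  have hC0 : 0 ≤ C := (norm_nonneg _).trans (hC 0)
  rw [← integrableOn_iff_integrable_of_support_subset (s := V)]
  · have hm : AEStronglyMeasurable (fun x => fderiv ℝ φ x (H x)) (μ.restrict V) := by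
      have h1 : AEStronglyMeasurable (fderiv ℝ φ) (μ.restrict V) := hc1.aestronglyMeasurable
      exact (ContinuousLinearMap.id ℝ (E →L[ℝ] ℝ)).aestronglyMeasurable_comp₂ h1
        hR.mc.locInt.aestronglyMeasurable
    have hfin : IntegrableOn (fun _ : E => C) V μ := by
      haveI : IsFiniteMeasure (μ.restrict V) := ⟨by
        rw [Measure.restrict_apply_univ]; exact lt_top_iff_ne_top.2 hR.fin⟩
      exact integrable_const C
    have hdom : IntegrableOn (fun x => C + C * ‖H x‖ ^ 2) V μ := hfin.add (hR.sq.const_mul C)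
    refine Integrable.mono' hdom hm (Eventually.of_forall fun x => ?_)
    have h1 := (fderiv ℝ φ x).le_opNorm (H x)
    have h2 := mul_le_mul_of_nonneg_right (hC x) (norm_nonneg (H x))
    have h3 : ‖H x‖ ≤ 1 + ‖H x‖ ^ 2 := by nlinarith [sq_nonneg (‖H x‖ - 1/2)]
    nlinarith
  · intro x hx
    apply h.supp
    apply support_fderiv_subset ℝ (f := φ)
    intro h0
    exact hx (by simp [h0])

theorem Reg.integrable (hR : Reg μ ν V H) {φ : E → ℝ} (h : D2 V φ) :
    Integrable (fun x => -(φ x * ‖H x‖ ^ 2) + fderiv ℝ φ x (H x)) μ :=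
  (hR.int1 h).neg.add (hR.int2 h)

theorem Reg.rhs_add (hR : Reg μ ν V H) {φ ψ : E → ℝ} (h : D2 V φ) (h' : D2 V ψ) :
    rhs μ (fun x => φ x + ψ x) H = rhs μ φ H + rhs μ ψ H := by
  unfold rhs
  rw [← integral_add (hR.integrable h) (hR.integrable h')]
  congr 1; funext x
  have h1 : fderiv ℝ (fun x => φ x + ψ x) x = fderiv ℝ φ x + fderiv ℝ ψ x :=
    fderiv_add (h.smooth.differentiable (by norm_num) x) (h'.smooth.differentiable (by norm_num) x)
  rw [h1]
  simp only [ContinuousLinearMap.add_apply]
  ring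

theorem rhs_const_mul {φ : E → ℝ} (h : ContDiff ℝ 2 φ) (c : ℝ) :
    rhs μ (fun x => c * φ x) H = c * rhs μ φ H := by
  unfold rhs
  rw [← integral_const_mul]
  congr 1; funext x
  have h1 : fderiv ℝ (fun x => c * φ x) x = c • fderiv ℝ φ x :=
    fderiv_const_mul (h.differentiable (by norm_num) x) c
  rw [h1]
  simp only [ContinuousLinearMap.smul_apply, smul_eq_mul]
  ring

theorem Reg.rhs_sub (hR : Reg μ ν V H) {φ ψ : E → ℝ} (h : D2 V φ) (h' : D2 V ψ) :
    rhs μ (fun x => φ x - ψ x) H = rhs μ φ H - rhs μ ψ H := by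
  have h1 := hR.rhs_add h (h'.const_mul (-1))
  have h2 := rhs_const_mul (μ := μ) (H := H) h'.smooth (-1)
  have h3 : (fun x => φ x - ψ x) = fun x => φ x + -1 * ψ x := by funext x; ring
  rw [h3, h1, h2]; ring

theorem Reg.rhs_sum (hR : Reg μ ν V H) {ι : Type*} (S : Finset ι) {φ : ι → E → ℝ}
    (h : ∀ i ∈ S, D2 V (φ i)) :
    rhs μ (fun x => ∑ i ∈ S, φ i x) H = ∑ i ∈ S, rhs μ (φ i) H := by
  classical
  induction S using Finset.induction_on with
  | empty => simp [rhs]
  | insert a S ha ih =>
    simp only [Finset.sum_insert ha]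
    rw [hR.rhs_add (h a (Finset.mem_insert_self _ _))
      (D2.sum S fun i hi => h i (Finset.mem_insert_of_mem hi)),
      ih fun i hi => h i (Finset.mem_insert_of_mem hi)]

/-- Brakke's right side is the honest number when `H` exists near the support. -/
theorem Reg.brakkeB_eq (hR : Reg μ ν V H) {φ : E → ℝ} (hφ : Test φ) (hV : tsupport φ ⊆ V) :
    brakkeB μ ν φ = ((rhs μ φ H : ℝ) : EReal) := by
  have hop : IsOpen {x | 0 < φ x} := isOpen_lt continuous_const hφ.smooth.continuous
  have hsub : {x | 0 < φ x} ⊆ V := fun x hx => hV (subset_tsupport φ (ne_of_gt hx))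
  apply le_antisymm
  · refine iSup₂_le fun H' hH' => ?_
    have hu := hR.mc.unique hR.isOpen hop hH'.1
    have : rhs μ φ H' = rhs μ φ H := by
      unfold rhs
      apply integral_congr_ae
      filter_upwards [hu] with x hx
      by_cases h0 : 0 < φ x
      · rw [hx ⟨hsub h0, h0⟩]
      · have h1 : φ x = 0 := le_antisymm (not_lt.1 h0) (hφ.nonneg x)
        have h2 : fderiv ℝ φ x = 0 := by
          apply IsLocalMin.fderiv_eq_zero
          exact Eventually.of_forall fun y => by rw [h1]; exact hφ.nonneg y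
        simp [h1, h2]
    rw [this]
  · refine le_iSup₂_of_le H ⟨hR.mc.mono hsub, ?_⟩ le_rfl
    exact hR.int1 (hφ.d2 hV)

end reg

end MP247
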