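import Pool.Agent.Lib.MP_247ac7.Defs

/-! # Upper derivatives: the real-variable part -/

open MeasureTheory Filter Topology Metric Set

namespace MP247

/-- eventual upper bound of the difference quotients -/
def UB (f : ℝ → ℝ) (t L : ℝ) : Prop := ∀ ε > 0, ∀ᶠ s in 𝓝[≠] t, (f s - f t) / (s - t) ≤ L + ε

/-- eventual lower bound of the difference quotients -/
def LB (f : ℝ → ℝ) (t L : ℝ) : Prop := ∀ ε > 0, ∀ᶠ s in 𝓝[≠] t, L - ε ≤ (f s - f t) / (s - t)

theorem nhds_eq {t : ℝ} (ht : 0 < t) : 𝓝[Ici 0 \ {t}] t = 𝓝[≠] t := by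
  have h : Ici (0:ℝ) \ {t} = {t}ᶜ ∩ Ici 0 := by ext x; simp [and_comm]
  rw [h]
  exact nhdsWithin_inter_of_mem' (mem_nhdsWithin_of_mem_nhds (Ici_mem_nhds ht))

/-- from an upper bound of the upper derivative to an eventual bound of the quotients -/
theorem ev_of_upperDeriv {f : ℝ → ℝ} {t L : ℝ} (h : upperDeriv f t ≤ (L : EReal)) :
    ∀ ε > 0, ∀ᶠ s in 𝓝[Ici 0 \ {t}] t, (f s - f t) / (s - t) ≤ L + ε := by
  intro ε hε
  have h2 : upperDeriv f t < ((L + ε : ℝ) : EReal) :=
    lt_of_le_of_lt h (by exact_mod_cast (by linarith : L < L + ε))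
  have h3 := Filter.eventually_lt_of_limsup_lt h2
  filter_upwards [h3] with s hs
  exact le_of_lt (by exact_mod_cast hs)

theorem UB_of_upperDeriv {f : ℝ → ℝ} {t L : ℝ} (ht : 0 < t)
    (h : upperDeriv f t ≤ (L : EReal)) : UB f t L := by
  have := ev_of_upperDeriv h
  rw [nhds_eq ht] at this
  exact this

theorem LB.add {f g : ℝ → ℝ} {t L M : ℝ} (hf : LB f t L) (hg : LB g t M) :
    LB (fun s => f s + g s) t (L + M) := by
  intro ε hε
  filter_upwards [hf (ε/2) (by positivity), hg (ε/2) (by positivity)] with s h1 h2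
  have : (f s + g s - (f t + g t)) / (s - t) = (f s - f t) / (s - t) + (g s - g t) / (s - t) := by
    ring
  rw [this]; linarith

theorem LB.sub {f g : ℝ → ℝ} {t L M : ℝ} (hf : LB f t L) (hg : UB g t M) :
    LB (fun s => f s - g s) t (L - M) := by
  intro ε hε
  filter_upwards [hf (ε/2) (by positivity), hg (ε/2) (by positivity)] with s h1 h2
  have : (f s - g s - (f t - g t)) / (s - t) = (f s - f t) / (s - t) - (g s - g t) / (s - t) := by
    ring
  rw [this]; linarith

theorem LB_zero (t : ℝ) : LB (fun _ => 0) t 0 := by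
  intro ε hε
  filter_upwards with s
  simp [hε.le]

theorem LB.sum {ι : Type*} (S : Finset ι) {f : ι → ℝ → ℝ} {t : ℝ} {L : ι → ℝ}
    (h : ∀ i ∈ S, LB (f i) t (L i)) : LB (fun s => ∑ i ∈ S, f i s) t (∑ i ∈ S, L i) := by
  classical
  induction S using Finset.induction_on with
  | empty => simpa using LB_zero t
  | insert a S ha ih =>
    simp only [Finset.sum_insert ha]
    exact (h a (Finset.mem_insert_self _ _)).add
      (ih fun i hi => h i (Finset.mem_insert_of_mem hi))

theorem LB.mono {f : ℝ → ℝ} {t L M : ℝ} (hf : LB f t L) (h : M ≤ L) : LB f t M := by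
  intro ε hε
  filter_upwards [hf ε hε] with s h1
  linarith

theorem LB.const_mul {f : ℝ → ℝ} {t L : ℝ} (c : ℝ) (hc : 0 ≤ c) (hf : LB f t L) :
    LB (fun s => c * f s) t (c * L) := by
  rcases hc.eq_or_lt with rfl | hc
  · simpa using LB_zero t
  intro ε hε
  filter_upwards [hf (ε / c) (by positivity)] with s h1
  have h3 : (c * f s - c * f t) / (s - t) = c * ((f s - f t) / (s - t)) := by ring
  rw [h3]
  have := mul_le_mul_of_nonneg_left h1 hc.le
  have h4 : c * (L - ε / c) = c * L - ε := by field_simp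
  linarith

theorem LB_of_hasDerivAt {f : ℝ → ℝ} {t L : ℝ} (h : HasDerivAt f L t) : LB f t L := by
  intro ε hε
  have h1 := hasDerivAt_iff_tendsto_slope.1 h
  have h2 := h1.eventually (lt_mem_nhds (show L - ε < L by linarith))
  filter_upwards [h2] with s hs
  have : slope f t s = (f s - f t) / (s - t) := by simp [slope_def_field]
  rw [← this]; exact hs.le

theorem UB_of_hasDerivAt {f : ℝ → ℝ} {t L : ℝ} (h : HasDerivAt f L t) : UB f t L := by
  intro ε hε
  have h1 := hasDerivAt_iff_tendsto_slope.1 h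
  have h2 := h1.eventually (gt_mem_nhds (show L < L + ε by linarith))
  filter_upwards [h2] with s hs
  have : slope f t s = (f s - f t) / (s - t) := by simp [slope_def_field]
  rw [← this]; exact hs.le

theorem LB.le_UB {f : ℝ → ℝ} {t L M : ℝ} (h1 : LB f t L) (h2 : UB f t M) : L ≤ M := by
  by_contra hc
  push Not at hc
  have e1 := h1 ((L - M) / 3) (by linarith)
  have e2 := h2 ((L - M) / 3) (by linarith)
  obtain ⟨s, hs1, hs2⟩ := (e1.and e2).exists
  linarith

theorem LB.hasDerivAt {f : ℝ → ℝ} {t L : ℝ} (h1 : LB f t L) (h2 : UB f t L) :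
    HasDerivAt f L t := by
  rw [hasDerivAt_iff_tendsto_slope, Metric.tendsto_nhds]
  intro ε hε
  filter_upwards [h1 (ε/2) (by positivity), h2 (ε/2) (by positivity)] with s hs1 hs2
  have : slope f t s = (f s - f t) / (s - t) := by simp [slope_def_field]
  rw [Real.dist_eq, this, abs_lt]
  constructor <;> linarith

/-- the upper derivative at a point of differentiability -/
theorem upperDeriv_eq {f : ℝ → ℝ} {t L : ℝ} (ht : 0 < t) (h : HasDerivAt f L t) :
    upperDeriv f t = (L : EReal) := by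
  unfold upperDeriv
  rw [nhds_eq ht]
  apply Filter.Tendsto.limsup_eq
  have h1 := hasDerivAt_iff_tendsto_slope.1 h
  have h2 : (fun s : ℝ => (((f s - f t) / (s - t) : ℝ) : EReal)) = fun s => ((slope f t s : ℝ) : EReal) := by
    funext s; simp [slope_def_field]
  rw [h2]
  exact (continuous_coe_real_ereal.tendsto L).comp h1

/-- Brakke's lemma: a (possibly discontinuous) function whose upper derivative is everywhere at
most `C` satisfies `f t - f s ≤ C (t - s)`. -/
theorem sub_le_of_upperDeriv {f : ℝ → ℝ} {C a b : ℝ} (ha : 0 ≤ a)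
    (h : ∀ t ∈ Icc a b, upperDeriv f t ≤ (C : EReal)) :
    ∀ s ∈ Icc a b, ∀ t ∈ Icc a b, s ≤ t → f t - f s ≤ C * (t - s) := by
  intro s hs t ht hst
  apply le_of_forall_pos_le_add
  intro δ hδ
  -- slope with ε
  obtain ⟨ε, hε, hεδ⟩ : ∃ ε > 0, ε * (t - s) ≤ δ := by
    refine ⟨δ / (t - s + 1), by have := sub_nonneg.2 hst; positivity, ?_⟩
    rw [div_mul_eq_mul_div, div_le_iff₀ (by have := sub_nonneg.2 hst; positivity)]
    nlinarith
  suffices H : f t - f s ≤ (C + ε) * (t - s) by linarith [add_mul C ε (t - s)]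
  let S : Set ℝ := {u | s ≤ u ∧ u ≤ t ∧ f u - f s ≤ (C + ε) * (u - s)}
  have hsS : s ∈ S := ⟨le_rfl, hst, by simp⟩
  have hbdd : BddAbove S := ⟨t, fun u hu => hu.2.1⟩
  set c := sSup S with hc
  have hsc : s ≤ c := le_csSup hbdd hsS
  have hct : c ≤ t := csSup_le ⟨s, hsS⟩ fun u hu => hu.2.1
  have hcI : c ∈ Icc a b := ⟨hs.1.trans hsc, hct.trans ht.2⟩
  have hev := ev_of_upperDeriv (h c hcI) ε hε
  rw [Filter.Eventually, Metric.mem_nhdsWithin_iff] at hev
  obtain ⟨ρ, hρ, hball⟩ := hev
  -- c ∈ S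
  have hcS : c ∈ S := by
    refine ⟨hsc, hct, ?_⟩
    by_cases hcs : c = s
    · rw [hcs]; simp
    have hlt : c - ρ < c := by linarith
    obtain ⟨u, huS, hu⟩ := exists_lt_of_lt_csSup ⟨s, hsS⟩ hlt
    have huc : u ≤ c := le_csSup hbdd huS
    rcases huc.eq_or_lt with rfl | huc
    · exact huS.2.2
    have hq : (f u - f c) / (u - c) ≤ C + ε := by
      apply hball
      refine ⟨?_, ?_, ?_⟩
      · rw [mem_ball, Real.dist_eq, abs_lt]; constructor <;> linarith
      · exact ha.trans (hs.1.trans huS.1)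
      · simpa using huc.ne
    rw [div_le_iff_of_neg (by linarith)] at hq
    have := huS.2.2
    nlinarith
  rcases hct.eq_or_lt with hceq | hclt
  · rw [← hceq]; exact hcS.2.2
  · exfalso
    set u := min t (c + ρ / 2) with hu
    have hcu : c < u := lt_min hclt (by linarith)
    have hut : u ≤ t := min_le_left _ _
    have huρ : u ≤ c + ρ / 2 := min_le_right _ _
    have hq : (f u - f c) / (u - c) ≤ C + ε := by
      apply hball
      refine ⟨?_, ?_, ?_⟩
      · rw [mem_ball, Real.dist_eq, abs_lt]; constructor <;> linarith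
      · exact ha.trans (hcI.1.trans hcu.le)
      · simpa using hcu.ne'
    rw [div_le_iff₀ (by linarith)] at hq
    have : u ∈ S := ⟨hsc.trans hcu.le, hut, by have := hcS.2.2; nlinarith⟩
    exact absurd (le_csSup hbdd this) (not_le.2 hcu)

end MP247
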