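import Pool.Agent.Lib.MP_247ac7.Local

/-! # The argument at a fixed time -/

open MeasureTheory Filter Topology Metric Set
open scoped RealInnerProductSpace ContDiff Manifold

namespace MP247

variable {E : Type*} [NormedAddCommGroup E] [InnerProductSpace ℝ E] [MeasurableSpace E]
  [BorelSpace E] [FiniteDimensional ℝ E]

omit [MeasurableSpace E] [BorelSpace E] in
/-- smooth partition of unity for finitely many open sets covering a compact set -/
theorem exists_partition {ι : Type*} [Fintype ι] {K : Set E} (hK : IsCompact K) (O : ι → Set E)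
    (hO : ∀ i, IsOpen (O i)) (hcov : K ⊆ ⋃ i, O i) :
    ∃ χ : ι → E → ℝ, (∀ i, ContDiff ℝ 2 (χ i)) ∧ (∀ i x, 0 ≤ χ i x) ∧ (∀ i x, χ i x ≤ 1) ∧
      (∀ i, tsupport (χ i) ⊆ O i) ∧ ∀ x ∈ K, ∑ i, χ i x = 1 := by
  obtain ⟨f, hf⟩ := SmoothPartitionOfUnity.exists_isSubordinate 𝓘(ℝ, E) hK.isClosed O hO hcov
  refine ⟨fun i => f i, fun i => ?_, fun i x => f.nonneg i x, fun i x => f.le_one i x, hf,
    fun x hx => ?_⟩
  · have h1 := (f i).contMDiff
    have h2 : ContDiff ℝ ∞ (f i) := contMDiff_iff_contDiff.1 h1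
    exact contDiff_infty.1 h2 2
  · have := f.sum_eq_one hx
    rw [finsum_eq_sum_of_fintype] at this
    exact this


section flow

variable {μ : ℝ → Measure E} {ν : ℝ → E → E}

theorem LB.congr {f g : ℝ → ℝ} {t L : ℝ} (h : LB f t L) (hfg : f =ᶠ[𝓝 t] g) : LB g t L := by
  intro ε hε
  filter_upwards [h ε hε, hfg.filter_mono nhdsWithin_le_nhds] with s hs h1
  rw [← h1, ← hfg.eq_of_nhds]; exact hs

omit [InnerProductSpace ℝ E] [FiniteDimensional ℝ E] in
theorem integrable_of_flow {t : ℝ} (hfin : IsLocallyFiniteMeasure (μ t)) {φ : E → ℝ}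
    (hc : Continuous φ) (hs : HasCompactSupport φ) : Integrable φ (μ t) :=
  hc.integrable_of_hasCompactSupport hs

/-- The upper bound given by Brakke's inequality. -/
theorem UB_flow (hF : IsBrakkeFlow μ ν) {τ : ℝ} (hτ : 0 < τ) {V : Set E} {H : E → E}
    (hR : Reg (μ τ) (ν τ) V H) {φ : E → ℝ} (hφ : Test φ) (hV : tsupport φ ⊆ V) :
    UB (mass μ φ) τ (rhs (μ τ) φ H) := by
  apply UB_of_upperDeriv hτ
  rw [← hR.brakkeB_eq hφ hV]
  exact hF.ineq τ hτ.le φ hφ

/-- Domination: a lower bound for `θ` gives one for every `φ ≤ θ`. -/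
theorem LB_of_dom (hF : IsBrakkeFlow μ ν) {τ : ℝ} (hτ : 0 < τ) {V : Set E} {H : E → E}
    (hR : Reg (μ τ) (ν τ) V H) {φ θ : E → ℝ} (hφ : Test φ) (hθ : Test θ)
    (hφV : tsupport φ ⊆ V) (hθV : tsupport θ ⊆ V) (hle : ∀ x, φ x ≤ θ x) {L : ℝ}
    (h : LB (mass μ θ) τ (rhs (μ τ) θ H - L)) : LB (mass μ φ) τ (rhs (μ τ) φ H - L) := by
  have hd : D2 V (fun x => θ x - φ x) := (hθ.d2 hθV).sub (hφ.d2 hφV)
  have ht : Test (fun x => θ x - φ x) := ⟨hd.smooth, hd.compact, fun x => sub_nonneg.2 (hle x)⟩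
  have h1 := UB_flow hF hτ hR ht hd.supp
  have h2 := h.sub h1
  rw [hR.rhs_sub (hθ.d2 hθV) (hφ.d2 hφV)] at h2
  have h3 : rhs (μ τ) θ H - L - (rhs (μ τ) θ H - rhs (μ τ) φ H) = rhs (μ τ) φ H - L := by ring
  rw [h3] at h2
  apply h2.congr
  filter_upwards [Ioi_mem_nhds hτ] with s hs
  have hs0 : (0:ℝ) ≤ s := le_of_lt hs
  haveI := hF.finite s hs0
  have i1 : Integrable θ (μ s) := integrable_of_flow this hθ.smooth.continuous hθ.compact
  have i2 : Integrable φ (μ s) := integrable_of_flow this hφ.smooth.continuous hφ.compact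
  unfold mass
  rw [integral_sub i1 i2]; ring

/-- The slice lemma: local lower bounds with defects `δ k` add up. -/
theorem slice (hF : IsBrakkeFlow μ ν) {τ : ℝ} (hτ : 0 < τ) {V : Set E} {H : E → E}
    (hR : Reg (μ τ) (ν τ) V H) {η : E → ℝ} (hη : Test η) (hηV : tsupport η ⊆ V)
    (hη1 : ∀ x, η x ≤ 1) {ι : Type*} [Fintype ι] {O : ι → Set E} (hO : ∀ i, IsOpen (O i))
    (hcov : tsupport η ⊆ ⋃ i, O i) {δ : ι → ℝ}
    (hloc : ∀ i, ∀ φ : E → ℝ, Test φ → (∀ x, φ x ≤ 1) → tsupport φ ⊆ O i → tsupport φ ⊆ V →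
      LB (mass μ φ) τ (rhs (μ τ) φ H - δ i)) :
    LB (mass μ η) τ (rhs (μ τ) η H - ∑ i, δ i) := by
  obtain ⟨χ, c1, c2, c3, c4, c5⟩ := exists_partition (K := tsupport η) hη.compact O hO hcov
  have hd : ∀ i, D2 V (fun x => η x * χ i x) := fun i => (hη.d2 hηV).mul (c1 i)
  have ht : ∀ i, Test (fun x => η x * χ i x) := fun i =>
    ⟨(hd i).smooth, (hd i).compact, fun x => mul_nonneg (hη.nonneg x) (c2 i x)⟩
  have hsum : ∀ x, ∑ i, η x * χ i x = η x := by
    intro x
    rw [← Finset.mul_sum]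
    by_cases hx : x ∈ tsupport η
    · rw [c5 x hx, mul_one]
    · rw [image_eq_zero_of_notMem_tsupport hx, zero_mul]
  have hl : ∀ i ∈ Finset.univ, LB (mass μ (fun x => η x * χ i x)) τ
      (rhs (μ τ) (fun x => η x * χ i x) H - δ i) := by
    intro i _
    apply hloc i _ (ht i)
    · intro x
      have := mul_le_mul (hη1 x) (c3 i x) (c2 i x) zero_le_one
      simpa using this
    · refine (closure_mono ?_).trans (c4 i)
      intro x hx h0
      exact hx (by simp [h0])
    · exact (hd i).supp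
  have h1 := LB.sum Finset.univ hl
  have h2 : ∑ i, (rhs (μ τ) (fun x => η x * χ i x) H - δ i) = rhs (μ τ) η H - ∑ i, δ i := by
    rw [Finset.sum_sub_distrib, ← hR.rhs_sum Finset.univ (fun i _ => hd i)]
    congr 2
    funext x; exact hsum x
  rw [h2] at h1
  apply h1.congr
  filter_upwards [Ioi_mem_nhds hτ] with s hs
  have hs0 : (0:ℝ) ≤ s := le_of_lt hs
  haveI := hF.finite s hs0
  unfold mass
  rw [← integral_finset_sum]
  · congr 1; funext x; exact hsum x
  · intro i _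
    exact integrable_of_flow this (hd i).smooth.continuous (hd i).compact

/-- with a lower bound equal to the right side, equality holds (and the derivative exists) -/
theorem eqAt_of_LB (hF : IsBrakkeFlow μ ν) {τ : ℝ} (hτ : 0 < τ) {V : Set E} {H : E → E}
    (hR : Reg (μ τ) (ν τ) V H) {φ : E → ℝ} (hφ : Test φ) (hV : tsupport φ ⊆ V)
    (h : LB (mass μ φ) τ (rhs (μ τ) φ H)) :
    HasDerivAt (mass μ φ) (rhs (μ τ) φ H) τ ∧ EqAt μ ν τ φ := by
  have h1 := h.hasDerivAt (UB_flow hF hτ hR hφ hV)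
  refine ⟨h1, ?_⟩
  unfold EqAt
  rw [upperDeriv_eq hτ h1, hR.brakkeB_eq hφ hV]

/-- lower bound for a plateau function gives lower bounds for everything below it -/
theorem LB_below (hF : IsBrakkeFlow μ ν) {τ : ℝ} (hτ : 0 < τ) {V : Set E} {H : E → E}
    (hR : Reg (μ τ) (ν τ) V H) {x : E} {ρ : ℝ} (hρ : 0 < ρ) (hθV : closedBall x (2 * ρ) ⊆ V)
    (h : LB (mass μ (cut x ρ)) τ (rhs (μ τ) (cut x ρ) H)) {φ : E → ℝ} (hφ : Test φ)
    (hs : tsupport φ ⊆ ball x ρ) : LB (mass μ φ) τ (rhs (μ τ) φ H) := by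
  obtain ⟨C, hC⟩ := hφ.compact.exists_bound_of_continuous hφ.smooth.continuous
  have hC0 : 0 ≤ C := (norm_nonneg _).trans (hC 0)
  have hcut := cut_test x hρ
  have hcV : tsupport (cut x ρ) ⊆ V := (cut_tsupport hρ).trans hθV
  have hd := (hcut.d2 hcV).const_mul C
  have htest : Test (fun y => C * cut x ρ y) :=
    ⟨hd.smooth, hd.compact, fun y => mul_nonneg hC0 (cut_nonneg _ _ _)⟩
  have hφV : tsupport φ ⊆ V := hs.trans
    ((ball_subset_closedBall.trans (closedBall_subset_closedBall (by linarith))).trans hθV)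
  have hle : ∀ y, φ y ≤ C * cut x ρ y := by
    intro y
    by_cases hy : y ∈ ball x ρ
    · rw [cut_eq_one hρ (mem_ball.1 hy).le, mul_one]
      exact (le_abs_self _).trans (hC y)
    · have : φ y = 0 := image_eq_zero_of_notMem_tsupport fun h' => hy (hs h')
      rw [this]; exact mul_nonneg hC0 (cut_nonneg _ _ _)
  have h1 : LB (mass μ (fun y => C * cut x ρ y)) τ (rhs (μ τ) (fun y => C * cut x ρ y) H - 0) := by
    rw [rhs_const_mul hcut.smooth, sub_zero]
    have h2 := h.const_mul C hC0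
    apply h2.congr
    filter_upwards with s
    unfold mass
    rw [integral_const_mul]
  have := LB_of_dom hF hτ hR hφ htest hφV hd.supp hle h1
  simpa using this

/-- domination by the cut-off for functions `≤ 1` supported in the ball -/
theorem LB_bad (hF : IsBrakkeFlow μ ν) {τ : ℝ} (hτ : 0 < τ) {V : Set E} {H : E → E}
    (hR : Reg (μ τ) (ν τ) V H) {x : E} {r d : ℝ} (hr : 0 < r) (hθV : closedBall x (2 * r) ⊆ V)
    (h : HasDerivAt (mass μ (cut x r)) d τ) {φ : E → ℝ} (hφ : Test φ) (hφ1 : ∀ y, φ y ≤ 1)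
    (hs : tsupport φ ⊆ ball x r) :
    LB (mass μ φ) τ (rhs (μ τ) φ H - (rhs (μ τ) (cut x r) H - d)) := by
  have hcut := cut_test x hr
  have hcV : tsupport (cut x r) ⊆ V := (cut_tsupport hr).trans hθV
  have hφV : tsupport φ ⊆ V := hs.trans
    ((ball_subset_closedBall.trans (closedBall_subset_closedBall (by linarith))).trans hθV)
  apply LB_of_dom hF hτ hR hφ hcut hφV hcV
  · intro y
    by_cases hy : y ∈ ball x r
    · rw [cut_eq_one hr (mem_ball.1 hy).le]; exact hφ1 y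
    · have : φ y = 0 := image_eq_zero_of_notMem_tsupport fun h' => hy (hs h')
      rw [this]; exact cut_nonneg _ _ _
  · have : rhs (μ τ) (cut x r) H - (rhs (μ τ) (cut x r) H - d) = d := by ring
    rw [this]
    exact LB_of_hasDerivAt h

end flow

end MP247
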