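import Pool.Agent.Lib.MP_247ac7.Slice

/-! # Almost every time is good; the defect of a cylinder -/

open MeasureTheory Filter Topology Metric Set
open scoped RealInnerProductSpace ContDiff

namespace MP247

variable {E : Type*} [NormedAddCommGroup E] [InnerProductSpace ℝ E] [MeasurableSpace E]
  [BorelSpace E] [FiniteDimensional ℝ E] {μ : ℝ → Measure E} {ν : ℝ → E → E}

/-- locally uniformly bounded masses -/
def LocMass (μ : ℝ → Measure E) : Prop :=
  ∀ R T : ℝ, ∃ A : ℝ, 0 ≤ A ∧ ∀ t, 0 ≤ t → t ≤ T → μ t (closedBall 0 R) ≤ ENNReal.ofReal A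

omit [InnerProductSpace ℝ E] [BorelSpace E] [FiniteDimensional ℝ E] in
theorem BoundedRatios.locMass {m : ℕ} (hB : BoundedRatios m μ) : LocMass μ := by
  intro R T
  obtain ⟨C, hC⟩ := hB (|R| + 1) T
  refine ⟨|C| * (|R| + 1) ^ m, by positivity, fun t h0 h1 => ?_⟩
  have h2 : closedBall (0:E) R ⊆ ball 0 (|R| + 1) :=
    closedBall_subset_ball (by linarith [le_abs_self R])
  refine (measure_mono h2).trans ((hC t h0 h1 0 (by simp; positivity) (|R| + 1) (by positivity)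
    le_rfl).trans (ENNReal.ofReal_le_ofReal ?_))
  exact mul_le_mul_of_nonneg_right (le_abs_self C) (by positivity)

/-- mass of the closed ball of radius `2r` is at most `C (3r)^m` -/
theorem closedBall_bound {m : ℕ} {R C t : ℝ}
    (hC : ∀ x : E, ‖x‖ ≤ R → ∀ r : ℝ, 0 < r → r ≤ R → μ t (ball x r) ≤ ENNReal.ofReal (C * r ^ m))
    {x : E} {r : ℝ} (hx : ‖x‖ ≤ R) (hr : 0 < r) (hrR : 3 * r ≤ R) :
    μ t (closedBall x (2 * r)) ≤ ENNReal.ofReal (|C| * (3 * r) ^ m) := by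
  refine (measure_mono (closedBall_subset_ball (by linarith : 2 * r < 3 * r))).trans ?_
  refine (hC x hx (3 * r) (by positivity) hrR).trans ?_
  exact ENNReal.ofReal_le_ofReal (mul_le_mul_of_nonneg_right (le_abs_self C) (by positivity))

/-- Brakke's right side for the cut-off is bounded -/
theorem rhs_cut_le {t : ℝ} (H : E → E) (x : E) {r A : ℝ} (hr : 0 < r) (hA0 : 0 ≤ A)
    (hA : μ t (closedBall x (2 * r)) ≤ ENNReal.ofReal A) :
    rhs (μ t) (cut x r) H ≤ (K0 E / r) ^ 2 * A := by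
  have hfin : μ t (closedBall x (2 * r)) ≠ ⊤ := (lt_of_le_of_lt hA ENNReal.ofReal_lt_top).ne
  have hint : Integrable ((closedBall x (2 * r)).indicator (fun _ => (K0 E / r) ^ 2)) (μ t) := by
    rw [integrable_indicator_iff measurableSet_closedBall]
    exact integrableOn_const hfin
  have h2 : ∫ y, (closedBall x (2 * r)).indicator (fun _ => (K0 E / r) ^ 2) y ∂(μ t) =
      (K0 E / r) ^ 2 * (μ t (closedBall x (2 * r))).toReal := by
    rw [integral_indicator measurableSet_closedBall, setIntegral_const, smul_eq_mul, mul_comm]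
    rfl
  have h3 : (μ t (closedBall x (2 * r))).toReal ≤ A := by
    have := ENNReal.toReal_mono ENNReal.ofReal_ne_top hA
    rwa [ENNReal.toReal_ofReal hA0] at this
  have h4 : rhs (μ t) (cut x r) H ≤
      ∫ y, (closedBall x (2 * r)).indicator (fun _ => (K0 E / r) ^ 2) y ∂(μ t) := by
    unfold rhs
    by_cases hi : Integrable (fun y => -(cut x r y * ‖H y‖ ^ 2) + fderiv ℝ (cut x r) y (H y)) (μ t)
    · exact integral_mono hi hint fun y => cut_integrand x hr y (H y)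
    · rw [integral_undef hi]
      exact integral_nonneg fun y => indicator_nonneg (fun _ _ => sq_nonneg _) y
  rw [h2] at h4
  exact h4.trans (mul_le_mul_of_nonneg_left h3 (sq_nonneg _))

theorem upperDeriv_cut_le (hF : IsBrakkeFlow μ ν) {t : ℝ} (ht : 0 ≤ t) (x : E) {r A : ℝ}
    (hr : 0 < r) (hA0 : 0 ≤ A) (hA : μ t (closedBall x (2 * r)) ≤ ENNReal.ofReal A) :
    upperDeriv (mass μ (cut x r)) t ≤ (((K0 E / r) ^ 2 * A : ℝ) : EReal) := by
  refine (hF.ineq t ht _ (cut_test x hr)).trans ?_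
  refine iSup₂_le fun H _ => ?_
  exact_mod_cast rhs_cut_le H x hr hA0 hA

/-- uniform bound of the masses of a ball -/
theorem exists_mass_bound (hB : LocMass μ) (x : E) {r : ℝ} (hr : 0 < r) (T : ℝ) :
    ∃ A : ℝ, 0 ≤ A ∧ ∀ t, 0 ≤ t → t ≤ T → μ t (closedBall x (2 * r)) ≤ ENNReal.ofReal A := by
  obtain ⟨A, hA0, hA⟩ := hB (‖x‖ + 2 * r) T
  refine ⟨A, hA0, fun t h0 h1 => (measure_mono ?_).trans (hA t h0 h1)⟩
  intro y hy
  rw [mem_closedBall_zero_iff]
  have h1 : dist y x ≤ 2 * r := hy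
  rw [dist_eq_norm] at h1
  have h2 : ‖y‖ ≤ ‖y - x‖ + ‖x‖ := by
    have := norm_add_le (y - x) x; simpa using this
  linarith

/-- `c t - μ_t(cut)` is monotone on a time interval on which the mass bound holds -/
theorem monotone_cut (hF : IsBrakkeFlow μ ν) {a b : ℝ} (ha : 0 ≤ a) (x : E) {r A : ℝ} (hr : 0 < r)
    (hA0 : 0 ≤ A) (hA : ∀ t, 0 ≤ t → t ≤ b → μ t (closedBall x (2 * r)) ≤ ENNReal.ofReal A) :
    MonotoneOn (fun t => (K0 E / r) ^ 2 * A * t - mass μ (cut x r) t) (Icc a b) := by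
  intro s hs t ht hst
  have := sub_le_of_upperDeriv (f := mass μ (cut x r)) ha (C := (K0 E / r) ^ 2 * A)
    (fun u hu => upperDeriv_cut_le hF (ha.trans hu.1) x hr hA0 (hA u (ha.trans hu.1) hu.2))
    s hs t ht hst
  simp only
  linarith [mul_sub ((K0 E / r) ^ 2 * A) t s]

theorem ae_diff_cut (hF : IsBrakkeFlow μ ν) (hB : LocMass μ) (x : E) {r : ℝ}
    (hr : 0 < r) : ∀ᵐ t : ℝ, 0 < t → DifferentiableAt ℝ (mass μ (cut x r)) t := by
  have h : ∀ T : ℕ, ∀ᵐ t : ℝ, t ∈ Ioo (0:ℝ) T → DifferentiableAt ℝ (mass μ (cut x r)) t := by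
    intro T
    obtain ⟨A, hA0, hA⟩ := exists_mass_bound hB x hr (T:ℝ)
    have hm := monotone_cut hF le_rfl x hr hA0 hA
    filter_upwards [hm.ae_differentiableWithinAt_of_mem] with t ht htI
    have h1 := (ht ⟨htI.1.le, htI.2.le⟩).differentiableAt (Icc_mem_nhds htI.1 htI.2)
    have h2 : DifferentiableAt ℝ (fun t => (K0 E / r) ^ 2 * A * t -
        ((K0 E / r) ^ 2 * A * t - mass μ (cut x r) t)) t :=
      ((differentiableAt_id).const_mul _).sub h1
    simpa using h2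
  have h' := ae_all_iff.2 h
  filter_upwards [h'] with t ht h0
  obtain ⟨n, hn⟩ := exists_nat_gt t
  exact ht n ⟨h0, hn⟩

/-- At almost every time the mean curvature exists and is square integrable on every ball. -/
theorem ae_reg (hF : IsBrakkeFlow μ ν) (hB : LocMass μ) :
    ∀ᵐ t : ℝ, 0 < t → ∀ N : ℕ, ∃ H, Reg (μ t) (ν t) (ball 0 (N + 1)) H := by
  have h1 := ae_all_iff.2 fun N : ℕ => ae_diff_cut hF hB (0 : E) (r := N + 1) (by positivity)
  filter_upwards [h1] with t ht h0 N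
  have hd := (ht N h0).hasDerivAt
  have hu := upperDeriv_eq h0 hd
  have hle := hF.ineq t h0.le _ (cut_test (0:E) (r := N + 1) (by positivity))
  rw [hu] at hle
  have hne : ∃ H, IsMeanCurv (μ t) (ν t) {x | 0 < cut (0:E) (N + 1) x} H ∧
      Integrable (fun x => cut (0:E) (N + 1) x * ‖H x‖ ^ 2) (μ t) := by
    by_contra hc
    push Not at hc
    have hbot : brakkeB (μ t) (ν t) (cut (0:E) (N + 1)) = ⊥ := by
      unfold brakkeB
      rw [iSup_eq_bot]
      intro H
      rw [iSup_eq_bot]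
      intro hH
      exact absurd hH.2 (hc H hH.1)
    rw [hbot, le_bot_iff] at hle
    exact EReal.coe_ne_bot _ hle
  obtain ⟨H, hH1, hH2⟩ := hne
  have hsub : ball (0:E) ((N:ℝ) + 1) ⊆ {x | 0 < cut (0:E) ((N:ℝ) + 1) x} := by
    intro y hy
    show 0 < cut (0:E) ((N:ℝ) + 1) y
    rw [cut_eq_one (by positivity) (mem_ball.1 hy).le]; exact one_pos
  have hfinm := hF.finite t h0.le
  refine ⟨H, isOpen_ball, ?_, hH1.mono hsub, ?_⟩
  · exact (lt_of_le_of_lt (measure_mono ball_subset_closedBall)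
      (isCompact_closedBall (0:E) ((N:ℝ) + 1)).measure_lt_top).ne
  · have h3 : IntegrableOn (fun x => cut (0:E) ((N:ℝ) + 1) x * ‖H x‖ ^ 2)
        (ball (0:E) ((N:ℝ) + 1)) (μ t) := hH2.integrableOn
    refine h3.congr_fun (fun x hx => ?_) measurableSet_ball
    simp only
    rw [cut_eq_one (by positivity) (mem_ball.1 hx).le, one_mul]

/-- A good point has a product neighbourhood where lower bounds hold. -/
theorem good_nhd (hF : IsBrakkeFlow μ ν) (hB : LocMass μ) {p : E × ℝ}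
    (hp : GoodPt μ ν p) : ∃ ρ > 0, ρ ≤ 1 ∧ ∃ I : Set ℝ, IsOpen I ∧ p.2 ∈ I ∧
      ∀ᵐ t : ℝ, t ∈ I → 0 < t → ∀ (V : Set E) (H : E → E), Reg (μ t) (ν t) V H →
        closedBall p.1 (2 * ρ) ⊆ V → ∀ φ : E → ℝ, Test φ → tsupport φ ⊆ ball p.1 ρ →
          LB (mass μ φ) t (rhs (μ t) φ H) := by
  obtain ⟨U, hU, I, hI, hae⟩ := hp
  obtain ⟨ε, hε, hεU⟩ := Metric.mem_nhds_iff.1 hU
  obtain ⟨I', hI'I, hI'o, hI'p⟩ := _root_.mem_nhds_iff.1 hI
  refine ⟨min (ε / 3) 1, by positivity, min_le_right _ _, I', hI'o, hI'p, ?_⟩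
  set ρ := min (ε / 3) 1 with hρ
  have hρ0 : 0 < ρ := by positivity
  have hρε : ρ ≤ ε / 3 := min_le_left _ _
  have hsub : closedBall p.1 (2 * ρ) ⊆ U := (closedBall_subset_ball (by linarith)).trans hεU
  filter_upwards [hae, ae_diff_cut hF hB p.1 hρ0] with t ht hd htI h0 V H hR hV φ hφ hs
  have e1 : EqAt μ ν t (cut p.1 ρ) :=
    ht (hI'I htI) h0.le _ (cut_test _ hρ0) ((cut_tsupport hρ0).trans hsub)
  have hda := (hd h0).hasDerivAt
  unfold EqAt at e1
  rw [upperDeriv_eq h0 hda, hR.brakkeB_eq (cut_test _ hρ0) ((cut_tsupport hρ0).trans hV)] at e1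
  have e2 : deriv (mass μ (cut p.1 ρ)) t = rhs (μ t) (cut p.1 ρ) H := by exact_mod_cast e1
  rw [e2] at hda
  exact LB_below hF h0 hR hρ0 hV (LB_of_hasDerivAt hda) hφ hs

/-- `∫ g' ≤ g(β) - g(α)` for monotone `g`, as a lower integral -/
theorem lint_deriv {g : ℝ → ℝ} {α β : ℝ} (hαβ : α ≤ β) (hg : MonotoneOn g (Icc α β)) :
    ∫⁻ x in Ioo α β, ENNReal.ofReal (deriv g x) ≤ ENNReal.ofReal (g β - g α) := by
  have hg' : MonotoneOn g (uIcc α β) := by rwa [uIcc_of_le hαβ]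
  have hi := hg'.intervalIntegrable_deriv
  have hle := hg'.intervalIntegral_deriv_mem_uIcc
  have h0 : 0 ≤ g β - g α := sub_nonneg.2 (hg (left_mem_Icc.2 hαβ) (right_mem_Icc.2 hαβ) hαβ)
  rw [uIcc_of_le h0] at hle
  have hio : IntegrableOn (deriv g) (Ioo α β) :=
    ((intervalIntegrable_iff_integrableOn_Ioc_of_le hαβ).1 hi).mono_set Ioo_subset_Ioc_self
  have hnn : 0 ≤ᵐ[volume.restrict (Ioo α β)] deriv g := by
    rw [Filter.EventuallyLE, ae_restrict_iff' measurableSet_Ioo]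
    refine Eventually.of_forall fun x hx => ?_
    simp only [Pi.zero_apply]
    rw [← derivWithin_of_mem_nhds (Icc_mem_nhds hx.1 hx.2)]
    exact hg.derivWithin_nonneg
  rw [← ofReal_integral_eq_lintegral_ofReal hio hnn]
  apply ENNReal.ofReal_le_ofReal
  rw [intervalIntegral.integral_of_le hαβ, integral_Ioc_eq_integral_Ioo] at hle
  exact hle.2

/-- the defect of one cylinder -/
theorem lint_cyl {m : ℕ} (hF : IsBrakkeFlow μ ν) (hB : LocMass μ) {a b : ℝ} (ha : 0 ≤ a)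
    {R C : ℝ} (hC : ∀ t : ℝ, 0 ≤ t → t ≤ b → ∀ x : E, ‖x‖ ≤ R → ∀ r : ℝ, 0 < r → r ≤ R →
      μ t (ball x r) ≤ ENNReal.ofReal (C * r ^ m)) {x : E} {r : ℝ} (hx : ‖x‖ ≤ R)
    (hr : 0 < r) (hrR : 3 * r ≤ R) (t : ℝ) :
    ∫⁻ τ in Ioo a b ∩ Ioo (t - r ^ 2) (t + r ^ 2), ENNReal.ofReal
      ((K0 E / r) ^ 2 * (|C| * (3 * r) ^ m) - deriv (mass μ (cut x r)) τ) ≤
      ENNReal.ofReal ((2 * K0 E ^ 2 + 1) * |C| * 3 ^ m * r ^ m) := by
  set A := |C| * (3 * r) ^ m with hA
  have hA0 : 0 ≤ A := by positivity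
  set c := (K0 E / r) ^ 2 * A with hc
  have hb : ∀ s, 0 ≤ s → s ≤ b → μ s (closedBall x (2 * r)) ≤ ENNReal.ofReal A :=
    fun s h0 h1 => closedBall_bound (fun y hy u hu hu' => hC s h0 h1 y hy u hu hu') hx hr hrR
  rw [Ioo_inter_Ioo]
  set α := max a (t - r ^ 2) with hα
  set β := min b (t + r ^ 2) with hβ
  have hα0 : 0 ≤ α := ha.trans (le_max_left _ _)
  rcases lt_or_ge α β with hαβ | hαβ
  swap
  · rw [Ioo_eq_empty (not_lt.2 hαβ)]; simp
  have hm := monotone_cut hF (ha : 0 ≤ a) x hr hA0 hb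
  rw [← hc] at hm
  have hm' : MonotoneOn (fun t => c * t - mass μ (cut x r) t) (Icc α β) :=
    hm.mono (Icc_subset_Icc (le_max_left _ _) (min_le_left _ _))
  have h1 := lint_deriv hαβ.le hm'
  have h2 : ∫⁻ τ in Ioo α β, ENNReal.ofReal (c - deriv (mass μ (cut x r)) τ) =
      ∫⁻ τ in Ioo α β, ENNReal.ofReal (deriv (fun t => c * t - mass μ (cut x r) t) τ) := by
    apply lintegral_congr_ae
    rw [Filter.EventuallyEq, ae_restrict_iff' measurableSet_Ioo]
    filter_upwards [ae_diff_cut hF hB x hr] with τ hτ hτI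
    have hd := (hτ (lt_of_le_of_lt hα0 hτI.1)).hasDerivAt
    have hd2 : HasDerivAt (fun t => c * t - mass μ (cut x r) t)
        (c * 1 - deriv (mass μ (cut x r)) τ) τ := ((hasDerivAt_id τ).const_mul c).sub hd
    rw [hd2.deriv, mul_one]
  rw [h2]
  refine h1.trans (ENNReal.ofReal_le_ofReal ?_)
  have h3 : 0 ≤ mass μ (cut x r) β := integral_nonneg fun y => cut_nonneg _ _ _
  have hαb : α ≤ b := hαβ.le.trans (min_le_left _ _)
  have h4 : mass μ (cut x r) α ≤ A := by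
    have hfinm := hF.finite α hα0
    have hle : mass μ (cut x r) α ≤ ∫ y, (closedBall x (2 * r)).indicator (fun _ => (1:ℝ)) y ∂(μ α) := by
      apply integral_mono_of_nonneg (Eventually.of_forall fun y => cut_nonneg _ _ _)
      · rw [integrable_indicator_iff measurableSet_closedBall]
        exact integrableOn_const (isCompact_closedBall _ _).measure_lt_top.ne
      · refine Eventually.of_forall fun y => ?_
        simp only
        by_cases hy : y ∈ closedBall x (2 * r)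
        · rw [indicator_of_mem hy]; exact cut_le_one _ _ _
        · rw [indicator_of_notMem hy]
          rw [mem_closedBall, not_le] at hy
          exact (cut_eq_zero hr hy.le).le
    rw [integral_indicator measurableSet_closedBall, setIntegral_const, smul_eq_mul, mul_one] at hle
    refine hle.trans ?_
    have := ENNReal.toReal_mono ENNReal.ofReal_ne_top (hb α hα0 hαb)
    rwa [ENNReal.toReal_ofReal hA0] at this
  have h5 : β - α ≤ 2 * r ^ 2 := by
    have e1 : β ≤ t + r ^ 2 := min_le_right _ _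
    have e2 : t - r ^ 2 ≤ α := le_max_right _ _
    linarith
  have hc0 : 0 ≤ c := by positivity
  have h6 : c * (2 * r ^ 2) = 2 * K0 E ^ 2 * A := by
    rw [hc]; field_simp
  have h7 : c * (β - α) ≤ 2 * K0 E ^ 2 * A := by
    rw [← h6]; exact mul_le_mul_of_nonneg_left h5 hc0
  have h8 : (2 * K0 E ^ 2 + 1) * |C| * 3 ^ m * r ^ m = 2 * K0 E ^ 2 * A + A := by
    rw [hA, mul_pow]; ring
  rw [h8]
  nlinarith

end MP247
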